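import Mathlib
import Pool.Agent.Lib.MP_29a61e_co.Defs

/-!
# MP_29a61e_co, M(n) <= n/2 + o(n): common definitions

Ends, matchings of ends, signed cyclic words with a frame letter `oo`, heads (3-breaks), H1, H2.
-/

namespace Pool.Agent.Lib.MP29a61eN

/-- The ends of the letters: `(x, false)` is the left end `l(x)`, `(x, true)` the right end `r(x)`.
A signed letter of a word is identified with the end through which one leaves it when the word is
read from left to right (positive letter `x` = `(x, true)`). -/
abbrev End (X : Type) := X × Bool

variable {X : Type}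

/-- The other end of the same letter. -/
def bar (e : End X) : End X := (e.1, !e.2)

@[simp] theorem bar_bar (e : End X) : bar (bar e) = e := by simp [bar]
@[simp] theorem bar_fst (e : End X) : (bar e).1 = e.1 := rfl
@[simp] theorem bar_snd (e : End X) : (bar e).2 = !e.2 := rfl
theorem bar_ne (e : End X) : bar e ≠ e := by
  intro h
  have := congrArg Prod.snd h
  simp at this

/-- One step along the matching `μ`: leave a letter through `e`, enter the next letter at `μ e`,
leave it through `bar (μ e)`. -/
def phi (μ : End X → End X) (e : End X) : End X := bar (μ e)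

/-- `μ` is a perfect matching of the ends (its pairs are called links). -/
structure IsMatching (μ : End X → End X) : Prop where
  inv : ∀ e, μ (μ e) = e
  ne : ∀ e, μ e ≠ e

/-- Reversed signed word. -/
def srev (B : List (End X)) : List (End X) := (B.map bar).reverse

/-- A signed cut-and-paste move of a linear signed word. -/
def SMove (w w' : List (End X)) : Prop :=
  ∃ A B C U V : List (End X), B ≠ [] ∧ w = A ++ B ++ C ∧ A ++ C = U ++ V ∧
    (w' = U ++ B ++ V ∨ w' = U ++ srev B ++ V)

/-- `SSteps k w w'`: `k` signed moves. -/
def SSteps : ℕ → List (End X) → List (End X) → Prop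
  | 0, w, w' => w = w'
  | k + 1, w, w' => ∃ u, SMove w u ∧ SSteps k u w'

/-- A word: the linear signed word `w` (without the frame letter) contains every letter different
from `oo` exactly once. The corresponding cyclic word is `(oo, true) :: w`. -/
structure IsWord (oo : X) (w : List (End X)) : Prop where
  nodup : ((oo :: w.map Prod.fst)).Nodup
  full : ∀ x : X, x ∈ oo :: w.map Prod.fst

/-- The pairs of cyclically consecutive elements of a list. -/
def cyc {α : Type} (l : List α) : List (α × α) := l.zip (l.rotate 1)

/-- The number of links of the cyclic word `(oo, true) :: w` that are not links of `μ`. -/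
def bad [DecidableEq X] (oo : X) (μ : End X → End X) (w : List (End X)) : ℕ :=
  (cyc ((oo, true) :: w)).countP (fun p => decide (p.2 ≠ phi μ p.1))

/-- The partner of the end number `i` of a head after the 3-break (new links 1-2, 3-4, 5-0). -/
def newPartner (i : Fin 6) : Fin 6 := ![5, 2, 1, 4, 3, 0] i

/-- The partner of the end number `i` of a head before the 3-break (old links 0-1, 2-3, 4-5). -/
def oldPartner (i : Fin 6) : Fin 6 := ![1, 0, 3, 2, 5, 4] i

/-- `c` is a family of heads of the matching `μ`: all the six ends of all heads are different, and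
the links `c 0 - c 1`, `c 2 - c 3`, `c 4 - c 5` are links of `μ`. -/
structure IsHeads {K : Type} (μ : End X → End X) (c : K → Fin 6 → End X) : Prop where
  inj : ∀ k k' i i', c k i = c k' i' → k = k' ∧ i = i'
  old : ∀ k i, μ (c k i) = c k (oldPartner i)

open Classical in
/-- The matching `μ` with the heads of `D` switched. -/
noncomputable def switch {K : Type} (μ : End X → End X) (c : K → Fin 6 → End X) (D : Finset K) :
    End X → End X := fun e =>
  if h : ∃ p : K × Fin 6, p.1 ∈ D ∧ c p.1 p.2 = e then
    c h.choose.1 (newPartner h.choose.2) else μ e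

/-- No closed curve of at most `G` letters avoids `Def`. -/
def H1 (μ : End X → End X) (G : ℕ) (Def : Finset X) : Prop :=
  ∀ e : End X, ∀ k : ℕ, 1 ≤ k → k ≤ G → (phi μ)^[k] e = e → ∃ i < k, ((phi μ)^[i] e).1 ∈ Def

/-- Coherence of the heads outside `D` in the state with the heads of `D` switched: a path of at
most `L + 1` letters from the cut end `c k i` to the cut end `c k j` without cut link of the head
`k` inside, which avoids `Def`, has `j = i + 3`. -/
def H2 {K : Type} (μ : End X → End X) (c : K → Fin 6 → End X) (D : Finset K) (L : ℕ)
    (Def : Finset X) : Prop :=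
  ∀ k, k ∉ D → ∀ i j : Fin 6, ∀ t ≤ L,
    (phi (switch μ c D))^[t] (bar (c k i)) = c k j →
    (∀ s < t, ∀ l, (phi (switch μ c D))^[s] (bar (c k i)) ≠ c k l) →
    (∀ s ≤ t, ((phi (switch μ c D))^[s] (bar (c k i))).1 ∉ Def) → j = i + 3

/-- MACRO THEOREM (section 4 of HALF.md). -/
def SpecTS : Prop :=
  ∀ ε : ℝ, 0 < ε → ∃ (L G : ℕ) (γ : ℝ), 0 < γ ∧
    ∀ (X : Type) [Fintype X] [DecidableEq X] (oo : X) (K : Type) [Fintype K] [DecidableEq K]
      (μ : End X → End X) (c : K → Fin 6 → End X) (Def : Finset X),
      IsMatching μ → IsHeads μ c → oo ∈ Def → (Def.card : ℝ) ≤ γ * Fintype.card X →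
      (∀ D : Finset K, H1 (switch μ c D) G Def) →
      (∀ D : Finset K, H2 μ c D L Def) →
      ∀ w : List (End X), IsWord oo w →
        ∃ (w' : List (End X)) (k : ℕ), IsWord oo w' ∧ SSteps k w w' ∧
          (k : ℝ) ≤ Fintype.card K + bad oo μ w + ε * Fintype.card X ∧
          (bad oo (switch μ c Finset.univ) w' : ℝ) ≤ ε * Fintype.card X

/-- GREEDY DISTANCE (section 4, D): from any word `w` one reaches a word `w'` with at least the links of the
word `v` by as many moves as `v` has links that `w` does not have; here in the form needed at the
end: `v` is a word all of whose links but `k` are links of `w`. -/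
def SpecDist : Prop :=
  ∀ (X : Type) [Fintype X] [DecidableEq X] (oo : X) (μ : End X → End X) (w v : List (End X)),
    IsMatching μ → IsWord oo w → IsWord oo v →
    (∀ p ∈ cyc ((oo, true) :: v), p.2 = phi μ p.1) →
    ∃ k, k ≤ bad oo μ w ∧ SSteps k w v

end Pool.Agent.Lib.MP29a61eN
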