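import Mathlib

section
/-!
# MP_29a61e_co, M(n) <= n/2 + o(n): module BUILD, cutting the cycles of a permutation
-/
namespace Pool.Agent.Lib.MP29a61eN

/-- Every permutation has a set `Z` of at most `|X| / M` points such that every point reaches `Z` in
less than `2 M` steps or lies in a cycle of length at most `2 M`. -/
theorem cut {X : Type} [Fintype X] [DecidableEq X] (f : Equiv.Perm X) (M : ℕ) (hM : 1 ≤ M) :
    ∃ Z : Finset X, M * Z.card ≤ Fintype.card X ∧
      ∀ y, ∃ a < 2 * M, (f ^ a) y ∈ Z ∨ (f ^ (a + 1)) y = y := by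
  classical
  -- separated sets
  let Sep : Finset X → Prop := fun Z => ∀ z ∈ Z, ∀ z' ∈ Z, ∀ i < M, (f ^ i) z = z' → i = 0
  let A : Finset X := Finset.univ.filter (fun y => ∀ a < 2 * M, (f ^ (a + 1)) y ≠ y)
  obtain ⟨Z, hZ, hmax⟩ := Finset.exists_max_image
    ((Finset.univ : Finset (Finset X)).filter (fun Z => Z ⊆ A ∧ Sep Z)) Finset.card
    ⟨∅, by simp [Sep]⟩
  simp only [Finset.mem_filter, Finset.mem_univ, true_and] at hZ hmax
  obtain ⟨hZA, hsep⟩ := hZ
  refine ⟨Z, ?_, ?_⟩
  · have hinj : Set.InjOn (fun p : X × ℕ => (f ^ p.2) p.1) (Z ×ˢ Finset.range M : Finset (X × ℕ)) := by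
      have aux : ∀ z ∈ Z, ∀ z' ∈ Z, ∀ i < M, ∀ j < M, i ≤ j → (f ^ i) z = (f ^ j) z' →
          z = z' ∧ i = j := by
        intro z hz z' hz' i hi j hj hij h
        have h1 : (f ^ (j - i)) z' = z := by
          have h2 : (f ^ i) z = (f ^ i) ((f ^ (j - i)) z') := by
            rw [← Equiv.Perm.mul_apply, ← pow_add, show i + (j - i) = j by omega]
            exact h
          exact ((f ^ i).injective h2).symm
        have h3 := hsep z' hz' z hz (j - i) (by omega) h1
        have h4 : i = j := by omega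
        refine ⟨?_, h4⟩
        rw [h3] at h1
        simpa using h1.symm
      rintro ⟨z, i⟩ hp ⟨z', j⟩ hq h
      simp only [Finset.coe_product, Set.mem_prod, Finset.mem_coe, Finset.mem_range] at hp hq
      simp only at h
      rcases le_total i j with hij | hij
      · obtain ⟨e1, e2⟩ := aux z hp.1 z' hq.1 i hp.2 j hq.2 hij h
        rw [e1, e2]
      · obtain ⟨e1, e2⟩ := aux z' hq.1 z hp.1 j hq.2 i hp.2 hij h.symm
        rw [e1, e2]
    have h1 := Finset.card_le_card_of_injOn (t := (Finset.univ : Finset X))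
      (fun p : X × ℕ => (f ^ p.2) p.1) (fun _ _ => Finset.mem_univ _) hinj
    rw [Finset.card_product, Finset.card_range, Finset.card_univ] at h1
    rw [mul_comm]; exact h1
  · intro y
    by_contra hc
    push Not at hc
    have hyA : ∀ a < 2 * M, (f ^ (a + 1)) y ≠ y := fun a ha => (hc a ha).2
    have hnot : ∀ a < 2 * M, (f ^ a) y ∉ Z := fun a ha => (hc a ha).1
    set y' := (f ^ M) y with hy'
    have hy'A : y' ∈ A := by
      simp only [A, Finset.mem_filter, Finset.mem_univ, true_and]
      intro a ha h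
      apply hyA a ha
      apply (f ^ M).injective
      rw [← Equiv.Perm.mul_apply, ← pow_add, add_comm, pow_add, Equiv.Perm.mul_apply]
      exact h
    have hy'Z : y' ∉ Z := hnot M (by omega)
    have hsep' : Sep (insert y' Z) := by
      intro z hz z' hz' i hi h
      rcases Finset.mem_insert.1 hz with e | hz1
      · rcases Finset.mem_insert.1 hz' with e' | hz1'
        · by_contra h0
          have h2 := (Finset.mem_filter.1 hy'A).2 (i - 1) (by omega)
          rw [show i - 1 + 1 = i by omega] at h2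
          rw [e, e'] at h
          exact h2 h
        · exfalso
          have h2 : (f ^ (i + M)) y = z' := by
            rw [pow_add, Equiv.Perm.mul_apply, ← hy', ← e]; exact h
          exact hnot (i + M) (by omega) (h2 ▸ hz1')
      · rcases Finset.mem_insert.1 hz' with e' | hz1'
        · by_contra h0
          have h2 : z = (f ^ (M - i)) y := by
            apply (f ^ i).injective
            rw [← Equiv.Perm.mul_apply, ← pow_add, show i + (M - i) = M by omega, ← hy', ← e']
            exact h
          exact hnot (M - i) (by omega) (h2 ▸ hz1)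
        · exact hsep z hz1 z' hz1' i hi h
    have h3 := hmax (insert y' Z) ⟨Finset.insert_subset hy'A hZA, hsep'⟩
    rw [Finset.card_insert_of_notMem hy'Z] at h3
    omega

end Pool.Agent.Lib.MP29a61eN
end

section
/-!
# MP_29a61e_co: special edges with far ends

`adj` is a base relation, `L` a list of special edges (oldest first).  `Far adj L D`: the ends of
every special edge are not joined by a walk of length `≤ D` that uses base steps and older special
edges.  Then closed walks of length `≤ D` cross every special edge an even number of times, and if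
they cross one, they cross one twice with only base steps in between.
-/
namespace Pool.Agent.Lib.MP29a61eN.FAR

variable {V : Type*}

/-- One step: a base step (label `none`) or a crossing of the special edge number `i`. -/
def StepAt (adj : V → V → Prop) (L : List (V × V)) : Option ℕ → V → V → Prop
  | none, a, b => adj a b
  | some i, a, b => L[i]? = some (a, b) ∨ L[i]? = some (b, a)

/-- Walks with the list of their labels. -/
inductive W (adj : V → V → Prop) (L : List (V × V)) : V → List (Option ℕ) → V → Prop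
  | nil (a : V) : W adj L a [] a
  | cons {a b c : V} {o : Option ℕ} {l : List (Option ℕ)} :
      StepAt adj L o a b → W adj L b l c → W adj L a (o :: l) c

/-- The ends of every special edge are far apart in the older graph. -/
def Far (adj : V → V → Prop) (L : List (V × V)) (D : ℕ) : Prop :=
  ∀ (i : ℕ) (a b : V), L[i]? = some (a, b) → ∀ l : List (Option ℕ), l.length ≤ D →
    (∀ j, some j ∈ l → j < i) → ¬ W adj L a l b

variable {adj : V → V → Prop} {L : List (V × V)}

theorem W.append {a b c : V} {l l' : List (Option ℕ)} (h : W adj L a l b) (h' : W adj L b l' c) :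
    W adj L a (l ++ l') c := by
  induction h with
  | nil a => simpa using h'
  | cons s _ ih => exact W.cons s (ih h')

theorem W.split {l l' : List (Option ℕ)} : ∀ {a c : V}, W adj L a (l ++ l') c →
    ∃ b, W adj L a l b ∧ W adj L b l' c := by
  induction l with
  | nil => intro a c h; exact ⟨a, W.nil a, by simpa using h⟩
  | cons o l ih =>
    intro a c h
    cases h with
    | cons s h =>
      obtain ⟨b', h1, h2⟩ := ih h
      exact ⟨b', W.cons s h1, h2⟩

theorem W.uncons {o : Option ℕ} {l : List (Option ℕ)} {a c : V} (h : W adj L a (o :: l) c) :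
    ∃ b, StepAt adj L o a b ∧ W adj L b l c := by
  cases h with
  | cons s h => exact ⟨_, s, h⟩

theorem StepAt.symm (hs : ∀ a b, adj a b → adj b a) {o : Option ℕ} {a b : V}
    (h : StepAt adj L o a b) : StepAt adj L o b a := by
  cases o with
  | none => exact hs _ _ h
  | some i => exact Or.symm h

theorem W.reverse (hs : ∀ a b, adj a b → adj b a) {a b : V} {l : List (Option ℕ)}
    (h : W adj L a l b) : W adj L b l.reverse a := by
  induction h with
  | nil a => exact W.nil a
  | cons s _ ih =>
    rw [List.reverse_cons]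
    exact ih.append (W.cons (s.symm hs) (W.nil _))

theorem Far.ne {D : ℕ} (hF : Far adj L D) {i : ℕ} {a b : V} (h : L[i]? = some (a, b)) : a ≠ b := by
  intro e
  subst e
  exact hF i a a h [] (Nat.zero_le _) (by simp) (W.nil a)

/-- A walk between the two different ends of a special edge, over older edges, is long. -/
theorem Far.no_walk {D : ℕ} (hs : ∀ a b, adj a b → adj b a) (hF : Far adj L D) {i : ℕ} {u v : V}
    (h : StepAt adj L (some i) u v) {l : List (Option ℕ)} (hl : l.length ≤ D)
    (hj : ∀ j, some j ∈ l → j < i) : ¬ W adj L u l v := by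
  intro hw
  rcases h with h | h
  · exact hF i u v h l hl hj hw
  · exact hF i v u h l.reverse (by simpa using hl) (by simpa using hj) (hw.reverse hs)

theorem exists_max {l : List (Option ℕ)} (h : ∃ i, some i ∈ l) :
    ∃ i, some i ∈ l ∧ ∀ j, some j ∈ l → j ≤ i := by
  classical
  obtain ⟨i, hi⟩ := h
  set T := (l.filterMap id).toFinset with hT
  have hmem : ∀ j, j ∈ T ↔ some j ∈ l := by
    intro j
    simp [hT, List.mem_filterMap]
  have hne : T.Nonempty := ⟨i, (hmem i).2 hi⟩
  refine ⟨T.max' hne, (hmem _).1 (T.max'_mem hne), ?_⟩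
  intro j hj
  exact T.le_max' j ((hmem j).2 hj)

theorem first_split {α : Type*} {x : α} {l : List α} (h : x ∈ l) :
    ∃ l1 l2, l = l1 ++ x :: l2 ∧ x ∉ l1 := by
  classical
  induction l with
  | nil => simp at h
  | cons y l ih =>
    by_cases e : y = x
    · exact ⟨[], l, by simp [e], by simp⟩
    · have h' : x ∈ l := by
        rcases List.mem_cons.1 h with h | h
        · exact absurd h.symm e
        · exact h
      obtain ⟨l1, l2, h1, h2⟩ := ih h'
      refine ⟨y :: l1, l2, by simp [h1], ?_⟩
      intro h3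
      rcases List.mem_cons.1 h3 with h3 | h3
      · exact e h3.symm
      · exact h2 h3

/-- The youngest special edge of a short closed walk is crossed forth and back. -/
theorem excursion {D : ℕ} (hs : ∀ a b, adj a b → adj b a) (hF : Far adj L D) {a : V}
    {l : List (Option ℕ)} (hw : W adj L a l a) (hl : l.length ≤ D + 1) (hx : ∃ i, some i ∈ l) :
    ∃ (i : ℕ) (l1 m l2 : List (Option ℕ)) (u v : V), l = l1 ++ some i :: (m ++ some i :: l2) ∧
      StepAt adj L (some i) u v ∧ W adj L a l1 u ∧ W adj L v m v ∧ W adj L u l2 a ∧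
      (∀ j, some j ∈ l → j ≤ i) ∧ some i ∉ m ∧ some i ∉ l1 := by
  obtain ⟨i, hi, hmax⟩ := exists_max hx
  obtain ⟨l1, r, hl1, hn1⟩ := first_split hi
  subst hl1
  obtain ⟨u, hw1, hw2⟩ := hw.split
  obtain ⟨v, hst, hw3⟩ := hw2.uncons
  have hlt : ∀ {m : List (Option ℕ)}, (∀ o ∈ m, o ∈ l1 ++ some i :: r) → some i ∉ m →
      ∀ j, some j ∈ m → j < i := by
    intro m hm hnm j hj
    refine lt_of_le_of_ne (hmax j (hm _ hj)) ?_
    rintro rfl
    exact hnm hj
  by_cases hr : some i ∈ r
  · obtain ⟨m, l2, hr2, hnm⟩ := first_split hr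
    subst hr2
    obtain ⟨u', hm, hw4⟩ := hw3.split
    obtain ⟨v', hst', hw5⟩ := hw4.uncons
    have hlen : m.length ≤ D := by
      have := hl
      simp only [List.length_append, List.length_cons] at this
      omega
    have hmlt : ∀ j, some j ∈ m → j < i := hlt (fun o ho => by simp [ho]) hnm
    have huv : (u' = v ∧ v' = u) ∨ (u' = u ∧ v' = v) := by
      have key : ∀ {x y : V}, L[i]? = some (x, y) → ((u = x ∧ v = y) ∨ (u = y ∧ v = x)) →
          ((u' = x ∧ v' = y) ∨ (u' = y ∧ v' = x)) → (u' = v ∧ v' = u) ∨ (u' = u ∧ v' = v) := by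
        intro x y _ h1 h2
        rcases h1 with ⟨h1, h1'⟩ | ⟨h1, h1'⟩ <;> rcases h2 with ⟨h2, h2'⟩ | ⟨h2, h2'⟩ <;>
          subst h1 h1' h2 h2' <;> simp
      have pair : ∀ {p q : V}, StepAt adj L (some i) p q → ∀ {x y : V}, L[i]? = some (x, y) →
          ((p = x ∧ q = y) ∨ (p = y ∧ q = x)) := by
        intro p q h x y hxy
        rcases h with h | h
        · rw [hxy] at h
          simp only [Option.some.injEq, Prod.mk.injEq] at h
          exact Or.inl ⟨h.1.symm, h.2.symm⟩
        · rw [hxy] at h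
          simp only [Option.some.injEq, Prod.mk.injEq] at h
          exact Or.inr ⟨h.2.symm, h.1.symm⟩
      rcases hst with h | h
      · exact key h (Or.inl ⟨rfl, rfl⟩) (pair hst' h)
      · exact key h (Or.inr ⟨rfl, rfl⟩) (pair hst' h)
    rcases huv with ⟨e1, e2⟩ | ⟨e1, e2⟩
    · subst e1 e2
      exact ⟨i, l1, m, l2, v', u', rfl, hst, hw1, hm, hw5, hmax, hnm, hn1⟩
    · subst e1 e2
      exact absurd hm (hF.no_walk hs (hst.symm hs) hlen hmlt)
  · exfalso
    have hclosed : W adj L v (r ++ l1) u := hw3.append hw1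
    have hlen : (r ++ l1).length ≤ D := by
      have := hl
      simp only [List.length_append, List.length_cons] at this ⊢
      omega
    refine hF.no_walk hs (hst.symm hs) hlen (hlt ?_ ?_) hclosed
    · intro o ho
      rcases List.mem_append.1 ho with ho | ho
      · simp [ho]
      · simp [ho]
    · intro h
      rcases List.mem_append.1 h with h | h
      · exact hr h
      · exact hn1 h

/-- `T''`: short closed walks cross every special edge an even number of times. -/
theorem even_count {D : ℕ} (hs : ∀ a b, adj a b → adj b a) (hF : Far adj L D) (i : ℕ) :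
    ∀ (n : ℕ) (a : V) (l : List (Option ℕ)), l.length = n → W adj L a l a → l.length ≤ D + 1 →
      Even (l.count (some i)) := by
  classical
  intro n
  induction n using Nat.strong_induction_on with
  | _ n ih =>
  intro a l hn hw hl
  by_cases hx : ∃ i, some i ∈ l
  · obtain ⟨i0, l1, m, l2, u, v, rfl, _, h1, h2, h3, _, _, _⟩ := excursion hs hF hw hl hx
    simp only [List.length_append, List.length_cons] at hn hl
    have e1 := ih m.length (by omega) v m rfl h2 (by omega)
    have e2 := ih (l1 ++ l2).length (by simp only [List.length_append]; omega) a (l1 ++ l2) rfl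
      (h1.append h3) (by simp only [List.length_append]; omega)
    rw [List.count_append] at e2
    have : (l1 ++ some i0 :: (m ++ some i0 :: l2)).count (some i) =
        (l1.count (some i) + l2.count (some i)) + m.count (some i) +
          2 * (if i0 = i then 1 else 0) := by
      simp only [List.count_append, List.count_cons, beq_iff_eq, Option.some.injEq]
      ring
    rw [this]
    exact (e2.add e1).add (even_two_mul _)
  · have : l.count (some i) = 0 := by
      rw [List.count_eq_zero]
      intro h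
      exact hx ⟨i, h⟩
    rw [this]
    exact Even.zero

/-- `T'`: a short closed walk with a special crossing has two consecutive special crossings over
one edge (only base steps in between). -/
theorem consecutive {D : ℕ} (hs : ∀ a b, adj a b → adj b a) (hF : Far adj L D) :
    ∀ (n : ℕ) (a : V) (l : List (Option ℕ)), l.length = n → W adj L a l a → l.length ≤ D + 1 →
      (∃ i, some i ∈ l) →
      ∃ (i : ℕ) (l1 m l2 : List (Option ℕ)), l = l1 ++ some i :: (m ++ some i :: l2) ∧
        ∀ o ∈ m, o = none := by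
  intro n
  induction n using Nat.strong_induction_on with
  | _ n ih =>
  intro a l hn hw hl hx
  obtain ⟨i0, l1, m, l2, u, v, rfl, _, h1, h2, h3, _, _, _⟩ := excursion hs hF hw hl hx
  simp only [List.length_append, List.length_cons] at hn hl
  by_cases hm : ∃ i, some i ∈ m
  · obtain ⟨i, p, q, r, hm', hq⟩ := ih m.length (by omega) v m rfl h2 (by omega) hm
    refine ⟨i, l1 ++ some i0 :: p, q, r ++ some i0 :: l2, ?_, hq⟩
    rw [hm']
    simp
  · refine ⟨i0, l1, m, l2, rfl, ?_⟩
    intro o ho
    cases o with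
    | none => rfl
    | some j => exact absurd ⟨j, ho⟩ hm

/-- index form of `consecutive` -/
theorem consecutive_index {D : ℕ} (hs : ∀ a b, adj a b → adj b a) (hF : Far adj L D) {a : V}
    {l : List (Option ℕ)} (hw : W adj L a l a) (hl : l.length ≤ D + 1) (hx : ∃ i, some i ∈ l) :
    ∃ (i p q : ℕ), p < q ∧ l[p]? = some (some i) ∧ l[q]? = some (some i) ∧
      ∀ k, p < k → k < q → l[k]? = some none := by
  obtain ⟨i, l1, m, l2, rfl, hm⟩ := consecutive hs hF _ a l rfl hw hl hx
  refine ⟨i, l1.length, l1.length + 1 + m.length, by omega, ?_, ?_, ?_⟩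
  · simp
  · rw [List.getElem?_append_right (by omega)]
    have : l1.length + 1 + m.length - l1.length = m.length + 1 := by omega
    rw [this, List.getElem?_cons_succ, List.getElem?_append_right (le_refl _)]
    simp
  · intro k h1 h2
    rw [List.getElem?_append_right (by omega)]
    obtain ⟨j, rfl⟩ : ∃ j, k = l1.length + 1 + j := ⟨k - (l1.length + 1), by omega⟩
    have : l1.length + 1 + j - l1.length = j + 1 := by omega
    rw [this, List.getElem?_cons_succ, List.getElem?_append_left (by omega)]
    have hj : j < m.length := by omega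
    rw [List.getElem?_eq_getElem hj]
    rw [hm _ (List.getElem_mem hj)]

end Pool.Agent.Lib.MP29a61eN.FAR
end

section
/-!
# Equidistributed colourings (module COL)

For finitely many types of tuples (indexed by a finite set `ι`) of points of a finite set `V`, each point being in
boundedly many tuples, some colouring of `V` with a finite alphabet `A` makes every pattern of
colours occur about equally often along the tuples of each type.
-/
set_option linter.unusedSectionVars false

namespace Pool.Agent.Lib.MP29a61eN.Col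

open Finset

variable {V A : Type} [Fintype V] [DecidableEq V] [Fintype A] [DecidableEq A]

/-- exchange of two functions outside a set -/
def exch (T : Finset V) (p : (V → A) × (V → A)) : (V → A) × (V → A) :=
  (fun v => if v ∈ T then p.1 v else p.2 v, fun v => if v ∈ T then p.2 v else p.1 v)

omit [Fintype V] [Fintype A] [DecidableEq A] in
theorem exch_invol (T : Finset V) : Function.Involutive (exch (A := A) T) := by
  intro p
  rcases p with ⟨f, g⟩
  simp only [exch, Prod.mk.injEq]
  constructor
  · funext v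
    by_cases h : v ∈ T <;> simp [h]
  · funext v
    by_cases h : v ∈ T <;> simp [h]

/-- functions that depend on disjoint sets of coordinates are independent -/
theorem indep (T U : Finset V) (hTU : Disjoint T U) (X Y : (V → A) → ℝ)
    (hX : ∀ f g : V → A, (∀ v ∈ T, f v = g v) → X f = X g)
    (hY : ∀ f g : V → A, (∀ v ∈ U, f v = g v) → Y f = Y g) :
    (Fintype.card (V → A) : ℝ) * ∑ f : V → A, X f * Y f = (∑ f, X f) * ∑ f, Y f := by
  have h1 : (∑ f : V → A, X f) * ∑ f : V → A, Y f
      = ∑ p : (V → A) × (V → A), X p.1 * Y p.2 := by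
    rw [Fintype.sum_prod_type, Finset.sum_mul_sum]
  have h2 : (Fintype.card (V → A) : ℝ) * ∑ f : V → A, X f * Y f
      = ∑ p : (V → A) × (V → A), X p.1 * Y p.1 := by
    rw [Fintype.sum_prod_type, Finset.mul_sum]
    apply Finset.sum_congr rfl
    intro f _
    simp
  rw [h1, h2, ← Equiv.sum_comp (Function.Involutive.toPerm _ (exch_invol (A := A) T))
    (fun p : (V → A) × (V → A) => X p.1 * Y p.2)]
  apply Finset.sum_congr rfl
  rintro ⟨f, g⟩ _
  simp only [Function.Involutive.coe_toPerm, exch]
  congr 1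
  · apply hX
    intro v hv
    simp [hv]
  · apply hY
    intro v hv
    have : v ∉ T := fun h => (Finset.disjoint_left.mp hTU) h hv
    simp [this]

/-- number of functions with prescribed compatible values on a tuple -/
theorem card_prescribed {ι : Type} [Fintype ι] [DecidableEq ι] (S : ι → V) (κ : ι → A)
    (hκ : ∀ a b, S a = S b → κ a = κ b) :
    (univ.filter (fun f : V → A => f ∘ S = κ)).card * Fintype.card A ^ (univ.image S).card
      = Fintype.card (V → A) := by
  classical
  have hg : ∀ v : V, ∃ c : Finset A, (v ∈ univ.image S → c.card = 1) ∧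
      (v ∉ univ.image S → c = univ) ∧ ∀ a, S a = v → c = {κ a} := by
    intro v
    by_cases hv : v ∈ univ.image S
    · obtain ⟨a, _, ha⟩ := Finset.mem_image.mp hv
      refine ⟨{κ a}, fun _ => by simp, fun h => absurd hv h, ?_⟩
      intro b hb
      rw [hκ a b (by rw [ha, hb])]
    · refine ⟨univ, fun h => absurd h hv, fun _ => rfl, ?_⟩
      intro a ha
      exact absurd (Finset.mem_image.mpr ⟨a, Finset.mem_univ _, ha⟩) hv
  choose c h1 h2 h3 using hg
  have hset : univ.filter (fun f : V → A => f ∘ S = κ) = Fintype.piFinset c := by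
    ext f
    simp only [Finset.mem_filter, Finset.mem_univ, true_and, Fintype.mem_piFinset]
    constructor
    · intro hf v
      by_cases hv : v ∈ univ.image S
      · obtain ⟨a, _, ha⟩ := Finset.mem_image.mp hv
        rw [h3 v a ha, Finset.mem_singleton, ← hf]
        simp [ha]
      · rw [h2 v hv]
        exact Finset.mem_univ _
    · intro hf
      funext a
      have := hf (S a)
      rw [h3 (S a) a rfl, Finset.mem_singleton] at this
      simpa using this
  rw [hset, Fintype.card_piFinset]
  have hprod : ∏ v, (c v).card = ∏ v, (if v ∈ univ.image S then 1 else Fintype.card A) := by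
    apply Finset.prod_congr rfl
    intro v _
    by_cases hv : v ∈ univ.image S
    · rw [h1 v hv, if_pos hv]
    · rw [h2 v hv, if_neg hv, Finset.card_univ]
  rw [hprod]
  have hpow : Fintype.card A ^ (univ.image S).card
      = ∏ v, (if v ∈ univ.image S then Fintype.card A else 1) := by
    rw [Finset.prod_ite]
    simp
  rw [hpow, ← Finset.prod_mul_distrib, Fintype.card_fun]
  have : ∀ v : V, ((if v ∈ univ.image S then 1 else Fintype.card A) *
      (if v ∈ univ.image S then Fintype.card A else 1)) = Fintype.card A := by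
    intro v
    by_cases hv : v ∈ univ.image S
    · rw [if_pos hv, if_pos hv, one_mul]
    · rw [if_neg hv, if_neg hv, mul_one]
  simp only [this, Finset.prod_const, Finset.card_univ]


/-- indicator of a prescribed pattern, centred -/
noncomputable def dev {ι : Type} [Fintype ι] [DecidableEq ι] (S : ι → V) (κ : ι → A) (p : ℝ) (f : V → A) : ℝ :=
  (if f ∘ S = κ then 1 else 0) - p

/-- the probability of a pattern -/
noncomputable def prob {ι : Type} [Fintype ι] [DecidableEq ι] (S : ι → V) (κ : ι → A) : ℝ :=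
  if ∀ a b, S a = S b → κ a = κ b then
    (1 : ℝ) / (Fintype.card A : ℝ) ^ (univ.image S).card else 0

theorem prob_nonneg {ι : Type} [Fintype ι] [DecidableEq ι] (S : ι → V) (κ : ι → A) : 0 ≤ prob S κ := by
  unfold prob
  split_ifs
  · positivity
  · exact le_refl _

theorem prob_le_one [Nonempty A] {ι : Type} [Fintype ι] [DecidableEq ι] (S : ι → V) (κ : ι → A) : prob S κ ≤ 1 := by
  unfold prob
  split_ifs
  · rw [div_le_one (by have := Fintype.card_pos (α := A); positivity)]
    exact one_le_pow₀ (by exact_mod_cast Fintype.card_pos (α := A))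
  · norm_num

theorem sum_dev [Nonempty A] {ι : Type} [Fintype ι] [DecidableEq ι] (S : ι → V) (κ : ι → A) :
    ∑ f : V → A, dev S κ (prob S κ) f = 0 := by
  have hA : (0 : ℝ) < (Fintype.card A : ℝ) := by exact_mod_cast Fintype.card_pos (α := A)
  unfold dev
  rw [Finset.sum_sub_distrib, Finset.sum_boole, Finset.sum_const, Finset.card_univ, nsmul_eq_mul]
  by_cases h : ∀ a b, S a = S b → κ a = κ b
  · have h1 := card_prescribed S κ h
    have h2 : ((univ.filter (fun f : V → A => f ∘ S = κ)).card : ℝ)
        * (Fintype.card A : ℝ) ^ (univ.image S).card = (Fintype.card (V → A) : ℝ) := by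
      exact_mod_cast h1
    rw [prob, if_pos h, ← h2]
    have h3 : (Fintype.card A : ℝ) ^ (univ.image S).card ≠ 0 := by positivity
    field_simp
    ring
  · rw [prob, if_neg h]
    have : univ.filter (fun f : V → A => f ∘ S = κ) = ∅ := by
      rw [Finset.filter_eq_empty_iff]
      intro f _ hf
      apply h
      intro a b hab
      rw [← hf]
      simp [hab]
    rw [this]
    simp

theorem abs_dev_le [Nonempty A] {ι : Type} [Fintype ι] [DecidableEq ι] (S : ι → V) (κ : ι → A) (f : V → A) :
    |dev S κ (prob S κ) f| ≤ 1 := by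
  have h0 := prob_nonneg S κ
  have h1 := prob_le_one S κ
  unfold dev
  rw [abs_le]
  split_ifs <;> constructor <;> linarith

/-- sum of the products of two centred indicators -/
theorem sum_dev_mul [Nonempty A] {ι : Type} [Fintype ι] [DecidableEq ι] (S T : ι → V) (κ : ι → A) :
    ∑ f : V → A, dev S κ (prob S κ) f * dev T κ (prob T κ) f
      ≤ if Disjoint (univ.image S) (univ.image T) then 0 else (Fintype.card (V → A) : ℝ) := by
  split_ifs with h
  · have hM : (0 : ℝ) < (Fintype.card (V → A) : ℝ) := by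
      exact_mod_cast Fintype.card_pos (α := V → A)
    have h1 := indep (A := A) (univ.image S) (univ.image T) h
      (dev S κ (prob S κ)) (dev T κ (prob T κ)) (by
        intro f g hfg
        unfold dev
        have : f ∘ S = g ∘ S := by
          funext a
          exact hfg _ (Finset.mem_image.mpr ⟨a, Finset.mem_univ _, rfl⟩)
        rw [this]) (by
        intro f g hfg
        unfold dev
        have : f ∘ T = g ∘ T := by
          funext a
          exact hfg _ (Finset.mem_image.mpr ⟨a, Finset.mem_univ _, rfl⟩)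
        rw [this])
    rw [sum_dev, zero_mul] at h1
    rcases mul_eq_zero.mp h1 with h2 | h2
    · exact absurd h2 hM.ne'
    · exact h2.le
  · calc ∑ f : V → A, dev S κ (prob S κ) f * dev T κ (prob T κ) f
        ≤ ∑ _f : V → A, (1 : ℝ) := by
          apply Finset.sum_le_sum
          intro f _
          have h1 := abs_dev_le S κ f
          have h2 := abs_dev_le T κ f
          calc dev S κ (prob S κ) f * dev T κ (prob T κ) f
              ≤ |dev S κ (prob S κ) f * dev T κ (prob T κ) f| := le_abs_self _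
            _ = |dev S κ (prob S κ) f| * |dev T κ (prob T κ) f| := abs_mul _ _
            _ ≤ 1 * 1 := mul_le_mul h1 h2 (abs_nonneg _) (by norm_num)
            _ = 1 := by norm_num
      _ = (Fintype.card (V → A) : ℝ) := by simp

/-- number of dependent pairs -/
theorem card_dependent {ι : Type} [Fintype ι] [DecidableEq ι] {d : ℕ} {J : Type} [Fintype J] [DecidableEq J] (S : J → ι → V)
    (hd : ∀ v, (univ.filter (fun j => ∃ a, S j a = v)).card ≤ d) :
    (univ.filter (fun p : J × J => ¬ Disjoint (univ.image (S p.1)) (univ.image (S p.2)))).card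
      ≤ Fintype.card V * (d * d) := by
  classical
  have hsub : univ.filter (fun p : J × J => ¬ Disjoint (univ.image (S p.1)) (univ.image (S p.2)))
      ⊆ (univ : Finset V).biUnion (fun v =>
        (univ.filter (fun j => ∃ a, S j a = v)) ×ˢ (univ.filter (fun j => ∃ a, S j a = v))) := by
    intro p hp
    rw [Finset.mem_filter] at hp
    obtain ⟨v, hv1, hv2⟩ := Finset.not_disjoint_iff.mp hp.2
    obtain ⟨a, _, ha⟩ := Finset.mem_image.mp hv1
    obtain ⟨b, _, hb⟩ := Finset.mem_image.mp hv2
    rw [Finset.mem_biUnion]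
    refine ⟨v, Finset.mem_univ _, ?_⟩
    rw [Finset.mem_product, Finset.mem_filter, Finset.mem_filter]
    exact ⟨⟨Finset.mem_univ _, a, ha⟩, ⟨Finset.mem_univ _, b, hb⟩⟩
  refine (Finset.card_le_card hsub).trans ?_
  refine (Finset.card_biUnion_le).trans ?_
  calc ∑ v : V, ((univ.filter (fun j => ∃ a, S j a = v)) ×ˢ
        (univ.filter (fun j => ∃ a, S j a = v))).card
      ≤ ∑ _v : V, d * d := by
        apply Finset.sum_le_sum
        intro v _
        rw [Finset.card_product]
        exact Nat.mul_le_mul (hd v) (hd v)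
    _ = Fintype.card V * (d * d) := by simp

/-- second moment -/
theorem second_moment [Nonempty A] {ι : Type} [Fintype ι] [DecidableEq ι] {d : ℕ} {J : Type} [Fintype J] [DecidableEq J]
    (S : J → ι → V) (P : J → Prop) [DecidablePred P]
    (hd : ∀ v, (univ.filter (fun j => ∃ a, S j a = v)).card ≤ d) (κ : ι → A) :
    ∑ f : V → A, (∑ j ∈ univ.filter P, dev (S j) κ (prob (S j) κ) f) ^ 2
      ≤ (Fintype.card V : ℝ) * (d * d) * (Fintype.card (V → A) : ℝ) := by
  classical
  have h1 : ∀ f : V → A, (∑ j ∈ univ.filter P, dev (S j) κ (prob (S j) κ) f) ^ 2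
      = ∑ i ∈ univ.filter P, ∑ j ∈ univ.filter P,
        dev (S i) κ (prob (S i) κ) f * dev (S j) κ (prob (S j) κ) f := by
    intro f
    rw [sq, Finset.sum_mul_sum]
  have h2 : ∑ f : V → A, (∑ j ∈ univ.filter P, dev (S j) κ (prob (S j) κ) f) ^ 2
      = ∑ i ∈ univ.filter P, ∑ j ∈ univ.filter P, ∑ f : V → A,
        dev (S i) κ (prob (S i) κ) f * dev (S j) κ (prob (S j) κ) f := by
    rw [Finset.sum_congr rfl (fun f _ => h1 f), Finset.sum_comm]
    apply Finset.sum_congr rfl
    intro i _
    rw [Finset.sum_comm]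
  rw [h2]
  have hM : (0 : ℝ) ≤ (Fintype.card (V → A) : ℝ) := by positivity
  calc ∑ i ∈ univ.filter P, ∑ j ∈ univ.filter P, ∑ f : V → A,
        dev (S i) κ (prob (S i) κ) f * dev (S j) κ (prob (S j) κ) f
      ≤ ∑ i ∈ univ.filter P, ∑ j ∈ univ.filter P,
        (if Disjoint (univ.image (S i)) (univ.image (S j)) then 0
          else (Fintype.card (V → A) : ℝ)) := by
        apply Finset.sum_le_sum
        intro i _
        apply Finset.sum_le_sum
        intro j _
        exact sum_dev_mul (S i) (S j) κ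
    _ ≤ ∑ i : J, ∑ j : J,
        (if Disjoint (univ.image (S i)) (univ.image (S j)) then 0
          else (Fintype.card (V → A) : ℝ)) := by
        refine (Finset.sum_le_sum (fun i _ => Finset.sum_le_sum_of_subset_of_nonneg
          (Finset.filter_subset _ _) ?_)).trans
          (Finset.sum_le_sum_of_subset_of_nonneg (Finset.filter_subset _ _) ?_)
        · intro j _ _
          split_ifs
          · exact le_refl _
          · exact hM
        · intro i _ _
          apply Finset.sum_nonneg
          intro j _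
          split_ifs
          · exact le_refl _
          · exact hM
    _ = ∑ p : J × J, (if ¬ Disjoint (univ.image (S p.1)) (univ.image (S p.2)) then
          (Fintype.card (V → A) : ℝ) else 0) := by
        rw [Fintype.sum_prod_type]
        apply Finset.sum_congr rfl
        intro i _
        apply Finset.sum_congr rfl
        intro j _
        by_cases h : Disjoint (univ.image (S i)) (univ.image (S j))
        · simp [h]
        · simp [h]
    _ = ((univ.filter (fun p : J × J => ¬ Disjoint (univ.image (S p.1))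
          (univ.image (S p.2)))).card : ℝ) * (Fintype.card (V → A) : ℝ) := by
        rw [← Finset.sum_filter, Finset.sum_const, nsmul_eq_mul]
    _ ≤ (Fintype.card V : ℝ) * (d * d) * (Fintype.card (V → A) : ℝ) := by
        apply mul_le_mul_of_nonneg_right _ hM
        exact_mod_cast card_dependent S hd

/-- the equidistribution theorem -/
theorem equidist (ι : Type) [Fintype ι] [DecidableEq ι] (d : ℕ) (A : Type) [Fintype A] [DecidableEq A] [Nonempty A]
    (Θ : Type) [Fintype Θ] [DecidableEq Θ] (ε : ℝ) (hε : 0 < ε) :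
    ∃ n0 : ℕ, ∀ (V J : Type) [Fintype V] [DecidableEq V] [Fintype J] [DecidableEq J]
      (S : J → ι → V) (th : J → Θ),
      n0 ≤ Fintype.card V →
      (∀ v, (univ.filter (fun j => ∃ a, S j a = v)).card ≤ d) →
      ∃ f : V → A, ∀ (t : Θ) (κ : ι → A),
        |((univ.filter (fun j => th j = t ∧ f ∘ S j = κ)).card : ℝ)
          - ∑ j ∈ univ.filter (fun j => th j = t), prob (S j) κ| ≤ ε * Fintype.card V := by
  classical
  set C : ℝ := (Fintype.card Θ : ℝ) * (Fintype.card (ι → A) : ℝ) * (d * d) with hC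
  obtain ⟨n0, hn0⟩ := exists_nat_gt (C / ε ^ 2)
  refine ⟨n0, ?_⟩
  intro V J _ _ _ _ S th hV hd
  have hMpos : (0 : ℝ) < (Fintype.card (V → A) : ℝ) := by
    exact_mod_cast Fintype.card_pos (α := V → A)
  let F : (V → A) → ℝ := fun f => ∑ t : Θ, ∑ κ : ι → A,
    (∑ j ∈ univ.filter (fun j => th j = t), dev (S j) κ (prob (S j) κ) f) ^ 2
  have htot : ∑ f : V → A, F f ≤ ∑ _f : V → A, C * Fintype.card V := by
    have h1 : ∑ f : V → A, F f = ∑ t : Θ, ∑ κ : ι → A, ∑ f : V → A,
        (∑ j ∈ univ.filter (fun j => th j = t), dev (S j) κ (prob (S j) κ) f) ^ 2 := by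
      show ∑ f : V → A, ∑ t : Θ, ∑ κ : ι → A, _ = _
      rw [Finset.sum_comm]
      apply Finset.sum_congr rfl
      intro t _
      rw [Finset.sum_comm]
    rw [h1]
    calc ∑ t : Θ, ∑ κ : ι → A, ∑ f : V → A,
        (∑ j ∈ univ.filter (fun j => th j = t), dev (S j) κ (prob (S j) κ) f) ^ 2
        ≤ ∑ _t : Θ, ∑ _κ : ι → A,
          (Fintype.card V : ℝ) * (d * d) * (Fintype.card (V → A) : ℝ) := by
          apply Finset.sum_le_sum
          intro t _
          apply Finset.sum_le_sum
          intro κ _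
          exact second_moment S (fun j => th j = t) hd κ
      _ = ∑ _f : V → A, C * Fintype.card V := by
          simp only [Finset.sum_const, Finset.card_univ, nsmul_eq_mul]
          rw [hC]
          ring
  obtain ⟨f, _, hf⟩ := Finset.exists_le_of_sum_le (s := (univ : Finset (V → A)))
    ⟨Classical.arbitrary _, Finset.mem_univ _⟩ htot
  refine ⟨f, ?_⟩
  intro t κ
  have h1 : ((univ.filter (fun j => th j = t ∧ f ∘ S j = κ)).card : ℝ)
      - ∑ j ∈ univ.filter (fun j => th j = t), prob (S j) κ
      = ∑ j ∈ univ.filter (fun j => th j = t), dev (S j) κ (prob (S j) κ) f := by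
    unfold dev
    rw [Finset.sum_sub_distrib, Finset.sum_boole, Finset.filter_filter]
  rw [h1]
  have h2 : (∑ j ∈ univ.filter (fun j => th j = t), dev (S j) κ (prob (S j) κ) f) ^ 2 ≤ F f := by
    have h3 : (∑ j ∈ univ.filter (fun j => th j = t), dev (S j) κ (prob (S j) κ) f) ^ 2
        ≤ ∑ κ : ι → A,
        (∑ j ∈ univ.filter (fun j => th j = t), dev (S j) κ (prob (S j) κ) f) ^ 2 :=
      Finset.single_le_sum (f := fun κ : ι → A =>
        (∑ j ∈ univ.filter (fun j => th j = t), dev (S j) κ (prob (S j) κ) f) ^ 2)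
        (fun _ _ => sq_nonneg _) (Finset.mem_univ κ)
    refine h3.trans ?_
    exact Finset.single_le_sum (f := fun t : Θ => ∑ κ : ι → A,
        (∑ j ∈ univ.filter (fun j => th j = t), dev (S j) κ (prob (S j) κ) f) ^ 2)
        (fun _ _ => Finset.sum_nonneg (fun _ _ => sq_nonneg _)) (Finset.mem_univ t)
  have h4 : C * Fintype.card V ≤ (ε * Fintype.card V) ^ 2 := by
    have h5 : C / ε ^ 2 ≤ Fintype.card V := by
      have : (n0 : ℝ) ≤ Fintype.card V := by exact_mod_cast hV
      linarith
    rw [div_le_iff₀ (by positivity)] at h5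
    calc C * Fintype.card V ≤ (Fintype.card V * ε ^ 2) * Fintype.card V := by
          apply mul_le_mul_of_nonneg_right h5 (by positivity)
      _ = (ε * Fintype.card V) ^ 2 := by ring
  exact abs_le_of_sq_le_sq (h2.trans (hf.trans h4)) (by positivity)

/-- equal patterns: the probability depends only on the number of different points -/
theorem prob_eq {ι : Type} [Fintype ι] [DecidableEq ι] (S : ι → V) (κ : ι → A)
    (h : ∀ a b, S a = S b → κ a = κ b) :
    prob S κ = (1 : ℝ) / (Fintype.card A : ℝ) ^ (univ.image S).card := if_pos h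

theorem rank_eq {ι : Type} [Fintype ι] [DecidableEq ι] (S T : ι → V) (h : ∀ a b, S a = S b ↔ T a = T b) :
    (univ.image S).card = (univ.image T).card := by
  classical
  refine Finset.card_bij' (fun v _ => if hv : ∃ a, S a = v then T hv.choose else v)
    (fun v _ => if hv : ∃ a, T a = v then S hv.choose else v) ?_ ?_ ?_ ?_
  · intro v hv
    obtain ⟨a, _, ha⟩ := Finset.mem_image.mp hv
    have hv' : ∃ a, S a = v := ⟨a, ha⟩
    rw [dif_pos hv']
    exact Finset.mem_image.mpr ⟨_, Finset.mem_univ _, rfl⟩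
  · intro v hv
    obtain ⟨a, _, ha⟩ := Finset.mem_image.mp hv
    have hv' : ∃ a, T a = v := ⟨a, ha⟩
    rw [dif_pos hv']
    exact Finset.mem_image.mpr ⟨_, Finset.mem_univ _, rfl⟩
  · intro v hv
    obtain ⟨a, _, ha⟩ := Finset.mem_image.mp hv
    have hv' : ∃ a, S a = v := ⟨a, ha⟩
    simp only [dif_pos hv']
    have hw : ∃ b, T b = T hv'.choose := ⟨_, rfl⟩
    rw [dif_pos hw]
    have h1 := hw.choose_spec
    rw [← h] at h1
    rw [h1, hv'.choose_spec]
  · intro v hv
    obtain ⟨a, _, ha⟩ := Finset.mem_image.mp hv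
    have hv' : ∃ a, T a = v := ⟨a, ha⟩
    simp only [dif_pos hv']
    have hw : ∃ b, S b = S hv'.choose := ⟨_, rfl⟩
    rw [dif_pos hw]
    have h1 := hw.choose_spec
    rw [h] at h1
    rw [h1, hv'.choose_spec]

/-- the form used for the twins: types with a fixed coincidence pattern -/
theorem equidist_pattern (ι : Type) [Fintype ι] [DecidableEq ι] (d : ℕ) (A : Type) [Fintype A] [DecidableEq A] [Nonempty A]
    (Θ : Type) [Fintype Θ] [DecidableEq Θ] (ε : ℝ) (hε : 0 < ε) :
    ∃ n0 : ℕ, ∀ (V J : Type) [Fintype V] [DecidableEq V] [Fintype J] [DecidableEq J]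
      (S : J → ι → V) (th : J → Θ),
      n0 ≤ Fintype.card V →
      (∀ i j, th i = th j → ∀ a b, S i a = S i b ↔ S j a = S j b) →
      (∀ v, (univ.filter (fun j => ∃ a, S j a = v)).card ≤ d) →
      ∃ f : V → A, ∀ (j0 : J) (κ : ι → A),
        (∀ a b, S j0 a = S j0 b → κ a = κ b) →
        |((univ.filter (fun j => th j = th j0 ∧ f ∘ S j = κ)).card : ℝ)
          - ((univ.filter (fun j => th j = th j0)).card : ℝ)
            / (Fintype.card A : ℝ) ^ (univ.image (S j0)).card| ≤ ε * Fintype.card V := by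
  obtain ⟨n0, hn0⟩ := equidist ι d A Θ ε hε
  refine ⟨n0, ?_⟩
  intro V J _ _ _ _ S th hV hpat hd
  obtain ⟨f, hf⟩ := hn0 V J S th hV hd
  refine ⟨f, ?_⟩
  intro j0 κ hκ
  have h1 := hf (th j0) κ
  have h2 : ∑ j ∈ univ.filter (fun j => th j = th j0), prob (S j) κ
      = ((univ.filter (fun j => th j = th j0)).card : ℝ)
            / (Fintype.card A : ℝ) ^ (univ.image (S j0)).card := by
    have h3 : ∀ j ∈ univ.filter (fun j => th j = th j0), prob (S j) κ
        = (1 : ℝ) / (Fintype.card A : ℝ) ^ (univ.image (S j0)).card := by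
      intro j hj
      rw [Finset.mem_filter] at hj
      have hp := hpat j j0 hj.2
      rw [prob_eq (S j) κ (fun a b hab => hκ a b ((hp a b).mp hab)), rank_eq (S j) (S j0) hp]
    rw [Finset.sum_congr rfl h3, Finset.sum_const, nsmul_eq_mul]
    ring
  rw [h2] at h1
  exact h1

end Pool.Agent.Lib.MP29a61eN.Col
end

section
/-!
# Components of a partial permutation

`H` is a permutation of `X`, and one may go from `y` to `H y` only when `Y y` holds.  Every
component is `{j, H j, .., H ^ (len j - 1) j}` for a root `j = comp y`.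
-/
set_option linter.unusedSectionVars false

namespace Pool.Agent.Lib.MP29a61eN.Cmp

variable {X : Type} {H : Equiv.Perm X} {Y : X → Prop}

/-- `z` is reached from `y` -/
def Reach (H : Equiv.Perm X) (Y : X → Prop) (y z : X) : Prop :=
  ∃ a : ℕ, (∀ i < a, Y ((H ^ i) y)) ∧ (H ^ a) y = z

theorem Reach.refl (y : X) : Reach H Y y y := ⟨0, fun i hi => by omega, by simp⟩

theorem Reach.trans {x y z : X} (h : Reach H Y x y) (h' : Reach H Y y z) : Reach H Y x z := by
  obtain ⟨a, ha, rfl⟩ := h
  obtain ⟨c, hc, rfl⟩ := h'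
  refine ⟨c + a, ?_, ?_⟩
  · intro i hi
    by_cases h : i < a
    · exact ha i h
    · have := hc (i - a) (by omega)
      rw [← Equiv.Perm.mul_apply, ← pow_add] at this
      rwa [show i - a + a = i by omega] at this
  · rw [pow_add, Equiv.Perm.mul_apply]

theorem Reach.forward {x y z : X} (h : Reach H Y x y) (h' : Reach H Y x z) :
    Reach H Y y z ∨ Reach H Y z y := by
  obtain ⟨a, ha, rfl⟩ := h
  obtain ⟨c, hc, rfl⟩ := h'
  rcases le_total a c with h | h
  · left
    refine ⟨c - a, ?_, ?_⟩
    · intro i hi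
      rw [← Equiv.Perm.mul_apply, ← pow_add]
      exact hc _ (by omega)
    · rw [← Equiv.Perm.mul_apply, ← pow_add, show c - a + a = c by omega]
  · right
    refine ⟨a - c, ?_, ?_⟩
    · intro i hi
      rw [← Equiv.Perm.mul_apply, ← pow_add]
      exact ha _ (by omega)
    · rw [← Equiv.Perm.mul_apply, ← pow_add, show a - c + c = a by omega]

theorem Reach.backward {x y z : X} (h : Reach H Y y x) (h' : Reach H Y z x) :
    Reach H Y y z ∨ Reach H Y z y := by
  obtain ⟨a, ha, hax⟩ := h
  obtain ⟨c, hc, hcx⟩ := h'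
  rcases le_total a c with h | h
  · right
    have hy : (H ^ (c - a)) z = y := by
      apply (H ^ a).injective
      rw [← Equiv.Perm.mul_apply, ← pow_add, show a + (c - a) = c by omega, hcx, hax]
    exact ⟨c - a, fun i hi => hc i (by omega), hy⟩
  · left
    have hz : (H ^ (a - c)) y = z := by
      apply (H ^ c).injective
      rw [← Equiv.Perm.mul_apply, ← pow_add, show c + (a - c) = a by omega, hax, hcx]
    exact ⟨a - c, fun i hi => ha i (by omega), hz⟩

/-- the component relation -/
def compSetoid (H : Equiv.Perm X) (Y : X → Prop) : Setoid X where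
  r y z := Reach H Y y z ∨ Reach H Y z y
  iseqv :=
    { refl := fun y => Or.inl (Reach.refl y)
      symm := fun h => h.symm
      trans := by
        intro x y z h h'
        rcases h with h | h
        · rcases h' with h' | h'
          · exact Or.inl (h.trans h')
          · exact Reach.backward h h'
        · rcases h' with h' | h'
          · exact Reach.forward h h'
          · exact Or.inr (h'.trans h) }

/-- a good root -/
def Good (H : Equiv.Perm X) (Y : X → Prop) (j : X) : Prop := ∀ z, Reach H Y z j → Reach H Y j z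

theorem exists_good [Finite X] (y : X) : ∃ j, Reach H Y j y ∧ Good H Y j := by
  classical
  by_cases h : ∃ a : ℕ, ¬ Y ((H ^ (a + 1)).symm y)
  · set a := Nat.find h with ha
    have h1 : ¬ Y ((H ^ (a + 1)).symm y) := Nat.find_spec h
    have h2 : ∀ i < a, Y ((H ^ (i + 1)).symm y) := by
      intro i hi
      have := Nat.find_min h hi
      simpa using this
    refine ⟨(H ^ a).symm y, ⟨a, ?_, by simp⟩, ?_⟩
    · intro i hi
      have h3 := h2 (a - i - 1) (by omega)
      have h4 : (H ^ (a - i - 1 + 1)).symm y = (H ^ i) ((H ^ a).symm y) := by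
        rw [Equiv.symm_apply_eq, ← Equiv.Perm.mul_apply, ← pow_add,
          show a - i - 1 + 1 + i = a by omega]
        simp
      rwa [h4] at h3
    · intro z hz
      obtain ⟨c, hc, hcz⟩ := hz
      cases c with
      | zero => simp at hcz; rw [hcz]; exact Reach.refl _
      | succ c =>
        exfalso
        apply h1
        have h3 := hc c (by omega)
        have h4 : (H ^ c) z = (H ^ (a + 1)).symm y := by
          rw [Equiv.eq_symm_apply, ← Equiv.Perm.mul_apply, ← pow_add,
            show a + 1 + c = a + (c + 1) by omega, pow_add, Equiv.Perm.mul_apply, hcz]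
          simp
        rwa [h4] at h3
  · push Not at h
    refine ⟨y, Reach.refl y, ?_⟩
    intro z hz
    obtain ⟨c, hc, hcz⟩ := hz
    -- everything before y satisfies Y; H has finite order
    have hord : ∃ n, 0 < n ∧ H ^ n = 1 := by
      have := isOfFinOrder_of_finite H
      rw [isOfFinOrder_iff_pow_eq_one] at this
      exact this
    obtain ⟨n, hn, hHn⟩ := hord
    have hall : ∀ i : ℕ, Y ((H ^ i) y) := by
      intro i
      -- H ^ i y = (H ^ (n * (i+1) - i)).symm y
      have h1 : (H ^ i) y = (H ^ ((n * (i + 1) - i - 1) + 1)).symm y := by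
        rw [Equiv.eq_symm_apply, ← Equiv.Perm.mul_apply, ← pow_add]
        have h2 : n * (i + 1) ≥ i + 1 := Nat.le_mul_of_pos_left _ hn
        rw [show n * (i + 1) - i - 1 + 1 + i = n * (i + 1) by omega, pow_mul, hHn]
        simp
      rw [h1]
      exact h _
    -- z = H^k y
    have h2 : n * (c + 1) ≥ c + 1 := Nat.le_mul_of_pos_left _ hn
    refine ⟨n * (c + 1) - c, fun i _ => hall i, ?_⟩
    rw [← hcz, ← Equiv.Perm.mul_apply, ← pow_add,
      show n * (c + 1) - c + c = n * (c + 1) by omega, pow_mul, hHn]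
    simp

/-- a good letter from which `x` is reached -/
noncomputable def rootOf [Finite X] (H : Equiv.Perm X) (Y : X → Prop) (x : X) : X :=
  Classical.choose (exists_good (H := H) (Y := Y) x)

/-- the root of a component -/
noncomputable def comp [Finite X] (H : Equiv.Perm X) (Y : X → Prop) (y : X) : X :=
  rootOf H Y (@Quotient.out X (compSetoid H Y) (@Quotient.mk X (compSetoid H Y) y))

theorem comp_eq_of_rel [Finite X] {y z : X} (h : (compSetoid H Y).r y z) :
    comp H Y y = comp H Y z := by
  unfold comp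
  have : (@Quotient.mk X (compSetoid H Y) y) = (@Quotient.mk X (compSetoid H Y) z) :=
    Quotient.sound h
  rw [this]

theorem comp_spec [Finite X] (y : X) : Reach H Y (comp H Y y) y ∧ Good H Y (comp H Y y) := by
  have h := Classical.choose_spec (exists_good (H := H) (Y := Y) (@Quotient.out X (compSetoid H Y)
    (@Quotient.mk X (compSetoid H Y) y)))
  have h1 : Reach H Y (comp H Y y) (@Quotient.out X (compSetoid H Y)
    (@Quotient.mk X (compSetoid H Y) y)) := h.1
  have hg : Good H Y (comp H Y y) := h.2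
  have h2 : (compSetoid H Y).r (@Quotient.out X (compSetoid H Y)
    (@Quotient.mk X (compSetoid H Y) y)) y := @Quotient.mk_out X (compSetoid H Y) y
  have h3 : (compSetoid H Y).r (comp H Y y) y :=
    (compSetoid H Y).iseqv.trans (Or.inl h1) h2
  refine ⟨?_, hg⟩
  rcases h3 with h3 | h3
  · exact h3
  · exact hg _ h3

theorem comp_comp [Finite X] (y : X) : comp H Y (comp H Y y) = comp H Y y :=
  comp_eq_of_rel (Or.inl (comp_spec y).1)

theorem comp_H [Finite X] {y : X} (hy : Y y) : comp H Y (H y) = comp H Y y := by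
  symm
  apply comp_eq_of_rel
  left
  refine ⟨1, ?_, by simp⟩
  intro i hi
  have : i = 0 := by omega
  subst this
  simpa using hy

theorem comp_reach [Finite X] {y z : X} (h : Reach H Y y z) : comp H Y y = comp H Y z :=
  comp_eq_of_rel (Or.inl h)

section len

variable {m : ℕ} (hH : ∀ y, ∃ a, a < m ∧ (¬ Y ((H ^ a) y) ∨ (H ^ (a + 1)) y = y))

open Classical in
/-- number of letters reached from `y` -/
noncomputable def len (hH : ∀ y, ∃ a, a < m ∧ (¬ Y ((H ^ a) y) ∨ (H ^ (a + 1)) y = y)) (y : X) :
    ℕ := Nat.find (hH y) + 1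

theorem len_le (y : X) : len hH y ≤ m := by
  classical
  have := (Nat.find_spec (hH y)).1
  unfold len
  exact Nat.succ_le_of_lt this

theorem len_pos (y : X) : 0 < len hH y := by
  unfold len; omega

theorem len_spec (y : X) :
    ¬ Y ((H ^ (len hH y - 1)) y) ∨ (H ^ (len hH y)) y = y := by
  classical
  have := (Nat.find_spec (hH y)).2
  unfold len
  simpa using this

theorem len_min {y : X} {i : ℕ} (hi : i + 1 < len hH y) :
    Y ((H ^ i) y) ∧ (H ^ (i + 1)) y ≠ y := by
  classical
  have h1 : i < Nat.find (hH y) := by unfold len at hi; omega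
  have h2 := Nat.find_min (hH y) h1
  have h3 := (Nat.find_spec (hH y)).1
  push Not at h2
  exact h2 (by omega)

theorem len_inj {y : X} {i i' : ℕ} (hi : i < len hH y) (hi' : i' < len hH y)
    (h : (H ^ i) y = (H ^ i') y) : i = i' := by
  by_contra hne
  rcases Nat.lt_or_gt_of_ne hne with hlt | hlt
  · have h1 : (H ^ (i' - i)) y = y := by
      apply (H ^ i).injective
      rw [← Equiv.Perm.mul_apply, ← pow_add, show i + (i' - i) = i' by omega, h]
    have h2 := (len_min hH (y := y) (i := i' - i - 1) (by omega)).2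
    rw [show i' - i - 1 + 1 = i' - i by omega] at h2
    exact h2 h1
  · have h1 : (H ^ (i - i')) y = y := by
      apply (H ^ i').injective
      rw [← Equiv.Perm.mul_apply, ← pow_add, show i' + (i - i') = i by omega, h]
    have h2 := (len_min hH (y := y) (i := i - i' - 1) (by omega)).2
    rw [show i - i' - 1 + 1 = i - i' by omega] at h2
    exact h2 h1

theorem reach_of_lt {y : X} {i : ℕ} (hi : i < len hH y) : Reach H Y y ((H ^ i) y) :=
  ⟨i, fun i' hi' => (len_min hH (y := y) (i := i') (by omega)).1, rfl⟩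

theorem lt_of_reach {y z : X} (h : Reach H Y y z) : ∃ i, i < len hH y ∧ (H ^ i) y = z := by
  obtain ⟨a, ha, hz⟩ := h
  induction a using Nat.strong_induction_on with
  | _ a ih =>
    by_cases h : a < len hH y
    · exact ⟨a, h, hz⟩
    · have hl := len_pos hH y
      have h1 := len_spec hH y
      rcases h1 with h1 | h1
      · exact absurd (ha _ (by omega)) h1
      · refine ih (a - len hH y) (by omega) (fun i hi => ha i (by omega)) ?_
        rw [← hz]
        conv_rhs => rw [show a = (a - len hH y) + len hH y by omega, pow_add,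
          Equiv.Perm.mul_apply, h1]

/-- the index of a letter in its component -/
noncomputable def idx [Finite X]
    (hH : ∀ y, ∃ a, a < m ∧ (¬ Y ((H ^ a) y) ∨ (H ^ (a + 1)) y = y)) (y : X) : ℕ :=
  Classical.choose (lt_of_reach hH (comp_spec (H := H) (Y := Y) y).1)

theorem idx_lt [Finite X] (y : X) : idx hH y < len hH (comp H Y y) :=
  (Classical.choose_spec (lt_of_reach hH (comp_spec (H := H) (Y := Y) y).1)).1

theorem idx_spec [Finite X] (y : X) : (H ^ idx hH y) (comp H Y y) = y :=
  (Classical.choose_spec (lt_of_reach hH (comp_spec (H := H) (Y := Y) y).1)).2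

theorem comp_pow [Finite X] {j : X} (hj : comp H Y j = j) {a : ℕ} (ha : a < len hH j) :
    comp H Y ((H ^ a) j) = j := by
  rw [← comp_reach (reach_of_lt hH ha), hj]

theorem idx_pow [Finite X] {j : X} (hj : comp H Y j = j) {a : ℕ} (ha : a < len hH j) :
    idx hH ((H ^ a) j) = a := by
  have h1 := idx_lt hH ((H ^ a) j)
  have h2 := idx_spec hH ((H ^ a) j)
  rw [comp_pow hH hj ha] at h1 h2
  exact len_inj hH h1 ha h2

theorem cycle_of_pred [Finite X] {j : X} (hj : comp H Y j = j) (h : Y (H.symm j)) :
    Y ((H ^ (len hH j - 1)) j) ∧ (H ^ (len hH j)) j = j := by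
  have hg : Good H Y j := by
    have := (comp_spec (H := H) (Y := Y) j).2
    rwa [hj] at this
  have h1 : Reach H Y (H.symm j) j := ⟨1, by
    intro i hi
    have : i = 0 := by omega
    subst this
    simpa using h, by simp⟩
  obtain ⟨i, hi, hij⟩ := lt_of_reach hH (hg _ h1)
  have h2 : (H ^ (i + 1)) j = j := by
    rw [show i + 1 = 1 + i by omega, pow_add, Equiv.Perm.mul_apply, hij]
    simp
  have h3 : i + 1 = len hH j := by
    by_contra hne
    exact (len_min hH (y := j) (i := i) (by omega)).2 h2
  rw [← h3]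
  refine ⟨?_, h2⟩
  rw [show i + 1 - 1 = i by omega, hij]
  exact h

theorem pred_of_cycle {j : X} (h : Y ((H ^ (len hH j - 1)) j)) : Y (H.symm j) := by
  have hl := len_pos hH j
  rcases len_spec hH j with h1 | h1
  · exact absurd h h1
  · have h2 : H.symm j = (H ^ (len hH j - 1)) j := by
      rw [Equiv.symm_apply_eq, ← Equiv.Perm.mul_apply, ← pow_succ',
        show len hH j - 1 + 1 = len hH j by omega, h1]
    rw [h2]
    exact h

theorem cycle_eq {j : X} (h : Y ((H ^ (len hH j - 1)) j)) : (H ^ (len hH j)) j = j := by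
  rcases len_spec hH j with h1 | h1
  · exact absurd h h1
  · exact h1

include hH in
/-- a component has at most `m` letters -/
theorem card_comp_le [Fintype X] [DecidableEq X] (a : X) :
    (Finset.univ.filter (fun y => comp H Y y = a)).card ≤ m := by
  classical
  have hsub : Finset.univ.filter (fun y => comp H Y y = a)
      ⊆ (Finset.range m).image (fun i => (H ^ i) a) := by
    intro y hy
    rw [Finset.mem_filter] at hy
    rw [Finset.mem_image]
    refine ⟨idx hH y, ?_, ?_⟩
    · rw [Finset.mem_range]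
      exact (idx_lt hH y).trans_le (len_le hH _)
    · rw [← hy.2]
      exact idx_spec hH y
  refine (Finset.card_le_card hsub).trans ?_
  refine Finset.card_image_le.trans ?_
  simp

end len

end Pool.Agent.Lib.MP29a61eN.Cmp
end

section
/-!
# MP_29a61e_co: many columns with three far positions contain a monotone separated family
-/
namespace Pool.Agent.Lib.MP29a61eN.Dyadic

variable {ι : Type*}

/-- Erdoes-Szekeres (with a weak bound). -/
theorem es (f g : ι → ℕ) : ∀ (a b : ℕ) (S : Finset ι), Set.InjOn f S → Set.InjOn g S →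
    2 ^ (a + b) ≤ S.card →
    (∃ T ⊆ S, T.card = a ∧ ∀ i ∈ T, ∀ j ∈ T, f i < f j → g i < g j) ∨
    (∃ T ⊆ S, T.card = b ∧ ∀ i ∈ T, ∀ j ∈ T, f i < f j → g j < g i) := by
  classical
  intro a b
  induction h : a + b using Nat.strong_induction_on generalizing a b with
  | _ n ih =>
  intro S hf hg hS
  rcases Nat.eq_zero_or_pos a with rfl | ha
  · exact Or.inl ⟨∅, by simp, by simp, by simp⟩
  rcases Nat.eq_zero_or_pos b with rfl | hb
  · exact Or.inr ⟨∅, by simp, by simp, by simp⟩
  have hne : S.Nonempty := by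
    rw [← Finset.card_pos]; exact lt_of_lt_of_le (by positivity) hS
  obtain ⟨i0, hi0, hmin⟩ := Finset.exists_min_image S f hne
  have hlt : ∀ i ∈ S, i ≠ i0 → f i0 < f i := fun i hi hne =>
    lt_of_le_of_ne (hmin i hi) (fun e => hne (hf hi hi0 e.symm))
  set S1 := S.filter (fun i => g i0 < g i) with hS1
  set S2 := S.filter (fun i => g i < g i0) with hS2
  have hcard : S.card ≤ S1.card + S2.card + 1 := by
    have hsub : S ⊆ insert i0 (S1 ∪ S2) := by
      intro i hi
      by_cases e : i = i0
      · simp [e]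
      · rcases lt_trichotomy (g i0) (g i) with h1 | h1 | h1
        · simp [hS1, hi, h1]
        · exact absurd (hg hi hi0 h1.symm) e
        · simp [hS2, hi, h1]
    calc S.card ≤ (insert i0 (S1 ∪ S2)).card := Finset.card_le_card hsub
      _ ≤ (S1 ∪ S2).card + 1 := Finset.card_insert_le _ _
      _ ≤ S1.card + S2.card + 1 := by
        have := Finset.card_union_le S1 S2
        omega
  have hpow : 2 ^ n = 2 * 2 ^ (n - 1) := by
    have : n = (n - 1) + 1 := by omega
    rw [this, pow_succ]; simp; ring
  have hsub1 : S1 ⊆ S := Finset.filter_subset _ _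
  have hsub2 : S2 ⊆ S := Finset.filter_subset _ _
  have h12 : 2 ^ (n - 1) ≤ S1.card ∨ 2 ^ (n - 1) ≤ S2.card := by
    by_contra hc
    push Not at hc
    omega
  rcases h12 with h1 | h1
  · have := ih (n - 1) (by omega) (a - 1) b (by omega) S1 (hf.mono (by simpa using hsub1))
      (hg.mono (by simpa using hsub1)) h1
    rcases this with ⟨T, hT, hc, hm⟩ | ⟨T, hT, hc, hm⟩
    · left
      have hi0T : i0 ∉ T := fun hh => by
        have := hT hh
        simp [hS1] at this
      refine ⟨insert i0 T, ?_, ?_, ?_⟩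
      · intro i hi
        rcases Finset.mem_insert.1 hi with rfl | hi
        · exact hi0
        · exact hsub1 (hT hi)
      · rw [Finset.card_insert_of_notMem hi0T, hc]; omega
      · intro i hi j hj hij
        rcases Finset.mem_insert.1 hi with hi' | hi'
        · rcases Finset.mem_insert.1 hj with hj' | hj'
          · rw [hi', hj'] at hij
            exact absurd hij (lt_irrefl _)
          · have := hT hj'
            simp only [hS1, Finset.mem_filter] at this
            rw [hi']
            exact this.2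
        · rcases Finset.mem_insert.1 hj with hj' | hj'
          · rw [hj'] at hij
            exact absurd (hmin i (hsub1 (hT hi'))) (by omega)
          · exact hm i hi' j hj' hij
    · right
      exact ⟨T, hT.trans hsub1, hc, hm⟩
  · have := ih (n - 1) (by omega) a (b - 1) (by omega) S2 (hf.mono (by simpa using hsub2))
      (hg.mono (by simpa using hsub2)) h1
    rcases this with ⟨T, hT, hc, hm⟩ | ⟨T, hT, hc, hm⟩
    · left
      exact ⟨T, hT.trans hsub2, hc, hm⟩
    · right
      have hi0T : i0 ∉ T := fun hh => by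
        have := hT hh
        simp [hS2] at this
      refine ⟨insert i0 T, ?_, ?_, ?_⟩
      · intro i hi
        rcases Finset.mem_insert.1 hi with rfl | hi
        · exact hi0
        · exact hsub2 (hT hi)
      · rw [Finset.card_insert_of_notMem hi0T, hc]; omega
      · intro i hi j hj hij
        rcases Finset.mem_insert.1 hi with hi' | hi'
        · rcases Finset.mem_insert.1 hj with hj' | hj'
          · rw [hi', hj'] at hij
            exact absurd hij (lt_irrefl _)
          · have := hT hj'
            simp only [hS2, Finset.mem_filter] at this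
            rw [hi']
            exact this.2
        · rcases Finset.mem_insert.1 hj with hj' | hj'
          · rw [hj'] at hij
            exact absurd (hmin i (hsub2 (hT hi'))) (by omega)
          · exact hm i hi' j hj' hij

/-- `g` is monotone or antitone with respect to the order given by `f` on `T`. -/
def Rel (f g : ι → ℕ) (T : Finset ι) : Prop :=
  (∀ i ∈ T, ∀ j ∈ T, f i < f j → g i < g j) ∨ (∀ i ∈ T, ∀ j ∈ T, f i < f j → g j < g i)

theorem Rel.mono {f g : ι → ℕ} {T T' : Finset ι} (h : Rel f g T) (hT : T' ⊆ T) : Rel f g T' := by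
  rcases h with h | h
  · exact Or.inl fun i hi j hj => h i (hT hi) j (hT hj)
  · exact Or.inr fun i hi j hj => h i (hT hi) j (hT hj)

theorem es_rel (f g : ι → ℕ) (k : ℕ) (S : Finset ι) (hf : Set.InjOn f S) (hg : Set.InjOn g S)
    (h : 2 ^ (k + k) ≤ S.card) : ∃ T ⊆ S, T.card = k ∧ Rel f g T := by
  rcases es f g k k S hf hg h with ⟨T, h1, h2, h3⟩ | ⟨T, h1, h2, h3⟩
  · exact ⟨T, h1, h2, Or.inl h3⟩
  · exact ⟨T, h1, h2, Or.inr h3⟩

/-- Enumeration of a finite set in the order of `f`. -/
theorem exists_enum (f : ι → ℕ) (T : Finset ι) (hf : Set.InjOn f T) :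
    ∃ h : Fin T.card → ι, (∀ k, h k ∈ T) ∧ StrictMono (fun k => f (h k)) := by
  classical
  have hc : (T.image f).card = T.card := Finset.card_image_of_injOn hf
  have hmem : ∀ k : Fin T.card, (T.image f).orderEmbOfFin hc k ∈ T.image f :=
    fun k => Finset.orderEmbOfFin_mem _ _ _
  have hch : ∀ k : Fin T.card, ∃ i ∈ T, f i = (T.image f).orderEmbOfFin hc k := by
    intro k
    simpa using Finset.mem_image.1 (hmem k)
  choose h h1 h2 using hch
  refine ⟨h, h1, ?_⟩
  intro k l hkl
  simp only [h2]
  exact (T.image f).orderEmbOfFin hc |>.strictMono hkl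

/-! ## The dyadic key of a column -/

/-- Three increasing naturals: at the lowest dyadic level where two of them meet, exactly two of
them are in one cell, in different halves of it. -/
theorem level (u0 u1 u2 : ℕ) (h01 : u0 < u1) (h12 : u1 < u2) :
    ∃ t c : ℕ, (u0 / 2 ^ t = 2 * c ∧ u1 / 2 ^ t = 2 * c + 1 ∧ c < u2 / 2 ^ (t + 1)) ∨
      (u1 / 2 ^ t = 2 * c ∧ u2 / 2 ^ t = 2 * c + 1 ∧ u0 / 2 ^ (t + 1) < c) := by
  have hex : ∃ t, u0 / 2 ^ t = u1 / 2 ^ t ∨ u1 / 2 ^ t = u2 / 2 ^ t := by
    refine ⟨u2, Or.inl ?_⟩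
    have h2 : u2 < 2 ^ u2 := Nat.lt_two_pow_self
    rw [Nat.div_eq_of_lt (by omega), Nat.div_eq_of_lt (by omega)]
  classical
  obtain ⟨t, ht, hmin⟩ : ∃ t, (u0 / 2 ^ t = u1 / 2 ^ t ∨ u1 / 2 ^ t = u2 / 2 ^ t) ∧
      ∀ s < t, ¬ (u0 / 2 ^ s = u1 / 2 ^ s ∨ u1 / 2 ^ s = u2 / 2 ^ s) :=
    ⟨Nat.find hex, Nat.find_spec hex, fun s hs => Nat.find_min hex hs⟩
  rcases Nat.eq_zero_or_pos t with rfl | hpos
  · simp at ht
    omega
  obtain ⟨s, rfl⟩ : ∃ s, t = s + 1 := ⟨t - 1, by omega⟩
  have hs := hmin s (by omega)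
  push Not at hs
  have m01 : u0 / 2 ^ s ≤ u1 / 2 ^ s := Nat.div_le_div_right h01.le
  have m12 : u1 / 2 ^ s ≤ u2 / 2 ^ s := Nat.div_le_div_right h12.le
  have e0 : u0 / 2 ^ (s + 1) = u0 / 2 ^ s / 2 := by rw [pow_succ, Nat.div_div_eq_div_mul]
  have e1 : u1 / 2 ^ (s + 1) = u1 / 2 ^ s / 2 := by rw [pow_succ, Nat.div_div_eq_div_mul]
  have e2 : u2 / 2 ^ (s + 1) = u2 / 2 ^ s / 2 := by rw [pow_succ, Nat.div_div_eq_div_mul]
  rcases ht with ht | ht
  · refine ⟨s, u0 / 2 ^ (s + 1), Or.inl ⟨?_, ?_, ?_⟩⟩
    · omega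
    · omega
    · omega
  · refine ⟨s, u1 / 2 ^ (s + 1), Or.inr ⟨?_, ?_, ?_⟩⟩
    · omega
    · omega
    · omega

/-- Sorting three distinct values. -/
theorem sort3 (x : Fin 3 → ℕ) (h : ∀ a b, a ≠ b → x a ≠ x b) :
    ∃ π : Equiv.Perm (Fin 3), x (π 0) < x (π 1) ∧ x (π 1) < x (π 2) := by
  have h01 := h 0 1 (by decide)
  have h02 := h 0 2 (by decide)
  have h12 := h 1 2 (by decide)
  have key : ∀ y0 y1 y2 : ℕ, y0 ≠ y1 → y0 ≠ y2 → y1 ≠ y2 →
      (y0 < y1 ∧ y1 < y2) ∨ (y0 < y2 ∧ y2 < y1) ∨ (y1 < y0 ∧ y0 < y2) ∨ (y1 < y2 ∧ y2 < y0) ∨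
      (y2 < y0 ∧ y0 < y1) ∨ (y2 < y1 ∧ y1 < y0) := by
    intro y0 y1 y2 a b c
    omega
  rcases key _ _ _ h01 h02 h12 with hh | hh | hh | hh | hh | hh
  · exact ⟨Equiv.refl _, hh⟩
  · exact ⟨⟨![0, 2, 1], ![0, 2, 1], by decide, by decide⟩, hh⟩
  · exact ⟨⟨![1, 0, 2], ![1, 0, 2], by decide, by decide⟩, hh⟩
  · exact ⟨⟨![1, 2, 0], ![2, 0, 1], by decide, by decide⟩, hh⟩
  · exact ⟨⟨![2, 0, 1], ![1, 2, 0], by decide, by decide⟩, hh⟩
  · exact ⟨⟨![2, 1, 0], ![2, 1, 0], by decide, by decide⟩, hh⟩

/-- The dyadic cells `(j, c)` of size `2 ^ (t0 + j)` which are not much longer than `n`. -/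
def cells (n t0 : ℕ) : Finset (Σ _ : ℕ, ℕ) :=
  (Finset.range (2 * n)).sigma
    (fun j => if 2 ^ (t0 + j) ≤ 2 * n then Finset.range (n / 2 ^ (t0 + j) + 1) else ∅)

theorem card_cells (n t0 : ℕ) : (cells n t0).card * 2 ^ t0 ≤ 6 * n := by
  have h1 : ((cells n t0).card : ℝ) ≤ ∑ j ∈ Finset.range (2 * n), 3 * n / 2 ^ t0 * (1 / 2 : ℝ) ^ j := by
    rw [cells, Finset.card_sigma]
    push_cast
    apply Finset.sum_le_sum
    intro j _
    split_ifs with h
    · rw [Finset.card_range]
      have h2 : ((n / 2 ^ (t0 + j) : ℕ) : ℝ) ≤ (n : ℝ) / (2 ^ (t0 + j) : ℝ) := by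
        have := @Nat.cast_div_le ℝ _ _ _ n (2 ^ (t0 + j))
        simpa using this
      have hp : (0 : ℝ) < 2 ^ (t0 + j) := by positivity
      have h3 : (1 : ℝ) ≤ 2 * n / (2 ^ (t0 + j) : ℝ) := by
        rw [le_div_iff₀ hp, one_mul]
        exact_mod_cast h
      push_cast
      calc (((n / 2 ^ (t0 + j) : ℕ) : ℝ)) + 1 ≤ (n : ℝ) / (2 ^ (t0 + j) : ℝ) + 2 * n / (2 ^ (t0 + j) : ℝ) :=
            add_le_add h2 h3
        _ = 3 * n / 2 ^ t0 * (1 / 2 : ℝ) ^ j := by
            rw [pow_add, one_div, inv_pow]
            field_simp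
            ring
    · simp
      positivity
  rw [← Finset.mul_sum] at h1
  have h2 := sum_geometric_two_le (2 * n)
  have h3 : ((cells n t0).card : ℝ) ≤ 3 * n / 2 ^ t0 * 2 :=
    h1.trans (mul_le_mul_of_nonneg_left h2 (by positivity))
  have hp : (0 : ℝ) < 2 ^ t0 := by positivity
  have h4 : ((cells n t0).card : ℝ) * 2 ^ t0 ≤ 6 * n := by
    calc ((cells n t0).card : ℝ) * 2 ^ t0 ≤ 3 * n / 2 ^ t0 * 2 * 2 ^ t0 :=
          mul_le_mul_of_nonneg_right h3 hp.le
      _ = 6 * n := by field_simp; ring
  exact_mod_cast h4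

/-- What a dyadic class gives. -/
def Sep (x : Fin 3 → ι → ℕ) (π : Equiv.Perm (Fin 3)) (T : Finset ι) : Prop :=
  (∀ i ∈ T, ∀ j ∈ T, x (π 0) i < x (π 1) j) ∧ (∀ i ∈ T, ∀ j ∈ T, x (π 1) i < x (π 2) j)

theorem lt_of_div {a b m q : ℕ} (hm : 0 < m) (ha : a / m < q) (hb : q ≤ b / m) : a < b := by
  have h1 : a < q * m := (Nat.div_lt_iff_lt_mul hm).1 ha
  have h2 : q * m ≤ b := (Nat.le_div_iff_mul_le hm).1 hb
  omega

/-- Dyadic selection: many columns with three far positions contain a big class in which the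
three positions are separated. -/
theorem select (M : ℕ) (J : Finset ι) (n D : ℕ) (x : Fin 3 → ι → ℕ) (hD : 0 < D)
    (hx : ∀ a, ∀ i ∈ J, x a i < n)
    (hfar : ∀ i ∈ J, ∀ a b, a ≠ b → x a i + D ≤ x b i ∨ x b i + D ≤ x a i)
    (hbig : 72 * M * n < J.card * D) :
    ∃ (π : Equiv.Perm (Fin 3)) (T : Finset ι), T ⊆ J ∧ M < T.card ∧ Sep x π T := by
  classical
  set t0 := Nat.log 2 D with ht0
  have hDt : D < 2 ^ (t0 + 1) := Nat.lt_pow_succ_log_self (by norm_num) D
  -- the key of a column
  have hkey : ∀ i ∈ J, ∃ (π : Equiv.Perm (Fin 3)) (b : Bool) (t c : ℕ),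
      t0 + 1 ≤ t + 1 ∧ 2 ^ (t + 1) ≤ 2 * n ∧ c < n / 2 ^ (t + 1) + 1 ∧
      (if b then (x (π 0) i / 2 ^ t = 2 * c ∧ x (π 1) i / 2 ^ t = 2 * c + 1 ∧
          c < x (π 2) i / 2 ^ (t + 1)) else
        (x (π 1) i / 2 ^ t = 2 * c ∧ x (π 2) i / 2 ^ t = 2 * c + 1 ∧
          x (π 0) i / 2 ^ (t + 1) < c)) := by
    intro i hi
    obtain ⟨π, h01, h12⟩ := sort3 (fun a => x a i) (fun a b hab => by
      have := hfar i hi a b hab
      omega)
    obtain ⟨t, c, h | h⟩ := level _ _ _ h01 h12
    · obtain ⟨h0, h1, h2⟩ := h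
      have hf := hfar i hi (π 0) (π 1) (by simp)
      have hpos : 0 < 2 ^ t := by positivity
      have l1 : x (π 1) i < (2 * c + 1 + 1) * 2 ^ t := by
        have := Nat.lt_div_mul_add (a := x (π 1) i) hpos
        rw [h1] at this
        nlinarith
      have l0 : (2 * c) * 2 ^ t ≤ x (π 0) i := by
        have := Nat.div_mul_le_self (x (π 0) i) (2 ^ t)
        rwa [h0] at this
      have l1' : (2 * c + 1) * 2 ^ t ≤ x (π 1) i := by
        have := Nat.div_mul_le_self (x (π 1) i) (2 ^ t)
        rwa [h1] at this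
      have hn1 := hx (π 1) i hi
      have hDlt : D < 2 ^ (t + 1) := by
        rw [pow_succ]
        rcases hf with hf | hf
        · nlinarith
        · omega
      have hlt : t0 < t + 1 := by
        by_contra hc
        push Not at hc
        have h3 : 2 ^ (t + 1) ≤ 2 ^ t0 := Nat.pow_le_pow_right (by norm_num) hc
        have h4 : 2 ^ t0 ≤ D := Nat.pow_log_le_self 2 hD.ne'
        omega
      refine ⟨π, true, t, c, by omega, ?_, ?_, by simpa using ⟨h0, h1, h2⟩⟩
      · rw [pow_succ]
        nlinarith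
      · have h5 : c ≤ n / 2 ^ (t + 1) := by
          rw [Nat.le_div_iff_mul_le (by positivity), pow_succ]
          nlinarith
        omega
    · obtain ⟨h0, h1, h2⟩ := h
      have hf := hfar i hi (π 1) (π 2) (by simp)
      have hpos : 0 < 2 ^ t := by positivity
      have l1 : x (π 2) i < (2 * c + 1 + 1) * 2 ^ t := by
        have := Nat.lt_div_mul_add (a := x (π 2) i) hpos
        rw [h1] at this
        nlinarith
      have l0 : (2 * c) * 2 ^ t ≤ x (π 1) i := by
        have := Nat.div_mul_le_self (x (π 1) i) (2 ^ t)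
        rwa [h0] at this
      have l1' : (2 * c + 1) * 2 ^ t ≤ x (π 2) i := by
        have := Nat.div_mul_le_self (x (π 2) i) (2 ^ t)
        rwa [h1] at this
      have hn1 := hx (π 2) i hi
      have hDlt : D < 2 ^ (t + 1) := by
        rw [pow_succ]
        rcases hf with hf | hf
        · nlinarith
        · omega
      have hlt : t0 < t + 1 := by
        by_contra hc
        push Not at hc
        have h3 : 2 ^ (t + 1) ≤ 2 ^ t0 := Nat.pow_le_pow_right (by norm_num) hc
        have h4 : 2 ^ t0 ≤ D := Nat.pow_log_le_self 2 hD.ne'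
        omega
      refine ⟨π, false, t, c, by omega, ?_, ?_, by simpa using ⟨h0, h1, h2⟩⟩
      · rw [pow_succ]
        nlinarith
      · have h5 : c ≤ n / 2 ^ (t + 1) := by
          rw [Nat.le_div_iff_mul_le (by positivity), pow_succ]
          nlinarith
        omega
  choose! π b t c hk1 hk2 hk3 hk4 using hkey
  set K := ((Finset.univ : Finset (Equiv.Perm (Fin 3))) ×ˢ (Finset.univ : Finset Bool)) ×ˢ
    cells n (t0 + 1) with hK
  set F : ι → (Equiv.Perm (Fin 3) × Bool) × (Σ _ : ℕ, ℕ) :=
    fun i => ((π i, b i), ⟨t i - t0, c i⟩) with hF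
  have hmaps : ∀ i ∈ J, F i ∈ K := by
    intro i hi
    have a1 := hk1 i hi
    have a2 := hk2 i hi
    have a3 := hk3 i hi
    have e : t0 + 1 + (t i - t0) = t i + 1 := by omega
    simp only [hF, hK, Finset.mem_product, Finset.mem_univ, true_and, cells, Finset.mem_sigma,
      Finset.mem_range, e]
    refine ⟨?_, ?_⟩
    · have : t i + 1 < 2 ^ (t i + 1) := Nat.lt_two_pow_self
      omega
    · rw [if_pos a2, Finset.mem_range]
      exact a3
  have hKcard : K.card = 12 * (cells n (t0 + 1)).card := by
    rw [hK, Finset.card_product, Finset.card_product]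
    have : (Finset.univ : Finset (Equiv.Perm (Fin 3))).card = 6 := by
      rw [Finset.card_univ, Fintype.card_perm]; rfl
    rw [this]
    simp
  have hcc := card_cells n (t0 + 1)
  have hlt : K.card * M < J.card := by
    have h6 : (cells n (t0 + 1)).card * D ≤ 6 * n :=
      le_trans (Nat.mul_le_mul_left _ hDt.le) hcc
    have h7 : K.card * M * D ≤ 72 * M * n := by
      rw [hKcard]
      nlinarith [Nat.mul_le_mul_left (12 * M) h6]
    have h8 : K.card * M * D < J.card * D := lt_of_le_of_lt h7 hbig
    exact lt_of_mul_lt_mul_right h8 (Nat.zero_le D)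
  obtain ⟨y, -, hy⟩ := Finset.exists_lt_card_fiber_of_mul_lt_card_of_maps_to hmaps hlt
  obtain ⟨⟨π0, b0⟩, ⟨s0, c0⟩⟩ := y
  refine ⟨π0, _, Finset.filter_subset _ _, hy, ?_⟩
  have hall : ∀ i ∈ J.filter (fun i => F i = ((π0, b0), ⟨s0, c0⟩)), i ∈ J ∧ π i = π0 ∧ b i = b0 ∧
      t i = t0 + s0 ∧ c i = c0 := by
    intro i hi
    rw [Finset.mem_filter] at hi
    obtain ⟨hiJ, he⟩ := hi
    simp only [hF, Prod.mk.injEq, Sigma.mk.injEq, heq_eq_eq] at he
    have := hk1 i hiJ
    exact ⟨hiJ, he.1.1, he.1.2, by omega, he.2.2⟩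
  have hpos : 0 < 2 ^ (t0 + s0) := by positivity
  have hpos2 : 0 < 2 ^ (t0 + s0 + 1) := by positivity
  have hq : ∀ y : ℕ, y / 2 ^ (t0 + s0 + 1) = y / 2 ^ (t0 + s0) / 2 := by
    intro y
    rw [pow_succ, Nat.div_div_eq_div_mul]
  cases b0
  · refine ⟨?_, ?_⟩
    · intro i hi j hj
      obtain ⟨hiJ, e1, e2, e3, e4⟩ := hall i hi
      obtain ⟨hjJ, f1, f2, f3, f4⟩ := hall j hj
      have a := hk4 i hiJ
      have a' := hk4 j hjJ
      rw [e1, e2, e3, e4] at a
      rw [f1, f2, f3, f4] at a'
      simp only [Bool.false_eq_true, if_false] at a a'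
      have := hq (x (π0 1) j)
      exact lt_of_div hpos2 a.2.2 (by omega)
    · intro i hi j hj
      obtain ⟨hiJ, e1, e2, e3, e4⟩ := hall i hi
      obtain ⟨hjJ, f1, f2, f3, f4⟩ := hall j hj
      have a := hk4 i hiJ
      have a' := hk4 j hjJ
      rw [e1, e2, e3, e4] at a
      rw [f1, f2, f3, f4] at a'
      simp only [Bool.false_eq_true, if_false] at a a'
      exact lt_of_div (q := 2 * c0 + 1) hpos (by omega) (by omega)
  · refine ⟨?_, ?_⟩
    · intro i hi j hj
      obtain ⟨hiJ, e1, e2, e3, e4⟩ := hall i hi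
      obtain ⟨hjJ, f1, f2, f3, f4⟩ := hall j hj
      have a := hk4 i hiJ
      have a' := hk4 j hjJ
      rw [e1, e2, e3, e4] at a
      rw [f1, f2, f3, f4] at a'
      simp only [if_true] at a a'
      exact lt_of_div (q := 2 * c0 + 1) hpos (by omega) (by omega)
    · intro i hi j hj
      obtain ⟨hiJ, e1, e2, e3, e4⟩ := hall i hi
      obtain ⟨hjJ, f1, f2, f3, f4⟩ := hall j hj
      have a := hk4 i hiJ
      have a' := hk4 j hjJ
      rw [e1, e2, e3, e4] at a
      rw [f1, f2, f3, f4] at a'
      simp only [if_true] at a a'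
      have := hq (x (π0 1) i)
      exact lt_of_div (q := c0 + 1) hpos2 (by omega) (by omega)

/-- `g` is strictly monotone or strictly antitone. -/
def MonoOrAnti {K : ℕ} (g : Fin K → ℕ) : Prop := StrictMono g ∨ StrictAnti g

/-- Main lemma: `J` columns with three far positions in `n` places, `C * n < |J| * D`, contain `K`
columns whose positions lie in three disjoint intervals in monotone orders. -/
theorem dyadic (K : ℕ) : ∃ C : ℕ, 0 < C ∧ ∀ {ι : Type*} (J : Finset ι) (n D : ℕ)
    (x : Fin 3 → ι → ℕ), 0 < D → (∀ a, ∀ i ∈ J, x a i < n) → (∀ a, Set.InjOn (x a) J) →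
    (∀ i ∈ J, ∀ a b, a ≠ b → x a i + D ≤ x b i ∨ x b i + D ≤ x a i) →
    C * n < J.card * D →
    ∃ (π : Equiv.Perm (Fin 3)) (f : Fin K → ι), (∀ k, f k ∈ J) ∧
      StrictMono (fun k => x (π 0) (f k)) ∧ MonoOrAnti (fun k => x (π 1) (f k)) ∧
      MonoOrAnti (fun k => x (π 2) (f k)) ∧
      (∀ k l, x (π 0) (f k) < x (π 1) (f l)) ∧ (∀ k l, x (π 1) (f k) < x (π 2) (f l)) := by
  set L := 2 ^ (K + K) with hL
  set M := 2 ^ (L + L) with hM
  refine ⟨72 * M, by positivity, ?_⟩
  intro ι J n D x hD hx hinj hfar hbig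
  obtain ⟨π, T, hTJ, hTM, hsep⟩ := select M J n D x hD hx hfar hbig
  have hin : ∀ a, ∀ S ⊆ T, Set.InjOn (x a) S := fun a S hS =>
    (hinj a).mono (by exact_mod_cast hS.trans hTJ)
  obtain ⟨T1, hT1, hc1, hr1⟩ := es_rel (x (π 0)) (x (π 1)) L T (hin _ _ subset_rfl)
    (hin _ _ subset_rfl) hTM.le
  obtain ⟨T2, hT2, hc2, hr2⟩ := es_rel (x (π 0)) (x (π 2)) K T1 (hin _ _ hT1) (hin _ _ hT1)
    (by rw [hc1])
  obtain ⟨h, hmem, hmono⟩ := exists_enum (x (π 0)) T2 (hin _ _ (hT2.trans hT1))
  subst hc2
  have hr1' := hr1.mono hT2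
  refine ⟨π, h, fun k => hTJ (hT1 (hT2 (hmem k))), hmono, ?_, ?_, ?_, ?_⟩
  · rcases hr1' with hr | hr
    · exact Or.inl fun k l hkl => hr _ (hmem k) _ (hmem l) (hmono hkl)
    · exact Or.inr fun k l hkl => hr _ (hmem k) _ (hmem l) (hmono hkl)
  · rcases hr2 with hr | hr
    · exact Or.inl fun k l hkl => hr _ (hmem k) _ (hmem l) (hmono hkl)
    · exact Or.inr fun k l hkl => hr _ (hmem k) _ (hmem l) (hmono hkl)
  · exact fun k l => hsep.1 _ (hT1 (hT2 (hmem k))) _ (hT1 (hT2 (hmem l)))
  · exact fun k l => hsep.2 _ (hT1 (hT2 (hmem k))) _ (hT1 (hT2 (hmem l)))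

end Pool.Agent.Lib.MP29a61eN.Dyadic
end

section
/-!
# MP_29a61e_co: greedy choice of far special edges
-/
namespace Pool.Agent.Lib.MP29a61eN.FAR

variable {V : Type*} {adj : V → V → Prop} {L : List (V × V)}

/-- number of incidences of the vertex `a` with the special edges -/
def deg [DecidableEq V] (L : List (V × V)) (a : V) : ℕ :=
  L.countP (fun p => p.1 = a) + L.countP (fun p => p.2 = a)

/-- all neighbours -/
def nbr [DecidableEq V] (nb : V → Finset V) (L : List (V × V)) (a : V) : Finset V :=
  nb a ∪ (((L.filter (fun p => p.1 = a)).map Prod.snd) ++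
    ((L.filter (fun p => p.2 = a)).map Prod.fst)).toFinset

/-- balls -/
def ball [DecidableEq V] (f : V → Finset V) : ℕ → V → Finset V
  | 0, a => {a}
  | k + 1, a => {a} ∪ (f a).biUnion (ball f k)

theorem card_nbr [DecidableEq V] {nb : V → Finset V} {d q : ℕ} {a : V} (hd : (nb a).card ≤ d)
    (hq : deg L a ≤ q) : (nbr nb L a).card ≤ d + q := by
  unfold nbr
  refine (Finset.card_union_le _ _).trans (Nat.add_le_add hd ?_)
  refine (List.toFinset_card_le _).trans ?_
  rw [List.length_append, List.length_map, List.length_map]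
  unfold deg at hq
  rw [List.countP_eq_length_filter, List.countP_eq_length_filter] at hq
  exact hq

theorem self_mem_ball [DecidableEq V] (f : V → Finset V) (k : ℕ) (a : V) : a ∈ ball f k a := by
  cases k <;> simp [ball]

theorem card_ball [DecidableEq V] {f : V → Finset V} {δ : ℕ} (h : ∀ a, (f a).card ≤ δ) :
    ∀ (k : ℕ) (a : V), (ball f k a).card ≤ (1 + δ) ^ k := by
  intro k
  induction k with
  | zero => intro a; simp [ball]
  | succ k ih =>
    intro a
    have h1 : ((f a).biUnion (ball f k)).card ≤ δ * (1 + δ) ^ k := by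
      refine (Finset.card_biUnion_le_card_mul _ _ _ (fun b _ => ih b)).trans ?_
      exact Nat.mul_le_mul_right _ (h a)
    have h2 : (ball f (k + 1) a).card ≤ 1 + δ * (1 + δ) ^ k := by
      refine (Finset.card_union_le _ _).trans ?_
      simpa using h1
    refine h2.trans ?_
    have : 1 ≤ (1 + δ) ^ k := Nat.one_le_pow _ _ (by omega)
    rw [pow_succ]
    nlinarith

theorem step_mem_nbr [DecidableEq V] {nb : V → Finset V} (hnb : ∀ a b, adj a b → b ∈ nb a)
    {o : Option ℕ} {a b : V} (h : StepAt adj L o a b) : b ∈ nbr nb L a := by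
  unfold nbr
  cases o with
  | none => exact Finset.mem_union_left _ (hnb _ _ h)
  | some i =>
    apply Finset.mem_union_right
    rw [List.mem_toFinset, List.mem_append]
    rcases h with h | h
    · left
      have := List.mem_of_getElem? h
      exact List.mem_map.2 ⟨(a, b), List.mem_filter.2 ⟨this, by simp⟩, rfl⟩
    · right
      have := List.mem_of_getElem? h
      exact List.mem_map.2 ⟨(b, a), List.mem_filter.2 ⟨this, by simp⟩, rfl⟩

theorem walk_mem_ball [DecidableEq V] {nb : V → Finset V} (hnb : ∀ a b, adj a b → b ∈ nb a)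
    {a b : V} {l : List (Option ℕ)} (h : W adj L a l b) :
    ∀ k, l.length ≤ k → b ∈ ball (nbr nb L) k a := by
  induction h with
  | nil a => intro k _; exact self_mem_ball _ _ _
  | cons s _ ih =>
    intro k hk
    cases k with
    | zero => simp at hk
    | succ k =>
      refine Finset.mem_union_right _ (Finset.mem_biUnion.2 ⟨_, step_mem_nbr hnb s, ih k ?_⟩)
      simpa using hk

/-- walks over old edges do not see new edges -/
theorem W.restrict {L' : List (V × V)} {a b : V} {l : List (Option ℕ)} (h : W adj (L ++ L') a l b)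
    (hl : ∀ j, some j ∈ l → j < L.length) : W adj L a l b := by
  induction h with
  | nil a => exact W.nil a
  | @cons a b c o l s _ ih =>
    refine W.cons ?_ (ih (fun j hj => hl j (List.mem_cons_of_mem _ hj)))
    cases o with
    | none => exact s
    | some i =>
      have hi := hl i (List.mem_cons_self)
      unfold StepAt at s ⊢
      simpa [List.getElem?_append_left hi] using s

theorem W.label_lt {a b : V} {l : List (Option ℕ)} (h : W adj L a l b) :
    ∀ j, some j ∈ l → j < L.length := by
  induction h with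
  | nil a => simp
  | @cons a b c o l s _ ih =>
    intro j hj
    rcases List.mem_cons.1 hj with hj | hj
    · subst hj
      rcases s with s | s <;> exact (List.getElem?_eq_some_iff.1 s).1
    · exact ih j hj

theorem far_nil (D : ℕ) : Far adj [] D := by
  intro i a b h
  simp at h

/-- appending one far edge -/
theorem Far.snoc {D : ℕ} (hF : Far adj L D) {x y : V}
    (h : ∀ l : List (Option ℕ), l.length ≤ D → ¬ W adj L x l y) : Far adj (L ++ [(x, y)]) D := by
  intro i a b hi l hl hj hw
  have hlt := (List.getElem?_eq_some_iff.1 hi).1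
  rw [List.length_append, List.length_singleton] at hlt
  by_cases e : i < L.length
  · rw [List.getElem?_append_left e] at hi
    exact hF i a b hi l hl hj (hw.restrict (fun j hj' => (hj j hj').trans e))
  · have e' : i = L.length := by omega
    subst e'
    rw [List.getElem?_append_right (le_refl _)] at hi
    simp only [Nat.sub_self, List.getElem?_cons_zero, Option.some.injEq, Prod.mk.injEq] at hi
    obtain ⟨rfl, rfl⟩ := hi
    exact h l hl (hw.restrict hj)

/-- Greedy choice of far pairs.  `T` are ports with a vertex `vt`, a class `cls`, and ports of class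
`κ` are paired with ports of class `fl κ`; the first port of a pair has a class with `ok`.  The new
special edges are appended to `L0`. -/
theorem greedy_ok [DecidableEq V] {T K : Type*} [Fintype T] [DecidableEq T] [DecidableEq K]
    (hs : ∀ a b, adj a b → adj b a)
    (nb : V → Finset V) (hnb : ∀ a b, adj a b → b ∈ nb a) (d : ℕ) (hd : ∀ a, (nb a).card ≤ d)
    (L0 : List (V × V)) (D q0 q : ℕ) (hF : Far adj L0 D) (hq0 : ∀ a, deg L0 a ≤ q0)
    (vt : T → V) (hq : ∀ a, (Finset.univ.filter (fun t => vt t = a)).card ≤ q)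
    (cls : T → K) (fl : K → K) (hfl : ∀ κ, fl (fl κ) = κ)
    (ok : K → Prop) (hok : ∀ κ, ok κ ∨ ok (fl κ)) :
    ∃ M : List (T × T),
      (M.map Prod.fst ++ M.map Prod.snd).Nodup ∧
      (∀ p ∈ M, cls p.2 = fl (cls p.1) ∧ ok (cls p.1)) ∧
      Far adj (L0 ++ M.map (fun p => (vt p.1, vt p.2))) D ∧
      (∀ a, deg (L0 ++ M.map (fun p => (vt p.1, vt p.2))) a ≤ q0 + q) ∧
      ∀ κ, (Finset.univ.filter (fun t => cls t = κ ∧ t ∉ M.map Prod.fst ++ M.map Prod.snd)).card ≤
        ((Finset.univ.filter (fun t => cls t = κ)).card -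
          (Finset.univ.filter (fun t => cls t = fl κ)).card) + q * (1 + (d + (q0 + q))) ^ D := by
  classical
  set Valid : List (T × T) → Prop := fun M => (M.map Prod.fst ++ M.map Prod.snd).Nodup ∧
      (∀ p ∈ M, cls p.2 = fl (cls p.1) ∧ ok (cls p.1)) ∧
      Far adj (L0 ++ M.map (fun p => (vt p.1, vt p.2))) D with hValid
  -- degree bound
  have hdeg : ∀ M, Valid M → ∀ a, deg (L0 ++ M.map (fun p => (vt p.1, vt p.2))) a ≤ q0 + q := by
    intro M hM a
    have h1 : deg (L0 ++ M.map (fun p => (vt p.1, vt p.2))) a = deg L0 a +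
        (M.map Prod.fst ++ M.map Prod.snd).countP (fun t => vt t = a) := by
      unfold deg
      simp only [List.countP_append, List.countP_map]
      have e1 : M.countP ((fun p : V × V => decide (p.1 = a)) ∘ fun p : T × T => (vt p.1, vt p.2)) =
          M.countP ((fun t => decide (vt t = a)) ∘ Prod.fst) := rfl
      have e2 : M.countP ((fun p : V × V => decide (p.2 = a)) ∘ fun p : T × T => (vt p.1, vt p.2)) =
          M.countP ((fun t => decide (vt t = a)) ∘ Prod.snd) := rfl
      rw [e1, e2]
      omega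
    rw [h1]
    refine Nat.add_le_add (hq0 a) ?_
    rw [List.countP_eq_length_filter]
    have hnd : ((M.map Prod.fst ++ M.map Prod.snd).filter (fun t => decide (vt t = a))).Nodup :=
      hM.1.filter _
    rw [← List.toFinset_card_of_nodup hnd]
    refine (Finset.card_le_card ?_).trans (hq a)
    intro t ht
    rw [List.mem_toFinset, List.mem_filter] at ht
    simpa using ht.2
  -- a valid list of maximal length
  have hlen : ∀ M, Valid M → M.length ≤ Fintype.card T := by
    intro M hM
    have : (M.map Prod.fst).Nodup := (List.nodup_append.1 hM.1).1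
    simpa using this.length_le_card
  have hex : ∃ n, ∃ M, Valid M ∧ M.length = n :=
    ⟨0, [], ⟨by simp, by simp, by simpa using hF⟩, rfl⟩
  obtain ⟨M, hM, hmax⟩ : ∃ M, Valid M ∧ ∀ M', Valid M' → M'.length ≤ M.length := by
    have hb : ∀ n, (∃ M, Valid M ∧ M.length = n) → n ≤ Fintype.card T := by
      rintro n ⟨M, hM, rfl⟩
      exact hlen M hM
    obtain ⟨M, hM, hM'⟩ := Nat.findGreatest_spec (P := fun n => ∃ M, Valid M ∧ M.length = n)
      (hb _ hex.choose_spec) hex.choose_spec
    refine ⟨M, hM, fun M' h' => ?_⟩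
    rw [hM']
    exact Nat.le_findGreatest (hb _ ⟨M', h', rfl⟩) ⟨M', h', rfl⟩
  refine ⟨M, hM.1, hM.2.1, hM.2.2, hdeg M hM, ?_⟩
  set L := L0 ++ M.map (fun p => (vt p.1, vt p.2)) with hL
  set U : K → Finset T := fun κ =>
    Finset.univ.filter (fun t => cls t = κ ∧ t ∉ M.map Prod.fst ++ M.map Prod.snd) with hU
  set C := q * (1 + (d + (q0 + q))) ^ D with hC
  -- an extension exists if a partner outside the ball exists
  have key : ∀ κ, (U κ).Nonempty → (U (fl κ)).card ≤ C := by
    intro κ ⟨t, ht⟩
    by_contra hcon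
    push Not at hcon
    set Bl := ball (nbr nb L) D (vt t) with hBl
    have hBcard : Bl.card ≤ (1 + (d + (q0 + q))) ^ D :=
      card_ball (fun a => card_nbr (hd a) (hdeg M hM a)) D (vt t)
    have hports : (Finset.univ.filter (fun t' => vt t' ∈ Bl)).card ≤ C := by
      have : Finset.univ.filter (fun t' => vt t' ∈ Bl) ⊆
          Bl.biUnion (fun a => Finset.univ.filter (fun t' => vt t' = a)) := by
        intro t' ht'
        rw [Finset.mem_filter] at ht'
        exact Finset.mem_biUnion.2 ⟨vt t', ht'.2, by simp⟩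
      refine (Finset.card_le_card this).trans ?_
      refine (Finset.card_biUnion_le_card_mul _ _ q (fun a _ => hq a)).trans ?_
      rw [hC, Nat.mul_comm q]
      exact Nat.mul_le_mul_right _ hBcard
    obtain ⟨t', ht', hnot⟩ : ∃ t' ∈ U (fl κ), t' ∉ Finset.univ.filter (fun t' => vt t' ∈ Bl) := by
      by_contra hno
      push Not at hno
      exact absurd (Finset.card_le_card (fun x hx => hno x hx : U (fl κ) ⊆ _))
        (by omega)
    rw [Finset.mem_filter] at ht ht'
    have hnot' : vt t' ∉ Bl := by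
      intro h
      exact hnot (Finset.mem_filter.2 ⟨Finset.mem_univ _, h⟩)
    have hne : t ≠ t' := by
      rintro rfl
      exact hnot' (self_mem_ball _ _ _)
    have hvalid : ∀ x y : T, x ≠ y → x ∉ M.map Prod.fst ++ M.map Prod.snd →
        y ∉ M.map Prod.fst ++ M.map Prod.snd → cls y = fl (cls x) → ok (cls x) →
        (∀ l : List (Option ℕ), l.length ≤ D → ¬ W adj L (vt x) l (vt y)) →
        Valid (M ++ [(x, y)]) := by
      intro x y hxy hx hy hc ho hfar
      refine ⟨?_, ?_, ?_⟩
      · have hp : (M ++ [(x, y)]).map Prod.fst ++ (M ++ [(x, y)]).map Prod.snd =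
            M.map Prod.fst ++ (x :: (M.map Prod.snd ++ [y])) := by simp
        rw [hp]
        have hperm : (M.map Prod.fst ++ (x :: (M.map Prod.snd ++ [y]))).Perm
            (x :: y :: (M.map Prod.fst ++ M.map Prod.snd)) := by
          refine (List.perm_middle).trans (List.Perm.cons _ ?_)
          rw [← List.append_assoc]
          exact List.perm_append_singleton _ _
        rw [hperm.nodup_iff, List.nodup_cons, List.nodup_cons]
        refine ⟨?_, hy, hM.1⟩
        rw [List.mem_cons]
        rintro (h | h)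
        · exact hxy h
        · exact hx h
      · intro p hp
        rcases List.mem_append.1 hp with hp | hp
        · exact hM.2.1 p hp
        · rw [List.mem_singleton] at hp
          subst hp
          exact ⟨hc, ho⟩
      · have e : L0 ++ (M ++ [(x, y)]).map (fun p => (vt p.1, vt p.2)) = L ++ [(vt x, vt y)] := by
          simp [hL]
        rw [e]
        exact Far.snoc hM.2.2 hfar
    have hfar : ∀ l : List (Option ℕ), l.length ≤ D → ¬ W adj L (vt t) l (vt t') :=
      fun l hl hw => hnot' (walk_mem_ball hnb hw D hl)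
    rcases hok κ with ho | ho
    · have := hmax _ (hvalid t t' hne ht.2.2 ht'.2.2 (by rw [ht'.2.1, ht.2.1])
        (by rw [ht.2.1]; exact ho) hfar)
      simp at this
    · have := hmax _ (hvalid t' t (Ne.symm hne) ht'.2.2 ht.2.2 (by rw [ht'.2.1, ht.2.1, hfl])
        (by rw [ht'.2.1]; exact ho)
        (fun l hl hw => hfar l.reverse (by simpa using hl) (hw.reverse hs)))
      simp at this
  -- counting
  have hcount : ∀ κ, (Finset.univ.filter (fun t => cls t = κ)).card = (U κ).card +
      (M.countP (fun p => cls p.1 = κ) + M.countP (fun p => cls p.1 = fl κ)) := by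
    intro κ
    have h1 : (Finset.univ.filter (fun t => cls t = κ)).card = (U κ).card +
        (Finset.univ.filter (fun t => cls t = κ ∧ t ∈ M.map Prod.fst ++ M.map Prod.snd)).card := by
      rw [← Finset.card_union_of_disjoint]
      · congr 1
        ext t
        simp only [hU, Finset.mem_filter, Finset.mem_univ, true_and, Finset.mem_union]
        tauto
      · rw [Finset.disjoint_left]
        intro t h1 h2
        simp only [hU, Finset.mem_filter, Finset.mem_univ, true_and] at h1 h2
        exact h1.2 h2.2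
    rw [h1]
    congr 1
    have h2 : (Finset.univ.filter (fun t => cls t = κ ∧ t ∈ M.map Prod.fst ++ M.map Prod.snd)) =
        ((M.map Prod.fst ++ M.map Prod.snd).filter (fun t => decide (cls t = κ))).toFinset := by
      ext t
      simp only [Finset.mem_filter, Finset.mem_univ, true_and, List.mem_toFinset, List.mem_filter,
        decide_eq_true_eq]
      tauto
    rw [h2, List.toFinset_card_of_nodup (hM.1.filter _), ← List.countP_eq_length_filter,
      List.countP_append, List.countP_map, List.countP_map]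
    congr 1
    apply List.countP_congr
    intro p hp
    simp only [Function.comp, decide_eq_true_eq]
    rw [(hM.2.1 p hp).1]
    constructor
    · intro h; rw [← h, hfl]
    · intro h; rw [h, hfl]
  intro κ
  have h1 := hcount κ
  have h2 := hcount (fl κ)
  rw [hfl] at h2
  by_cases hne : (U κ).Nonempty
  · have h3 := key κ hne
    change (U κ).card ≤ _
    omega
  · rw [Finset.not_nonempty_iff_eq_empty] at hne
    change (U κ).card ≤ _
    rw [hne]
    simp

/-- `greedy_ok` without orientation -/
theorem greedy [DecidableEq V] {T K : Type*} [Fintype T] [DecidableEq T] [DecidableEq K]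
    (hs : ∀ a b, adj a b → adj b a)
    (nb : V → Finset V) (hnb : ∀ a b, adj a b → b ∈ nb a) (d : ℕ) (hd : ∀ a, (nb a).card ≤ d)
    (L0 : List (V × V)) (D q0 q : ℕ) (hF : Far adj L0 D) (hq0 : ∀ a, deg L0 a ≤ q0)
    (vt : T → V) (hq : ∀ a, (Finset.univ.filter (fun t => vt t = a)).card ≤ q)
    (cls : T → K) (fl : K → K) (hfl : ∀ κ, fl (fl κ) = κ) :
    ∃ M : List (T × T),
      (M.map Prod.fst ++ M.map Prod.snd).Nodup ∧
      (∀ p ∈ M, cls p.2 = fl (cls p.1)) ∧
      Far adj (L0 ++ M.map (fun p => (vt p.1, vt p.2))) D ∧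
      (∀ a, deg (L0 ++ M.map (fun p => (vt p.1, vt p.2))) a ≤ q0 + q) ∧
      ∀ κ, (Finset.univ.filter (fun t => cls t = κ ∧ t ∉ M.map Prod.fst ++ M.map Prod.snd)).card ≤
        ((Finset.univ.filter (fun t => cls t = κ)).card -
          (Finset.univ.filter (fun t => cls t = fl κ)).card) + q * (1 + (d + (q0 + q))) ^ D := by
  obtain ⟨M, h1, h2, h3, h4, h5⟩ := greedy_ok hs nb hnb d hd L0 D q0 q hF hq0 vt hq cls fl hfl
    (fun _ => True) (fun _ => Or.inl trivial)
  exact ⟨M, h1, fun p hp => (h2 p hp).1, h3, h4, h5⟩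

/-- Matching inside one finite set of ports: all but boundedly many ports of `A` are matched. -/
theorem greedy_one [DecidableEq V] {T : Type*} [DecidableEq T]
    (hs : ∀ a b, adj a b → adj b a)
    (nb : V → Finset V) (hnb : ∀ a b, adj a b → b ∈ nb a) (d : ℕ) (hd : ∀ a, (nb a).card ≤ d)
    (L0 : List (V × V)) (D q0 q : ℕ) (hF : Far adj L0 D) (hq0 : ∀ a, deg L0 a ≤ q0)
    (A : Finset T) (vt : T → V) (hq : ∀ a, (A.filter (fun t => vt t = a)).card ≤ q) :
    ∃ M : List (T × T),
      (M.map Prod.fst ++ M.map Prod.snd).Nodup ∧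
      (∀ p ∈ M, p.1 ∈ A ∧ p.2 ∈ A) ∧
      Far adj (L0 ++ M.map (fun p => (vt p.1, vt p.2))) D ∧
      (∀ a, deg (L0 ++ M.map (fun p => (vt p.1, vt p.2))) a ≤ q0 + q) ∧
      (A.filter (fun t => t ∉ M.map Prod.fst ++ M.map Prod.snd)).card ≤
        q * (1 + (d + (q0 + q))) ^ D := by
  classical
  have hq' : ∀ a, (Finset.univ.filter (fun t : {t // t ∈ A} => vt t = a)).card ≤ q := by
    intro a
    refine le_trans ?_ (hq a)
    refine Finset.card_le_card_of_injOn (fun t => (t : T)) ?_ ?_
    · intro t ht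
      have := (Finset.mem_filter.1 (Finset.mem_coe.1 ht)).2
      exact Finset.mem_coe.2 (Finset.mem_filter.2 ⟨t.2, this⟩)
    · intro x _ y _ h
      exact Subtype.ext h
  obtain ⟨M, h1, _, h3, h4, h5⟩ := greedy hs nb hnb d hd L0 D q0 q hF hq0
    (fun t : {t // t ∈ A} => vt t) hq' (fun _ => ()) id (fun _ => rfl)
  set M' : List (T × T) := M.map (fun p => ((p.1 : T), (p.2 : T))) with hM'
  have e1 : M'.map Prod.fst ++ M'.map Prod.snd = (M.map Prod.fst ++ M.map Prod.snd).map Subtype.val := by
    simp [hM', List.map_map, Function.comp_def]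
  have e2 : M'.map (fun p => (vt p.1, vt p.2)) = M.map (fun p => (vt p.1, vt p.2)) := by
    simp [hM', List.map_map, Function.comp_def]
  refine ⟨M', ?_, ?_, ?_, ?_, ?_⟩
  · rw [e1]
    exact h1.map Subtype.val_injective
  · intro p hp
    rw [hM', List.mem_map] at hp
    obtain ⟨r, _, rfl⟩ := hp
    exact ⟨r.1.2, r.2.2⟩
  · rw [e2]; exact h3
  · rw [e2]; exact h4
  · have h6 := h5 ()
    simp only [id, Nat.sub_self, Nat.zero_add, true_and] at h6
    refine le_trans (Finset.card_le_card (t := (Finset.univ.filter (fun t : {t // t ∈ A} =>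
      t ∉ M.map Prod.fst ++ M.map Prod.snd)).image Subtype.val) ?_) (Finset.card_image_le.trans h6)
    intro t ht
    rw [Finset.mem_filter] at ht
    refine Finset.mem_image.2 ⟨⟨t, ht.1⟩, Finset.mem_filter.2 ⟨Finset.mem_univ _, ?_⟩, rfl⟩
    intro hin
    apply ht.2
    rw [e1]
    exact List.mem_map.2 ⟨_, hin, rfl⟩

/-- Matching of two disjoint finite sets of ports: all but boundedly many ports of `A`, or all but
boundedly many ports of `B` are matched. -/
theorem greedy_two [DecidableEq V] {T : Type*} [DecidableEq T]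
    (hs : ∀ a b, adj a b → adj b a)
    (nb : V → Finset V) (hnb : ∀ a b, adj a b → b ∈ nb a) (d : ℕ) (hd : ∀ a, (nb a).card ≤ d)
    (L0 : List (V × V)) (D q0 q : ℕ) (hF : Far adj L0 D) (hq0 : ∀ a, deg L0 a ≤ q0)
    (A B : Finset T) (hAB : Disjoint A B) (vt : T → V)
    (hq : ∀ a, ((A ∪ B).filter (fun t => vt t = a)).card ≤ q) :
    ∃ M : List (T × T),
      (M.map Prod.fst ++ M.map Prod.snd).Nodup ∧
      (∀ p ∈ M, p.1 ∈ A ∧ p.2 ∈ B) ∧
      Far adj (L0 ++ M.map (fun p => (vt p.1, vt p.2))) D ∧
      (∀ a, deg (L0 ++ M.map (fun p => (vt p.1, vt p.2))) a ≤ q0 + q) ∧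
      (A.filter (fun t => t ∉ M.map Prod.fst ++ M.map Prod.snd)).card ≤
        (A.card - B.card) + q * (1 + (d + (q0 + q))) ^ D ∧
      (B.filter (fun t => t ∉ M.map Prod.fst ++ M.map Prod.snd)).card ≤
        (B.card - A.card) + q * (1 + (d + (q0 + q))) ^ D := by
  classical
  have hq' : ∀ a, (Finset.univ.filter (fun t : {t // t ∈ A ∪ B} => vt t = a)).card ≤ q := by
    intro a
    refine le_trans ?_ (hq a)
    refine Finset.card_le_card_of_injOn (fun t => (t : T)) ?_ ?_
    · intro t ht
      have := (Finset.mem_filter.1 (Finset.mem_coe.1 ht)).2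
      exact Finset.mem_coe.2 (Finset.mem_filter.2 ⟨t.2, this⟩)
    · intro x _ y _ h
      exact Subtype.ext h
  obtain ⟨M, h1, h2, h3, h4, h5⟩ := greedy_ok hs nb hnb d hd L0 D q0 q hF hq0
    (fun t : {t // t ∈ A ∪ B} => vt t) hq' (fun t => decide ((t : T) ∈ A)) not Bool.not_not
    (fun κ => κ = true) (fun κ => by cases κ <;> simp)
  set M' : List (T × T) := M.map (fun p => ((p.1 : T), (p.2 : T))) with hM'
  have e1 : M'.map Prod.fst ++ M'.map Prod.snd = (M.map Prod.fst ++ M.map Prod.snd).map Subtype.val := by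
    simp [hM', List.map_map, Function.comp_def]
  have e2 : M'.map (fun p => (vt p.1, vt p.2)) = M.map (fun p => (vt p.1, vt p.2)) := by
    simp [hM', List.map_map, Function.comp_def]
  have hcard : ∀ (b : Bool) (C : Finset T), (∀ t ∈ A ∪ B, decide (t ∈ A) = b ↔ t ∈ C) → C ⊆ A ∪ B →
      (C.filter (fun t => t ∉ M'.map Prod.fst ++ M'.map Prod.snd)).card ≤
        (Finset.univ.filter (fun t : {t // t ∈ A ∪ B} => decide ((t : T) ∈ A) = b ∧
          t ∉ M.map Prod.fst ++ M.map Prod.snd)).card ∧
      (Finset.univ.filter (fun t : {t // t ∈ A ∪ B} => decide ((t : T) ∈ A) = b)).card = C.card := by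
    intro b C hC hCs
    constructor
    · refine le_trans (Finset.card_le_card (t := (Finset.univ.filter (fun t : {t // t ∈ A ∪ B} =>
        decide ((t : T) ∈ A) = b ∧ t ∉ M.map Prod.fst ++ M.map Prod.snd)).image Subtype.val) ?_)
        Finset.card_image_le
      intro t ht
      rw [Finset.mem_filter] at ht
      have htu := hCs ht.1
      refine Finset.mem_image.2 ⟨⟨t, htu⟩, Finset.mem_filter.2 ⟨Finset.mem_univ _, ?_, ?_⟩, rfl⟩
      · exact (hC t htu).2 ht.1
      · intro hin
        apply ht.2
        rw [e1]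
        exact List.mem_map.2 ⟨_, hin, rfl⟩
    · have : C = (Finset.univ.filter (fun t : {t // t ∈ A ∪ B} =>
        decide ((t : T) ∈ A) = b)).image Subtype.val := by
        ext t
        rw [Finset.mem_image]
        constructor
        · intro ht
          exact ⟨⟨t, hCs ht⟩, Finset.mem_filter.2 ⟨Finset.mem_univ _, (hC t (hCs ht)).2 ht⟩, rfl⟩
        · rintro ⟨r, hr, rfl⟩
          exact (hC r r.2).1 (Finset.mem_filter.1 hr).2
      rw [this, Finset.card_image_of_injective _ Subtype.val_injective]
  have hA := hcard true A (fun t _ => by simp) Finset.subset_union_left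
  have hB := hcard false B (fun t ht => by
    rw [decide_eq_false_iff_not]
    constructor
    · intro h
      rcases Finset.mem_union.1 ht with h' | h'
      · exact absurd h' h
      · exact h'
    · intro h h'
      exact Finset.disjoint_left.1 hAB h' h) Finset.subset_union_right
  refine ⟨M', ?_, ?_, ?_, ?_, ?_, ?_⟩
  · rw [e1]
    exact h1.map Subtype.val_injective
  · intro p hp
    rw [hM', List.mem_map] at hp
    obtain ⟨r, hr, rfl⟩ := hp
    obtain ⟨h6, h7⟩ := h2 r hr
    simp only [decide_eq_true_eq] at h7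
    refine ⟨h7, ?_⟩
    simp only [h7, decide_true, Bool.not_true, decide_eq_false_iff_not] at h6
    rcases Finset.mem_union.1 r.2.2 with h | h
    · exact absurd h h6
    · exact h
  · rw [e2]; exact h3
  · rw [e2]; exact h4
  · have h6 := h5 true
    rw [Bool.not_true, hA.2, hB.2] at h6
    refine hA.1.trans (le_of_eq_of_le ?_ h6)
    congr
  · have h6 := h5 false
    rw [Bool.not_false, hA.2, hB.2] at h6
    refine hB.1.trans (le_of_eq_of_le ?_ h6)
    congr

end Pool.Agent.Lib.MP29a61eN.FAR
end

section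
/-!
# MP_29a61e_co: families of 3-breaks in monotone position

Words are lists over an alphabet `β` with a map `bar : β → β` (an involution), `rv B` is the
reversed word.  A move takes a block out and inserts it, maybe reversed, elsewhere.
`bad G w` is the number of consecutive pairs `x, y` of `w` that do not satisfy `G x y`.
-/
namespace Pool.Agent.Lib.MP29a61eN.Fam

variable {β : Type}

/-- The reversed word. -/
def rv (bar : β → β) (w : List β) : List β := (w.map bar).reverse

@[simp] theorem rv_nil (bar : β → β) : rv bar [] = [] := rfl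

theorem rv_append (bar : β → β) (u v : List β) : rv bar (u ++ v) = rv bar v ++ rv bar u := by
  simp [rv]

theorem rv_rv {bar : β → β} (hb : Function.Involutive bar) (u : List β) :
    rv bar (rv bar u) = u := by
  simp [rv, List.map_reverse, hb.comp_self]

theorem rv_ne_nil {bar : β → β} {u : List β} (hu : u ≠ []) : rv bar u ≠ [] := by
  simpa [rv] using hu

/-- A cut-and-paste move (the empty block is allowed). -/
def SMove (bar : β → β) (w w' : List β) : Prop :=
  ∃ X B Y U V : List β, w = X ++ B ++ Y ∧ X ++ Y = U ++ V ∧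
    (w' = U ++ B ++ V ∨ w' = U ++ rv bar B ++ V)

/-- `w'` is reached from `w` by (at most) `k` moves. -/
def SSteps (bar : β → β) : ℕ → List β → List β → Prop
  | 0, w, w' => w = w'
  | k + 1, w, w' => ∃ u, SMove bar w u ∧ SSteps bar k u w'

theorem SMove.refl (bar : β → β) (w : List β) : SMove bar w w :=
  ⟨w, [], [], w, [], by simp, by simp, Or.inl (by simp)⟩

theorem SSteps.refl (bar : β → β) : ∀ (k : ℕ) (w : List β), SSteps bar k w w
  | 0, _ => rfl
  | k + 1, w => ⟨w, SMove.refl bar w, SSteps.refl bar k w⟩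

theorem SSteps.trans {bar : β → β} : ∀ {a b : ℕ} {u v w : List β}, SSteps bar a u v →
    SSteps bar b v w → SSteps bar (a + b) u w
  | 0, b, u, v, w, h1, h2 => by
      have h1' : u = v := h1
      subst h1'
      simpa using h2
  | a + 1, b, u, v, w, h1, h2 => by
      obtain ⟨t, ht, h1⟩ := h1
      have h := SSteps.trans h1 h2
      rw [show a + 1 + b = (a + b) + 1 by omega]
      exact ⟨t, ht, h⟩

theorem SSteps.one {bar : β → β} {w w' : List β} (h : SMove bar w w') : SSteps bar 1 w w' :=
  ⟨w', h, rfl⟩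

theorem SSteps.mono {bar : β → β} {a b : ℕ} {u v : List β} (h : SSteps bar a u v) (hab : a ≤ b) :
    SSteps bar b u v := by
  obtain ⟨c, rfl⟩ := Nat.exists_eq_add_of_le hab
  exact h.trans (SSteps.refl bar c v)

theorem SMove.symm {bar : β → β} (hb : Function.Involutive bar) {w w' : List β}
    (h : SMove bar w w') : SMove bar w' w := by
  obtain ⟨X, B, Y, U, V, rfl, hz, h | h⟩ := h
  · exact ⟨U, B, V, X, Y, h, hz.symm, Or.inl rfl⟩
  · exact ⟨U, rv bar B, V, X, Y, h, hz.symm, Or.inr (by rw [rv_rv hb])⟩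

theorem SSteps.symm {bar : β → β} (hb : Function.Involutive bar) :
    ∀ {k : ℕ} {w w' : List β}, SSteps bar k w w' → SSteps bar k w' w
  | 0, w, w', h => (show w = w' from h) ▸ rfl
  | k + 1, w, w', h => by
      obtain ⟨u, hu, h⟩ := h
      exact SSteps.trans (SSteps.symm hb h) (SSteps.one (hu.symm hb))

/-- Exchange of two consecutive blocks. -/
theorem SMove.swap (bar : β → β) (A B C D : List β) :
    SMove bar (A ++ (B ++ (C ++ D))) (A ++ (C ++ (B ++ D))) :=
  ⟨A, B, C ++ D, A ++ C, D, by simp, by simp, Or.inl (by simp)⟩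

/-- A block is taken out and put to the front of the rest, maybe reversed. -/
theorem SMove.front (bar : β → β) (A B C D : List β) :
    SMove bar (A ++ (B ++ (C ++ D))) (A ++ (rv bar C ++ (B ++ D))) :=
  ⟨A ++ B, C, D, A, B ++ D, by simp, by simp, Or.inr (by simp)⟩

/-! ### Rearrangement of blocks -/

/-- `ts` is obtained from `bs` by permuting the blocks and reversing some of them. -/
inductive Rearr (bar : β → β) : List (List β) → List (List β) → Prop
  | nil : Rearr bar [] []
  | cons (pre post : List (List β)) (b t : List β) (ts : List (List β))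
      (ht : t = b ∨ t = rv bar b) (h : Rearr bar (pre ++ post) ts) :
      Rearr bar (pre ++ b :: post) (t :: ts)

theorem Rearr.steps {bar : β → β} {bs ts : List (List β)} (h : Rearr bar bs ts) :
    ∀ X : List β, SSteps bar bs.length (X ++ bs.flatten) (X ++ ts.flatten) := by
  induction h with
  | nil => intro X; exact rfl
  | cons pre post b t ts ht _ ih =>
      intro X
      have h2 := ih (X ++ t)
      have h3 : SSteps bar (pre ++ post).length (X ++ (t ++ (pre.flatten ++ post.flatten)))
          (X ++ (t :: ts).flatten) := by simpa using h2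
      have h4 : SMove bar (X ++ (pre ++ b :: post).flatten)
          (X ++ (t ++ (pre.flatten ++ post.flatten))) := by
        rcases ht with rfl | rfl
        · have := SMove.swap bar X pre.flatten t post.flatten
          simpa using this
        · have := SMove.front bar X pre.flatten b post.flatten
          simpa using this
      have h5 : (pre ++ b :: post).length = (pre ++ post).length + 1 := by
        simp only [List.length_append, List.length_cons]; omega
      rw [h5]
      exact ⟨_, h4, h3⟩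

/-! ### Bad junctions -/

open Classical in
/-- The number of consecutive pairs that are not good. -/
noncomputable def bad (G : β → β → Prop) : List β → ℕ
  | [] => 0
  | [_] => 0
  | x :: y :: w => (if G x y then 0 else 1) + bad G (y :: w)

/-- The junction between `u` and `v` is good. -/
def Jn (G : β → β → Prop) (u v : List β) : Prop := ∀ x ∈ u.getLast?, ∀ y ∈ v.head?, G x y

@[simp] theorem bad_nil (G : β → β → Prop) : bad G [] = 0 := rfl
@[simp] theorem bad_single (G : β → β → Prop) (x : β) : bad G [x] = 0 := rfl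

open Classical in
theorem bad_cons2 (G : β → β → Prop) (x y : β) (w : List β) :
    bad G (x :: y :: w) = (if G x y then 0 else 1) + bad G (y :: w) := rfl

theorem bad_cons_le (G : β → β → Prop) (x : β) (w : List β) : bad G (x :: w) ≤ bad G w + 1 := by
  cases w with
  | nil => simp
  | cons y w => rw [bad_cons2]; split_ifs <;> omega

theorem bad_le_cons (G : β → β → Prop) (x : β) (w : List β) : bad G w ≤ bad G (x :: w) := by
  cases w with
  | nil => simp
  | cons y w => rw [bad_cons2]; omega

theorem bad_append_le (G : β → β → Prop) : ∀ u v : List β,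
    bad G (u ++ v) ≤ bad G u + bad G v + 1
  | [], v => by simp
  | [x], v => by have := bad_cons_le G x v; simpa using this
  | x :: y :: u, v => by
      have := bad_append_le G (y :: u) v
      simp only [List.cons_append, bad] at this ⊢
      omega

theorem bad_append_jn (G : β → β → Prop) : ∀ u v : List β, Jn G u v →
    bad G (u ++ v) ≤ bad G u + bad G v
  | [], v, _ => by simp
  | [x], [], _ => by simp
  | [x], y :: v, h => by
      have : G x y := h x (by simp) y (by simp)
      simp [bad, this]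
  | x :: y :: u, v, h => by
      have h' : Jn G (y :: u) v := by
        intro a ha b hb
        exact h a (by simpa using ha) b hb
      have := bad_append_jn G (y :: u) v h'
      simp only [List.cons_append, bad] at this ⊢
      omega

theorem le_bad_append (G : β → β → Prop) : ∀ u v : List β,
    bad G u + bad G v ≤ bad G (u ++ v)
  | [], v => by simp
  | [x], v => by have := bad_le_cons G x v; simpa using this
  | x :: y :: u, v => by
      have := le_bad_append G (y :: u) v
      simp only [List.cons_append, bad] at this ⊢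
      omega

theorem bad_rv {bar : β → β} {G : β → β → Prop} (hG : ∀ x y, G x y ↔ G (bar y) (bar x)) :
    ∀ w : List β, bad G (rv bar w) ≤ bad G w
  | [] => by simp
  | [x] => by simp [rv]
  | x :: y :: w => by
      have h1 := bad_rv hG (y :: w)
      have h2 : rv bar (x :: y :: w) = rv bar (y :: w) ++ [bar x] := by simp [rv]
      rw [h2]
      by_cases hxy : G x y
      · have hj : Jn G (rv bar (y :: w)) [bar x] := by
          intro a ha b hb'
          have ha' : a = bar y := by
            have : rv bar (y :: w) = rv bar w ++ [bar y] := by simp [rv]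
            rw [this] at ha
            simpa using ha.symm
          have hb'' : b = bar x := by simpa using hb'.symm
          rw [ha', hb'']
          exact (hG x y).1 hxy
        have h3 := bad_append_jn G _ _ hj
        simp only [bad_single, Nat.add_zero] at h3
        have h4 := bad_le_cons G x (y :: w)
        omega
      · have h3 := bad_append_le G (rv bar (y :: w)) [bar x]
        simp only [bad_single, Nat.add_zero] at h3
        have h4 : bad G (x :: y :: w) = 1 + bad G (y :: w) := by simp [bad, hxy]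
        omega

/-- The sum of the bad junctions of the blocks. -/
noncomputable def sbad (G : β → β → Prop) (S : List (List β)) : ℕ := (S.map (bad G)).sum

@[simp] theorem sbad_nil (G : β → β → Prop) : sbad G [] = 0 := rfl
@[simp] theorem sbad_cons (G : β → β → Prop) (b : List β) (S : List (List β)) :
    sbad G (b :: S) = bad G b + sbad G S := by simp [sbad]
theorem sbad_append (G : β → β → Prop) (S T : List (List β)) :
    sbad G (S ++ T) = sbad G S + sbad G T := by simp [sbad]

theorem sbad_le (G : β → β → Prop) : ∀ S : List (List β), sbad G S ≤ bad G S.flatten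
  | [] => by simp
  | b :: S => by
      have h1 := sbad_le G S
      have h2 := le_bad_append G b S.flatten
      simp only [sbad_cons, List.flatten_cons]
      omega

/-! ### Strands -/

/-- The strand without its first segment. -/
def sh (S : ℕ → List β) : ℕ → List β := fun j => S (j + 1)

/-- The word `S 0 S 1 .. S (m-1)`. -/
def cat : ℕ → (ℕ → List β) → List β
  | 0, _ => []
  | m + 1, S => S 0 ++ cat m (sh S)

/-- The word `S (m-1) .. S 1 S 0`. -/
def rcat : ℕ → (ℕ → List β) → List β
  | 0, _ => []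
  | m + 1, S => rcat m (sh S) ++ S 0

theorem cat_add : ∀ (m k : ℕ) (S : ℕ → List β),
    cat (m + k) S = cat m S ++ cat k (fun j => S (j + m))
  | 0, k, S => by simp [cat]
  | m + 1, k, S => by
      rw [show m + 1 + k = (m + k) + 1 by omega]
      simp only [cat, List.append_assoc]
      rw [cat_add m k (sh S)]
      have : (fun j => sh S (j + m)) = fun j => S (j + (m + 1)) := by
        funext j; simp [sh, Nat.add_assoc]
      rw [this]

theorem rv_cat (bar : β → β) : ∀ (m : ℕ) (S : ℕ → List β),
    rv bar (cat m S) = rcat m (fun j => rv bar (S j))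
  | 0, S => rfl
  | m + 1, S => by
      simp only [cat, rcat, rv_append]
      rw [rv_cat bar m (sh S)]
      rfl

theorem sum_bad_le_cat (G : β → β → Prop) : ∀ (m : ℕ) (S : ℕ → List β),
    ∑ j ∈ Finset.range m, bad G (S j) ≤ bad G (cat m S)
  | 0, S => by simp
  | m + 1, S => by
      rw [Finset.sum_range_succ']
      have h1 := sum_bad_le_cat G m (sh S)
      have h2 := le_bad_append G (S 0) (cat m (sh S))
      have h3 : ∑ j ∈ Finset.range m, bad G (S (j + 1)) = ∑ j ∈ Finset.range m, bad G (sh S j) :=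
        rfl
      simp only [cat]
      omega

theorem head_cat {S : ℕ → List β} {m : ℕ} (h0 : S 0 ≠ []) :
    (cat (m + 1) S).head? = (S 0).head? := by
  cases hS : S 0 with
  | nil => exact absurd hS h0
  | cons x l => simp [cat, hS]

theorem bad_cat_le (G : β → β → Prop) : ∀ (m : ℕ) (S : ℕ → List β), (∀ j < m, S j ≠ []) →
    (∀ j, j + 1 < m → Jn G (S j) (S (j + 1))) →
    bad G (cat m S) ≤ ∑ j ∈ Finset.range m, bad G (S j)
  | 0, S, _, _ => by simp [cat]
  | 1, S, _, _ => by simp [cat]
  | m + 2, S, hne, hj => by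
      rw [Finset.sum_range_succ']
      have h1 := bad_cat_le G (m + 1) (sh S) (fun j hj' => hne (j + 1) (by omega))
        (fun j hj' => hj (j + 1) (by omega))
      have h2 : Jn G (S 0) (cat (m + 1) (sh S)) := by
        intro x hx y hy
        rw [head_cat (hne 1 (by omega))] at hy
        exact hj 0 (by omega) x hx y hy
      have h3 := bad_append_jn G _ _ h2
      have h4 : ∑ j ∈ Finset.range (m + 1), bad G (S (j + 1)) =
          ∑ j ∈ Finset.range (m + 1), bad G (sh S j) := rfl
      have h5 : cat (m + 2) S = S 0 ++ cat (m + 1) (sh S) := rfl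
      rw [h5]
      omega

theorem Jn.append_left {G : β → β → Prop} {u v w : List β} (hv : v ≠ []) (h : Jn G v w) :
    Jn G (u ++ v) w := by
  intro x hx y hy
  rw [List.getLast?_append_of_ne_nil _ hv] at hx
  exact h x hx y hy

theorem Jn.append_right {G : β → β → Prop} {u v w : List β} (hv : v ≠ []) (h : Jn G u v) :
    Jn G u (v ++ w) := by
  intro x hx y hy
  rw [List.head?_append_of_ne_nil _ hv] at hy
  exact h x hx y hy

/-! ### The mixed type -/

/-- Step by step, `A 0 .. A (m-1) M C (m-1) .. C 0 B 0 .. B (m-1)` becomes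
`A 0 C 0 B 0 A 1 C 1 B 1 .. M`. -/
theorem mixed_steps (bar : β → β) (M T : List β) : ∀ (m : ℕ) (A B C : ℕ → List β) (X : List β),
    SSteps bar m (X ++ (cat m A ++ (M ++ (rcat m C ++ (cat m B ++ T)))))
      (X ++ (cat m (fun j => A j ++ (C j ++ B j)) ++ (M ++ T)))
  | 0, A, B, C, X => by simp [cat, rcat, SSteps]
  | m + 1, A, B, C, X => by
      have ih := mixed_steps bar M T m (sh A) (sh B) (sh C) (X ++ (A 0 ++ (C 0 ++ B 0)))
      have h1 := SMove.swap bar (X ++ A 0) (cat m (sh A) ++ (M ++ rcat m (sh C))) (C 0 ++ B 0)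
        (cat m (sh B) ++ T)
      have h2 : (fun j => sh A j ++ (sh C j ++ sh B j)) = sh (fun j => A j ++ (C j ++ B j)) := rfl
      rw [h2] at ih
      refine ⟨X ++ (A 0 ++ (C 0 ++ B 0)) ++ (cat m (sh A) ++ (M ++ (rcat m (sh C) ++
        (cat m (sh B) ++ T)))), ?_, ?_⟩
      · simpa [cat, rcat] using h1
      · simpa [cat] using ih

/-- The bad junctions after a family of mixed type. -/
theorem mixed_bad (G : β → β → Prop) (m : ℕ) (A B C : ℕ → List β)
    (hA : ∀ j < m, A j ≠ []) (hB : ∀ j < m, B j ≠ []) (hC : ∀ j < m, C j ≠ [])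
    (h1 : ∀ j, j + 1 < m → Jn G (A j) (C j))
    (h2 : ∀ j, j + 1 < m → Jn G (C (j + 1)) (B (j + 1)))
    (h3 : ∀ j, j + 1 < m → Jn G (B j) (A (j + 1))) :
    bad G (cat m (fun j => A j ++ (C j ++ B j))) ≤
      ∑ j ∈ Finset.range m, (bad G (A j) + bad G (B j) + bad G (C j)) + 2 := by
  have e1 := bad_cat_le G m (fun j => A j ++ (C j ++ B j))
    (fun j hj => by simp [hA j hj])
    (fun j hj => by
      have h := h3 j hj
      have h' : Jn G (A j ++ (C j ++ B j)) (A (j + 1)) := by
        rw [← List.append_assoc]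
        exact Jn.append_left (hB j (by omega)) h
      exact Jn.append_right (hA (j + 1) hj) h')
  have e2 : ∀ j ∈ Finset.range m, bad G (A j ++ (C j ++ B j)) ≤
      (bad G (A j) + bad G (B j) + bad G (C j)) + ((if j = m - 1 then 1 else 0) +
        (if j = 0 then 1 else 0)) := by
    intro j hj
    have hj' : j < m := Finset.mem_range.1 hj
    have g1 : bad G (A j ++ (C j ++ B j)) ≤ bad G (A j) + bad G (C j ++ B j) +
        (if j = m - 1 then 1 else 0) := by
      by_cases h : j = m - 1
      · have := bad_append_le G (A j) (C j ++ B j)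
        simp only [h, if_true] at this ⊢
        omega
      · have := bad_append_jn G (A j) (C j ++ B j)
          (Jn.append_right (hC j hj') (h1 j (by omega)))
        simp only [h, if_false]
        omega
    have g2 : bad G (C j ++ B j) ≤ bad G (C j) + bad G (B j) + (if j = 0 then 1 else 0) := by
      by_cases h : j = 0
      · have := bad_append_le G (C j) (B j)
        simp only [h, if_true] at this ⊢
        omega
      · obtain ⟨i, rfl⟩ := Nat.exists_eq_succ_of_ne_zero h
        have := bad_append_jn G (C (i + 1)) (B (i + 1)) (h2 i hj')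
        simp only [Nat.succ_eq_add_one] at *
        omega
    omega
  have e3 := Finset.sum_le_sum e2
  rw [Finset.sum_add_distrib] at e3
  have e4 : ∑ j ∈ Finset.range m, ((if j = m - 1 then 1 else 0) + (if j = 0 then 1 else 0)) ≤ 2 := by
    rw [Finset.sum_add_distrib, Finset.sum_ite_eq', Finset.sum_ite_eq']
    split_ifs <;> omega
  omega

/-! ### The cyclic type -/

/-- The word with six lines `F0 G2 F1 G1 F2 G0`. -/
def six (m : ℕ) (p0 p1 p2 q0 q1 q2 : List β) (F0 F1 F2 G0 G1 G2 : ℕ → List β) : List β :=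
  (p0 ++ cat m F0) ++ ((q2 ++ cat m G2) ++ ((p1 ++ cat m F1) ++ ((q1 ++ cat m G1) ++
    ((p2 ++ cat m F2) ++ (q0 ++ cat m G0)))))

theorem six_round (bar : β → β) (m : ℕ) (p0 p1 p2 q0 q1 q2 : List β)
    (F0 F1 F2 G0 G1 G2 : ℕ → List β) :
    SSteps bar 2 (six (m + 1) p0 p1 p2 q0 q1 q2 F0 F1 F2 G0 G1 G2)
      (six m (p0 ++ F1 0) (p1 ++ F2 0) (p2 ++ F0 0) (q2 ++ G0 0) (q0 ++ G1 0) (q1 ++ G2 0)
        (sh F1) (sh F2) (sh F0) (sh G0) (sh G1) (sh G2)) := by
  have h1 := SMove.swap bar p0
    (cat (m + 1) F0 ++ ((q2 ++ cat (m + 1) G2) ++ p1))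
    (cat (m + 1) F1 ++ ((q1 ++ cat (m + 1) G1) ++ p2))
    (cat (m + 1) F2 ++ (q0 ++ cat (m + 1) G0))
  have h2 := SMove.swap bar (p0 ++ (cat (m + 1) F1 ++ q1))
    (cat (m + 1) G1 ++ (p2 ++ (cat (m + 1) F0 ++ q2)))
    (cat (m + 1) G2 ++ (p1 ++ (cat (m + 1) F2 ++ q0)))
    (cat (m + 1) G0)
  refine ⟨_, ?_, _, h2, ?_⟩
  · simpa [six] using h1
  · show _ = _
    simp [six, cat]

theorem six_family (bar : β → β) (G : β → β → Prop) : ∀ (m : ℕ) (p0 p1 p2 q0 q1 q2 : List β)
    (F0 F1 F2 G0 G1 G2 : ℕ → List β),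
    (∀ j < m, F0 j ≠ [] ∧ F1 j ≠ [] ∧ F2 j ≠ [] ∧ G0 j ≠ [] ∧ G1 j ≠ [] ∧ G2 j ≠ []) →
    (0 < m → Jn G p0 (F1 0) ∧ Jn G p1 (F2 0) ∧ Jn G p2 (F0 0) ∧
      Jn G q0 (G1 0) ∧ Jn G q1 (G2 0) ∧ Jn G q2 (G0 0)) →
    (∀ j, j + 1 < m → Jn G (F0 j) (F1 (j + 1)) ∧ Jn G (F1 j) (F2 (j + 1)) ∧
      Jn G (F2 j) (F0 (j + 1)) ∧ Jn G (G0 j) (G1 (j + 1)) ∧ Jn G (G1 j) (G2 (j + 1)) ∧
      Jn G (G2 j) (G0 (j + 1))) →
    ∃ w', SSteps bar (2 * m) (six m p0 p1 p2 q0 q1 q2 F0 F1 F2 G0 G1 G2) w' ∧
      bad G w' ≤ bad G p0 + bad G p1 + bad G p2 + (bad G q0 + bad G q1 + bad G q2) +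
        ∑ j ∈ Finset.range m, (bad G (F0 j) + bad G (F1 j) + bad G (F2 j) +
          (bad G (G0 j) + bad G (G1 j) + bad G (G2 j))) + 5
  | 0, p0, p1, p2, q0, q1, q2, F0, F1, F2, G0, G1, G2, _, _, _ => by
      refine ⟨_, rfl, ?_⟩
      simp only [six, cat, List.append_nil, Finset.range_zero, Finset.sum_empty]
      have e1 := bad_append_le G p0 (q2 ++ (p1 ++ (q1 ++ (p2 ++ q0))))
      have e2 := bad_append_le G q2 (p1 ++ (q1 ++ (p2 ++ q0)))
      have e3 := bad_append_le G p1 (q1 ++ (p2 ++ q0))
      have e4 := bad_append_le G q1 (p2 ++ q0)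
      have e5 := bad_append_le G p2 q0
      omega
  | m + 1, p0, p1, p2, q0, q1, q2, F0, F1, F2, G0, G1, G2, hne, h0, hj => by
      obtain ⟨a1, a2, a3, a4, a5, a6⟩ := h0 (by omega)
      obtain ⟨n1, n2, n3, n4, n5, n6⟩ := hne 0 (by omega)
      obtain ⟨w', hw, hb⟩ := six_family bar G m (p0 ++ F1 0) (p1 ++ F2 0) (p2 ++ F0 0)
        (q2 ++ G0 0) (q0 ++ G1 0) (q1 ++ G2 0) (sh F1) (sh F2) (sh F0) (sh G0) (sh G1) (sh G2)
        (fun j hj' => by
          obtain ⟨b1, b2, b3, b4, b5, b6⟩ := hne (j + 1) (by omega)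
          exact ⟨b2, b3, b1, b4, b5, b6⟩)
        (fun hm => by
          obtain ⟨b1, b2, b3, b4, b5, b6⟩ := hj 0 (by omega)
          exact ⟨Jn.append_left n2 b2, Jn.append_left n3 b3, Jn.append_left n1 b1,
            Jn.append_left n4 b4, Jn.append_left n5 b5, Jn.append_left n6 b6⟩)
        (fun j hj' => by
          obtain ⟨b1, b2, b3, b4, b5, b6⟩ := hj (j + 1) (by omega)
          exact ⟨b2, b3, b1, b4, b5, b6⟩)
      refine ⟨w', ?_, ?_⟩
      · have := (six_round bar m p0 p1 p2 q0 q1 q2 F0 F1 F2 G0 G1 G2).trans hw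
        rw [show 2 * (m + 1) = 2 + 2 * m by omega]
        exact this
      · rw [Finset.sum_range_succ']
        have c1 := bad_append_jn G _ _ a1
        have c2 := bad_append_jn G _ _ a2
        have c3 := bad_append_jn G _ _ a3
        have c4 := bad_append_jn G _ _ a4
        have c5 := bad_append_jn G _ _ a5
        have c6 := bad_append_jn G _ _ a6
        have c7 : ∑ j ∈ Finset.range m, (bad G (sh F1 j) + bad G (sh F2 j) + bad G (sh F0 j) +
            (bad G (sh G0 j) + bad G (sh G1 j) + bad G (sh G2 j))) =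
            ∑ j ∈ Finset.range m, (bad G (F0 (j + 1)) + bad G (F1 (j + 1)) + bad G (F2 (j + 1)) +
            (bad G (G0 (j + 1)) + bad G (G1 (j + 1)) + bad G (G2 (j + 1)))) := by
          refine Finset.sum_congr rfl (fun j _ => ?_)
          simp only [sh]
          ring
        rw [c7] at hb
        omega

/-! ### The two types together -/

theorem mixed_family {bar : β → β} {G : β → β → Prop} (hG : ∀ x y, G x y ↔ G (bar y) (bar x))
    {w : List β} {k : ℕ} (m : ℕ) (a b c : ℕ → List β)
    (ha : ∀ j < m, a j ≠ []) (hb : ∀ j < m, b j ≠ []) (hc : ∀ j < m, c j ≠ [])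
    (h1 : ∀ j, j + 1 < m → Jn G (a j) (b (j + 1)))
    (h2 : ∀ j, j + 1 < m → Jn G (b j) (rv bar (c j)))
    (h3 : ∀ j, j + 1 < m → Jn G (rv bar (c (j + 1))) (a (j + 1)))
    (hw : SSteps bar k w (cat m b ++ (rv bar (cat m c) ++ cat m a))) :
    ∃ w', SSteps bar (k + m) w w' ∧
      bad G w' ≤ ∑ j ∈ Finset.range m, (bad G (a j) + bad G (b j) + bad G (c j)) + 2 := by
  have e1 := mixed_steps bar [] [] m b a (fun j => rv bar (c j)) []
  rw [← rv_cat] at e1
  simp only [List.nil_append, List.append_nil] at e1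
  refine ⟨_, hw.trans e1, ?_⟩
  have e2 := mixed_bad G m b a (fun j => rv bar (c j)) hb ha (fun j hj => rv_ne_nil (hc j hj))
    h2 h3 h1
  have e3 : ∑ j ∈ Finset.range m, (bad G (b j) + bad G (a j) + bad G (rv bar (c j))) ≤
      ∑ j ∈ Finset.range m, (bad G (a j) + bad G (b j) + bad G (c j)) := by
    refine Finset.sum_le_sum (fun j _ => ?_)
    have := bad_rv hG (c j)
    omega
  omega

theorem sum_two_halves (f : ℕ → ℕ) (h : ℕ) : ∑ j ∈ Finset.range (2 * (h + 1)), f j =
    f 0 + f (h + 1) + ∑ j ∈ Finset.range h, (f (j + 1) + f (j + 1 + (h + 1))) := by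
  rw [show 2 * (h + 1) = (h + 1) + (h + 1) by omega, Finset.sum_range_add,
    Finset.sum_range_succ', Finset.sum_range_succ', Finset.sum_add_distrib]
  have : ∀ x, f (h + 1 + (x + 1)) = f (x + 1 + (h + 1)) := fun x => by
    rw [Nat.add_comm]
  simp only [this, Nat.add_zero]
  omega

theorem pure_family {bar : β → β} {G : β → β → Prop} {w : List β} {k : ℕ} (h : ℕ)
    (a b c : ℕ → List β)
    (hne : ∀ j < 2 * (h + 1), a j ≠ [] ∧ b j ≠ [] ∧ c j ≠ [])
    (h1 : ∀ j, j + 1 < 2 * (h + 1) → Jn G (a j) (b (j + 1)))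
    (h2 : ∀ j, j + 1 < 2 * (h + 1) → Jn G (b j) (c (j + 1)))
    (h3 : ∀ j, j + 1 < 2 * (h + 1) → Jn G (c j) (a (j + 1)))
    (hw : SSteps bar k w (cat (2 * (h + 1)) a ++ (cat (2 * (h + 1)) b ++ cat (2 * (h + 1)) c))) :
    ∃ w', SSteps bar (k + 2 * (h + 1)) w w' ∧
      bad G w' ≤ ∑ j ∈ Finset.range (2 * (h + 1)), (bad G (a j) + bad G (b j) + bad G (c j)) + 5 := by
  have hs : ∀ S : ℕ → List β, cat (2 * (h + 1)) S =
      (S 0 ++ cat h (fun j => S (j + 1))) ++
        (S (h + 1) ++ cat h (fun j => S (j + 1 + (h + 1)))) := by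
    intro S
    rw [show 2 * (h + 1) = (h + 1) + (h + 1) by omega, cat_add]
    simp only [cat]
    rw [show (0 : ℕ) + (h + 1) = h + 1 by omega]
    rfl
  obtain ⟨w', hw', hbad⟩ := six_family bar G h (a 0) (b 0) (c 0) (a (h + 1)) (b (h + 1))
    (c (h + 1)) (fun j => a (j + 1)) (fun j => b (j + 1)) (fun j => c (j + 1))
    (fun j => a (j + 1 + (h + 1))) (fun j => b (j + 1 + (h + 1)))
    (fun j => c (j + 1 + (h + 1)))
    (fun j hj => by
      obtain ⟨x1, x2, x3⟩ := hne (j + 1) (by omega)
      obtain ⟨y1, y2, y3⟩ := hne (j + 1 + (h + 1)) (by omega)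
      exact ⟨x1, x2, x3, y1, y2, y3⟩)
    (fun hm => ⟨h1 0 (by omega), h2 0 (by omega), h3 0 (by omega),
      by have := h1 (h + 1) (by omega); rwa [show h + 1 + 1 = 0 + 1 + (h + 1) by omega] at this,
      by have := h2 (h + 1) (by omega); rwa [show h + 1 + 1 = 0 + 1 + (h + 1) by omega] at this,
      by have := h3 (h + 1) (by omega); rwa [show h + 1 + 1 = 0 + 1 + (h + 1) by omega] at this⟩)
    (fun j hj => by
      have x1 := h1 (j + 1) (by omega)
      have x2 := h2 (j + 1) (by omega)
      have x3 := h3 (j + 1) (by omega)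
      have y1 := h1 (j + 1 + (h + 1)) (by omega)
      have y2 := h2 (j + 1 + (h + 1)) (by omega)
      have y3 := h3 (j + 1 + (h + 1)) (by omega)
      rw [show j + 1 + (h + 1) + 1 = j + 1 + 1 + (h + 1) by omega] at y1 y2 y3
      exact ⟨x1, x2, x3, y1, y2, y3⟩)
  have e1 := SMove.swap bar (a 0 ++ cat h (fun j => a (j + 1)))
    ((a (h + 1) ++ cat h (fun j => a (j + 1 + (h + 1)))) ++
      (cat (2 * (h + 1)) b ++ (c 0 ++ cat h (fun j => c (j + 1)))))
    (c (h + 1) ++ cat h (fun j => c (j + 1 + (h + 1)))) []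
  have e2 := SMove.swap bar ((a 0 ++ cat h (fun j => a (j + 1))) ++
      (c (h + 1) ++ cat h (fun j => c (j + 1 + (h + 1)))))
    (a (h + 1) ++ cat h (fun j => a (j + 1 + (h + 1))))
    (cat (2 * (h + 1)) b ++ (c 0 ++ cat h (fun j => c (j + 1)))) []
  have e3 : SSteps bar 2 (cat (2 * (h + 1)) a ++ (cat (2 * (h + 1)) b ++ cat (2 * (h + 1)) c))
      (six h (a 0) (b 0) (c 0) (a (h + 1)) (b (h + 1)) (c (h + 1)) (fun j => a (j + 1))
        (fun j => b (j + 1)) (fun j => c (j + 1)) (fun j => a (j + 1 + (h + 1)))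
        (fun j => b (j + 1 + (h + 1))) (fun j => c (j + 1 + (h + 1)))) := by
    refine ⟨_, ?_, _, e2, ?_⟩
    · rw [hs a, hs c]
      simpa using e1
    · show _ = _
      rw [hs b]
      simp [six]
  refine ⟨w', ?_, ?_⟩
  · have := (hw.trans e3).trans hw'
    rw [show k + 2 * (h + 1) = k + 2 + 2 * h by omega]
    exact this
  · have e4 : ∑ j ∈ Finset.range (2 * (h + 1)), (bad G (a j) + bad G (b j) + bad G (c j)) =
        bad G (a 0) + bad G (b 0) + bad G (c 0) + (bad G (a (h + 1)) + bad G (b (h + 1)) +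
          bad G (c (h + 1))) + ∑ j ∈ Finset.range h, (bad G (a (j + 1)) + bad G (b (j + 1)) +
          bad G (c (j + 1)) + (bad G (a (j + 1 + (h + 1))) + bad G (b (j + 1 + (h + 1))) +
          bad G (c (j + 1 + (h + 1))))) := by
      rw [sum_two_halves (fun j => bad G (a j) + bad G (b j) + bad G (c j)) h]
    rw [e4]
    exact hbad

/-- The new link between the cut of `S` and the cut of `T`, at the head between the segments
`j` and `j + 1`: `s = true` means that the first end of the cut is at the left side. -/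
def LinkCond (bar : β → β) (G : β → β → Prop) (s t : Bool) (S T : ℕ → List β) (j : ℕ) : Prop :=
  match s, t with
  | true, true => Jn G (T j) (S (j + 1))
  | true, false => Jn G (rv bar (S (j + 1))) (T (j + 1))
  | false, true => Jn G (S j) (rv bar (T j))
  | false, false => Jn G (S j) (T (j + 1))

theorem getLast?_rv (bar : β → β) (u : List β) : (rv bar u).getLast? = u.head?.map bar := by
  simp [rv]

theorem head?_rv (bar : β → β) (u : List β) : (rv bar u).head? = u.getLast?.map bar := by
  simp [rv]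

theorem Jn.rv {bar : β → β} {G : β → β → Prop} (hG : ∀ x y, G x y ↔ G (bar y) (bar x))
    {u v : List β} (h : Jn G u v) : Jn G (rv bar v) (rv bar u) := by
  intro x hx y hy
  rw [getLast?_rv] at hx
  rw [head?_rv] at hy
  simp only [Option.mem_def, Option.map_eq_some_iff] at hx hy
  obtain ⟨x', hx', rfl⟩ := hx
  obtain ⟨y', hy', rfl⟩ := hy
  exact (hG _ _).1 (h y' hy' x' hx')

/-- A family of heads in monotone position on three lines. -/
theorem family {bar : β → β} (hb : Function.Involutive bar) {G : β → β → Prop}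
    (hG : ∀ x y, G x y ↔ G (bar y) (bar x)) {w : List β} {k : ℕ} (h : ℕ)
    (S0 S1 S2 : ℕ → List β) (e0 e1 e2 : Bool)
    (hne : ∀ j < 2 * (h + 1), S0 j ≠ [] ∧ S1 j ≠ [] ∧ S2 j ≠ [])
    (h01 : ∀ j, j + 1 < 2 * (h + 1) → LinkCond bar G e0 e1 S0 S1 j)
    (h12 : ∀ j, j + 1 < 2 * (h + 1) → LinkCond bar G e1 e2 S1 S2 j)
    (h20 : ∀ j, j + 1 < 2 * (h + 1) → LinkCond bar G e2 e0 S2 S0 j)
    (hw : SSteps bar k w (cat (2 * (h + 1)) S0 ++ (cat (2 * (h + 1)) S1 ++ cat (2 * (h + 1)) S2))) :
    ∃ w', SSteps bar (k + 3 + 2 * (h + 1)) w w' ∧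
      bad G w' ≤ ∑ j ∈ Finset.range (2 * (h + 1)),
        (bad G (S0 j) + bad G (S1 j) + bad G (S2 j)) + 5 := by
  have hn0 : ∀ j < 2 * (h + 1), S0 j ≠ [] := fun j hj => (hne j hj).1
  have hn1 : ∀ j < 2 * (h + 1), S1 j ≠ [] := fun j hj => (hne j hj).2.1
  have hn2 : ∀ j < 2 * (h + 1), S2 j ≠ [] := fun j hj => (hne j hj).2.2
  have R : ∀ (x y z : List β), Rearr bar [cat (2 * (h + 1)) S0, cat (2 * (h + 1)) S1,
      cat (2 * (h + 1)) S2] [x, y, z] → SSteps bar (k + 3) w (x ++ (y ++ z)) := by
    intro x y z hr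
    have := hr.steps []
    simp only [List.nil_append, List.flatten_cons, List.flatten_nil, List.append_nil,
      List.length_cons, List.length_nil] at this
    exact hw.trans this
  have sw : ∀ {u v : List β}, Jn G u v → Jn G (rv bar v) (rv bar u) := fun hh => hh.rv hG
  have sw' : ∀ {u v : List β}, Jn G (rv bar u) v → Jn G (rv bar v) u := fun {u v} hh => by
    have := hh.rv hG
    rwa [rv_rv hb] at this
  have sw'' : ∀ {u v : List β}, Jn G u (rv bar v) → Jn G v (rv bar u) := fun {u v} hh => by
    have := hh.rv hG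
    rwa [rv_rv hb] at this
  cases e0 <;> cases e1 <;> cases e2 <;> simp only [LinkCond] at h01 h12 h20
  · -- ff ff ff : S0 -> S1 -> S2 -> S0
    obtain ⟨w', h1, h2⟩ := pure_family h S0 S1 S2 hne h01 h12 h20
      (R _ _ _ (Rearr.cons [] _ _ _ _ (Or.inl rfl) (Rearr.cons [] _ _ _ _ (Or.inl rfl)
        (Rearr.cons [] _ _ _ _ (Or.inl rfl) Rearr.nil))))
    exact ⟨w', h1, h2⟩
  · -- ff ff tt : L0~R1, L1~L2, R2~R0 : a = S0, b = S1, c = S2
    obtain ⟨w', h1, h2⟩ := mixed_family hG (2 * (h + 1)) S0 S1 S2 hn0 hn1 hn2 h01 h12 h20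
      (R _ _ _ (Rearr.cons [_] [_] _ _ _ (Or.inl rfl) (Rearr.cons [_] [] _ _ _ (Or.inr rfl)
        (Rearr.cons [] [] _ _ _ (Or.inl rfl) Rearr.nil))))
    exact ⟨w', h1, by omega⟩
  · -- ff tt ff : L0~L1, R1~R2, L2~R0 : a = S2, b = S0, c = S1
    obtain ⟨w', h1, h2⟩ := mixed_family hG (2 * (h + 1)) S2 S0 S1 hn2 hn0 hn1 h20 h01 h12
      (R _ _ _ (Rearr.cons [] [_, _] _ _ _ (Or.inl rfl) (Rearr.cons [] [_] _ _ _ (Or.inr rfl)
        (Rearr.cons [] [] _ _ _ (Or.inl rfl) Rearr.nil))))
    refine ⟨w', h1, h2.trans ?_⟩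
    have : ∑ j ∈ Finset.range (2 * (h + 1)), (bad G (S2 j) + bad G (S0 j) + bad G (S1 j)) =
        ∑ j ∈ Finset.range (2 * (h + 1)), (bad G (S0 j) + bad G (S1 j) + bad G (S2 j)) :=
      Finset.sum_congr rfl (fun j _ => by ring)
    omega
  · -- ff tt tt : L0~L1, R1~L2, R2~R0 : L2~R1 : a = S2, b = S1, c = S0
    obtain ⟨w', h1, h2⟩ := mixed_family hG (2 * (h + 1)) S2 S1 S0 hn2 hn1 hn0 h12
      (fun j hj => sw'' (h01 j hj)) (fun j hj => sw' (h20 j hj))
      (R _ _ _ (Rearr.cons [_] [_] _ _ _ (Or.inl rfl) (Rearr.cons [] [_] _ _ _ (Or.inr rfl)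
        (Rearr.cons [] [] _ _ _ (Or.inl rfl) Rearr.nil))))
    refine ⟨w', h1, h2.trans ?_⟩
    have : ∑ j ∈ Finset.range (2 * (h + 1)), (bad G (S2 j) + bad G (S1 j) + bad G (S0 j)) =
        ∑ j ∈ Finset.range (2 * (h + 1)), (bad G (S0 j) + bad G (S1 j) + bad G (S2 j)) :=
      Finset.sum_congr rfl (fun j _ => by ring)
    omega
  · -- tt ff ff : R0~R1, L1~R2, L2~L0 : a = S1, b = S2, c = S0
    obtain ⟨w', h1, h2⟩ := mixed_family hG (2 * (h + 1)) S1 S2 S0 hn1 hn2 hn0 h12 h20 h01
      (R _ _ _ (Rearr.cons [_, _] [] _ _ _ (Or.inl rfl) (Rearr.cons [] [_] _ _ _ (Or.inr rfl)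
        (Rearr.cons [] [] _ _ _ (Or.inl rfl) Rearr.nil))))
    refine ⟨w', h1, h2.trans ?_⟩
    have : ∑ j ∈ Finset.range (2 * (h + 1)), (bad G (S1 j) + bad G (S2 j) + bad G (S0 j)) =
        ∑ j ∈ Finset.range (2 * (h + 1)), (bad G (S0 j) + bad G (S1 j) + bad G (S2 j)) :=
      Finset.sum_congr rfl (fun j _ => by ring)
    omega
  · -- tt ff tt : R0~R1, L1~L2, R2~L0 : L0~R2 : a = S0, b = S2, c = S1
    obtain ⟨w', h1, h2⟩ := mixed_family hG (2 * (h + 1)) S0 S2 S1 hn0 hn2 hn1 h20
      (fun j hj => sw'' (h12 j hj)) (fun j hj => sw' (h01 j hj))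
      (R _ _ _ (Rearr.cons [_, _] [] _ _ _ (Or.inl rfl) (Rearr.cons [_] [] _ _ _ (Or.inr rfl)
        (Rearr.cons [] [] _ _ _ (Or.inl rfl) Rearr.nil))))
    refine ⟨w', h1, h2.trans ?_⟩
    have : ∑ j ∈ Finset.range (2 * (h + 1)), (bad G (S0 j) + bad G (S2 j) + bad G (S1 j)) =
        ∑ j ∈ Finset.range (2 * (h + 1)), (bad G (S0 j) + bad G (S1 j) + bad G (S2 j)) :=
      Finset.sum_congr rfl (fun j _ => by ring)
    omega
  · -- tt tt ff : R0~L1, R1~R2, L2~L0 : L1~R0 : a = S1, b = S0, c = S2
    obtain ⟨w', h1, h2⟩ := mixed_family hG (2 * (h + 1)) S1 S0 S2 hn1 hn0 hn2 h01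
      (fun j hj => sw'' (h20 j hj)) (fun j hj => sw' (h12 j hj))
      (R _ _ _ (Rearr.cons [] [_, _] _ _ _ (Or.inl rfl) (Rearr.cons [_] [] _ _ _ (Or.inr rfl)
        (Rearr.cons [] [] _ _ _ (Or.inl rfl) Rearr.nil))))
    refine ⟨w', h1, h2.trans ?_⟩
    have : ∑ j ∈ Finset.range (2 * (h + 1)), (bad G (S1 j) + bad G (S0 j) + bad G (S2 j)) =
        ∑ j ∈ Finset.range (2 * (h + 1)), (bad G (S0 j) + bad G (S1 j) + bad G (S2 j)) :=
      Finset.sum_congr rfl (fun j _ => by ring)
    omega
  · -- tt tt tt : L1~R0, L2~R1, L0~R2 : S1 -> S0 -> S2 -> S1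
    obtain ⟨w', h1, h2⟩ := pure_family h S1 S0 S2 (fun j hj => ⟨hn1 j hj, hn0 j hj, hn2 j hj⟩)
      h01 h20 h12
      (R _ _ _ (Rearr.cons [_] [_] _ _ _ (Or.inl rfl) (Rearr.cons [] [_] _ _ _ (Or.inl rfl)
        (Rearr.cons [] [] _ _ _ (Or.inl rfl) Rearr.nil))))
    refine ⟨w', h1, h2.trans ?_⟩
    have : ∑ j ∈ Finset.range (2 * (h + 1)), (bad G (S1 j) + bad G (S0 j) + bad G (S2 j)) =
        ∑ j ∈ Finset.range (2 * (h + 1)), (bad G (S0 j) + bad G (S1 j) + bad G (S2 j)) :=
      Finset.sum_congr rfl (fun j _ => by ring)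
    omega

end Pool.Agent.Lib.MP29a61eN.Fam
end

section
/-!
# Twins, part A: slots, types of components, the flip
-/
set_option linter.unusedSectionVars false

namespace Pool.Agent.Lib.MP29a61eN.Twin

open Finset Cmp

variable {X : Type} [Fintype X] [DecidableEq X]

/-- the grey-black step on the letters -/
def Hp (b v : Equiv.Perm X) : Equiv.Perm X := b.symm.trans v

@[simp] theorem Hp_apply (b v : Equiv.Perm X) (y : X) : Hp b v y = v (b.symm y) := rfl

/-- the junction to the left of `y` is in `E` -/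
def YY (b : Equiv.Perm X) (E : Finset X) (y : X) : Prop := b.symm y ∈ E

/-- membership in `E` -/
def EE (E : Finset X) (y : X) : Prop := y ∈ E

/-- the slots of a component -/
abbrev Slot (m : ℕ) := Fin m × Option (Option (Fin (m + 1)))

/-- the letters of the slots: bottom of the value line, left neighbour, letters above -/
noncomputable def S (b v : Equiv.Perm X) (E : Finset X) (m : ℕ) (j : X) : Slot m → X
  | (a, none) => comp v (EE E) ((Hp b v ^ a.val) j)
  | (a, some none) => b.symm ((Hp b v ^ a.val) j)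
  | (a, some (some i)) => (v ^ i.val) ((Hp b v ^ a.val) j)

/-- the deterministic types -/
abbrev Ty (m T : ℕ) := (Fin (m + 1) × Bool) ×
  (Fin m → Fin (m + 1) → (Bool × Bool) × (Fin T × Fin T)) × (Slot m → Slot m → Bool)

section ty

variable (b v : Equiv.Perm X) (E : Finset X) (tau : X → ℕ) {m T : ℕ}
  (hH : ∀ y, ∃ a, a < m ∧ (¬ YY b E ((Hp b v ^ a) y) ∨ (Hp b v ^ (a + 1)) y = y))
  (hT : ∀ x, tau x < T)

/-- the deterministic type of a letter (as the root of a component) -/
noncomputable def ty (j : X) : Ty m T :=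
  ((⟨len hH j, Nat.lt_succ_of_le (len_le hH j)⟩, decide (comp (Hp b v) (YY b E) j = j)),
    fun a i => ((decide ((v ^ i.val) ((Hp b v ^ a.val) j) ∈ E),
      decide (b.symm ((v ^ i.val) ((Hp b v ^ a.val) j)) ∈ E)),
      (⟨tau ((v ^ i.val) ((Hp b v ^ a.val) j)), hT _⟩,
        ⟨tau (b.symm ((v ^ i.val) ((Hp b v ^ a.val) j))), hT _⟩)),
    fun σ σ' => decide (S b v E m j σ = S b v E m j σ'))

variable {b v E tau}

theorem ty_len {j j' : X} (h : ty b v E tau hH hT j = ty b v E tau hH hT j') :
    len hH j = len hH j' := by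
  have h1 : (ty b v E tau hH hT j).1.1 = (ty b v E tau hH hT j').1.1 := by rw [h]
  exact congrArg Fin.val h1

theorem ty_base {j j' : X} (h : ty b v E tau hH hT j = ty b v E tau hH hT j') :
    comp (Hp b v) (YY b E) j = j ↔ comp (Hp b v) (YY b E) j' = j' := by
  have h1 : (ty b v E tau hH hT j).1.2 = (ty b v E tau hH hT j').1.2 := by rw [h]
  simpa [ty] using h1

theorem ty_fn {j j' : X} (h : ty b v E tau hH hT j = ty b v E tau hH hT j') (a : Fin m)
    (i : Fin (m + 1)) : (ty b v E tau hH hT j).2.1 a i = (ty b v E tau hH hT j').2.1 a i := by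
  rw [h]

theorem ty_E {j j' : X} (h : ty b v E tau hH hT j = ty b v E tau hH hT j') {a i : ℕ}
    (ha : a < m) (hi : i ≤ m) :
    (v ^ i) ((Hp b v ^ a) j) ∈ E ↔ (v ^ i) ((Hp b v ^ a) j') ∈ E := by
  have h1 := congrArg (fun z => z.1.1) (ty_fn hH hT h ⟨a, ha⟩ ⟨i, Nat.lt_succ_of_le hi⟩)
  simpa [ty] using h1

theorem ty_El {j j' : X} (h : ty b v E tau hH hT j = ty b v E tau hH hT j') {a i : ℕ}
    (ha : a < m) (hi : i ≤ m) :
    b.symm ((v ^ i) ((Hp b v ^ a) j)) ∈ E ↔ b.symm ((v ^ i) ((Hp b v ^ a) j')) ∈ E := by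
  have h1 := congrArg (fun z => z.1.2) (ty_fn hH hT h ⟨a, ha⟩ ⟨i, Nat.lt_succ_of_le hi⟩)
  simpa [ty] using h1

theorem ty_tau {j j' : X} (h : ty b v E tau hH hT j = ty b v E tau hH hT j') {a i : ℕ}
    (ha : a < m) (hi : i ≤ m) :
    tau ((v ^ i) ((Hp b v ^ a) j)) = tau ((v ^ i) ((Hp b v ^ a) j')) := by
  have h1 := congrArg (fun z => z.2.1) (ty_fn hH hT h ⟨a, ha⟩ ⟨i, Nat.lt_succ_of_le hi⟩)
  simpa [ty] using h1

theorem ty_taul {j j' : X} (h : ty b v E tau hH hT j = ty b v E tau hH hT j') {a i : ℕ}
    (ha : a < m) (hi : i ≤ m) :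
    tau (b.symm ((v ^ i) ((Hp b v ^ a) j))) = tau (b.symm ((v ^ i) ((Hp b v ^ a) j'))) := by
  have h1 := congrArg (fun z => z.2.2) (ty_fn hH hT h ⟨a, ha⟩ ⟨i, Nat.lt_succ_of_le hi⟩)
  simpa [ty] using h1

theorem ty_pat {j j' : X} (h : ty b v E tau hH hT j = ty b v E tau hH hT j') (σ σ' : Slot m) :
    S b v E m j σ = S b v E m j σ' ↔ S b v E m j' σ = S b v E m j' σ' := by
  have h1 : (ty b v E tau hH hT j).2.2 σ σ' = (ty b v E tau hH hT j').2.2 σ σ' := by rw [h]
  simpa [ty] using h1

end ty

/-! ### The flip -/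

variable {m T Q : ℕ}

/-- the slot `σ` is a letter of the strip above the letter number `a`, in range, and not the left
neighbour of a letter of the component -/
def cnd (θ : Ty m T) (σ : Slot m) (a : Fin m) : Prop :=
  (∃ i : Fin (m + 1), θ.2.2 σ (a, some (some i)) = true ∧ ∀ i' ≤ i, (θ.2.1 a i').1.1 = true) ∧
  a.val < θ.1.1.val ∧
  ¬ ∃ a' : Fin m, a'.val < θ.1.1.val ∧ (θ.2.1 a' 0).1.2 = true ∧ θ.2.2 σ (a', some none) = true

open Classical in
/-- the value line that rules the shift of the slot `σ` -/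
noncomputable def rep (θ : Ty m T) (σ : Slot m) : Option (Fin m) :=
  if h : ∃ a, cnd θ σ a then some (Classical.choose h) else none

theorem rep_some {θ : Ty m T} {σ : Slot m} {a : Fin m} (h : rep θ σ = some a) : cnd θ σ a := by
  classical
  unfold rep at h
  split_ifs at h with h1
  rw [Option.some.injEq] at h
  rw [← h]
  exact Classical.choose_spec h1

theorem rep_none {θ : Ty m T} {σ : Slot m} (h : rep θ σ = none) (a : Fin m) : ¬ cnd θ σ a := by
  classical
  unfold rep at h
  split_ifs at h with h1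
  intro h2
  exact h1 ⟨a, h2⟩

theorem rep_congr {θ : Ty m T} {σ σ' : Slot m} (h : ∀ a, cnd θ σ a ↔ cnd θ σ' a) :
    rep θ σ = rep θ σ' := by
  classical
  have : cnd θ σ = cnd θ σ' := funext fun a => propext (h a)
  unfold rep
  rw [this]

/-- the alphabet: a colour of the value line and a phase -/
abbrev A (Q : ℕ) := Bool × Fin (Q + 1)

/-- flip all colours, shift the phases of the strips -/
noncomputable def star (θ : Ty m T) (κ : Slot m → A Q) : Slot m → A Q := fun σ =>
  (!(κ σ).1, match rep θ σ with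
    | none => (κ σ).2
    | some a => if (κ (a, none)).1 = true then (κ σ).2 + 1 else (κ σ).2 - 1)

theorem star_fst (θ : Ty m T) (κ : Slot m → A Q) (σ : Slot m) : (star θ κ σ).1 = !(κ σ).1 := rfl

theorem star_none {θ : Ty m T} {κ : Slot m → A Q} {σ : Slot m} (h : rep θ σ = none) :
    (star θ κ σ).2 = (κ σ).2 := by
  unfold star
  simp only [h]

theorem star_some {θ : Ty m T} {κ : Slot m → A Q} {σ : Slot m} {a : Fin m}
    (h : rep θ σ = some a) :
    (star θ κ σ).2 = if (κ (a, none)).1 = true then (κ σ).2 + 1 else (κ σ).2 - 1 := by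
  unfold star
  simp only [h]

theorem star_star (θ : Ty m T) (κ : Slot m → A Q) : star θ (star θ κ) = κ := by
  funext σ
  apply Prod.ext
  · rw [star_fst, star_fst, Bool.not_not]
  · rcases h : rep θ σ with _ | a
    · rw [star_none h, star_none h]
    · rw [star_some h, star_fst, star_some h]
      by_cases hc : (κ (a, none)).1 = true
      · rw [hc]; simp
      · rw [Bool.not_eq_true] at hc
        rw [hc]; simp

/-- no wrap-around -/
def legal (θ : Ty m T) (κ : Slot m → A Q) : Prop :=
  ∀ σ a, rep θ σ = some a →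
    if (κ (a, none)).1 = true then (κ σ).2 ≠ Fin.last Q else (κ σ).2 ≠ 0

theorem last_add_one_ne {Q : ℕ} {p : Fin (Q + 1)} (h : p ≠ Fin.last Q) : p + 1 ≠ 0 := by
  intro h1
  apply h
  exact add_right_cancel (h1.trans (Fin.last_add_one Q).symm)

theorem sub_one_ne_last {Q : ℕ} {p : Fin (Q + 1)} (h : p ≠ 0) : p - 1 ≠ Fin.last Q := by
  intro h1
  apply h
  have : p = Fin.last Q + 1 := by rw [← h1]; simp
  rw [this]
  exact Fin.last_add_one Q

theorem legal_star {θ : Ty m T} {κ : Slot m → A Q} (h : legal θ κ) : legal θ (star θ κ) := by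
  intro σ a ha
  have h1 := h σ a ha
  rw [star_fst, star_some ha]
  by_cases hc : (κ (a, none)).1 = true
  · rw [if_pos hc] at h1
    rw [hc]
    simp only [Bool.not_true, Bool.false_eq_true, if_false, if_true]
    exact last_add_one_ne h1
  · rw [if_neg hc] at h1
    rw [Bool.not_eq_true] at hc
    rw [hc]
    simp only [Bool.not_false, if_true, Bool.false_eq_true, if_false]
    exact sub_one_ne_last h1

/-- the pattern of types is respected by the flip -/
theorem star_compat {b v : Equiv.Perm X} {E : Finset X} {tau : X → ℕ}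
    (hH : ∀ y, ∃ a, a < m ∧ (¬ YY b E ((Hp b v ^ a) y) ∨ (Hp b v ^ (a + 1)) y = y))
    (hT : ∀ x, tau x < T) (j : X) (κ : Slot m → A Q)
    (hκ : ∀ σ σ', S b v E m j σ = S b v E m j σ' → κ σ = κ σ') (σ σ' : Slot m)
    (h : S b v E m j σ = S b v E m j σ') :
    star (ty b v E tau hH hT j) κ σ = star (ty b v E tau hH hT j) κ σ' := by
  have hrep : rep (ty b v E tau hH hT j) σ = rep (ty b v E tau hH hT j) σ' := by
    apply rep_congr
    intro a
    unfold cnd
    simp only [ty, h]
  apply Prod.ext
  · rw [star_fst, star_fst, hκ σ σ' h]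
  · rcases h1 : rep (ty b v E tau hH hT j) σ with _ | a
    · have h2 : rep (ty b v E tau hH hT j) σ' = none := by rw [← hrep, h1]
      rw [star_none h1, star_none h2, hκ σ σ' h]
    · have h2 : rep (ty b v E tau hH hT j) σ' = some a := by rw [← hrep, h1]
      rw [star_some h1, star_some h2, hκ σ σ' h]

end Pool.Agent.Lib.MP29a61eN.Twin
end

section
/-!
# Twins, part B: matching of the roots
-/
set_option linter.unusedSectionVars false

namespace Pool.Agent.Lib.MP29a61eN.Twin

open Finset Cmp

variable {X : Type} [Fintype X] [DecidableEq X] {b v : Equiv.Perm X} {E : Finset X}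
  {tau : X → ℕ} {m T : ℕ}

/-- every letter lies in few slot tuples -/
theorem card_slots (hv : ∀ y, ∃ a, a < m ∧ (¬ EE E ((v ^ a) y) ∨ (v ^ (a + 1)) y = y)) (x : X) :
    (univ.filter (fun j => ∃ σ, S b v E m j σ = x)).card ≤ m * m + m + m * (m + 1) := by
  classical
  set A1 : Finset X := (univ : Finset (Fin m)).biUnion (fun a =>
    (univ.filter (fun y => comp v (EE E) y = x)).image (fun y => ((Hp b v) ^ a.val).symm y))
    with hA1
  set A2 : Finset X := (univ : Finset (Fin m)).image
    (fun a => ((Hp b v) ^ a.val).symm (b x)) with hA2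
  set A3 : Finset X := (univ : Finset (Fin m × Fin (m + 1))).image
    (fun p => ((Hp b v) ^ p.1.val).symm ((v ^ p.2.val).symm x)) with hA3
  have hsub : univ.filter (fun j => ∃ σ, S b v E m j σ = x) ⊆ A1 ∪ A2 ∪ A3 := by
    intro j hj
    rw [Finset.mem_filter] at hj
    obtain ⟨_, ⟨a, o⟩, hσ⟩ := hj
    rw [Finset.mem_union, Finset.mem_union]
    rcases o with _ | (_ | i)
    · left; left
      rw [hA1, Finset.mem_biUnion]
      refine ⟨a, Finset.mem_univ _, ?_⟩
      rw [Finset.mem_image]
      refine ⟨((Hp b v) ^ a.val) j, ?_, by simp⟩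
      rw [Finset.mem_filter]
      exact ⟨Finset.mem_univ _, hσ⟩
    · left; right
      rw [hA2, Finset.mem_image]
      refine ⟨a, Finset.mem_univ _, ?_⟩
      have : b.symm (((Hp b v) ^ a.val) j) = x := hσ
      rw [← this]
      simp
    · right
      rw [hA3, Finset.mem_image]
      refine ⟨(a, i), Finset.mem_univ _, ?_⟩
      have : (v ^ i.val) (((Hp b v) ^ a.val) j) = x := hσ
      rw [← this]
      simp
  refine (Finset.card_le_card hsub).trans ?_
  refine (Finset.card_union_le _ _).trans ?_
  have h1 : A1.card ≤ m * m := by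
    refine Finset.card_biUnion_le.trans ?_
    calc ∑ a : Fin m, ((univ.filter (fun y => comp v (EE E) y = x)).image
          (fun y => ((Hp b v) ^ a.val).symm y)).card ≤ ∑ _a : Fin m, m := by
          apply Finset.sum_le_sum
          intro a _
          exact Finset.card_image_le.trans (card_comp_le hv x)
      _ = m * m := by simp
  have h2 : A2.card ≤ m := Finset.card_image_le.trans (by simp)
  have h3 : A3.card ≤ m * (m + 1) := Finset.card_image_le.trans (by simp)
  have h4 := Finset.card_union_le A1 A2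
  omega

/-- adjacency of components -/
def adj (b v : Equiv.Perm X) (E : Finset X) (a a' : X) : Prop :=
  ∃ x, (comp (Hp b v) (YY b E) x = a ∧ comp (Hp b v) (YY b E) (b x) = a') ∨
    (comp (Hp b v) (YY b E) x = a' ∧ comp (Hp b v) (YY b E) (b x) = a)

theorem adj_symm {a a' : X} (h : adj b v E a a') : adj b v E a' a := by
  obtain ⟨x, h | h⟩ := h
  · exact ⟨x, Or.inr h⟩
  · exact ⟨x, Or.inl h⟩

open Classical in
/-- the neighbours of a component -/
noncomputable def nb (b v : Equiv.Perm X) (E : Finset X) (a : X) : Finset X :=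
  (univ.filter (fun y => comp (Hp b v) (YY b E) y = a)).image
      (fun y => comp (Hp b v) (YY b E) (b y)) ∪
    (univ.filter (fun y => comp (Hp b v) (YY b E) y = a)).image
      (fun y => comp (Hp b v) (YY b E) (b.symm y))

theorem mem_nb {a a' : X} (h : adj b v E a a') : a' ∈ nb b v E a := by
  classical
  unfold nb
  rw [Finset.mem_union, Finset.mem_image, Finset.mem_image]
  obtain ⟨x, ⟨h1, h2⟩ | ⟨h1, h2⟩⟩ := h
  · left
    exact ⟨x, by rw [Finset.mem_filter]; exact ⟨Finset.mem_univ _, h1⟩, h2⟩
  · right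
    exact ⟨b x, by rw [Finset.mem_filter]; exact ⟨Finset.mem_univ _, h2⟩, by simpa using h1⟩

theorem card_nb (hH : ∀ y, ∃ a, a < m ∧ (¬ YY b E ((Hp b v ^ a) y) ∨ (Hp b v ^ (a + 1)) y = y))
    (a : X) : (nb b v E a).card ≤ 2 * m := by
  classical
  unfold nb
  refine (Finset.card_union_le _ _).trans ?_
  have h1 := card_comp_le hH a
  have h2 : ((univ.filter (fun y => comp (Hp b v) (YY b E) y = a)).image
      (fun y => comp (Hp b v) (YY b E) (b y))).card ≤ m := by
    refine Finset.card_image_le.trans ?_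
    exact h1
  have h3 : ((univ.filter (fun y => comp (Hp b v) (YY b E) y = a)).image
      (fun y => comp (Hp b v) (YY b E) (b.symm y))).card ≤ m := by
    refine Finset.card_image_le.trans ?_
    exact h1
  omega

/-- the tuples used for the colouring: slot tuples and constant tuples -/
noncomputable def S2 (b v : Equiv.Perm X) (E : Finset X) (m : ℕ) : X ⊕ X → Slot m → X
  | Sum.inl j => S b v E m j
  | Sum.inr x => fun _ => x

theorem card_slots2 (hv : ∀ y, ∃ a, a < m ∧ (¬ EE E ((v ^ a) y) ∨ (v ^ (a + 1)) y = y)) (x : X) :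
    (univ.filter (fun j : X ⊕ X => ∃ σ, S2 b v E m j σ = x)).card
      ≤ m * m + m + m * (m + 1) + 1 := by
  classical
  have hsub : univ.filter (fun j : X ⊕ X => ∃ σ, S2 b v E m j σ = x) ⊆
      (univ.filter (fun j => ∃ σ, S b v E m j σ = x)).image Sum.inl ∪ {Sum.inr x} := by
    intro j hj
    rw [Finset.mem_filter] at hj
    obtain ⟨_, σ, hσ⟩ := hj
    rw [Finset.mem_union]
    cases j with
    | inl j =>
      left
      rw [Finset.mem_image]
      refine ⟨j, ?_, rfl⟩
      rw [Finset.mem_filter]
      exact ⟨Finset.mem_univ _, σ, hσ⟩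
    | inr y =>
      right
      rw [Finset.mem_singleton]
      have : y = x := hσ
      rw [this]
  refine (Finset.card_le_card hsub).trans ?_
  refine (Finset.card_union_le _ _).trans ?_
  have h1 := card_slots (b := b) hv x
  have h2 : ((univ.filter (fun j => ∃ σ, S b v E m j σ = x)).image
      (Sum.inl : X → X ⊕ X)).card ≤ m * m + m + m * (m + 1) :=
    Finset.card_image_le.trans h1
  rw [Finset.card_singleton]
  omega

/-- number of letters whose phase is extreme -/
theorem card_extreme {Q : ℕ} (f : X → A Q) (B : ℝ)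
    (hB : ∀ a : A Q, ((univ.filter (fun x => f x = a)).card : ℝ) ≤ B) :
    ((univ.filter (fun x => (f x).2 = 0 ∨ (f x).2 = Fin.last Q)).card : ℝ) ≤ 4 * B := by
  classical
  have hsub : univ.filter (fun x => (f x).2 = 0 ∨ (f x).2 = Fin.last Q) ⊆
      (univ.filter (fun x => f x = (true, 0)) ∪ univ.filter (fun x => f x = (false, 0))) ∪
      (univ.filter (fun x => f x = (true, Fin.last Q)) ∪
        univ.filter (fun x => f x = (false, Fin.last Q))) := by
    intro x hx
    rw [Finset.mem_filter] at hx
    simp only [Finset.mem_union, Finset.mem_filter, Finset.mem_univ, true_and]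
    rcases hfx : f x with ⟨c, p⟩
    rw [hfx] at hx
    rcases hx.2 with h | h
    · have hp : p = 0 := h
      subst hp
      cases c
      · left; right; rfl
      · left; left; rfl
    · have hp : p = Fin.last Q := h
      subst hp
      cases c
      · right; right; rfl
      · right; left; rfl
  have h1 := Finset.card_le_card hsub
  have h2 := Finset.card_union_le
    (univ.filter (fun x => f x = (true, 0)) ∪ univ.filter (fun x => f x = (false, 0)))
    (univ.filter (fun x => f x = (true, Fin.last Q)) ∪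
        univ.filter (fun x => f x = (false, Fin.last Q)))
  have h3 := Finset.card_union_le (univ.filter (fun x => f x = (true, 0)))
    (univ.filter (fun x => f x = (false, 0)))
  have h4 := Finset.card_union_le (univ.filter (fun x => f x = (true, Fin.last Q)))
    (univ.filter (fun x => f x = (false, Fin.last Q)))
  have h5 : (univ.filter (fun x => (f x).2 = 0 ∨ (f x).2 = Fin.last Q)).card ≤
      (univ.filter (fun x => f x = (true, 0))).card +
      (univ.filter (fun x => f x = (false, 0))).card +
      ((univ.filter (fun x => f x = (true, Fin.last Q))).card +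
      (univ.filter (fun x => f x = (false, Fin.last Q))).card) := by omega
  have h6 : ((univ.filter (fun x => (f x).2 = 0 ∨ (f x).2 = Fin.last Q)).card : ℝ) ≤
      (univ.filter (fun x => f x = (true, 0))).card +
      (univ.filter (fun x => f x = (false, 0))).card +
      ((univ.filter (fun x => f x = (true, Fin.last Q))).card +
      (univ.filter (fun x => f x = (false, Fin.last Q))).card) := by exact_mod_cast h5
  have h7 := hB (true, 0)
  have h8 := hB (false, 0)
  have h9 := hB (true, Fin.last Q)
  have h10 := hB (false, Fin.last Q)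
  linarith

/-- number of illegal roots -/
theorem card_illegal {Q : ℕ} (hH : ∀ y, ∃ a, a < m ∧
      (¬ YY b E ((Hp b v ^ a) y) ∨ (Hp b v ^ (a + 1)) y = y)) (hT : ∀ x, tau x < T)
    (hv : ∀ y, ∃ a, a < m ∧ (¬ EE E ((v ^ a) y) ∨ (v ^ (a + 1)) y = y)) (f : X → A Q) (B : ℝ)
    (hB : ∀ a : A Q, ((univ.filter (fun x => f x = a)).card : ℝ) ≤ B) :
    ∀ [DecidablePred fun j => ¬ legal (ty b v E tau hH hT j) (f ∘ S b v E m j)],
    ((univ.filter (fun j => ¬ legal (ty b v E tau hH hT j) (f ∘ S b v E m j))).card : ℝ)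
      ≤ (m * m + m + m * (m + 1) : ℕ) * (4 * B) := by
  classical
  intro _
  have hsub : univ.filter (fun j => ¬ legal (ty b v E tau hH hT j) (f ∘ S b v E m j)) ⊆
      (univ.filter (fun x => (f x).2 = 0 ∨ (f x).2 = Fin.last Q)).biUnion
        (fun x => univ.filter (fun j => ∃ σ, S b v E m j σ = x)) := by
    intro j hj
    rw [Finset.mem_filter] at hj
    obtain ⟨_, hj⟩ := hj
    unfold legal at hj
    push Not at hj
    obtain ⟨σ, a, _, h⟩ := hj
    rw [Finset.mem_biUnion]
    refine ⟨S b v E m j σ, ?_, ?_⟩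
    · rw [Finset.mem_filter]
      refine ⟨Finset.mem_univ _, ?_⟩
      by_cases hc : ((f ∘ S b v E m j) (a, none)).1 = true
      · right
        by_contra hne
        exact absurd h (by rw [if_pos hc]; simpa using hne)
      · left
        by_contra hne
        exact absurd h (by rw [if_neg hc]; simpa using hne)
    · rw [Finset.mem_filter]
      exact ⟨Finset.mem_univ _, σ, rfl⟩
  have h1 := Finset.card_le_card hsub
  have h2 : ((univ.filter (fun x => (f x).2 = 0 ∨ (f x).2 = Fin.last Q)).biUnion
        (fun x => univ.filter (fun j => ∃ σ, S b v E m j σ = x))).card ≤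
      (univ.filter (fun x => (f x).2 = 0 ∨ (f x).2 = Fin.last Q)).card *
        (m * m + m + m * (m + 1)) := by
    refine Finset.card_biUnion_le.trans ?_
    refine (Finset.sum_le_card_nsmul _ _ (m * m + m + m * (m + 1)) ?_).trans ?_
    · intro x _
      exact card_slots (b := b) hv x
    · rw [smul_eq_mul]
  have h3 := card_extreme f B hB
  have h4 : ((univ.filter (fun j => ¬ legal (ty b v E tau hH hT j)
      (f ∘ S b v E m j))).card : ℝ) ≤
      ((univ.filter (fun x => (f x).2 = 0 ∨ (f x).2 = Fin.last Q)).card : ℝ) *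
        (m * m + m + m * (m + 1) : ℕ) := by
    exact_mod_cast h1.trans h2
  refine h4.trans ?_
  rw [mul_comm]
  exact mul_le_mul_of_nonneg_left h3 (by positivity)

end Pool.Agent.Lib.MP29a61eN.Twin
end
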