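import Mathlib
import Pool.Agent.Lib.MP_29a61e_co.N2.Base
import Pool.Agent.Lib.MP_29a61e_co.N2.TwinB

/-!
# MP_29a61e_co, M(n) <= n/2 + o(n): the local part, piece 1 (structure, states, heads, level lemma, H1, H2)

Text: /team-store/MP_29a61e_h90_HALF.md, sections 1, 2, in the version with PHASES (helper44) and with
leftover components as world ends (helper58): no in-between links, no dependency chains.
All letters are plus. `b` = right neighbour (cyclic, with the frame letter), `v` = value successor
(cyclic). `E` = the active letters: for `x ∈ E` the junction `(x | b x)` and the grey edge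
`x -> v x` are used; for `x ∉ E` both are given up and `r(x)` is a world end for ever.
Each module `XXX` proves `theorem specXXX : SpecXXX` in `N2/XXX.lean`.
-/

namespace Pool.Agent.Lib.MP29a61eN

/-- The data of the scheme. `s` = twin map of the left ends (`s y = y`: `y` has no twin, then `l(y)` is
a world end), `c` = colour of the value line (`true` = L = leader, `false` = F = follower), `T x` = time at
which the right side of `x` is opened, `TL y` = time at which the left side of `y` is opened,
`ph` = phase, `W` = world links. -/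
structure Str (X : Type) where
  b : Equiv.Perm X
  v : Equiv.Perm X
  E : Finset X
  s : X → X
  c : X → Bool
  T : X → ℕ
  TL : X → ℕ
  ph : X → ℕ
  W : End X → End X

namespace Str

variable {X : Type} (S : Str X)

/-- The twin of a right end (junction). -/
def r (x : X) : X := S.b.symm (S.s (S.b x))

/-- World ends: `r(x)` with `x ∉ E`, `l(y)` with `y` unpaired. -/
def WEnd (e : End X) : Prop := (e.2 = true ∧ e.1 ∉ S.E) ∨ (e.2 = false ∧ S.s e.1 = e.1)

/-- The rules. -/
structure Ok : Prop where
  ss : ∀ y, S.s (S.s y) = y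
  paired : ∀ x ∈ S.E, S.s (S.b x) ≠ S.b x
  rE : ∀ x ∈ S.E, S.r x ∈ S.E
  sv : ∀ x ∈ S.E, S.s (S.v x) = S.v (S.r x)
  cv : ∀ x ∈ S.E, S.c (S.v x) = S.c x
  cs : ∀ y, S.s y ≠ y → S.c (S.s y) ≠ S.c y
  tl : ∀ x ∈ S.E, S.TL (S.b x) = S.T x
  lt : ∀ x ∈ S.E, S.TL x < S.T x
  /-- codes: same times along the value lines above `y` and above its twin -/
  code : ∀ y j, (∀ i < j, (S.v ^ i) y ∈ S.E ∧ (S.v ^ i) (S.s y) ∈ S.E) →
    S.TL ((S.v ^ j) y) = S.TL ((S.v ^ j) (S.s y)) ∧
    ((S.v ^ j) y ∈ S.E → (S.v ^ j) (S.s y) ∈ S.E → S.T ((S.v ^ j) y) = S.T ((S.v ^ j) (S.s y)))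
  /-- different times on a value line -/
  vline : ∀ x j, 1 ≤ j → (∀ i ≤ j, (S.v ^ i) x ∈ S.E) → S.T ((S.v ^ j) x) ≠ S.T x
  /-- different times of consecutive junctions of an H-line -/
  hline : ∀ x ∈ S.E, S.b.symm (S.v x) ∈ S.E → S.b.symm (S.v x) ≠ x →
    S.T (S.b.symm (S.v x)) ≠ S.T x
  phr : ∀ x ∈ S.E, S.ph (S.r x) = S.ph x
  /-- phases: above the twin of a follower the same junction or a smaller phase -/
  phs : ∀ y j, S.s y ≠ y → S.c y = false →
    (∀ i ≤ j, (S.v ^ i) y ∈ S.E ∧ (S.v ^ i) (S.s y) ∈ S.E) →
    S.ph ((S.v ^ j) (S.s y)) < S.ph ((S.v ^ j) y) ∨ (S.v ^ j) (S.s y) = S.r ((S.v ^ j) y)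
  wend : ∀ e, S.WEnd e → S.WEnd (S.W e)
  ww : ∀ e, S.WEnd e → S.W (S.W e) = e
  wne : ∀ e, S.WEnd e → S.W e ≠ e

/-- The left side of `y` is free. -/
def Lo (Op : Finset X) (y : X) : Prop := S.b.symm y ∉ S.E ∨ S.b.symm y ∈ Op

open Classical in
/-- The state (matching of the ends) with the set `Op` of opened junctions `(x | b x)`, `x ∈ Op`. -/
noncomputable def mu (Op : Finset X) : End X → End X
  | (y, false) =>
      if S.v.symm y ∈ Op ∧ (S.Lo Op y ∨ S.c y = true) then (S.v.symm y, true)
      else if S.Lo Op y then (if S.s y = y then S.W (y, false) else (S.s y, false))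
      else (S.b.symm y, true)
  | (x, true) =>
      if x ∉ S.E then S.W (x, true)
      else if x ∈ Op then
        (if S.Lo Op (S.v x) ∨ S.c x = true then (S.v x, false)
          else (S.b.symm (S.s (S.v x)), true))
      else if S.v.symm (S.b x) ∈ Op ∧ S.c (S.v.symm (S.b x)) = true then
        (S.r (S.v.symm (S.b x)), true)
      else (S.b x, false)

/-- Twin invariant sets of active letters. -/
structure Inv (Op : Finset X) : Prop where
  sub : ∀ x ∈ Op, x ∈ S.E
  inv : ∀ x ∈ Op, S.r x ∈ Op

/-- The head of the pair `{x, r x}` (used for leaders `x`, i.e. `c x = true`). -/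
noncomputable def head (Op : Finset X) (x : X) : Fin 6 → End X :=
  ![(x, true), S.mu Op (x, true), S.mu Op (S.r x, true), (S.r x, true),
    S.mu Op (S.v x, false), (S.v x, false)]

/-- `D` together with the twins of its elements, added to `Op`. -/
def addPairs [DecidableEq X] (Op D : Finset X) : Finset X :=
  Op ∪ D ∪ D.image S.r

/-- Admissible sets of opened junctions at time `t`. -/
structure Adm (t : ℕ) (Op : Finset X) : Prop extends S.Inv Op where
  lo : ∀ x ∈ S.E, S.T x < t → x ∈ Op
  hi : ∀ x ∈ Op, S.T x ≤ t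
  /-- the dependency rule: if the strip from the bottom `u` up to the follower `v^i u` is opened,
  `v^i u` has time `t` and its mirror image `v^i (s u)` is reached through active letters, then the mirror
  image is opened -/
  dc : ∀ u i, (∀ j ≤ i, (S.v ^ j) u ∈ Op) → S.v.symm u ∉ Op → S.c u = false → S.s u ≠ u →
    S.T ((S.v ^ i) u) = t → (∀ j ≤ i, (S.v ^ j) (S.s u) ∈ S.E) → (S.v ^ i) (S.s u) ∈ Op

/-- The set of junctions opened before the stage `(t, f)`. -/
def Op (t f : ℕ) : Finset X := S.E.filter (fun x => S.T x < t ∨ (S.T x = t ∧ S.ph x < f))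

/-- The leaders of the stage `(t, f)` (without the adjacencies `b x = v x`). -/
def K [DecidableEq X] (t f : ℕ) : Finset X :=
  S.E.filter (fun x => S.T x = t ∧ S.ph x = f ∧ S.c x = true ∧ S.b x ≠ S.v x)

end Str

/-! ### Modules STATE, TRIV, HEAD, STAGE -/

/-- STATE. `S.mu Op` is a perfect matching. (Case check; used: twins `s (v x) = v (r x)`, `r x ∈ E`,
`c (s y) ≠ c y`, so that `Lo (s y) ↔ Lo y` and `v⁻¹ (s y) ∈ Op ↔ v⁻¹ y ∈ Op`.) -/
def SpecState : Prop := ∀ (X : Type) (S : Str X) (Op : Finset X), S.Ok → S.Inv Op →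
  IsMatching (S.mu Op)

/-- TRIV. A pair with `b x = v x` is opened without changing the state. -/
def SpecTriv : Prop := ∀ (X : Type) [DecidableEq X] (S : Str X) (Op : Finset X) (x : X), S.Ok →
  S.Inv Op → x ∈ S.E → S.b x = S.v x → S.mu (S.addPairs Op {x}) = S.mu Op

/-- HEAD. Let `K` be a set of unopened leaders of one time `t` with `b x ≠ v x`. Their heads form a
family of heads of `S.mu Op`, and switching the heads of `D ⊆ K` gives the state with the pairs of
`D` opened. (Six ends: `r(x)`, `r(r x)`, `l(v x)` and their partners; two heads of the same time are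
disjoint by `hline` and by the colours.) -/
def SpecHead : Prop := ∀ (X : Type) [DecidableEq X] (S : Str X) (Op : Finset X) (K : Finset X)
    (t : ℕ), S.Ok → S.Inv Op →
    (∀ x ∈ K, x ∈ S.E ∧ x ∉ Op ∧ S.c x = true ∧ S.T x = t ∧ S.b x ≠ S.v x) →
    IsHeads (S.mu Op) (fun k : K => S.head Op k.1) ∧
    ∀ D : Finset K, switch (S.mu Op) (fun k : K => S.head Op k.1) D =
      S.mu (S.addPairs Op (D.map (Function.Embedding.subtype _)))

/-- STAGE. The stage sets: every subset of the pairs of one stage may be opened; opening all of them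
gives the next state (the adjacencies by TRIV); the boundary cases. -/
def SpecStage : Prop := ∀ (X : Type) [DecidableEq X] (S : Str X), S.Ok →
    (∀ t f, S.Inv (S.Op t f)) ∧
    (∀ t f, ∀ D ⊆ S.K t f, S.Adm t (S.addPairs (S.Op t f) D)) ∧
    (∀ t f, S.mu (S.Op t (f + 1)) = S.mu (S.addPairs (S.Op t f) (S.K t f))) ∧
    (∀ t f, (∀ x ∈ S.E, S.ph x < f) → S.Op t f = S.Op (t + 1) 0) ∧
    (∀ t f, ∀ x ∈ S.K t f, x ∈ S.E ∧ x ∉ S.Op t f ∧ S.c x = true ∧ S.T x = t ∧ S.b x ≠ S.v x)

/-- COUNT. The numbers: all stages together have at most `|E| / 2` heads; the first state has the links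
`r(x) - l(b x)`, the last one `r(x) - l(v x)`, `x ∈ E`. -/
def SpecCount : Prop := ∀ (X : Type) [Fintype X] [DecidableEq X] (S : Str X), S.Ok →
    (∀ τ Q : ℕ, 2 * ∑ t ∈ Finset.range τ, ∑ f ∈ Finset.range Q, (S.K t f).card ≤ S.E.card) ∧
    (∀ x ∈ S.E, S.mu (S.Op 0 0) (x, true) = (S.b x, false)) ∧
    (∀ τ : ℕ, (∀ x ∈ S.E, S.T x < τ) → ∀ x ∈ S.E, S.mu (S.Op τ 0) (x, true) = (S.v x, false))

/-- LEVEL. In an admissible state there is no closed curve without world end. Proof (helper44): call
`out x = (x, false)` if `x ∈ Op` and `c x = false`, else `out x = (x, true)`. No link that is not a world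
link joins two out ends, so a closed curve, if necessary reversed, goes from out end to out end. If all
its letters are opened it goes up (L) or down (F) one value line for ever, against `vline`. Otherwise:
from an unopened letter `z` (left through `r(z)`) the next unopened letter `z'` of the curve has
`TL z' = T z`: either `z' = b z`, or `r(z) - r(x')` with `x' = r (v⁻¹ (b z))`, then down the strip of the
followers `x'`, .. to its bottom `u`, `l(u) - l(s u)`, up the leaders `s u`, .. and `z' = v^(i+1) (s u)`, where
`v^(i+1) u = v x' = s (b z)`; `code` gives `TL z' = TL (s (b z)) = TL (b z) = T z`, and `code` and `dc` give that the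
whole strip of the leaders is opened. Hence `T z' > T z` (`lt`), or `z' ∉ E` and `r(z')` is a world end. -/
def SpecLevel : Prop := ∀ (X : Type) [Fintype X] [DecidableEq X] (S : Str X) (Op : Finset X) (t : ℕ),
    S.Ok → S.Adm t Op → ∀ (e : End X) (k : ℕ), 1 ≤ k → (phi (S.mu Op))^[k] e = e →
    ∃ i < k, S.WEnd ((phi (S.mu Op))^[i] e)

/-! ### Far special edges (walks and `Far`: `N2/Far.lean`) -/

/-- The vertex at which an end sits. -/
def pe {X V : Type} (S : Str X) (comp : X → V) (e : End X) : V :=
  if e.2 = true then comp (S.b e.1) else comp e.1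

/-- The structure `S` lives over the graph `(V, adj)` with the list `L` of special edges:
`comp y` = H-component of `l(y)`, `eT y` = number of the twin edge, `eW e` = number of the world edge.
The letters of `Def` may have bad world links. -/
structure Over {X V : Type} (S : Str X) (comp : X → V) (adj : V → V → Prop) (L : List (V × V))
    (eT : X → ℕ) (eW : End X → ℕ) (Def : Finset X) : Prop where
  rsymm : ∀ a b, adj a b → adj b a
  base : ∀ x, adj (comp x) (comp (S.b x))
  bv : ∀ x ∈ S.E, comp (S.b x) = comp (S.v x)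
  twin : ∀ y, S.s y ≠ y → FAR.StepAt adj L (some (eT y)) (comp y) (comp (S.s y))
  /-- the twin edge depends only on the component -/
  twinc : ∀ y y', S.s y ≠ y → S.s y' ≠ y' → comp y = comp y' →
    eT y = eT y' ∧ comp (S.s y) = comp (S.s y')
  world : ∀ e, S.WEnd e → e.1 ∉ Def →
    FAR.StepAt adj L (some (eW e)) (pe S comp e) (pe S comp (S.W e))
  /-- different world links are different special edges, and no twin edges -/
  wtwin : ∀ e, S.WEnd e → e.1 ∉ Def → ∀ y, S.s y ≠ y → eW e ≠ eT y
  winj : ∀ e e', S.WEnd e → S.WEnd e' → e.1 ∉ Def → e'.1 ∉ Def →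
    eW e = eW e' → e' = e ∨ e' = S.W e

open Classical in
/-- The label of the link at `e`: world links, and links joining two ends of the same side (twin links
`l - l` and disturbed links `r - r`), are steps over special edges. -/
noncomputable def lab {X : Type} (S : Str X) (eT : X → ℕ) (eW : End X → ℕ) (Op : Finset X)
    (e : End X) : Option ℕ :=
  if S.WEnd e then some (eW e)
  else if (S.mu Op e).2 = e.2 then some (eT (if e.2 = true then S.b e.1 else e.1))
  else none

/-- WALK. A path of `t + 1` letters outside `Def` gives a walk of at most `2 t + 1` steps, whose special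
labels are the labels of its links. -/
def SpecWalk : Prop := ∀ (X V : Type) (S : Str X) (comp : X → V) (adj : V → V → Prop)
    (L : List (V × V)) (eT : X → ℕ) (eW : End X → ℕ) (Def : Finset X) (Op : Finset X),
    S.Ok → Over S comp adj L eT eW Def → S.Inv Op →
    (∀ (e : End X) (t : ℕ), (∀ s ≤ t, ((phi (S.mu Op))^[s] e).1 ∉ Def) →
      ∃ l, FAR.W adj L (pe S comp (bar e)) l (pe S comp ((phi (S.mu Op))^[t] e)) ∧
        l.length ≤ 2 * t + 1 ∧
        l.filter Option.isSome = ((List.range t).map
          (fun s => lab S eT eW Op ((phi (S.mu Op))^[s] e))).filter Option.isSome) ∧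
    (∀ e, ¬ S.WEnd e → (S.mu Op e).2 = e.2 →
      S.s (if e.2 = true then S.b e.1 else e.1) ≠ (if e.2 = true then S.b e.1 else e.1)) ∧
    (∀ e, S.WEnd e → S.mu Op e = S.W e)

/-- ORBIT. A curve never passes a letter in both directions: `phi^k e ≠ bar e`. -/
def SpecOrbit : Prop := ∀ (X : Type) (μ : End X → End X), IsMatching μ → ∀ (e : End X) (k : ℕ),
  (phi μ)^[k] e ≠ bar e

/-- H1. (A closed curve of at most `G` letters that avoids `Def` gives a closed walk of length at most
`2 G`; take the minimal period; by LEVEL it uses a world link, by ORBIT each world link is used at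
most once, against `FAR.even_count`.) -/
def SpecH1 : Prop := ∀ (X V : Type) [Fintype X] [DecidableEq X] (S : Str X) (comp : X → V)
    (adj : V → V → Prop) (L : List (V × V)) (eT : X → ℕ) (eW : End X → ℕ) (Def : Finset X)
    (D G t : ℕ) (Op : Finset X),
    S.Ok → Over S comp adj L eT eW Def → FAR.Far adj L D → 2 * G + 2 ≤ D → S.Adm t Op →
    H1 (S.mu Op) G Def

/-- H2. Proof: sign (end) := side + [component is that of `s (b x)`]; black and glued links stay in a
component and change the side, twin links (l-l and r-r) change the component and keep the side;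
world links are not used (a path uses each at most once, `FAR.even_count`). By `FAR.even_count` the two
ends of the path have opposite signs, and the signs alternate along `c 0, .., c 5`; `j = i ± 1` would
close a short curve before or after the 3-break, against H1. -/
def SpecH2 : Prop := ∀ (X V : Type) [Fintype X] [DecidableEq X] (S : Str X) (comp : X → V)
    (adj : V → V → Prop) (L : List (V × V)) (eT : X → ℕ) (eW : End X → ℕ) (Def : Finset X)
    (D L' t : ℕ) (Op K : Finset X),
    S.Ok → Over S comp adj L eT eW Def → FAR.Far adj L D → 4 * L' + 12 ≤ D → S.Inv Op →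
    (∀ x ∈ K, x ∈ S.E ∧ x ∉ Op ∧ S.c x = true ∧ S.T x = t ∧ S.b x ≠ S.v x) →
    (∀ D' ⊆ K, S.Adm t (S.addPairs Op D')) →
    ∀ D' : Finset K, H2 (S.mu Op) (fun k : K => S.head Op k.1) D' L' Def

end Pool.Agent.Lib.MP29a61eN
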