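import Mathlib
import Pool.Agent.Lib.MP_29a61e_co.N2.Local1

/-!
# MP_29a61e_co, M(n) <= n/2 + o(n): the local part, piece 2 (construction of the structure, chain of the
stages, final assembly)

Each module `XXX` proves `theorem specXXX : SpecXXX` (or `SpecA → SpecB → SpecXXX`) in `N2/XXX.lean`.
Order of constants: ε → m, τ (BUILD) → Q (TWIN) → number of stages `τ Q`, ε' → L, G, γ (TS) → D → C, n0.
-/

namespace Pool.Agent.Lib.MP29a61eN

/-- BUILD. `b`, `v` single cycles. Choose the active letters `E` and the times. Proof: (CUT) for every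
permutation `f` and every `m ≥ 1` there is `Z` with `m * |Z| ≤ |X|` (one point more for short sets is harmless)
such that every `y` has `a < 2 m` with `f^a y ∈ Z` or `f^(a+1) y = y` (a maximal `m`-separated set in the
cycles of length `≥ m`); use it for `b`, `v` and `H = v b⁻¹` (for `H` the letter `b⁻¹ y` is removed from `E`
when `y ∈ Z`). `tau x = q * (offset of x in its b-block) + col x` with `col` a proper colouring with `q`
colours of the graph of bounded degree: letters of one `v`-line of `E`, and `x - b⁻¹ (v x)`. -/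
def SpecBuild : Prop := ∀ ε : ℝ, 0 < ε → ∃ m τ n0 : ℕ, ∀ (X : Type) [Fintype X] [DecidableEq X]
    (b v : Equiv.Perm X), n0 ≤ Fintype.card X → (∀ x y, ∃ i : ℕ, (b ^ i) x = y) →
    (∀ x y, ∃ i : ℕ, (v ^ i) x = y) →
    ∃ (E : Finset X) (tau : X → ℕ),
      ((Finset.univ \ E).card : ℝ) ≤ ε * Fintype.card X ∧
      (∀ x, ∃ a < m, (v ^ a) x ∉ E) ∧
      (∀ y, ∃ a < m, b.symm (((v * b⁻¹) ^ a) y) ∉ E ∨ ((v * b⁻¹) ^ (a + 1)) y = y) ∧
      (∀ x, tau x < τ) ∧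
      (∀ x ∈ E, b x ∈ E → tau x < tau (b x)) ∧
      (∀ x j, 1 ≤ j → (∀ i ≤ j, (v ^ i) x ∈ E) → tau ((v ^ j) x) ≠ tau x) ∧
      (∀ x ∈ E, b.symm (v x) ∈ E → b.symm (v x) ≠ x → tau (b.symm (v x)) ≠ tau x)

/-- TWIN (helper44: COL + FAR). `Pd` = letters with a twin. -/
def SpecTwin : Prop := ∀ (m τ : ℕ) (ε : ℝ), 0 < ε → ∃ Q : ℕ, 0 < Q ∧ ∀ D : ℕ, ∃ n0 : ℕ,
    ∀ (X : Type) [Fintype X] [DecidableEq X] (b v : Equiv.Perm X) (E : Finset X) (tau : X → ℕ),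
    n0 ≤ Fintype.card X →
    (∀ x, ∃ a < m, (v ^ a) x ∉ E) →
    (∀ y, ∃ a < m, b.symm (((v * b⁻¹) ^ a) y) ∉ E ∨ ((v * b⁻¹) ^ (a + 1)) y = y) →
    (∀ x, tau x < τ) →
    ∃ (Pd : Finset X) (s : X → X) (c : X → Bool) (ph : X → ℕ) (comp : X → X) (L : List (X × X))
      (e : X → ℕ),
      ((Finset.univ \ Pd).card : ℝ) ≤ ε * Fintype.card X ∧
      (∀ x ∈ E, comp (v x) = comp (b x)) ∧
      (∀ a, (Finset.univ.filter (fun y => comp y = a)).card ≤ m) ∧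
      (∀ x ∈ E, v x ∈ Pd ↔ b x ∈ Pd) ∧
      (∀ y ∈ Pd, s y ∈ Pd ∧ s (s y) = y ∧ (b.symm y ∈ E ↔ b.symm (s y) ∈ E) ∧
        (v.symm y ∈ E ↔ v.symm (s y) ∈ E)) ∧
      (∀ y y', comp y = comp y' → (y ∈ Pd ↔ y' ∈ Pd) ∧ comp (s y) = comp (s y') ∧ e y = e y') ∧
      (∀ x ∈ E, b x ∈ Pd → s (v x) = v (b.symm (s (b x)))) ∧
      (∀ x ∈ E, c (v x) = c x) ∧ (∀ y ∈ Pd, c (s y) ≠ c y) ∧ (∀ x, ph x < Q) ∧
      (∀ y ∈ Pd, b.symm y ∈ E → tau (b.symm (s y)) = tau (b.symm y) ∧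
        ph (b.symm (s y)) = ph (b.symm y)) ∧
      (∀ y ∈ Pd, ∀ j, (∀ i < j, (v ^ i) y ∈ E) →
        (∀ i < j, (v ^ i) (s y) ∈ E) ∧
        ((v ^ j) y ∈ E ↔ (v ^ j) (s y) ∈ E) ∧
        ((v ^ j) y ∈ E → tau ((v ^ j) (s y)) = tau ((v ^ j) y)) ∧
        (b.symm ((v ^ j) y) ∈ E ↔ b.symm ((v ^ j) (s y)) ∈ E) ∧
        (b.symm ((v ^ j) y) ∈ E → tau (b.symm ((v ^ j) (s y))) = tau (b.symm ((v ^ j) y))) ∧
        ((v ^ j) y ∈ E → c y = false → ph ((v ^ j) (s y)) < ph ((v ^ j) y) ∨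
          (b ((v ^ j) y) ∈ Pd ∧ (v ^ j) (s y) = b.symm (s (b ((v ^ j) y)))))) ∧
      FAR.Far (fun a a' => ∃ x, (comp x = a ∧ comp (b x) = a') ∨ (comp x = a' ∧ comp (b x) = a))
        L D ∧
      (∀ y ∈ Pd, L[e y]? = some (comp y, comp (s y)) ∨ L[e y]? = some (comp (s y), comp y)) ∧
      (∀ a, (L.filter (fun p => decide (p.1 = a ∨ p.2 = a))).length ≤ 1)

/-- EXISTS. The structure exists. From BUILD and TWIN: `E' = {x ∈ E | b x ∈ Pd}`, `s y = y` off `Pd`,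
`T = tau + 1`, `TL y = tau (b⁻¹ y) + 1` if `b⁻¹ y ∈ E`, else `0`; `W` by `FAR.greedy_one` for the world ends
placed at `pe` (at most `2 m` per vertex); the boundedly many unmatched world ends are matched
arbitrarily (their number is even: the other ends are matched by black and twin links) and their
letters, with `oo`, form `Def`. -/
def SpecExists : Prop := ∀ ε : ℝ, 0 < ε → ∃ τ Q : ℕ, ∀ D : ℕ, ∃ C n0 : ℕ,
    ∀ (X : Type) [Fintype X] [DecidableEq X] (oo : X) (b v : Equiv.Perm X), n0 ≤ Fintype.card X →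
    (∀ x y, ∃ i : ℕ, (b ^ i) x = y) → (∀ x y, ∃ i : ℕ, (v ^ i) x = y) →
    ∃ (S : Str X) (comp : X → X) (adj : X → X → Prop) (L : List (X × X)) (eT : X → ℕ)
      (eW : End X → ℕ) (Def : Finset X),
      S.b = b ∧ S.v = v ∧ S.Ok ∧ Over S comp adj L eT eW Def ∧ FAR.Far adj L D ∧
      oo ∈ Def ∧ Def.card ≤ C ∧ ((Finset.univ \ S.E).card : ℝ) ≤ ε * Fintype.card X ∧
      (∀ x ∈ S.E, S.T x < τ ∧ S.ph x < Q)

/-- The positive matching `r(x) - l(f x)`. -/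
def pos {X : Type} (f : Equiv.Perm X) : End X → End X
  | (y, false) => (f.symm y, true)
  | (x, true) => (f x, false)

/-- RUN. The chain of the stages `(t, f)`, `t < τ`, `f < Q`, each one by TS (with `μ = S.mu (S.Op t f)`, the
heads of `S.K t f`; H1 and H2 for all subsets by STAGE, H1, H2, HEAD), starting at a positive word
whose right neighbours are given by `b`. -/
def SpecRun : Prop := ∀ ε : ℝ, 0 < ε → ∃ n0 : ℕ,
    ∀ (X : Type) [Fintype X] [DecidableEq X] (oo : X) (b v : Equiv.Perm X) (w : List (End X)),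
    n0 ≤ Fintype.card X →
    (∀ x y, ∃ i : ℕ, (b ^ i) x = y) → (∀ x y, ∃ i : ℕ, (v ^ i) x = y) →
    IsWord oo w → bad oo (pos b) w = 0 →
    ∃ (w' : List (End X)) (k : ℕ), IsWord oo w' ∧ SSteps k w w' ∧
      (k : ℝ) ≤ (1 / 2 + ε) * Fintype.card X ∧ (bad oo (pos v) w' : ℝ) ≤ ε * Fintype.card X

/-- MAIN. `M n ≤ n / 2 + o(n)`: from RUN and `SpecDist` with `X = Option (Fin n)`, `oo = none`,
`b`, `v` = cyclic successors in the word and in the identity word (for instance `List.formPerm`). -/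
def SpecMain : Prop := ∀ ε : ℝ, 0 < ε → ∃ n0 : ℕ, ∀ n ≥ n0, ∀ π : Equiv.Perm (Fin n),
    ∃ k : ℕ, (k : ℝ) ≤ (1 / 2 + ε) * n ∧
      Pool.Agent.Lib.MP29a61e.Steps k (List.ofFn π) (List.finRange n)

/-- FINAL. The result: with the lower bound of `H/Lower.lean`. -/
def SpecFinal : Prop :=
  Filter.Tendsto (fun n : ℕ => (Pool.Agent.Lib.MP29a61e.M n : ℝ) / n) Filter.atTop (nhds (1 / 2))

end Pool.Agent.Lib.MP29a61eN
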