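import Mathlib
import Pool.Agent.Lib.MP_29a61e_co.N2.Local2
import Pool.Agent.Lib.MP_29a61e_co.N2.TwinB

/-!
# MP_29a61e_co, M(n) <= n/2 + o(n): module BUILD (active letters and times)
-/

namespace Pool.Agent.Lib.MP29a61eN.Build

open Finset

/-- Greedy colouring of a symmetric relation with at most `d` neighbours. -/
theorem greedy {V : Type*} [Fintype V] [DecidableEq V] (r : V → V → Prop) [DecidableRel r]
    (hs : ∀ u v, r u v → r v u) (hi : ∀ v, ¬ r v v) (d : ℕ)
    (hd : ∀ v, (univ.filter (fun u => r v u)).card ≤ d) :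
    ∃ col : V → Fin (d + 1), ∀ u v, r u v → col u ≠ col v := by
  have key : ∀ S : Finset V, ∃ col : V → Fin (d + 1), ∀ u ∈ S, ∀ v ∈ S, r u v → col u ≠ col v := by
    intro S
    induction S using Finset.induction_on with
    | empty => exact ⟨fun _ => 0, by simp⟩
    | insert w S hw ih =>
      obtain ⟨col, hcol⟩ := ih
      have hlt : ((univ.filter (fun u => r w u)).image col).card < (univ : Finset (Fin (d + 1))).card := by
        rw [Finset.card_univ, Fintype.card_fin]
        exact lt_of_le_of_lt (Finset.card_image_le.trans (hd w)) (Nat.lt_succ_self d)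
      obtain ⟨a, -, ha⟩ := Finset.exists_mem_notMem_of_card_lt_card hlt
      have ha' : ∀ u, r w u → col u ≠ a := by
        intro u hu e
        exact ha (Finset.mem_image.2 ⟨u, by simpa using hu, e⟩)
      refine ⟨Function.update col w a, ?_⟩
      intro u hu v hv huv
      by_cases eu : u = w
      · by_cases ev : v = w
        · rw [eu, ev] at huv
          exact absurd huv (hi w)
        · rw [eu] at huv ⊢
          rw [Function.update_self, Function.update_of_ne ev]
          exact (ha' v huv).symm
      · by_cases ev : v = w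
        · rw [ev] at huv ⊢
          rw [Function.update_self, Function.update_of_ne eu]
          exact ha' u (hs _ _ huv)
        · rw [Function.update_of_ne ev, Function.update_of_ne eu]
          exact hcol u (Finset.mem_of_mem_insert_of_ne hu eu) v
            (Finset.mem_of_mem_insert_of_ne hv ev) huv
  obtain ⟨col, h⟩ := key univ
  exact ⟨col, fun u v => h u (mem_univ _) v (mem_univ _)⟩

variable {X : Type}

/-- A single cycle has no short return. -/
theorem no_return [Fintype X] (f : Equiv.Perm X) (hf : ∀ x y, ∃ i : ℕ, (f ^ i) x = y) (x : X)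
    (k : ℕ) (hk : 1 ≤ k) (h : (f ^ k) x = x) : Fintype.card X ≤ k := by
  classical
  have hmod : ∀ i : ℕ, (f ^ i) x = (f ^ (i % k)) x := by
    intro i
    conv_lhs => rw [← Nat.mod_add_div i k]
    rw [pow_add, Equiv.Perm.mul_apply]
    have h2 : ∀ j : ℕ, (f ^ (k * j)) x = x := by
      intro j
      induction j with
      | zero => simp
      | succ j ih => rw [Nat.mul_succ, pow_add, Equiv.Perm.mul_apply, h, ih]
    exact congrArg _ (h2 _)
  have hsub : (univ : Finset X) ⊆ (range k).image (fun i => (f ^ i) x) := by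
    intro y _
    obtain ⟨i, hi⟩ := hf x y
    rw [Finset.mem_image]
    exact ⟨i % k, Finset.mem_range.2 (Nat.mod_lt _ (by omega)), by rw [← hmod, hi]⟩
  calc Fintype.card X = (univ : Finset X).card := (Finset.card_univ).symm
    _ ≤ ((range k).image (fun i => (f ^ i) x)).card := Finset.card_le_card hsub
    _ ≤ (range k).card := Finset.card_image_le
    _ = k := Finset.card_range k

theorem build : SpecBuild := by
  intro ε hε
  -- the parameter `M`
  obtain ⟨M, hM⟩ := exists_nat_gt (3 / ε)
  have hMpos : 1 ≤ M := by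
    have : (0 : ℝ) < M := lt_trans (by positivity) hM
    exact_mod_cast this
  have hMε : (3 : ℝ) ≤ ε * M := by
    rw [div_lt_iff₀ hε] at hM
    linarith
  set m := 2 * M with hm
  set d := 2 * m + 2 with hd
  refine ⟨m, (d + 1) * (m + 1), m + 1, ?_⟩
  intro X _ _ b v hn hb hv
  obtain ⟨Zb, hZb, hcb⟩ := cut (b⁻¹ : Equiv.Perm X) M hMpos
  obtain ⟨Zv, hZv, hcv⟩ := cut v M hMpos
  obtain ⟨Zh, hZh, hch⟩ := cut (v * b⁻¹) M hMpos
  set Zh' := Zh.image b.symm with hZh'
  set E := univ \ (Zb ∪ Zv ∪ Zh') with hE
  have memE : ∀ x, x ∈ E ↔ x ∉ Zb ∧ x ∉ Zv ∧ x ∉ Zh' := by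
    intro x
    simp [hE]
  -- cycles of `b⁻¹` are long
  have hbinv : ∀ x : X, ∀ k : ℕ, 1 ≤ k → ((b⁻¹ : Equiv.Perm X) ^ k) x = x → Fintype.card X ≤ k := by
    intro x k hk h
    refine no_return b hb x k hk ?_
    have : (b ^ k) (((b⁻¹ : Equiv.Perm X) ^ k) x) = x := by
      rw [← Equiv.Perm.mul_apply, inv_pow, mul_inv_cancel, Equiv.Perm.one_apply]
    rwa [h] at this
  have hvcut : ∀ x, ∃ a < m, (v ^ a) x ∉ E := by
    intro x
    obtain ⟨a, ha, h | h⟩ := hcv x
    · exact ⟨a, ha, fun hh => ((memE _).1 hh).2.1 h⟩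
    · have := no_return v hv x (a + 1) (by omega) h
      omega
  have hbcut : ∀ x, ∃ a, a < m ∧ ((b⁻¹ : Equiv.Perm X) ^ (a + 1)) x ∉ E := by
    intro x
    obtain ⟨a, ha, h | h⟩ := hcb ((b⁻¹ : Equiv.Perm X) x)
    · refine ⟨a, ha, fun hh => ((memE _).1 hh).1 ?_⟩
      rw [pow_succ, Equiv.Perm.mul_apply]
      exact h
    · have := hbinv _ (a + 1) (by omega) h
      omega
  have hex : ∀ x, ∃ a, ((b⁻¹ : Equiv.Perm X) ^ (a + 1)) x ∉ E := fun x => by
    obtain ⟨a, -, h⟩ := hbcut x
    exact ⟨a, h⟩
  set off : X → ℕ := fun x => Nat.find (hex x) with hoff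
  have hofflt : ∀ x, off x < m := by
    intro x
    obtain ⟨a, ha, h⟩ := hbcut x
    exact lt_of_le_of_lt (Nat.find_min' (hex x) h) ha
  have hoffs : ∀ x ∈ E, off (b x) = off x + 1 := by
    intro x hx
    have key : ∀ a, ((b⁻¹ : Equiv.Perm X) ^ (a + 1)) (b x) = ((b⁻¹ : Equiv.Perm X) ^ a) x := by
      intro a
      have e : ((b⁻¹ : Equiv.Perm X)) (b x) = x := b.symm_apply_apply x
      rw [pow_succ, Equiv.Perm.mul_apply, e]
    apply le_antisymm
    · apply Nat.find_min'
      rw [key]
      exact Nat.find_spec (hex x)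
    · by_contra hc
      push Not at hc
      have h1 := Nat.find_spec (hex (b x))
      change ((b⁻¹ : Equiv.Perm X) ^ (off (b x) + 1)) (b x) ∉ E at h1
      rw [key] at h1
      rcases Nat.eq_zero_or_pos (off (b x)) with h0 | h0
      · rw [h0] at h1
        exact h1 (by simpa using hx)
      · have h2 : off x ≤ off (b x) - 1 := by
          apply Nat.find_min'
          rw [show off (b x) - 1 + 1 = off (b x) by omega]
          exact h1
        omega
  -- the graph
  set r : X → X → Prop := fun x y => x ≠ y ∧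
    ((∃ j < m, (v ^ j) x = y) ∨ (∃ j < m, (v ^ j) y = x) ∨ b.symm (v x) = y ∨ b.symm (v y) = x)
    with hr
  have hdeg : ∀ x, (univ.filter (fun y => r x y)).card ≤ d := by
    intro x
    have hsub : univ.filter (fun y => r x y) ⊆
        ((range m).image (fun j => (v ^ j) x)) ∪ ((range m).image (fun j => ((v⁻¹ : Equiv.Perm X) ^ j) x))
          ∪ {b.symm (v x), v.symm (b x)} := by
      intro y hy
      simp only [mem_filter, mem_univ, true_and, hr] at hy
      simp only [mem_union, mem_image, mem_range, mem_insert, mem_singleton]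
      rcases hy.2 with ⟨j, hj, h⟩ | ⟨j, hj, h⟩ | h | h
      · exact Or.inl (Or.inl ⟨j, hj, h⟩)
      · refine Or.inl (Or.inr ⟨j, hj, ?_⟩)
        rw [← h, ← Equiv.Perm.mul_apply, inv_pow, inv_mul_cancel, Equiv.Perm.one_apply]
      · exact Or.inr (Or.inl h.symm)
      · refine Or.inr (Or.inr ?_)
        rw [← h]
        simp
    calc _ ≤ _ := Finset.card_le_card hsub
      _ ≤ (((range m).image (fun j => (v ^ j) x)) ∪
            ((range m).image (fun j => ((v⁻¹ : Equiv.Perm X) ^ j) x))).card +
            ({b.symm (v x), v.symm (b x)} : Finset X).card := Finset.card_union_le _ _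
      _ ≤ (((range m).image (fun j => (v ^ j) x)).card +
            ((range m).image (fun j => ((v⁻¹ : Equiv.Perm X) ^ j) x)).card) + 2 :=
          add_le_add (Finset.card_union_le _ _) Finset.card_le_two
      _ ≤ (m + m) + 2 := by
          refine Nat.add_le_add_right (add_le_add ?_ ?_) 2
          · exact Finset.card_image_le.trans (Finset.card_range m).le
          · exact Finset.card_image_le.trans (Finset.card_range m).le
      _ = d := by omega
  classical
  obtain ⟨col, hcol⟩ := greedy r (by
      rintro x y ⟨hne, h⟩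
      refine ⟨hne.symm, ?_⟩
      rcases h with h | h | h | h
      · exact Or.inr (Or.inl h)
      · exact Or.inl h
      · exact Or.inr (Or.inr (Or.inr h))
      · exact Or.inr (Or.inr (Or.inl h))) (fun x h => h.1 rfl) d (by
      intro x
      convert hdeg x) 
  refine ⟨E, fun x => (d + 1) * off x + (col x : ℕ), ?_, hvcut, ?_, ?_, ?_, ?_, ?_⟩
  · -- the number of inactive letters
    have h1 : (univ \ E : Finset X) ⊆ Zb ∪ Zv ∪ Zh' := by
      intro x hx
      by_contra hc
      rw [Finset.mem_sdiff] at hx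
      exact hx.2 (by rw [hE, Finset.mem_sdiff]; exact ⟨mem_univ _, hc⟩)
    have h2 : (univ \ E : Finset X).card ≤ Zb.card + Zv.card + Zh.card := by
      calc _ ≤ (Zb ∪ Zv ∪ Zh').card := Finset.card_le_card h1
        _ ≤ (Zb ∪ Zv).card + Zh'.card := Finset.card_union_le _ _
        _ ≤ Zb.card + Zv.card + Zh.card :=
          add_le_add (Finset.card_union_le _ _) Finset.card_image_le
    have h3 : M * (univ \ E : Finset X).card ≤ 3 * Fintype.card X := by
      calc M * (univ \ E : Finset X).card ≤ M * (Zb.card + Zv.card + Zh.card) :=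
            Nat.mul_le_mul_left _ h2
        _ = M * Zb.card + M * Zv.card + M * Zh.card := by ring
        _ ≤ 3 * Fintype.card X := by omega
    have h4 : (M : ℝ) * ((univ \ E : Finset X).card : ℝ) ≤ 3 * Fintype.card X := by
      exact_mod_cast h3
    have hMr : (0 : ℝ) < M := by exact_mod_cast hMpos
    have h5 : (0 : ℝ) ≤ Fintype.card X := by positivity
    have h6 : (M : ℝ) * ((univ \ E : Finset X).card : ℝ) ≤ M * (ε * Fintype.card X) := by
      calc (M : ℝ) * ((univ \ E : Finset X).card : ℝ) ≤ 3 * Fintype.card X := h4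
        _ ≤ (ε * M) * Fintype.card X := mul_le_mul_of_nonneg_right hMε h5
        _ = M * (ε * Fintype.card X) := by ring
    exact le_of_mul_le_mul_left h6 hMr
  · intro y
    obtain ⟨a, ha, h | h⟩ := hch y
    · refine ⟨a, ha, Or.inl fun hh => ((memE _).1 hh).2.2 ?_⟩
      exact Finset.mem_image_of_mem _ h
    · exact ⟨a, ha, Or.inr h⟩
  · intro x
    have h1 := hofflt x
    have h2 := (col x).isLt
    calc (d + 1) * off x + (col x : ℕ) < (d + 1) * off x + (d + 1) := by omega
      _ = (d + 1) * (off x + 1) := by ring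
      _ ≤ (d + 1) * (m + 1) := Nat.mul_le_mul_left _ (by omega)
  · intro x hx hbx
    show (d + 1) * off x + (col x : ℕ) < (d + 1) * off (b x) + (col (b x) : ℕ)
    rw [hoffs x hx]
    have h2 := (col x).isLt
    have h3 : (d + 1) * (off x + 1) = (d + 1) * off x + (d + 1) := by ring
    omega
  · intro x j hj hall h
    have hcoleq : (col ((v ^ j) x) : ℕ) = col x := by
      have h1 := congrArg (fun n => n % (d + 1)) h
      simp only [Nat.mul_add_mod] at h1
      rwa [Nat.mod_eq_of_lt (col _).isLt, Nat.mod_eq_of_lt (col _).isLt] at h1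
    obtain ⟨a, ha, hna⟩ := hvcut x
    have hja : j < a := by
      by_contra hc
      exact hna (hall a (by omega))
    refine hcol x ((v ^ j) x) ⟨?_, Or.inl ⟨j, by omega, rfl⟩⟩ (Fin.ext hcoleq.symm)
    intro e
    have := no_return v hv x j hj e.symm
    omega
  · intro x hx hx' hne h
    have hcoleq : (col (b.symm (v x)) : ℕ) = col x := by
      have h1 := congrArg (fun n => n % (d + 1)) h
      simp only [Nat.mul_add_mod] at h1
      rwa [Nat.mod_eq_of_lt (col _).isLt, Nat.mod_eq_of_lt (col _).isLt] at h1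
    exact hcol x (b.symm (v x)) ⟨fun e => hne e.symm, Or.inr (Or.inr (Or.inl rfl))⟩
      (Fin.ext hcoleq.symm)

end Pool.Agent.Lib.MP29a61eN.Build

namespace Pool.Agent.Lib.MP29a61eN

theorem specBuild : SpecBuild := Build.build

end Pool.Agent.Lib.MP29a61eN
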