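import Pool.Agent.Lib.MP_29a61e_co.N2.MACRO

/-!
# MP_29a61e_co: cleaning a word, greedy distance
-/

set_option autoImplicit false

namespace Pool.Agent.Lib.MP29a61eN.CL

variable {X : Type}

theorem bar_inj {e f : End X} : bar e = bar f ↔ e = f :=
  ⟨fun h => by rw [← bar_bar e, h, bar_bar], fun h => by rw [h]⟩

/-! ## reversed words -/

@[simp] theorem srev_nil : srev ([] : List (End X)) = [] := rfl

@[simp] theorem srev_srev (B : List (End X)) : srev (srev B) = B := by
  unfold srev
  rw [List.map_reverse, List.reverse_reverse, List.map_map]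
  have : (bar ∘ bar : End X → End X) = id := by
    funext e; simp
  rw [this, List.map_id]

theorem srev_append (A B : List (End X)) : srev (A ++ B) = srev B ++ srev A := by
  simp [srev]

theorem srev_cons (x : End X) (B : List (End X)) : srev (x :: B) = srev B ++ [bar x] := by
  simp [srev]

theorem srev_singleton (x : End X) : srev [x] = [bar x] := rfl

theorem srev_ne_nil {B : List (End X)} (h : B ≠ []) : srev B ≠ [] := by
  simpa [srev] using h

theorem mem_srev {B : List (End X)} {e : End X} : e ∈ srev B ↔ bar e ∈ B := by
  simp only [srev, List.mem_reverse, List.mem_map]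
  constructor
  · rintro ⟨a, ha, rfl⟩; simpa using ha
  · intro h; exact ⟨bar e, h, by simp⟩

theorem map_fst_srev (B : List (End X)) : (srev B).map Prod.fst = (B.map Prod.fst).reverse := by
  unfold srev
  rw [List.map_reverse, List.map_map]
  rfl

theorem length_srev (B : List (End X)) : (srev B).length = B.length := by
  simp [srev]

/-! ## counting bad links -/

section
variable [DecidableEq X]

/-- 1 if the link from `x` to the next letter `y` is not a link of `μ` -/
def jn (μ : End X → End X) (x y : End X) : ℕ := if y = phi μ x then 0 else 1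

theorem jn_le (μ : End X → End X) (x y : End X) : jn μ x y ≤ 1 := by
  unfold jn; split_ifs <;> omega

/-- bad links of a linear list followed by `y` -/
def bl (μ : End X → End X) : List (End X) → End X → ℕ
  | [], _ => 0
  | [x], y => jn μ x y
  | x :: x' :: t, y => jn μ x x' + bl μ (x' :: t) y

/-- bad links of a cyclic list -/
def badc (μ : End X → End X) (P : List (End X)) : ℕ :=
  (cyc P).countP (fun p => decide (p.2 ≠ phi μ p.1))

theorem bad_eq (oo : X) (μ : End X → End X) (w : List (End X)) :
    bad oo μ w = badc μ ((oo, true) :: w) := rfl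

theorem bl_zip (μ : End X → End X) (t : List (End X)) : ∀ x y : End X,
    ((x :: t).zip (t ++ [y])).countP (fun p => decide (p.2 ≠ phi μ p.1)) = bl μ (x :: t) y := by
  induction t with
  | nil =>
    intro x y
    simp only [List.nil_append, List.zip_cons_cons, List.zip_nil_right, bl, jn]
    rw [List.countP_singleton]
    by_cases h : y = phi μ x <;> simp [h]
  | cons x' t ih =>
    intro x y
    rw [List.cons_append, List.zip_cons_cons, List.countP_cons, ih x' y]
    simp only [bl, jn]
    by_cases h : x' = phi μ x
    · simp [h]
    · simp [h]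
      omega

theorem badc_cons (μ : End X → End X) (x : End X) (t : List (End X)) :
    badc μ (x :: t) = bl μ (x :: t) x := by
  rw [← bl_zip, badc, cyc, List.rotate_cons_succ, List.rotate_zero]

theorem cyc_rotate {α : Type} (l : List α) (n : ℕ) : cyc (l.rotate n) = (cyc l).rotate n := by
  unfold cyc
  rw [List.zip_eq_zipWith, List.zip_eq_zipWith, List.zipWith_rotate_distrib _ _ _ _ (by simp),
    List.rotate_rotate, List.rotate_rotate, Nat.add_comm]

theorem badc_isRotated (μ : End X → End X) {P Q : List (End X)} (h : P ~r Q) :
    badc μ P = badc μ Q := by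
  obtain ⟨n, rfl⟩ := h
  unfold badc
  rw [cyc_rotate]
  exact (List.Perm.countP_eq _ (List.rotate_perm _ _)).symm

theorem bl_append (μ : End X → End X) (A : List (End X)) (b : End X) (B : List (End X))
    (y : End X) : bl μ (A ++ b :: B) y = bl μ A b + bl μ (b :: B) y := by
  induction A with
  | nil => simp [bl]
  | cons a A ih =>
    cases A with
    | nil => simp [bl]
    | cons a' A =>
      simp only [List.cons_append, bl] at ih ⊢
      rw [ih]
      omega

/-- all the links inside the list are links of `μ` -/
def Ex (μ : End X → End X) (S : List (End X)) : Prop := List.IsChain (fun a b => b = phi μ a) S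

theorem bl_ex {μ : End X → End X} {S : List (End X)} (h : Ex μ S) (hne : S ≠ []) (y : End X) :
    bl μ S y = jn μ (S.getLast hne) y := by
  induction S with
  | nil => exact absurd rfl hne
  | cons a S ih =>
    cases S with
    | nil => simp [bl]
    | cons b S =>
      unfold Ex at h ih
      rw [List.isChain_cons_cons] at h
      simp only [bl]
      rw [ih h.2 (by simp)]
      simp [jn, h.1]

theorem bl_ex_le {μ : End X → End X} {S : List (End X)} (h : Ex μ S) (y : End X) :
    bl μ S y ≤ 1 := by
  by_cases hne : S = []
  · subst hne; simp [bl]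
  · rw [bl_ex h hne]
    exact jn_le _ _ _

theorem bl_flatten_le {μ : End X → End X} (Ss : List (List (End X))) (h : ∀ S ∈ Ss, Ex μ S)
    (y : End X) : bl μ Ss.flatten y ≤ Ss.length := by
  induction Ss with
  | nil => simp [bl]
  | cons A Ss ih =>
    have ih' := ih (fun S hS => h S (List.mem_cons_of_mem _ hS))
    rw [List.flatten_cons, List.length_cons]
    have hA : Ex μ A := h A List.mem_cons_self
    rcases hF : Ss.flatten with _ | ⟨b, B⟩
    · rw [List.append_nil]
      have := bl_ex_le hA y
      omega
    · rw [bl_append]
      rw [hF] at ih'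
      have := bl_ex_le hA b
      omega

theorem badc_le {μ : End X → End X} (Ss : List (List (End X))) (h : ∀ S ∈ Ss, Ex μ S) :
    badc μ Ss.flatten ≤ Ss.length := by
  rcases hF : Ss.flatten with _ | ⟨b, B⟩
  · simp [badc, cyc]
  · rw [badc_cons, ← hF]
    exact bl_flatten_le Ss h b

/-- decomposition into strips -/
theorem exists_strips (μ : End X → End X) (P : List (End X)) (hP : P ≠ []) :
    ∃ Ss : List (List (End X)), Ss.flatten = P ∧ (∀ S ∈ Ss, S ≠ [] ∧ Ex μ S) ∧
      Ss ≠ [] ∧ ∀ y, bl μ P y + 1 = Ss.length + jn μ (P.getLast hP) y := by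
  induction P with
  | nil => exact absurd rfl hP
  | cons a P ih =>
    cases P with
    | nil =>
      refine ⟨[[a]], rfl, ?_, by simp, ?_⟩
      · intro S hS
        rw [List.mem_singleton] at hS
        subst hS
        exact ⟨by simp, List.isChain_singleton _⟩
      · intro y
        simp [bl]
        omega
    | cons b P =>
      obtain ⟨Ss, h1, h2, h3, h4⟩ := ih (by simp)
      by_cases hb : b = phi μ a
      · cases Ss with
        | nil => exact absurd rfl h3
        | cons S Ss =>
          have hS := h2 S List.mem_cons_self
          refine ⟨(a :: S) :: Ss, ?_, ?_, by simp, ?_⟩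
          · rw [List.flatten_cons, List.cons_append, ← List.flatten_cons, h1]
          · intro T hT
            rcases List.mem_cons.1 hT with rfl | hT
            · refine ⟨by simp, ?_⟩
              cases S with
              | nil => exact absurd rfl hS.1
              | cons s S =>
                have : s = b := by
                  rw [List.flatten_cons, List.cons_append] at h1
                  exact (List.cons.inj h1).1
                unfold Ex
                rw [List.isChain_cons_cons]
                exact ⟨by rw [this]; exact hb, hS.2⟩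
            · exact h2 T (List.mem_cons_of_mem _ hT)
          · intro y
            have := h4 y
            simp only [bl, List.length_cons] at this ⊢
            rw [List.getLast_cons (by simp)]
            simp only [jn, hb, if_true] at this ⊢
            omega
      · refine ⟨[a] :: Ss, ?_, ?_, by simp, ?_⟩
        · rw [List.flatten_cons, h1]; rfl
        · intro T hT
          rcases List.mem_cons.1 hT with rfl | hT
          · exact ⟨by simp, List.isChain_singleton _⟩
          · exact h2 T hT
        · intro y
          have := h4 y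
          simp only [bl, List.length_cons]
          rw [List.getLast_cons (by simp)]
          have hj : jn μ a b = 1 := by simp [jn, hb]
          omega

end

/-! ## cyclic words -/

/-- a cyclic word -/
structure IsW (P : List (End X)) : Prop where
  nodup : (P.map Prod.fst).Nodup
  full : ∀ x : X, x ∈ P.map Prod.fst

theorem isWord_iff {oo : X} {w : List (End X)} : IsWord oo w ↔ IsW ((oo, true) :: w) :=
  ⟨fun h => ⟨h.nodup, h.full⟩, fun h => ⟨h.nodup, h.full⟩⟩

theorem IsW.perm {P Q : List (End X)} (h : IsW P) (hpq : (P.map Prod.fst).Perm (Q.map Prod.fst)) :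
    IsW Q :=
  ⟨hpq.nodup_iff.1 h.nodup, fun x => hpq.mem_iff.1 (h.full x)⟩

theorem IsW.rot {P Q : List (End X)} (h : IsW P) (hpq : P ~r Q) : IsW Q :=
  h.perm (hpq.perm.map _)

theorem rot_unique {α : Type} {a : α} {t t' : List α} (hn : (a :: t).Nodup)
    (h : (a :: t) ~r (a :: t')) : t = t' := by
  obtain ⟨n, hlt, hn'⟩ : ∃ n, n ≤ (a :: t).length ∧ (a :: t).rotate n = a :: t' := by
    obtain ⟨n, hle, h⟩ := List.isRotated_iff_mod.1 h
    exact ⟨n, hle, h⟩
  rw [List.rotate_eq_drop_append_take hlt] at hn'
  rcases n with _ | n
  · simpa using hn'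
  · rw [List.drop_succ_cons, List.take_succ_cons] at hn'
    rcases hd : t.drop n with _ | ⟨b, B⟩
    · rw [hd] at hn'
      have htk : t.take n = t := by
        rw [List.take_eq_self_iff]
        rw [List.drop_eq_nil_iff] at hd
        exact hd
      rw [htk] at hn'
      simpa using hn'
    · rw [hd] at hn'
      have hb : b = a := (List.cons.inj hn').1
      have : b ∈ t := List.mem_of_mem_drop (by rw [hd]; exact List.mem_cons_self)
      rw [hb] at this
      exact absurd this (List.nodup_cons.1 hn).1

theorem rotA {α : Type} (A B : List α) : (A ++ B) ~r (B ++ A) := ⟨A.length, by simp⟩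

/-- Excision of a cyclic interval without the frame letter and insertion elsewhere is a move. -/
theorem smove_cyc {oo : X} {w T U V T' : List (End X)} (hw : IsWord oo w)
    (h : (T ++ U ++ V) ~r ((oo, true) :: w)) (hT : T ≠ []) (hoo : oo ∉ T.map Prod.fst)
    (hT' : T' = T ∨ T' = srev T) :
    ∃ w', IsWord oo w' ∧ SMove w w' ∧ (U ++ T' ++ V) ~r ((oo, true) :: w') := by
  have hW := isWord_iff.1 hw
  have hlet : ((T ++ U ++ V).map Prod.fst).Perm ((U ++ T' ++ V).map Prod.fst) := by
    have h1 : (T.map Prod.fst).Perm (T'.map Prod.fst) := by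
      rcases hT' with rfl | rfl
      · exact List.Perm.refl _
      · rw [map_fst_srev]
        exact (List.reverse_perm _).symm
    rw [List.map_append, List.map_append, List.map_append, List.map_append]
    exact ((List.perm_append_comm).trans (List.Perm.append_left _ h1)).append_right _
  have hW2 : IsW (U ++ T' ++ V) := (hW.rot h.symm).perm hlet
  have hnd : ((oo, true) :: w).Nodup := List.Nodup.of_map _ hW.nodup
  have hmem : (oo, true) ∈ T ++ U ++ V := h.symm.mem_iff.1 List.mem_cons_self
  have hmem2 : (oo, true) ∈ U ∨ (oo, true) ∈ V := by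
    rw [List.mem_append, List.mem_append] at hmem
    rcases hmem with (hm | hm) | hm
    · exact absurd (List.mem_map_of_mem hm) hoo
    · exact Or.inl hm
    · exact Or.inr hm
  rcases hmem2 with hm | hm
  · obtain ⟨U1, U2, rfl⟩ := List.append_of_mem hm
    have h1 : ((oo, true) :: (U2 ++ V ++ T ++ U1)) ~r ((oo, true) :: w) := by
      refine List.IsRotated.trans ?_ h
      have := rotA ((oo, true) :: (U2 ++ V)) (T ++ U1)
      simpa [List.append_assoc] using this
    have hw1 : U2 ++ V ++ T ++ U1 = w := (rot_unique hnd h1.symm).symm
    have h2 : (U1 ++ (oo, true) :: U2 ++ T' ++ V) ~r ((oo, true) :: (U2 ++ T' ++ V ++ U1)) := by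
      have := rotA U1 ((oo, true) :: (U2 ++ T' ++ V))
      simpa [List.append_assoc] using this
    refine ⟨U2 ++ T' ++ V ++ U1, isWord_iff.2 (hW2.rot h2), ?_, h2⟩
    refine ⟨U2 ++ V, T, U1, U2, V ++ U1, hT, hw1.symm, by simp [List.append_assoc], ?_⟩
    rcases hT' with rfl | rfl
    · exact Or.inl (by simp [List.append_assoc])
    · exact Or.inr (by simp [List.append_assoc])
  · obtain ⟨V1, V2, rfl⟩ := List.append_of_mem hm
    have h1 : ((oo, true) :: (V2 ++ T ++ U ++ V1)) ~r ((oo, true) :: w) := by
      refine List.IsRotated.trans ?_ h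
      have := rotA ((oo, true) :: V2) (T ++ U ++ V1)
      simpa [List.append_assoc] using this
    have hw1 : V2 ++ T ++ U ++ V1 = w := (rot_unique hnd h1.symm).symm
    have h2 : (U ++ T' ++ (V1 ++ (oo, true) :: V2)) ~r ((oo, true) :: (V2 ++ U ++ T' ++ V1)) := by
      have := rotA (U ++ T' ++ V1) ((oo, true) :: V2)
      simpa [List.append_assoc] using this
    refine ⟨V2 ++ U ++ T' ++ V1, isWord_iff.2 (hW2.rot h2), ?_, h2⟩
    refine ⟨V2, T, U ++ V1, V2 ++ U, V1, hT, by rw [← hw1]; simp [List.append_assoc],
      by simp [List.append_assoc], ?_⟩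
    rcases hT' with rfl | rfl
    · exact Or.inl rfl
    · exact Or.inr rfl

/-! ## an improving move -/

theorem Ex.srev {μ : End X → End X} (hμ : IsMatching μ) {S : List (End X)} (h : Ex μ S) :
    Ex μ (srev S) := by
  unfold Ex at h ⊢
  unfold MP29a61eN.srev
  rw [List.isChain_reverse, List.isChain_map]
  refine h.imp ?_
  intro a b hab
  simp only [phi] at hab ⊢
  rw [hab, bar_bar, hμ.inv]

theorem Ex.append {μ : End X → End X} {A B : List (End X)} {a b : End X} (hA : Ex μ A)
    (hB : Ex μ B) (ha : A.getLast? = some a) (hb : B.head? = some b) (hab : b = phi μ a) :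
    Ex μ (A ++ B) := by
  unfold Ex at *
  rw [List.isChain_append]
  refine ⟨hA, hB, ?_⟩
  intro x hx y hy
  rw [ha, Option.mem_some_iff] at hx
  rw [hb, Option.mem_some_iff] at hy
  rw [← hx, ← hy]
  exact hab

/-- an element of an exact list is the first one or has a predecessor -/
theorem Ex.pred {μ : End X → End X} {A : List (End X)} (hA : Ex μ A) {g : End X} (hg : g ∈ A) :
    A.head? = some g ∨ ∃ A1 g' A2, A = A1 ++ g' :: g :: A2 ∧ g = phi μ g' := by
  obtain ⟨A1, A2, rfl⟩ := List.append_of_mem hg
  rcases List.eq_nil_or_concat A1 with rfl | ⟨A0, g', rfl⟩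
  · left; simp
  · right
    refine ⟨A0, g', A2, by simp, ?_⟩
    unfold Ex at hA
    rw [List.concat_eq_append, List.append_assoc, List.singleton_append,
      List.isChain_append] at hA
    have := hA.2.1
    rw [List.isChain_cons_cons] at this
    exact this.1

/-- an element of an exact list is the last one or has a successor -/
theorem Ex.succ {μ : End X → End X} {A : List (End X)} (hA : Ex μ A) {g : End X} (hg : g ∈ A) :
    A.getLast? = some g ∨ ∃ A1 A2, A = A1 ++ g :: phi μ g :: A2 := by
  obtain ⟨A1, A2, rfl⟩ := List.append_of_mem hg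
  rcases A2 with _ | ⟨g', A2⟩
  · left; simp
  · right
    unfold Ex at hA
    rw [List.isChain_append] at hA
    have := hA.2.1
    rw [List.isChain_cons_cons] at this
    exact ⟨A1, A2, by rw [this.1]⟩

theorem phi_inj {μ : End X → End X} (hμ : IsMatching μ) {a b : End X} (h : phi μ a = phi μ b) :
    a = b := by
  unfold phi at h
  rw [bar_inj] at h
  rw [← hμ.inv a, h, hμ.inv]

theorem mem_letters {P : List (End X)} {e : End X} (h : e ∈ P) : e.1 ∈ P.map Prod.fst :=
  List.mem_map_of_mem h

/-- a closed strip -/
def Closed (μ : End X → End X) (A : List (End X)) : Prop :=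
  ∀ e, A.getLast? = some e → A.head? = some (phi μ e)

variable [DecidableEq X]

theorem improve {oo : X} {μ : End X → End X} {w : List (End X)} (hμ : IsMatching μ)
    (hw : IsWord oo w) {Ss : List (List (End X))} (hr : Ss.flatten ~r ((oo, true) :: w))
    (hS : ∀ S ∈ Ss, S ≠ [] ∧ Ex μ S) {A : List (End X)} (hA : A ∈ Ss) (hc : ¬ Closed μ A) :
    ∃ w', IsWord oo w' ∧ SMove w w' ∧ bad oo μ w' + 1 ≤ Ss.length := by
  obtain ⟨S1, S2, rfl⟩ := List.append_of_mem hA
  have hAS := hS A hA
  have hR : ∀ S ∈ S2 ++ S1, S ≠ [] ∧ Ex μ S := by
    intro S h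
    refine hS S ?_
    rw [List.mem_append] at h ⊢
    rw [List.mem_cons]
    tauto
  have hlen : (S1 ++ A :: S2).length = (S2 ++ S1).length + 1 := by
    simp; omega
  have hrot : (A ++ (S2 ++ S1).flatten) ~r ((oo, true) :: w) := by
    refine List.IsRotated.trans ?_ hr
    have := rotA (A ++ S2.flatten) S1.flatten
    simpa [List.append_assoc] using this
  clear hr hS
  generalize S2 ++ S1 = R at hR hlen hrot
  rw [hlen]
  clear hlen
  unfold Closed at hc
  push Not at hc
  obtain ⟨e, he, hc⟩ := hc
  have hWP : IsW (A ++ R.flatten) := (isWord_iff.1 hw).rot hrot.symm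
  have hnd := hWP.nodup
  rw [List.map_append] at hnd
  have heA : e ∈ A := List.mem_of_getLast? he
  have hndA : (A.map Prod.fst).Nodup := (List.nodup_append.1 hnd).1
  have hdis : ∀ x ∈ A.map Prod.fst, x ∉ R.flatten.map Prod.fst := by
    intro x hx hx'
    exact (List.nodup_append.1 hnd).2.2 x hx x hx' rfl
  have hndR : (R.flatten.map Prod.fst).Nodup := (List.nodup_append.1 hnd).2.1
  -- in a list with different letters an element determines its last occurrence
  have hlast : ∀ {g : End X} {A1 A2 : List (End X)}, A = A1 ++ e :: g :: A2 → False := by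
    intro g A1 A2 h
    rw [h] at he hndA
    have h1 : (A1 ++ e :: g :: A2).getLast? = (g :: A2).getLast? := by
      rw [show A1 ++ e :: g :: A2 = (A1 ++ [e]) ++ (g :: A2) by simp, List.getLast?_append,
        List.getLast?_eq_some_getLast (by simp : g :: A2 ≠ [])]
      rfl
    rw [h1] at he
    have h2 : e ∈ g :: A2 := List.mem_of_getLast? he
    rw [List.map_append, List.nodup_append] at hndA
    have h3 := hndA.2.1
    rw [List.map_cons, List.nodup_cons] at h3
    exact h3.1 (mem_letters h2)
  have hmemB : ∀ B ∈ R, ∀ g ∈ B, g ∈ R.flatten := fun B hB g hg =>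
    List.mem_flatten.2 ⟨B, hB, hg⟩
  -- the partner of e
  obtain ⟨g, hg, hgf⟩ : ∃ g ∈ A ++ R.flatten, g.1 = (μ e).1 := by
    have := hWP.full (μ e).1
    rw [List.mem_map] at this
    exact this
  have hcases : phi μ e = g ∨ μ e = g := by
    unfold phi
    rcases Bool.eq_false_or_eq_true (g.2 == (μ e).2) with h | h
    · right
      exact (Prod.ext hgf (by simpa using h)).symm
    · left
      refine Prod.ext hgf.symm ?_
      rw [bar_snd]
      revert h
      cases g.2 <;> cases (μ e).2 <;> simp
  rcases hcases with hge | hge
  · -- same direction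
    have hgA : g ∉ A := by
      intro hgA
      rcases hAS.2.pred hgA with h | ⟨A1, g', A2, h, h'⟩
      · exact hc (by rw [hge]; exact h)
      · have : e = g' := phi_inj hμ (hge.trans h')
        rw [← this] at h
        exact hlast h
    have hgR : g ∈ R.flatten := by
      rcases List.mem_append.1 hg with h | h
      · exact absurd h hgA
      · exact h
    obtain ⟨B, hB, hgB⟩ := List.mem_flatten.1 hgR
    have hBh : B.head? = some g := by
      rcases (hR B hB).2.pred hgB with h | ⟨A1, g', A2, h, h'⟩
      · exact h
      · exfalso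
        have : e = g' := phi_inj hμ (hge.trans h')
        refine hdis e.1 (mem_letters heA) (mem_letters (hmemB B hB e ?_))
        rw [h, this]
        simp
    obtain ⟨R1, R2, rfl⟩ := List.append_of_mem hB
    have hBne := (hR B hB).1
    have hAB : Ex μ (A ++ B) := hAS.2.append (hR B hB).2 he hBh hge.symm
    by_cases hoo : oo ∈ B.map Prod.fst
    · have hooA : oo ∉ A.map Prod.fst := by
        intro h
        refine hdis oo h ?_
        rw [List.flatten_append, List.flatten_cons, List.map_append, List.map_append]
        simp only [List.mem_append]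
        tauto
      obtain ⟨w', h1, h2, h3⟩ := smove_cyc (T := A) (U := R1.flatten) (V := B ++ R2.flatten)
        (T' := A) hw (by simpa [List.append_assoc] using hrot) hAS.1 hooA (Or.inl rfl)
      refine ⟨w', h1, h2, ?_⟩
      rw [bad_eq, ← badc_isRotated μ h3]
      have h4 : R1.flatten ++ A ++ (B ++ R2.flatten) = (R1 ++ (A ++ B) :: R2).flatten := by
        simp [List.append_assoc]
      rw [h4]
      refine (Nat.add_le_add_right (badc_le _ ?_) 1).trans (by simp)
      intro S hS
      rw [List.mem_append, List.mem_cons] at hS
      rcases hS with hS | hS | hS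
      · exact (hR S (by simp [hS])).2
      · rw [hS]; exact hAB
      · exact (hR S (by simp [hS])).2
    · obtain ⟨w', h1, h2, h3⟩ := smove_cyc (T := B) (U := R2.flatten ++ A) (V := R1.flatten)
        (T' := B) hw (by
          refine List.IsRotated.trans ?_ hrot
          have := rotA (B ++ R2.flatten) (A ++ R1.flatten)
          simpa [List.append_assoc] using this) hBne hoo (Or.inl rfl)
      refine ⟨w', h1, h2, ?_⟩
      rw [bad_eq, ← badc_isRotated μ h3]
      have h4 : R2.flatten ++ A ++ B ++ R1.flatten = (R2 ++ (A ++ B) :: R1).flatten := by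
        simp [List.append_assoc]
      rw [h4]
      refine (Nat.add_le_add_right (badc_le _ ?_) 1).trans (by simp; omega)
      intro S hS
      rw [List.mem_append, List.mem_cons] at hS
      rcases hS with hS | hS | hS
      · exact (hR S (by simp [hS])).2
      · rw [hS]; exact hAB
      · exact (hR S (by simp [hS])).2
  · -- opposite direction
    have hpg : phi μ g = bar e := by
      unfold phi
      rw [← hge, hμ.inv]
    have hgA : g ∉ A := by
      intro hgA
      rcases hAS.2.succ hgA with h | ⟨A1, A2, h⟩
      · rw [he, Option.some.injEq] at h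
        exact hμ.ne e (hge.trans h.symm)
      · rw [hpg] at h
        have hbe : bar e ∈ A := by rw [h]; simp
        exact bar_ne e (List.inj_on_of_nodup_map hndA hbe heA rfl)
    have hgR : g ∈ R.flatten := by
      rcases List.mem_append.1 hg with h | h
      · exact absurd h hgA
      · exact h
    obtain ⟨B, hB, hgB⟩ := List.mem_flatten.1 hgR
    have hBl : B.getLast? = some g := by
      rcases (hR B hB).2.succ hgB with h | ⟨A1, A2, h⟩
      · exact h
      · exfalso
        rw [hpg] at h
        refine hdis e.1 (mem_letters heA) ?_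
        have : bar e ∈ R.flatten := hmemB B hB _ (by rw [h]; simp)
        have h2 := mem_letters this
        simpa using h2
    obtain ⟨R1, R2, rfl⟩ := List.append_of_mem hB
    have hBne := (hR B hB).1
    have hhead : ∀ {C : List (End X)} {c : End X}, C.getLast? = some c →
        (srev C).head? = some (bar c) := by
      intro C c h
      unfold srev
      rw [List.head?_reverse, List.getLast?_map, h]
      rfl
    have hAB : Ex μ (A ++ srev B) := hAS.2.append ((hR B hB).2.srev hμ) he (hhead hBl)
      (by unfold phi; rw [hge])
    have hBA : Ex μ (B ++ srev A) := (hR B hB).2.append (hAS.2.srev hμ) hBl (hhead he) hpg.symm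
    by_cases hoo : oo ∈ B.map Prod.fst
    · have hooA : oo ∉ A.map Prod.fst := by
        intro h
        refine hdis oo h ?_
        rw [List.flatten_append, List.flatten_cons, List.map_append, List.map_append]
        simp only [List.mem_append]
        tauto
      obtain ⟨w', h1, h2, h3⟩ := smove_cyc (T := A) (U := R1.flatten ++ B) (V := R2.flatten)
        (T' := srev A) hw (by simpa [List.append_assoc] using hrot) hAS.1 hooA (Or.inr rfl)
      refine ⟨w', h1, h2, ?_⟩
      rw [bad_eq, ← badc_isRotated μ h3]
      have h4 : R1.flatten ++ B ++ srev A ++ R2.flatten = (R1 ++ (B ++ srev A) :: R2).flatten := by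
        simp [List.append_assoc]
      rw [h4]
      refine (Nat.add_le_add_right (badc_le _ ?_) 1).trans (by simp)
      intro S hS
      rw [List.mem_append, List.mem_cons] at hS
      rcases hS with hS | hS | hS
      · exact (hR S (by simp [hS])).2
      · rw [hS]; exact hBA
      · exact (hR S (by simp [hS])).2
    · obtain ⟨w', h1, h2, h3⟩ := smove_cyc (T := B) (U := R2.flatten ++ A) (V := R1.flatten)
        (T' := srev B) hw (by
          refine List.IsRotated.trans ?_ hrot
          have := rotA (B ++ R2.flatten) (A ++ R1.flatten)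
          simpa [List.append_assoc] using this) hBne hoo (Or.inr rfl)
      refine ⟨w', h1, h2, ?_⟩
      rw [bad_eq, ← badc_isRotated μ h3]
      have h4 : R2.flatten ++ A ++ srev B ++ R1.flatten = (R2 ++ (A ++ srev B) :: R1).flatten := by
        simp [List.append_assoc]
      rw [h4]
      refine (Nat.add_le_add_right (badc_le _ ?_) 1).trans (by simp; omega)
      intro S hS
      rw [List.mem_append, List.mem_cons] at hS
      rcases hS with hS | hS | hS
      · exact (hR S (by simp [hS])).2
      · rw [hS]; exact hAB
      · exact (hR S (by simp [hS])).2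

/-! ## counting closed strips -/

omit [DecidableEq X] in
theorem iter_mem {μ : End X → End X} (S : List (End X)) : ∀ a, Ex μ (a :: S) →
    ∀ i ≤ S.length, (phi μ)^[i] a ∈ a :: S := by
  induction S with
  | nil =>
    intro a _ i hi
    have : i = 0 := by simpa using hi
    subst this
    simp
  | cons b S ih =>
    intro a h i hi
    unfold Ex at h
    rw [List.isChain_cons_cons] at h
    rcases i with _ | i
    · simp
    · rw [Function.iterate_succ_apply, ← h.1]
      exact List.mem_cons_of_mem _ (ih b h.2 i (by simpa using hi))

omit [DecidableEq X] in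
theorem iter_last {μ : End X → End X} (S : List (End X)) : ∀ a, Ex μ (a :: S) →
    (a :: S).getLast? = some ((phi μ)^[S.length] a) := by
  induction S with
  | nil => intro a _; simp
  | cons b S ih =>
    intro a h
    unfold Ex at h
    rw [List.isChain_cons_cons] at h
    rw [List.getLast?_cons_cons, ih b h.2, List.length_cons, Function.iterate_succ_apply, ← h.1]

theorem closed_count {μ : End X → End X} {G : ℕ} {Def : Finset X} (h1 : H1 μ G Def)
    {S : List (End X)} (hne : S ≠ []) (hS : Ex μ S) (hc : Closed μ S) :
    G + 1 ≤ (G + 1) * S.countP (fun e => decide (e.1 ∈ Def)) + S.length := by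
  rcases S with _ | ⟨a, S⟩
  · exact absurd rfl hne
  · by_cases hlen : (a :: S).length ≤ G
    · have hl := iter_last S a hS
      have hcl := hc _ hl
      rw [List.head?_cons, Option.some.injEq] at hcl
      have hper : (phi μ)^[S.length + 1] a = a := by
        rw [Function.iterate_succ_apply']
        exact hcl.symm
      obtain ⟨i, hi, hD⟩ := h1 a (S.length + 1) (by omega) (by simpa using hlen) hper
      have hmem := iter_mem S a hS i (by omega)
      have : 0 < (a :: S).countP (fun e => decide (e.1 ∈ Def)) := by
        rw [List.countP_pos_iff]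
        exact ⟨_, hmem, by simpa using hD⟩
      nlinarith
    · omega

theorem strips_count {μ : End X → End X} {G : ℕ} {Def : Finset X} (h1 : H1 μ G Def)
    (Ss : List (List (End X))) (hS : ∀ S ∈ Ss, (S ≠ [] ∧ Ex μ S) ∧ Closed μ S) :
    (G + 1) * Ss.length ≤ (G + 1) * Ss.flatten.countP (fun e => decide (e.1 ∈ Def)) +
      Ss.flatten.length := by
  induction Ss with
  | nil => simp
  | cons A Ss ih =>
    have ih' := ih (fun S h => hS S (List.mem_cons_of_mem _ h))
    have hA := hS A List.mem_cons_self
    have := closed_count h1 hA.1.1 hA.1.2 hA.2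
    rw [List.flatten_cons, List.countP_append, List.length_append, List.length_cons]
    nlinarith

theorem countP_le {P : List (End X)} (h : (P.map Prod.fst).Nodup) (Def : Finset X) :
    P.countP (fun e => decide (e.1 ∈ Def)) ≤ Def.card := by
  rw [List.countP_eq_length_filter]
  have h1 : ((P.filter (fun e => decide (e.1 ∈ Def))).map Prod.fst).Nodup :=
    (List.Sublist.map _ List.filter_sublist).nodup h
  have h2 : ((P.filter (fun e => decide (e.1 ∈ Def))).map Prod.fst).toFinset ⊆ Def := by
    intro x hx
    rw [List.mem_toFinset, List.mem_map] at hx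
    obtain ⟨e, he, rfl⟩ := hx
    rw [List.mem_filter] at he
    simpa using he.2
  have h3 := Finset.card_le_card h2
  rw [List.toFinset_card_of_nodup h1, List.length_map] at h3
  exact h3

theorem IsW.length [Fintype X] {P : List (End X)} (h : IsW P) : P.length = Fintype.card X := by
  have h1 : (P.map Prod.fst).toFinset = Finset.univ := by
    ext x
    simp only [List.mem_toFinset, Finset.mem_univ, iff_true]
    exact h.full x
  have h2 := List.toFinset_card_of_nodup h.nodup
  rw [h1, Finset.card_univ, List.length_map] at h2
  exact h2.symm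

/-- strips of a cyclic word with a bad link -/
theorem exists_strips_cyc {μ : End X → End X} {P : List (End X)} (hb : 0 < badc μ P) :
    ∃ Ss : List (List (End X)), Ss.flatten ~r P ∧ (∀ S ∈ Ss, S ≠ [] ∧ Ex μ S) ∧
      Ss.length = badc μ P := by
  rcases P with _ | ⟨a, P⟩
  · simp [badc, cyc] at hb
  obtain ⟨Ss, h1, h2, h3, h4⟩ := exists_strips μ (a :: P) (by simp)
  have h5 := h4 a
  rw [← badc_cons] at h5
  by_cases hw : a = phi μ ((a :: P).getLast (by simp))
  · have hj : jn μ ((a :: P).getLast (by simp)) a = 0 := by
      unfold jn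
      rw [if_pos hw]
    rw [hj] at h5
    rcases Ss with _ | ⟨S1, Ss⟩
    · exact absurd rfl h3
    rcases List.eq_nil_or_concat Ss with rfl | ⟨Mid, Sk, rfl⟩
    · simp at h5
      omega
    · rw [List.concat_eq_append] at h1 h2 h5
      have hS1 := h2 S1 (by simp)
      have hSk := h2 Sk (by simp)
      have hhead : S1.head? = some a := by
        rcases S1 with _ | ⟨s, S1⟩
        · exact absurd rfl hS1.1
        · rw [List.flatten_cons, List.cons_append] at h1
          rw [(List.cons.inj h1).1]
          rfl
      have hlast : Sk.getLast? = some ((a :: P).getLast (by simp)) := by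
        have h6 : (a :: P).getLast? = Sk.getLast? := by
          rw [← h1]
          simp only [List.flatten_cons, List.flatten_append, List.flatten_nil, List.append_nil]
          rw [← List.append_assoc, List.getLast?_append,
            List.getLast?_eq_some_getLast hSk.1]
          rfl
        rw [← h6, List.getLast?_eq_some_getLast]
      refine ⟨(Sk ++ S1) :: Mid, ?_, ?_, ?_⟩
      · rw [← h1]
        have := rotA Sk (S1 ++ Mid.flatten)
        simpa [List.append_assoc] using this
      · intro S hS
        rcases List.mem_cons.1 hS with rfl | hS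
        · exact ⟨by simp [hS1.1], hSk.2.append hS1.2 hlast hhead hw⟩
        · exact h2 S (by simp [hS])
      · simp only [List.length_cons, List.length_append, List.length_nil] at h5 ⊢
        omega
  · have hj : jn μ ((a :: P).getLast (by simp)) a = 1 := by
      unfold jn
      rw [if_neg hw]
    rw [hj] at h5
    exact ⟨Ss, by rw [h1], h2, by omega⟩

theorem clean [Fintype X] {oo : X} {μ : End X → End X} {Def : Finset X} {G : ℕ}
    (hμ : IsMatching μ) (h1 : H1 μ G Def) : ∀ (n : ℕ) (w : List (End X)), IsWord oo w →
    bad oo μ w ≤ n → ∃ (m : ℕ) (w' : List (End X)), IsWord oo w' ∧ SSteps m w w' ∧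
      m + bad oo μ w' ≤ bad oo μ w ∧
      (G + 1) * bad oo μ w' ≤ Fintype.card X + (G + 1) * Def.card := by
  intro n
  induction n with
  | zero =>
    intro w hw hb
    refine ⟨0, w, hw, rfl, by omega, ?_⟩
    have : bad oo μ w = 0 := by omega
    rw [this]
    simp
  | succ n ih =>
    intro w hw hb
    rcases Nat.eq_zero_or_pos (bad oo μ w) with h0 | hpos
    · exact ⟨0, w, hw, rfl, by omega, by rw [h0]; simp⟩
    · obtain ⟨Ss, hr, hS, hl⟩ := exists_strips_cyc (μ := μ) (P := (oo, true) :: w) hpos
      by_cases hc : ∃ A ∈ Ss, ¬ Closed μ A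
      · obtain ⟨A, hA, hA'⟩ := hc
        obtain ⟨v, hv, hmv, hbv⟩ := improve hμ hw hr hS hA hA'
        rw [hl, ← bad_eq] at hbv
        obtain ⟨m, w', hw', hs, hm, hG⟩ := ih v hv (by omega)
        exact ⟨m + 1, w', hw', ⟨v, hmv, hs⟩, by omega, hG⟩
      · push Not at hc
        refine ⟨0, w, hw, rfl, by omega, ?_⟩
        have hW : IsW Ss.flatten := (isWord_iff.1 hw).rot hr.symm
        have h2 := strips_count h1 Ss (fun S h => ⟨hS S h, hc S h⟩)
        have h3 := countP_le hW.nodup Def
        have h4 := hW.length
        rw [hl, ← bad_eq] at h2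
        nlinarith

end Pool.Agent.Lib.MP29a61eN.CL

namespace Pool.Agent.Lib.MP29a61eN

theorem specCLEAN : SpecCLEAN := by
  intro X _ _ oo μ Def G w hμ h1 hw
  obtain ⟨m, w', hw', hs, hm, hG⟩ := CL.clean hμ h1 _ w hw le_rfl
  refine ⟨m, w', hw', hs, hm, ?_⟩
  rcases Nat.lt_or_ge Def.card (bad oo μ w') with h | h
  · nlinarith
  · nlinarith

end Pool.Agent.Lib.MP29a61eN
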