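import Pool.Agent.Lib.MP_29a61e_co.N2.MACRO

/-!
# MP_29a61e_co, macro part: module SW (facts on the switched matching)
-/

namespace Pool.Agent.Lib.MP29a61eN

theorem newPartner_newPartner (i : Fin 6) : newPartner (newPartner i) = i := by
  revert i; decide

theorem newPartner_ne (i : Fin 6) : newPartner i ≠ i := by
  revert i; decide

theorem oldPartner_oldPartner (i : Fin 6) : oldPartner (oldPartner i) = i := by
  revert i; decide

theorem oldPartner_ne (i : Fin 6) : oldPartner i ≠ i := by
  revert i; decide

section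
variable {X K : Type} {μ : End X → End X} {c : K → Fin 6 → End X} {D : Finset K}

/-- The value of the switched matching at an end of a switched head. -/
theorem switch_mem (hc : IsHeads μ c) {k : K} (hk : k ∈ D) (i : Fin 6) :
    switch μ c D (c k i) = c k (newPartner i) := by
  have h : ∃ p : K × Fin 6, p.1 ∈ D ∧ c p.1 p.2 = c k i := ⟨(k, i), hk, rfl⟩
  have hs := h.choose_spec
  obtain ⟨h1, h2⟩ := hc.inj _ _ _ _ hs.2
  unfold switch
  rw [dif_pos h, h1, h2]

/-- The value of the switched matching at an end which belongs to no switched head. -/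
theorem switch_of_not {e : End X} (he : ∀ k ∈ D, ∀ i, c k i ≠ e) : switch μ c D e = μ e := by
  have h : ¬ ∃ p : K × Fin 6, p.1 ∈ D ∧ c p.1 p.2 = e := by
    rintro ⟨p, hp, hpe⟩
    exact he p.1 hp p.2 hpe
  unfold switch
  rw [dif_neg h]

theorem switch_not_mem (hc : IsHeads μ c) {k : K} (hk : k ∉ D) (i : Fin 6) :
    switch μ c D (c k i) = c k (oldPartner i) := by
  rw [switch_of_not, hc.old]
  intro k' hk' i' h
  exact hk ((hc.inj _ _ _ _ h).1 ▸ hk')

theorem switch_isMatching (hμ : IsMatching μ) (hc : IsHeads μ c) :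
    IsMatching (switch μ c D) := by
  have hno : ∀ e : End X, (∀ k ∈ D, ∀ i, c k i ≠ e) → ∀ k ∈ D, ∀ i, c k i ≠ μ e := by
    intro e he k hk i h
    apply he k hk (oldPartner i)
    rw [← hc.old k i, h, hμ.inv]
  constructor
  · intro e
    by_cases he : ∀ k ∈ D, ∀ i, c k i ≠ e
    · rw [switch_of_not he, switch_of_not (hno e he), hμ.inv]
    · push Not at he
      obtain ⟨k, hk, i, rfl⟩ := he
      rw [switch_mem hc hk, switch_mem hc hk, newPartner_newPartner]
  · intro e
    by_cases he : ∀ k ∈ D, ∀ i, c k i ≠ e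
    · rw [switch_of_not he]; exact hμ.ne e
    · push Not at he
      obtain ⟨k, hk, i, rfl⟩ := he
      rw [switch_mem hc hk]
      intro h
      exact newPartner_ne i (hc.inj _ _ _ _ h).2

end

theorem specSW : SpecSW := by
  intro X K _ μ c D hμ hc
  exact ⟨switch_isMatching hμ hc, fun k hk i => switch_mem hc hk i,
    fun k hk i => switch_not_mem hc hk i, fun e he => switch_of_not he⟩

end Pool.Agent.Lib.MP29a61eN
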