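import Pool.Agent.Lib.MP_29a61e_co.N2.MACRO

/-!
# MP_29a61e_co, M(n) <= n/2 + o(n): module WM of the macro part (the matching of a word)
-/

namespace Pool.Agent.Lib.MP29a61eN

namespace WM

variable {X : Type} [DecidableEq X]

/-- The elements of the cyclic word, as a function on `Fin`. -/
def Pf (oo : X) (w : List (End X)) (i : Fin (w.length + 1)) : End X :=
  ((oo, true) :: w)[(i : ℕ)]'(by simpa using i.isLt)

omit [DecidableEq X] in
theorem Pf_inj {oo : X} {w : List (End X)} (hw : IsWord oo w) {i j : Fin (w.length + 1)}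
    (h : (Pf oo w i).1 = (Pf oo w j).1) : i = j := by
  have hnd : (((oo, true) :: w).map Prod.fst).Nodup := hw.nodup
  have h1 : (((oo, true) :: w).map Prod.fst)[(i : ℕ)]'(by simpa using i.isLt) =
      (((oo, true) :: w).map Prod.fst)[(j : ℕ)]'(by simpa using j.isLt) := by
    rw [List.getElem_map, List.getElem_map]
    exact h
  exact Fin.ext ((List.Nodup.getElem_inj_iff hnd).mp h1)

omit [DecidableEq X] in
theorem Pf_surj {oo : X} {w : List (End X)} (hw : IsWord oo w) (x : X) :
    ∃ i, (Pf oo w i).1 = x := by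
  have h : x ∈ ((oo, true) :: w).map Prod.fst := hw.full x
  obtain ⟨i, hi, h'⟩ := List.getElem_of_mem h
  refine ⟨⟨i, by simpa using hi⟩, ?_⟩
  rw [List.getElem_map] at h'
  exact h'

omit [DecidableEq X] in
theorem end_cases {e f : End X} (h : e.1 = f.1) : e = f ∨ e = bar f := by
  by_cases h' : e.2 = f.2
  · exact Or.inl (Prod.ext h h')
  · right
    refine Prod.ext (by simpa using h) ?_
    simp only [bar_snd]
    cases h1 : e.2 <;> cases h2 : f.2 <;> simp_all

omit [DecidableEq X] in
theorem cyc_get (oo : X) (w : List (End X)) (i : Fin (w.length + 1)) :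
    (cyc ((oo, true) :: w))[(i : ℕ)]? = some (Pf oo w i, Pf oo w (i + 1)) := by
  unfold cyc
  have hi : (i : ℕ) < ((oo, true) :: w).length := by simpa using i.isLt
  have hi' : (i : ℕ) < (((oo, true) :: w).zip (((oo, true) :: w).rotate 1)).length := by
    simpa using i.isLt
  rw [List.getElem?_eq_getElem hi', List.getElem_zip, List.getElem_rotate]
  congr 2
  unfold Pf
  congr 1
  rw [Fin.val_add]
  simp [Nat.add_mod]

omit [DecidableEq X] in
theorem cyc_eq (oo : X) (w : List (End X)) :
    cyc ((oo, true) :: w) = (List.finRange (w.length + 1)).map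
      (fun i => (Pf oo w i, Pf oo w (i + 1))) := by
  apply List.ext_getElem?
  intro i
  by_cases h : i < w.length + 1
  · rw [cyc_get oo w ⟨i, h⟩]
    simp [h]
  · rw [List.getElem?_eq_none, List.getElem?_eq_none]
    · simpa using Nat.le_of_not_lt h
    · simpa [cyc] using Nat.le_of_not_lt h

open Classical in
/-- The position of a letter. -/
noncomputable def idx (oo : X) (w : List (End X)) (x : X) : Fin (w.length + 1) :=
  if h : ∃ i, (Pf oo w i).1 = x then h.choose else 0

theorem idx_spec {oo : X} {w : List (End X)} (hw : IsWord oo w) (x : X) :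
    (Pf oo w (idx oo w x)).1 = x := by
  have h := Pf_surj hw x
  unfold idx
  rw [dif_pos h]
  exact h.choose_spec

theorem idx_Pf {oo : X} {w : List (End X)} (hw : IsWord oo w) (i : Fin (w.length + 1)) :
    idx oo w (Pf oo w i).1 = i :=
  Pf_inj hw (idx_spec hw _)

/-- The matching of a word. -/
noncomputable def om (oo : X) (w : List (End X)) (e : End X) : End X :=
  if Pf oo w (idx oo w e.1) = e then bar (Pf oo w (idx oo w e.1 + 1))
  else Pf oo w (idx oo w e.1 - 1)

/-- The junction of an end. -/
noncomputable def pos (oo : X) (w : List (End X)) (e : End X) : Fin (w.length + 1) :=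
  if Pf oo w (idx oo w e.1) = e then idx oo w e.1 else idx oo w e.1 - 1

theorem om_Pf {oo : X} {w : List (End X)} (hw : IsWord oo w) (i : Fin (w.length + 1)) :
    om oo w (Pf oo w i) = bar (Pf oo w (i + 1)) := by
  unfold om
  rw [idx_Pf hw, if_pos rfl]

theorem om_bar_Pf {oo : X} {w : List (End X)} (hw : IsWord oo w) (i : Fin (w.length + 1)) :
    om oo w (bar (Pf oo w i)) = Pf oo w (i - 1) := by
  unfold om
  rw [bar_fst, idx_Pf hw, if_neg (bar_ne _).symm]

theorem pos_Pf {oo : X} {w : List (End X)} (hw : IsWord oo w) (i : Fin (w.length + 1)) :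
    pos oo w (Pf oo w i) = i := by
  unfold pos
  rw [idx_Pf hw, if_pos rfl]

theorem pos_bar_Pf {oo : X} {w : List (End X)} (hw : IsWord oo w) (i : Fin (w.length + 1)) :
    pos oo w (bar (Pf oo w i)) = i - 1 := by
  unfold pos
  rw [bar_fst, idx_Pf hw, if_neg (bar_ne _).symm]

theorem exists_Pf {oo : X} {w : List (End X)} (hw : IsWord oo w) (e : End X) :
    ∃ i, e = Pf oo w i ∨ e = bar (Pf oo w i) :=
  ⟨idx oo w e.1, end_cases (idx_spec hw e.1).symm⟩

theorem isMatching_om {oo : X} {w : List (End X)} (hw : IsWord oo w) :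
    IsMatching (om oo w) := by
  constructor
  · intro e
    obtain ⟨i, rfl | rfl⟩ := exists_Pf hw e
    · rw [om_Pf hw, om_bar_Pf hw, add_sub_cancel_right]
    · rw [om_bar_Pf hw, om_Pf hw, sub_add_cancel]
  · intro e
    obtain ⟨i, rfl | rfl⟩ := exists_Pf hw e
    · rw [om_Pf hw]
      intro h
      have h1 := congrArg Prod.fst h
      rw [bar_fst] at h1
      have h2 := Pf_inj hw h1
      rw [h2] at h
      exact bar_ne _ h
    · rw [om_bar_Pf hw]
      intro h
      have h1 := congrArg Prod.fst h
      rw [bar_fst] at h1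
      have h2 := Pf_inj hw h1
      rw [h2] at h
      exact bar_ne _ h.symm

theorem bad_eq_card (oo : X) (μ : End X → End X) (w : List (End X)) :
    bad oo μ w = (Finset.univ.filter fun i : Fin (w.length + 1) =>
      Pf oo w (i + 1) ≠ phi μ (Pf oo w i)).card := by
  unfold bad
  rw [cyc_eq, List.countP_map, List.countP_eq_length_filter]
  have h : (Finset.univ.filter fun i : Fin (w.length + 1) =>
      Pf oo w (i + 1) ≠ phi μ (Pf oo w i)) =
      ((List.finRange (w.length + 1)).filter
        (fun i => decide (Pf oo w (i + 1) ≠ phi μ (Pf oo w i)))).toFinset := by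
    ext i
    simp
  rw [h, List.toFinset_card_of_nodup ((List.nodup_finRange _).filter _)]
  rfl

theorem two_mul_bad [Fintype X] {oo : X} {w : List (End X)} (hw : IsWord oo w)
    {μ : End X → End X} (hμ : IsMatching μ) : 2 * bad oo μ w = dm μ (om oo w) := by
  have hom := isMatching_om hw
  set B : Finset (Fin (w.length + 1)) := Finset.univ.filter fun i : Fin (w.length + 1) =>
      Pf oo w (i + 1) ≠ phi μ (Pf oo w i) with hB
  have hPinj : Function.Injective (Pf oo w) := fun i j h => Pf_inj hw (by rw [h])
  have hmem : ∀ i, i ∈ B ↔ μ (Pf oo w i) ≠ om oo w (Pf oo w i) := by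
    intro i
    rw [hB, Finset.mem_filter, om_Pf hw]
    simp only [Finset.mem_univ, true_and, phi, not_iff_not, ne_eq]
    constructor
    · intro h; rw [h, bar_bar]
    · intro h; rw [h, bar_bar]
  have hsplit : (Finset.univ.filter fun e => μ e ≠ om oo w e) =
      B.image (Pf oo w) ∪ B.image (fun i => bar (Pf oo w (i + 1))) := by
    ext e
    simp only [Finset.mem_filter, Finset.mem_univ, true_and, Finset.mem_union, Finset.mem_image]
    constructor
    · intro he
      obtain ⟨i, rfl | rfl⟩ := exists_Pf hw e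
      · exact Or.inl ⟨i, (hmem i).mpr he, rfl⟩
      · right
        refine ⟨i - 1, (hmem _).mpr ?_, by rw [sub_add_cancel]⟩
        intro h
        apply he
        rw [om_Pf hw, sub_add_cancel] at h
        rw [← h, hμ.inv, h, om_bar_Pf hw]
    · rintro (⟨i, hi, rfl⟩ | ⟨i, hi, rfl⟩)
      · exact (hmem i).mp hi
      · intro h
        apply (hmem i).mp hi
        rw [om_bar_Pf hw, add_sub_cancel_right] at h
        rw [om_Pf hw, ← h, hμ.inv]
  have hdisj : Disjoint (B.image (Pf oo w)) (B.image (fun i => bar (Pf oo w (i + 1)))) := by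
    rw [Finset.disjoint_left]
    intro e he he'
    obtain ⟨i, _, rfl⟩ := Finset.mem_image.mp he
    obtain ⟨j, _, hj⟩ := Finset.mem_image.mp he'
    have h1 := congrArg Prod.fst hj
    rw [bar_fst] at h1
    have h2 := Pf_inj hw h1
    rw [h2] at hj
    exact bar_ne _ hj
  unfold dm
  rw [bad_eq_card, ← hB, hsplit, Finset.card_union_of_disjoint hdisj,
    Finset.card_image_of_injective _ hPinj, Finset.card_image_of_injective]
  · ring
  · intro i j h
    have h1 := congrArg bar h
    simp only [bar_bar] at h1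
    exact add_right_cancel (hPinj h1)

end WM

theorem specWM : SpecWM := by
  intro X _ _ oo w hw
  refine ⟨WM.om oo w, WM.isMatching_om hw, ?_, fun μ hμ => WM.two_mul_bad hw hμ, ?_, ?_⟩
  · have h := WM.two_mul_bad hw (WM.isMatching_om hw)
    have h2 : dm (WM.om oo w) (WM.om oo w) = 0 := by simp [dm]
    omega
  · intro μ μ' hμ hμ'
    rw [WM.two_mul_bad hw hμ, WM.two_mul_bad hw hμ']
    unfold dm
    rw [add_comm, ← Finset.card_union_add_card_inter]
    refine le_trans (Finset.card_le_card ?_) (Nat.le_add_right _ _)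
    intro e he
    simp only [Finset.mem_union, Finset.mem_filter, Finset.mem_univ, true_and] at he ⊢
    by_contra hcon
    push Not at hcon
    exact he (hcon.1.symm.trans hcon.2)
  · refine ⟨fun e => (WM.pos oo w e : ℕ), fun e => Nat.lt_succ_iff.mp (WM.pos oo w e).isLt, ?_, ?_⟩
    · intro e
      rw [WM.cyc_get]
      obtain ⟨i, rfl | rfl⟩ := WM.exists_Pf hw e
      · left
        rw [WM.pos_Pf hw, WM.om_Pf hw, bar_bar]
      · right
        rw [WM.pos_bar_Pf hw, WM.om_bar_Pf hw, sub_add_cancel, bar_bar]
    · intro i p q h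
      have hi : i < w.length + 1 := by
        by_contra hcon
        rw [List.getElem?_eq_none] at h
        · exact absurd h (by simp)
        · simp only [cyc, List.length_zip, List.length_rotate, List.length_cons]
          omega
      rw [WM.cyc_get oo w ⟨i, hi⟩] at h
      have h' : WM.Pf oo w ⟨i, hi⟩ = p ∧ WM.Pf oo w (⟨i, hi⟩ + 1) = q := by
        simpa using h
      obtain ⟨rfl, rfl⟩ := h'
      dsimp only
      rw [WM.pos_Pf hw, WM.pos_bar_Pf hw, add_sub_cancel_right]
      exact ⟨rfl, rfl⟩

end Pool.Agent.Lib.MP29a61eN
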