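import Pool.Agent.Lib.MP_29a61e_co.N2.MACRO
import Pool.Agent.Lib.MP_29a61e_co.N2.SW
import Pool.Agent.Lib.MP_29a61e_co.N2.WM

/-!
# MP_29a61e_co, `M n ≤ n / 2 + o(n)`: CLN (most pending heads are clean)
-/

set_option autoImplicit false

namespace Pool.Agent.Lib.MP29a61eN

namespace CLN

open Classical in
theorem card_pos' {α : Type} (f : α → Bool) : ∀ l : List α,
    ((Finset.range l.length).filter (fun i => ∃ a, l[i]? = some a ∧ f a = true)).card =
      l.countP f := by
  intro l
  induction l with
  | nil => simp
  | cons b l ih =>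
    rw [Finset.card_filter, List.length_cons, Finset.sum_range_succ', List.countP_cons, ← ih,
      Finset.card_filter]
    congr 1
    by_cases hb : f b = true
    · rw [if_pos hb, if_pos ⟨b, rfl, hb⟩]
    · rw [if_neg hb, if_neg]
      rintro ⟨a, ha, hfa⟩
      rw [List.getElem?_cons_zero, Option.some.injEq] at ha
      rw [ha] at hb
      exact hb hfa

/-- The number of the positions of a list with property `f`. -/
theorem card_pos {α : Type} (f : α → Bool) (l : List α)
    [DecidablePred fun i : ℕ => ∃ a, l[i]? = some a ∧ f a = true] :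
    ((Finset.range l.length).filter (fun i => ∃ a, l[i]? = some a ∧ f a = true)).card =
      l.countP f := by
  rw [← card_pos' f l]
  congr

theorem length_cyc {α : Type} (l : List α) : (cyc l).length = l.length := by
  unfold cyc
  simp

theorem fst_of_cyc {α : Type} {l : List α} {i : ℕ} {p q : α} (h : (cyc l)[i]? = some (p, q)) :
    l[i]? = some p := by
  unfold cyc at h
  rw [List.getElem?_zip_eq_some] at h
  exact h.1

theorem lt_of_cyc {α : Type} {l : List α} {i : ℕ} {p : α × α} (h : (cyc l)[i]? = some p) :
    i < l.length := by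
  by_contra hcon
  rw [List.getElem?_eq_none (by rw [length_cyc]; omega)] at h
  exact absurd h (by simp)

/-- The old link number `s` of a head. -/
def ev : Fin 3 → Fin 6 := ![0, 2, 4]

theorem ev_inj {s t : Fin 3} (h : ev s = ev t ∨ ev s = oldPartner (ev t)) : s = t := by
  revert h
  revert s t
  decide

theorem old_old (i : Fin 6) : oldPartner (oldPartner i) = i := by
  revert i
  decide

end CLN

open CLN in
theorem cln_of (hSW : SpecSW) (hWM : SpecWM) : SpecCLN := by
  classical
  intro X _ _ oo K _ _ μ c D Def L w hμ hc hw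
  obtain ⟨hm, -, hold, -⟩ := hSW X K μ c D hμ hc
  set μD := switch μ c D with hμD
  obtain ⟨ω, hω, -, -, -, pos, hpos1, hpos2, hpos3⟩ := hWM X oo w hw
  set P := (oo, true) :: w with hP
  have hPl : P.length = w.length + 1 := by rw [hP, List.length_cons]
  -- good junctions
  let good : ℕ → Prop := fun i => ∀ p q, (cyc P)[i]? = some (p, q) → q = phi μD p
  let y : K → Fin 3 → ℕ := fun k s => pos (c k (ev s))
  have hcut : ∀ k, k ∉ D → ∀ s, good (y k s) →
      ∃ a, (a = ev s ∨ a = oldPartner (ev s)) ∧ CutAt oo w (c k) (y k s) a := by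
    intro k hk s hg
    have hE := hold k hk (ev s)
    rcases hpos2 (c k (ev s)) with h | h
    · refine ⟨ev s, Or.inl rfl, ?_⟩
      have h1 := hg _ _ h
      unfold phi at h1
      have h2 : ω (c k (ev s)) = μD (c k (ev s)) := by
        have := congrArg bar h1
        simpa using this
      unfold CutAt
      rw [← hE, ← h2]
      exact h
    · refine ⟨oldPartner (ev s), Or.inr rfl, ?_⟩
      have h1 := hg _ _ h
      unfold phi at h1
      have h2 : c k (ev s) = μD (ω (c k (ev s))) := by
        have := congrArg bar h1
        simpa using this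
      have h3 : ω (c k (ev s)) = c k (oldPartner (ev s)) := by
        rw [← hE]
        conv_rhs => rw [h2]
        rw [hm.inv]
      unfold CutAt
      rw [old_old, ← h3]
      exact h
  have hinj : ∀ k k' s s', k ∉ D → k' ∉ D → good (y k s) → y k s = y k' s' → k = k' ∧ s = s' := by
    intro k k' s s' hk hk' hg he
    obtain ⟨a, ha, h1⟩ := hcut k hk s hg
    obtain ⟨a', ha', h2⟩ := hcut k' hk' s' (he ▸ hg)
    unfold CutAt at h1 h2
    rw [he, h2] at h1
    simp only [Option.some.injEq, Prod.mk.injEq] at h1
    obtain ⟨h3, h4⟩ := hc.inj _ _ _ _ h1.1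
    refine ⟨h3.symm, ?_⟩
    subst h4
    rcases ha with rfl | rfl
    · exact ev_inj ha'
    · rcases ha' with h | h
      · exact (ev_inj (Or.inr h.symm)).symm
      · have := congrArg oldPartner h
        rw [old_old, old_old] at this
        exact ev_inj (Or.inl this)
  -- the positions near a bad junction or a letter of `Def`
  let B1 : Finset ℕ := (Finset.range (cyc P).length).filter
    (fun i => ∃ a, (cyc P)[i]? = some a ∧ decide (a.2 ≠ phi μD a.1) = true)
  let B2 : Finset ℕ := (Finset.range P.length).filter
    (fun i => ∃ a, P[i]? = some a ∧ decide (a.1 ∈ Def) = true)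
  have hB1 : B1.card = bad oo μD w := card_pos _ _
  have hB2 : B2.card ≤ Def.card := by
    rw [card_pos]
    have hnd : (P.map Prod.fst).Nodup := by
      rw [hP, List.map_cons]
      exact hw.nodup
    rw [List.countP_eq_length_filter, ← List.length_map (f := Prod.fst)]
    have h2 : ((P.filter (fun e => decide (e.1 ∈ Def))).map Prod.fst).Nodup :=
      hnd.sublist (List.Sublist.map _ (List.filter_sublist))
    rw [← List.toFinset_card_of_nodup h2]
    refine Finset.card_le_card ?_
    intro x hx
    rw [List.mem_toFinset, List.mem_map] at hx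
    obtain ⟨e, he, rfl⟩ := hx
    simpa using (List.mem_filter.1 he).2
  let T : Finset ℕ := insert 0 (insert w.length
    ((B1 ∪ B2).biUnion fun i => Finset.Ico (i - L) (i + L)))
  have hT : T.card ≤ (B1.card + B2.card) * (2 * L) + 2 := by
    have h1 : ((B1 ∪ B2).biUnion fun i => Finset.Ico (i - L) (i + L)).card ≤
        (B1 ∪ B2).card * (2 * L) := by
      refine Finset.card_biUnion_le_card_mul _ _ _ ?_
      intro i _
      rw [Nat.card_Ico]
      omega
    have h2 := Finset.card_union_le B1 B2
    have h3 := Nat.mul_le_mul_right (2 * L) h2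
    have h4 := Finset.card_insert_le 0 (insert w.length
      ((B1 ∪ B2).biUnion fun i => Finset.Ico (i - L) (i + L)))
    have h5 := Finset.card_insert_le w.length
      ((B1 ∪ B2).biUnion fun i => Finset.Ico (i - L) (i + L))
    show (insert 0 (insert w.length
      ((B1 ∪ B2).biUnion fun i => Finset.Ico (i - L) (i + L)))).card ≤ _
    omega
  -- the three classes of pending heads
  let U1 : Finset K := Dᶜ.filter (fun k => ∃ s, ¬ good (y k s))
  let U2 : Finset K := Dᶜ.filter (fun k => (∀ s, good (y k s)) ∧ ∃ s, y k s ∈ T)
  let Q : Finset K := Dᶜ.filter (fun k => (∀ s, good (y k s)) ∧ ∀ s, y k s ∉ T)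
  have hcov : Dᶜ ⊆ Q ∪ (U1 ∪ U2) := by
    intro k hk
    by_cases h1 : ∀ s, good (y k s)
    · by_cases h2 : ∀ s, y k s ∉ T
      · exact Finset.mem_union_left _ (Finset.mem_filter.2 ⟨hk, h1, h2⟩)
      · push Not at h2
        exact Finset.mem_union_right _ (Finset.mem_union_right _
          (Finset.mem_filter.2 ⟨hk, h1, h2⟩))
    · have h1' : ∃ s, ¬ good (y k s) := not_forall.1 h1
      exact Finset.mem_union_right _ (Finset.mem_union_left _ (Finset.mem_filter.2 ⟨hk, h1'⟩))
  have hU2 : U2.card ≤ T.card := by
    have hch : ∀ k : K, ∃ s : Fin 3, k ∈ U2 → y k s ∈ T := by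
      intro k
      by_cases hk : k ∈ U2
      · obtain ⟨-, -, s, hs⟩ := Finset.mem_filter.1 hk
        exact ⟨s, fun _ => hs⟩
      · exact ⟨0, fun h => absurd h hk⟩
    choose sk hsk using hch
    refine Finset.card_le_card_of_injOn (fun k => y k (sk k)) (fun k hk => hsk k hk) ?_
    intro k hk k' hk' he
    have h1 := Finset.mem_filter.1 (Finset.mem_coe.1 hk)
    have h2 := Finset.mem_filter.1 (Finset.mem_coe.1 hk')
    exact (hinj k k' _ _ (Finset.mem_compl.1 h1.1) (Finset.mem_compl.1 h2.1) (h1.2.1 _) he).1
  have hU1 : U1.card ≤ 2 * B1.card := by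
    have hch : ∀ k : K, ∃ s : Fin 3, k ∈ U1 → ¬ good (y k s) := by
      intro k
      by_cases hk : k ∈ U1
      · obtain ⟨-, s, hs⟩ := Finset.mem_filter.1 hk
        exact ⟨s, fun _ => hs⟩
      · exact ⟨0, fun h => absurd h hk⟩
    choose sk hsk using hch
    have hsub : U1.card ≤ (B1 ×ˢ (Finset.univ : Finset Bool)).card := by
      refine Finset.card_le_card_of_injOn (fun k => (y k (sk k),
        decide ((cyc P)[y k (sk k)]? = some (c k (ev (sk k)), bar (ω (c k (ev (sk k)))))))) ?_ ?_
      · intro k hk
        have h1 := hsk k hk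
        rw [Finset.mem_coe, Finset.mem_product]
        refine ⟨?_, Finset.mem_univ _⟩
        have h2 : ∃ p q, (cyc P)[y k (sk k)]? = some (p, q) ∧ q ≠ phi μD p := by
          by_contra hcon
          apply h1
          intro p q hpq
          by_contra hne
          exact hcon ⟨p, q, hpq, hne⟩
        obtain ⟨p, q, hpq, hne⟩ := h2
        refine Finset.mem_filter.2 ⟨?_, (p, q), hpq, by simpa using hne⟩
        rw [Finset.mem_range, length_cyc]
        exact lt_of_cyc hpq
      · intro k hk k' hk' he
        simp only [Prod.mk.injEq, decide_eq_decide] at he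
        obtain ⟨he1, he2⟩ := he
        have hce : c k (ev (sk k)) = c k' (ev (sk k')) := by
          rcases hpos2 (c k (ev (sk k))) with h | h
          · have h' := he2.1 h
            rw [← he1] at h'
            have h'' : (cyc P)[y k (sk k)]? = _ := h
            rw [h''] at h'
            simp only [Option.some.injEq, Prod.mk.injEq] at h'
            exact h'.1
          · have hn : ¬ (cyc P)[y k' (sk k')]? =
                some (c k' (ev (sk k')), bar (ω (c k' (ev (sk k'))))) := by
              rw [← he2]
              intro h'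
              have h'' : (cyc P)[y k (sk k)]? = _ := h
              rw [h''] at h'
              simp only [Option.some.injEq, Prod.mk.injEq] at h'
              exact hω.ne _ h'.1
            have h2 := (hpos2 (c k' (ev (sk k')))).resolve_left hn
            have h'' : (cyc P)[y k (sk k)]? = _ := h
            have h3 : (cyc P)[y k' (sk k')]? = _ := h2
            rw [← he1, h''] at h3
            simp only [Option.some.injEq, Prod.mk.injEq] at h3
            have := congrArg bar h3.2
            simpa using this
        exact (hc.inj _ _ _ _ hce).1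
    rw [Finset.card_product, Finset.card_univ, Fintype.card_bool] at hsub
    omega
  -- the sorted positions
  let x : K → Fin 3 → ℕ := fun k s => y k (Tuple.sort (y k) s)
  have hach : ∀ (k : K) (s : Fin 3), ∃ a : Fin 6, k ∈ Q → CutAt oo w (c k) (x k s) a := by
    intro k s
    by_cases hk : k ∈ Q
    · have h1 := Finset.mem_filter.1 hk
      obtain ⟨a, -, ha⟩ := hcut k (Finset.mem_compl.1 h1.1) (Tuple.sort (y k) s) (h1.2.1 _)
      exact ⟨a, fun _ => ha⟩
    · exact ⟨0, fun h => absurd h hk⟩
  choose a ha using hach
  refine ⟨Q, x, a, Finset.filter_subset _ _, ?_, ?_⟩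
  · have h1 := Finset.card_le_card hcov
    have h2 := Finset.card_union_le Q (U1 ∪ U2)
    have h3 := Finset.card_union_le U1 U2
    have h4 : (B1.card + B2.card) * (2 * L) ≤ (bad oo μD w + Def.card) * (2 * L) :=
      Nat.mul_le_mul_right _ (by omega)
    have h5 : (3 * L + 9) * (bad oo μD w + Def.card + 1) =
        (bad oo μD w + Def.card) * (2 * L) + (bad oo μD w + Def.card) * L +
          9 * (bad oo μD w + Def.card) + 3 * L + 9 := by ring
    omega
  · intro k hk
    have h1 := Finset.mem_filter.1 hk
    have hkD : k ∉ D := Finset.mem_compl.1 h1.1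
    have hmono : Monotone (y k ∘ Tuple.sort (y k)) := Tuple.monotone_sort (y k)
    have hlt : ∀ s t : Fin 3, s < t → x k s < x k t := by
      intro s t hst
      refine lt_of_le_of_ne (hmono hst.le) ?_
      intro he
      have h2 := (hinj k k _ _ hkD hkD (h1.2.1 _) he).2
      exact hst.ne ((Tuple.sort (y k)).injective h2)
    have hxT : ∀ s, x k s ∉ T := fun s => h1.2.2 _
    have hx0 : ∀ s, x k s ≠ 0 := by
      intro s h
      apply hxT s
      rw [h]
      exact Finset.mem_insert_self _ _
    have hxw : ∀ s, x k s < w.length := by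
      intro s
      have h2 : x k s ≤ w.length := hpos1 _
      refine lt_of_le_of_ne h2 ?_
      intro h
      apply hxT s
      rw [h]
      exact Finset.mem_insert_of_mem (Finset.mem_insert_self _ _)
    refine ⟨fun s => ha k s hk, Nat.pos_of_ne_zero (hx0 0), hlt 0 1 (by decide),
      hlt 1 2 (by decide), hxw 2, ?_⟩
    intro s i hi1 hi2 p q hpq
    by_contra hcon
    apply hxT s
    refine Finset.mem_insert_of_mem (Finset.mem_insert_of_mem ?_)
    rw [Finset.mem_biUnion]
    refine ⟨i, ?_, Finset.mem_Ico.2 ⟨by omega, hi1⟩⟩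
    have hil := lt_of_cyc hpq
    by_cases hD : p.1 ∈ Def
    · refine Finset.mem_union_right _ (Finset.mem_filter.2 ⟨Finset.mem_range.2 hil, p,
        fst_of_cyc hpq, by simpa using hD⟩)
    · have hq : q ≠ phi μD p := fun h => hcon ⟨hD, h⟩
      refine Finset.mem_union_left _ (Finset.mem_filter.2 ⟨?_, (p, q), hpq, by simpa using hq⟩)
      rw [Finset.mem_range, length_cyc]
      exact hil

theorem specCLN : SpecCLN := cln_of specSW specWM

end Pool.Agent.Lib.MP29a61eN
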