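import Pool.Agent.Lib.MP_29a61e_co.N2.Local1

/-!
# MP_29a61e_co, M(n) <= n/2 + o(n): module LEVEL

In an admissible state there is no closed curve without world end.
-/

namespace Pool.Agent.Lib.MP29a61eN

namespace LEV

variable {X : Type} {S : Str X} {Op : Finset X} {t : ℕ}

/-! ### Elementary facts -/

theorem r_ne (h : S.Ok) {x : X} (hx : x ∈ S.E) : S.r x ≠ x := by
  intro hr
  apply h.paired x hx
  have : S.b (S.r x) = S.b x := by rw [hr]
  simpa [Str.r] using this

theorem s_v_ne (h : S.Ok) {x : X} (hx : x ∈ S.E) : S.s (S.v x) ≠ S.v x := by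
  intro hs
  rw [h.sv x hx] at hs
  exact r_ne h hx (S.v.injective hs)

theorem c_r (h : S.Ok) {x : X} (hx : x ∈ S.E) : S.c (S.r x) ≠ S.c x := by
  have h1 := h.cs (S.v x) (s_v_ne h hx)
  rw [h.sv x hx, h.cv _ (h.rE x hx), h.cv x hx] at h1
  exact h1

theorem lo_of_mem (h : S.Ok) (hA : S.Adm t Op) {y : X} (hy : y ∈ Op) : S.Lo Op y := by
  by_cases hb : S.b.symm y ∈ S.E
  · right
    apply hA.lo _ hb
    have h1 := h.tl _ hb
    rw [Equiv.apply_symm_apply] at h1
    have h2 := h.lt y (hA.sub y hy)
    have h3 := hA.hi y hy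
    omega
  · left; exact hb

theorem not_mem_of_TL (h : S.Ok) (hA : S.Adm t Op) {y : X} (hy : t ≤ S.TL y) : y ∉ Op := by
  intro hm
  have h2 := h.lt y (hA.sub y hm)
  have h3 := hA.hi y hm
  omega

theorem T_ge (hA : S.Adm t Op) {x : X} (hx : x ∈ S.E) (hO : x ∉ Op) : t ≤ S.T x := by
  by_contra hlt
  exact hO (hA.lo x hx (by omega))

/-! ### Values of the matching -/

theorem mu_true_notE {x : X} (hx : x ∉ S.E) : S.mu Op (x, true) = S.W (x, true) := by
  simp [Str.mu, hx]

theorem mu_true_opL {x : X} (hx : x ∈ S.E) (hO : x ∈ Op) (hc : S.c x = true) :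
    S.mu Op (x, true) = (S.v x, false) := by
  simp [Str.mu, hx, hO, hc]

theorem mu_true_dist {x : X} (hx : x ∈ S.E) (hO : x ∉ Op)
    (hz : S.v.symm (S.b x) ∈ Op ∧ S.c (S.v.symm (S.b x)) = true) :
    S.mu Op (x, true) = (S.r (S.v.symm (S.b x)), true) := by
  simp [Str.mu, hx, hO, hz]

theorem mu_true_black {x : X} (hx : x ∈ S.E) (hO : x ∉ Op)
    (hz : ¬ (S.v.symm (S.b x) ∈ Op ∧ S.c (S.v.symm (S.b x)) = true)) :
    S.mu Op (x, true) = (S.b x, false) := by
  simp only [Str.mu]
  rw [if_neg (by simpa using hx), if_neg hO, if_neg hz]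

theorem mu_false_glued {y : X} (hv : S.v.symm y ∈ Op) (hl : S.Lo Op y) :
    S.mu Op (y, false) = (S.v.symm y, true) := by
  simp [Str.mu, hv, hl]

theorem mu_false_twin {y : X} (hv : S.v.symm y ∉ Op) (hl : S.Lo Op y) (hs : S.s y ≠ y) :
    S.mu Op (y, false) = (S.s y, false) := by
  simp [Str.mu, hv, hl, hs]

/-- At a world end the link is the world link. -/
theorem mu_world (h : S.Ok) (hA : S.Adm t Op) {e : End X} (he : S.WEnd e) :
    S.mu Op e = S.W e := by
  rcases he with ⟨h2, h1⟩ | ⟨h2, h1⟩
  · obtain ⟨x, s⟩ := e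
    simp only at h1 h2
    subst h2
    exact mu_true_notE h1
  · obtain ⟨y, s⟩ := e
    simp only at h1 h2
    subst h2
    have hv : S.v.symm y ∉ Op := by
      intro hm
      have := s_v_ne h (hA.sub _ hm)
      rw [Equiv.apply_symm_apply] at this
      exact this h1
    have hl : S.Lo Op y := by
      left
      intro hb
      have := h.paired _ hb
      rw [Equiv.apply_symm_apply] at this
      exact this h1
    simp [Str.mu, hv, hl, h1]

/-! ### Out ends -/

/-- The out end of a letter: the left end if the letter is an opened follower, otherwise the right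
end. -/
def IsOut (S : Str X) (Op : Finset X) (e : End X) : Prop :=
  e.2 = false ↔ (e.1 ∈ Op ∧ S.c e.1 = false)

theorem isOut_bar {e : End X} (he : ¬ IsOut S Op e) : IsOut S Op (bar e) := by
  obtain ⟨x, s⟩ := e
  unfold IsOut at he ⊢
  simp only [bar] at he ⊢
  cases s <;> simp_all

/-- The states of a curve that comes from an unopened letter of level `ℓ`. -/
def Q (S : Str X) (Op : Finset X) (ℓ : ℕ) (e : End X) : Prop :=
  (e.2 = true ∧ e.1 ∈ S.E ∧ e.1 ∉ Op ∧ ℓ < S.T e.1) ∨
  (e.2 = false ∧ e.1 ∈ Op ∧ S.c e.1 = false ∧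
    ∃ i, (∀ j ≤ i, (S.v ^ j) e.1 ∈ Op) ∧ ℓ ≤ S.TL ((S.v ^ (i + 1)) e.1)) ∨
  (e.2 = true ∧ e.1 ∈ Op ∧ S.c e.1 = true ∧
    ∃ i, (∀ j ≤ i, (S.v ^ j) e.1 ∈ Op) ∧
      (ℓ ≤ S.TL ((S.v ^ (i + 1)) e.1) ∨ (S.v ^ (i + 1)) e.1 ∉ S.E))

/-- The step from an unopened letter. -/
theorem step_U (h : S.Ok) (hA : S.Adm t Op) {ℓ : ℕ} {x : X} (hx : x ∈ S.E) (hO : x ∉ Op)
    (hl : ℓ ≤ S.T x) :
    Q S Op ℓ (phi (S.mu Op) (x, true)) ∨ S.WEnd (phi (S.mu Op) (x, true)) := by
  have hTx := T_ge hA hx hO
  by_cases hz : S.v.symm (S.b x) ∈ Op ∧ S.c (S.v.symm (S.b x)) = true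
  · left
    right; left
    rw [phi, mu_true_dist hx hO hz]
    have hzE := hA.sub _ hz.1
    refine ⟨rfl, hA.inv _ hz.1, ?_, 0, ?_, ?_⟩
    · have := c_r h hzE
      rw [hz.2] at this
      simpa [bar] using this
    · intro j hj
      have : j = 0 := by omega
      subst this
      simpa [bar] using hA.inv _ hz.1
    · simp only [bar, zero_add, pow_one]
      rw [← h.sv _ hzE, Equiv.apply_symm_apply]
      have h0 := (h.code (S.b x) 0 (by intro i hi; omega)).1
      simp only [pow_zero, Equiv.Perm.coe_one, id_eq] at h0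
      rw [← h0, h.tl x hx]
      exact hl
  · rw [phi, mu_true_black hx hO hz]
    simp only [bar, Bool.not_false]
    have h1 := h.tl x hx
    have hbO : S.b x ∉ Op := not_mem_of_TL h hA (by omega)
    by_cases hbE : S.b x ∈ S.E
    · left; left
      have h2 := h.lt _ hbE
      exact ⟨rfl, hbE, hbO, by simp only; omega⟩
    · right; left
      exact ⟨rfl, hbE⟩

/-- The step down the value line of a follower. -/
theorem step_F (h : S.Ok) (hA : S.Adm t Op) {ℓ : ℕ} {x : X} (hO : x ∈ Op)
    (hc : S.c x = false) {i : ℕ} (hi : ∀ j ≤ i, (S.v ^ j) x ∈ Op)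
    (hT : ℓ ≤ S.TL ((S.v ^ (i + 1)) x)) (hW : ¬ S.WEnd (x, false)) :
    Q S Op ℓ (phi (S.mu Op) (x, false)) ∨ S.WEnd (phi (S.mu Op) (x, false)) := by
  have hlo := lo_of_mem h hA hO
  by_cases hv : S.v.symm x ∈ Op
  · left
    rw [phi, mu_false_glued hv hlo]
    right; left
    have hvE := hA.sub _ hv
    have hvx : ∀ j : ℕ, (S.v ^ (j + 1)) (S.v.symm x) = (S.v ^ j) x := by
      intro j
      rw [pow_succ, Equiv.Perm.mul_apply, Equiv.apply_symm_apply]
    refine ⟨rfl, hv, ?_, i + 1, ?_, ?_⟩
    · have := h.cv _ hvE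
      rw [Equiv.apply_symm_apply] at this
      simpa [bar, hc] using this.symm
    · intro j hj
      simp only [bar]
      rcases j with _ | j
      · simpa using hv
      · rw [hvx j]
        exact hi j (by omega)
    · simp only [bar]
      rw [hvx (i + 1)]
      exact hT
  · have hs : S.s x ≠ x := by
      intro hs
      exact hW (Or.inr ⟨rfl, hs⟩)
    rw [phi, mu_false_twin hv hlo hs]
    simp only [bar, Bool.not_false]
    by_cases hsE : S.s x ∈ S.E
    · left; right; right
      have hcs := h.cs x hs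
      -- the first letter of the mirror image which is not active, or the top
      have hex : ∃ m, m = i + 1 ∨ (S.v ^ m) (S.s x) ∉ S.E := ⟨i + 1, Or.inl rfl⟩
      classical
      let m := Nat.find hex
      have hm : m = i + 1 ∨ (S.v ^ m) (S.s x) ∉ S.E := Nat.find_spec hex
      have hmin : ∀ j < m, j ≠ i + 1 ∧ (S.v ^ j) (S.s x) ∈ S.E := by
        intro j hj
        have := Nat.find_min hex hj
        push Not at this
        exact this
      have hm0 : m ≠ 0 := by
        intro h0
        rcases hm with hm | hm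
        · omega
        · rw [h0] at hm
          exact hm (by simpa using hsE)
      have hmi : m ≤ i + 1 := Nat.find_min' hex (Or.inl rfl)
      have hall : ∀ j < m, (S.v ^ j) (S.s x) ∈ Op := by
        intro j hj
        have hjE : ∀ j' ≤ j, (S.v ^ j') (S.s x) ∈ S.E := fun j' hj' => (hmin j' (by omega)).2
        have hjO : ∀ j' ≤ j, (S.v ^ j') x ∈ Op := fun j' hj' => hi j' (by omega)
        have hcode := (h.code x j (fun i' hi' => ⟨hA.sub _ (hjO i' (by omega)),
          hjE i' (by omega)⟩)).2 (hA.sub _ (hjO j le_rfl)) (hjE j le_rfl)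
        have hle := hA.hi _ (hjO j le_rfl)
        rcases Nat.lt_or_ge (S.T ((S.v ^ j) x)) t with hlt | hge
        · exact hA.lo _ (hjE j le_rfl) (by omega)
        · exact hA.dc x j hjO hv hc hs (by omega) hjE
      refine ⟨rfl, ?_, ?_, m - 1, ?_, ?_⟩
      · simpa using hall 0 (by omega)
      · rw [hc] at hcs
        simpa using hcs
      · intro j hj
        exact hall j (by omega)
      · have hm1 : m - 1 + 1 = m := by omega
        simp only
        rw [hm1]
        rcases hm with hm | hm
        · left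
          have hcode := (h.code x (i + 1) (fun i' hi' => ⟨hA.sub _ (hi i' (by omega)),
            (hmin i' (by omega)).2⟩)).1
          rw [hm, ← hcode]
          exact hT
        · right; exact hm
    · right; left
      exact ⟨rfl, hsE⟩

/-- The step up the value line of a leader. -/
theorem step_L (h : S.Ok) (hA : S.Adm t Op) {ℓ : ℕ} (hℓ : t ≤ ℓ) {x : X} (hO : x ∈ Op)
    (hc : S.c x = true) {i : ℕ} (hi : ∀ j ≤ i, (S.v ^ j) x ∈ Op)
    (hT : ℓ ≤ S.TL ((S.v ^ (i + 1)) x) ∨ (S.v ^ (i + 1)) x ∉ S.E) :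
    Q S Op ℓ (phi (S.mu Op) (x, true)) ∨ S.WEnd (phi (S.mu Op) (x, true)) := by
  have hxE := hA.sub _ hO
  rw [phi, mu_true_opL hxE hO hc]
  simp only [bar, Bool.not_false]
  have hvx : ∀ j : ℕ, (S.v ^ j) (S.v x) = (S.v ^ (j + 1)) x := by
    intro j
    rw [pow_succ, Equiv.Perm.mul_apply]
  by_cases hvE : S.v x ∈ S.E
  · left
    rcases i with _ | i
    · left
      have hT' : ℓ ≤ S.TL (S.v x) := by
        rcases hT with hT | hT
        · simpa using hT
        · exact absurd hvE (by simpa using hT)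
      have h2 := h.lt _ hvE
      have hvO : S.v x ∉ Op := not_mem_of_TL h hA (by omega)
      exact ⟨rfl, hvE, hvO, by simp only; omega⟩
    · right; right
      refine ⟨rfl, ?_, ?_, i, ?_, ?_⟩
      · simpa using hi 1 (by omega)
      · simp only; rw [h.cv x hxE, hc]
      · intro j hj
        simp only; rw [hvx]
        exact hi (j + 1) (by omega)
      · simp only; rw [hvx]
        exact hT
  · right; left
    exact ⟨rfl, hvE⟩

theorem step_Q (h : S.Ok) (hA : S.Adm t Op) {ℓ : ℕ} (hℓ : t ≤ ℓ) {e : End X}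
    (he : Q S Op ℓ e) (hW : ¬ S.WEnd e) :
    Q S Op ℓ (phi (S.mu Op) e) ∨ S.WEnd (phi (S.mu Op) e) := by
  obtain ⟨x, s⟩ := e
  rcases he with ⟨hs, hE, hO, hl⟩ | ⟨hs, hO, hc, i, hi, hT⟩ | ⟨hs, hO, hc, i, hi, hT⟩
  · simp only at hs hE hO hl
    subst hs
    exact step_U h hA hE hO hl.le
  · simp only at hs hO hc hi hT
    subst hs
    exact step_F h hA hO hc hi hT hW
  · simp only at hs hO hc hi hT
    subst hs
    exact step_L h hA hℓ hO hc hi hT

/-- A curve that leaves a letter through its out end goes from out end to out end. -/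
theorem isOut_phi (h : S.Ok) (hA : S.Adm t Op) {e : End X} (he : IsOut S Op e) (hW : ¬ S.WEnd e) :
    IsOut S Op (phi (S.mu Op) e) := by
  obtain ⟨x, s⟩ := e
  cases s
  · -- left end of an opened follower
    obtain ⟨hO, hc⟩ := he.1 rfl
    simp only at hO hc
    have hlo := lo_of_mem h hA hO
    by_cases hv : S.v.symm x ∈ Op
    · rw [phi, mu_false_glued hv hlo]
      have := h.cv _ (hA.sub _ hv)
      rw [Equiv.apply_symm_apply, hc] at this
      exact ⟨fun _ => ⟨hv, this.symm⟩, fun _ => rfl⟩
    · have hs : S.s x ≠ x := fun hs => hW (Or.inr ⟨rfl, hs⟩)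
      rw [phi, mu_false_twin hv hlo hs]
      have := h.cs x hs
      rw [hc] at this
      refine ⟨fun h' => ?_, fun h' => ?_⟩
      · simp [bar] at h'
      · exact absurd h'.2 this
  · -- right end
    have hE : x ∈ S.E := by
      by_contra hE
      exact hW (Or.inl ⟨rfl, hE⟩)
    by_cases hO : x ∈ Op
    · have hc : S.c x = true := by
        by_contra hc
        have := he.2 ⟨hO, by simpa using hc⟩
        simp at this
      rw [phi, mu_true_opL hE hO hc]
      have := h.cv _ hE
      rw [hc] at this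
      refine ⟨fun h' => ?_, fun h' => ?_⟩
      · simp [bar] at h'
      · have h2 := h'.2
        simp only [bar] at h2
        rw [this] at h2
        simp at h2
    · by_cases hz : S.v.symm (S.b x) ∈ Op ∧ S.c (S.v.symm (S.b x)) = true
      · rw [phi, mu_true_dist hE hO hz]
        have := c_r h (hA.sub _ hz.1)
        rw [hz.2] at this
        exact ⟨fun _ => ⟨hA.inv _ hz.1, by simpa [bar] using this⟩, fun _ => rfl⟩
      · rw [phi, mu_true_black hE hO hz]
        have h1 := h.tl x hE
        have hT := T_ge hA hE hO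
        have hbO : S.b x ∉ Op := not_mem_of_TL h hA (by omega)
        refine ⟨fun h' => ?_, fun h' => ?_⟩
        · simp [bar] at h'
        · exact absurd h'.1 hbO

/-- A closed curve of opened leaders is impossible. -/
theorem no_closed_L (h : S.Ok) (hA : S.Adm t Op) {e : End X} {k : ℕ} (hk : 1 ≤ k)
    (hcl : (phi (S.mu Op))^[k] e = e) (hall : ∀ i, ((phi (S.mu Op))^[i] e).1 ∈ Op)
    (hs : e.2 = true) (hc : S.c e.1 = true) : False := by
  have key : ∀ m, (phi (S.mu Op))^[m] e = ((S.v ^ m) e.1, true) ∧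
      S.c ((S.v ^ m) e.1) = true := by
    intro m
    induction m with
    | zero =>
      refine ⟨?_, by simpa using hc⟩
      simp [← hs]
    | succ m ih =>
      have hO := hall m
      rw [ih.1] at hO
      have hE := hA.sub _ hO
      have hvm : (S.v ^ (m + 1)) e.1 = S.v ((S.v ^ m) e.1) := by
        rw [pow_succ', Equiv.Perm.mul_apply]
      refine ⟨?_, ?_⟩
      · rw [Function.iterate_succ_apply', ih.1, phi, mu_true_opL hE hO ih.2, hvm]
        rfl
      · rw [hvm, h.cv _ hE]
        exact ih.2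
  have hvE : ∀ i, (S.v ^ i) e.1 ∈ S.E := by
    intro i
    have hO := hall i
    rw [(key i).1] at hO
    exact hA.sub _ hO
  have h1 := h.vline e.1 k hk (fun i _ => hvE i)
  have h2 := (key k).1
  rw [hcl] at h2
  apply h1
  have h3 : e.1 = (S.v ^ k) e.1 := congrArg Prod.fst h2
  exact congrArg S.T h3.symm

/-- A closed curve of opened followers is impossible. -/
theorem no_closed_F (h : S.Ok) (hA : S.Adm t Op) {e : End X} {k : ℕ} (hk : 1 ≤ k)
    (hcl : (phi (S.mu Op))^[k] e = e) (hall : ∀ i, ((phi (S.mu Op))^[i] e).1 ∈ Op)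
    (hs : ∀ i, ((phi (S.mu Op))^[i] e).2 = false) (hW : ∀ i, ¬ S.WEnd ((phi (S.mu Op))^[i] e)) :
    False := by
  have hstep : ∀ m, S.v ((phi (S.mu Op))^[m + 1] e).1 = ((phi (S.mu Op))^[m] e).1 := by
    intro m
    have h1 := hall m
    have h2 := hs m
    have h3 := hW m
    have h4 := hs (m + 1)
    rw [Function.iterate_succ_apply'] at h4 ⊢
    generalize (phi (S.mu Op))^[m] e = e' at h1 h2 h3 h4 ⊢
    obtain ⟨x, s⟩ := e'
    simp only at h1 h2
    subst h2
    have hlo := lo_of_mem h hA h1
    by_cases hv : S.v.symm x ∈ Op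
    · rw [phi, mu_false_glued hv hlo]
      simp [bar]
    · have hs : S.s x ≠ x := fun hs => h3 (Or.inr ⟨rfl, hs⟩)
      rw [phi, mu_false_twin hv hlo hs] at h4
      simp [bar] at h4
  have hpow : ∀ i m, (S.v ^ i) ((phi (S.mu Op))^[m + i] e).1 = ((phi (S.mu Op))^[m] e).1 := by
    intro i
    induction i with
    | zero => intro m; simp
    | succ i ih =>
      intro m
      rw [pow_succ, Equiv.Perm.mul_apply, ← add_assoc, hstep (m + i)]
      exact ih m
  have hvE : ∀ i ≤ k, (S.v ^ i) e.1 ∈ S.E := by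
    intro i hi
    have h1 := hpow i (k - i)
    have h2 : k - i + i = k := by omega
    rw [h2, hcl] at h1
    rw [h1]
    exact hA.sub _ (hall _)
  have h1 := h.vline e.1 k hk hvE
  have h2 := hpow k 0
  rw [zero_add, hcl] at h2
  apply h1
  rw [h2]
  rfl

/-- The level lemma for curves that leave through out ends. -/
theorem level_out (h : S.Ok) (hA : S.Adm t Op) {e : End X} {k : ℕ} (hk : 1 ≤ k)
    (hcl : (phi (S.mu Op))^[k] e = e) (he : IsOut S Op e) :
    ∃ i < k, S.WEnd ((phi (S.mu Op))^[i] e) := by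
  by_contra hno
  push Not at hno
  have hper : ∀ i, (phi (S.mu Op))^[i] e = (phi (S.mu Op))^[i % k] e := by
    intro i
    have hp : Function.IsPeriodicPt (phi (S.mu Op)) k e := hcl
    exact (hp.iterate_mod_apply i).symm
  have hW : ∀ i, ¬ S.WEnd ((phi (S.mu Op))^[i] e) := by
    intro i
    rw [hper i]
    exact hno _ (Nat.mod_lt _ (by omega))
  have hout : ∀ i, IsOut S Op ((phi (S.mu Op))^[i] e) := by
    intro i
    induction i with
    | zero => exact he
    | succ i ih =>
      rw [Function.iterate_succ_apply']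
      exact isOut_phi h hA ih (hW i)
  have hclo : ∀ i, (phi (S.mu Op))^[k] ((phi (S.mu Op))^[i] e) = (phi (S.mu Op))^[i] e := by
    intro i
    rw [← Function.iterate_add_apply, add_comm, Function.iterate_add_apply, hcl]
  by_cases hA1 : ∃ i, ((phi (S.mu Op))^[i] e).1 ∉ Op
  · obtain ⟨i, hi⟩ := hA1
    have hs : ((phi (S.mu Op))^[i] e).2 = true := by
      by_contra hs
      exact hi ((hout i).1 (by simpa using hs)).1
    have hE : ((phi (S.mu Op))^[i] e).1 ∈ S.E := by
      by_contra hE
      exact hW i (Or.inl ⟨hs, hE⟩)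
    have hTge := T_ge hA hE hi
    have hQ : ∀ m, Q S Op (S.T ((phi (S.mu Op))^[i] e).1)
        ((phi (S.mu Op))^[m + 1] ((phi (S.mu Op))^[i] e)) := by
      intro m
      induction m with
      | zero =>
        have h1 := step_U h hA hE hi le_rfl
        rw [show (((phi (S.mu Op))^[i] e).1, true) = (phi (S.mu Op))^[i] e from by
          rw [← hs]] at h1
        rcases h1 with h1 | h1
        · exact h1
        · exfalso
          apply hW (i + 1)
          rw [Function.iterate_succ_apply']
          exact h1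
      | succ m ih =>
        have hWm : ∀ j, ¬ S.WEnd ((phi (S.mu Op))^[j] ((phi (S.mu Op))^[i] e)) := by
          intro j
          rw [← Function.iterate_add_apply]
          exact hW _
        rcases step_Q h hA hTge ih (hWm _) with h1 | h1
        · rw [Function.iterate_succ_apply']
          exact h1
        · exfalso
          apply hWm (m + 1 + 1)
          rw [Function.iterate_succ_apply']
          exact h1
    have h2 := hQ (k - 1)
    rw [show k - 1 + 1 = k from by omega, hclo i] at h2
    rcases h2 with h2 | h2 | h2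
    · exact absurd h2.2.2.2 (lt_irrefl _)
    · exact hi h2.2.1
    · exact hi h2.2.1
  · push Not at hA1
    by_cases hc : ∃ i, S.c ((phi (S.mu Op))^[i] e).1 = true
    · obtain ⟨i, hc⟩ := hc
      have hs : ((phi (S.mu Op))^[i] e).2 = true := by
        by_contra hs
        have := ((hout i).1 (by simpa using hs)).2
        rw [hc] at this
        simp at this
      refine no_closed_L h hA hk (hclo i) ?_ hs hc
      intro j
      rw [← Function.iterate_add_apply]
      exact hA1 _
    · push Not at hc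
      refine no_closed_F h hA hk hcl hA1 ?_ hW
      intro i
      exact (hout i).2 ⟨hA1 i, by simpa using hc i⟩

end LEV

open LEV in
/-- LEVEL. -/
theorem specLevel (hState : SpecState) : SpecLevel := by
  intro X _ _ S Op t h hA e k hk hcl
  by_cases he : IsOut S Op e
  · exact level_out h hA hk hcl he
  · -- the reversed curve
    have hM : IsMatching (S.mu Op) := hState X S Op h hA.toInv
    have hrev1 : ∀ y : End X, phi (S.mu Op) (bar (phi (S.mu Op) y)) = bar y := by
      intro y
      simp only [phi, bar_bar, hM.inv]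
    have hrev : ∀ i ≤ k, (phi (S.mu Op))^[i] (bar e) = bar ((phi (S.mu Op))^[k - i] e) := by
      intro i
      induction i with
      | zero => intro _; simp [hcl]
      | succ i ih =>
        intro hi
        rw [Function.iterate_succ_apply', ih (by omega)]
        have : k - i = (k - (i + 1)) + 1 := by omega
        rw [this, Function.iterate_succ_apply', hrev1]
    have hcl' : (phi (S.mu Op))^[k] (bar e) = bar e := by
      rw [hrev k le_rfl]; simp
    obtain ⟨i, hi, hW⟩ := level_out h hA hk hcl' (isOut_bar he)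
    rw [hrev i hi.le] at hW
    refine ⟨k - i - 1, by omega, ?_⟩
    have h1 : k - i = (k - i - 1) + 1 := by omega
    rw [h1, Function.iterate_succ_apply', phi, bar_bar] at hW
    have h2 := mu_world h hA hW
    rw [hM.inv] at h2
    rw [h2]
    exact h.wend _ hW

end Pool.Agent.Lib.MP29a61eN
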