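import Pool.Agent.Lib.MP_29a61e_co.N2.Base

/-!
# MP_29a61e_co, M(n) <= n/2 + o(n): curves of a matching

The run `e, phi e, phi (phi e), ...` of a matching: it is injective, it can be read backwards, it never
contains `e` together with `bar e`, and a closed run of minimal length crosses every link at most once.
-/

namespace Pool.Agent.Lib.MP29a61eN

variable {X : Type} {μ : End X → End X}

theorem bar_inj {e f : End X} (h : bar e = bar f) : e = f := by
  have := congrArg bar h
  simpa using this

theorem IsMatching.inj (h : IsMatching μ) {e f : End X} (hef : μ e = μ f) : e = f := by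
  rw [← h.inv e, ← h.inv f, hef]

theorem phi_inj (h : IsMatching μ) : Function.Injective (phi μ) := fun _ _ hef =>
  h.inj (bar_inj hef)

theorem phi_mu (h : IsMatching μ) (e : End X) : phi μ (μ e) = bar e := by
  simp [phi, h.inv]

/-- reading one step backwards. -/
theorem phi_bar_phi (h : IsMatching μ) (e : End X) : phi μ (bar (phi μ e)) = bar e := by
  simp [phi, h.inv]

/-- reading a run backwards. -/
theorem iter_rev (h : IsMatching μ) : ∀ (k : ℕ) (e : End X),
    (phi μ)^[k] (bar ((phi μ)^[k] e)) = bar e
  | 0, e => rfl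
  | k + 1, e => by
    rw [Function.iterate_succ_apply (phi μ) k e, Function.iterate_succ_apply', iter_rev h k,
      phi_bar_phi h]

/-- positions of the reversed run. -/
theorem iter_rev_le (h : IsMatching μ) (k i : ℕ) (hi : i ≤ k) (e : End X) :
    (phi μ)^[i] (bar ((phi μ)^[k] e)) = bar ((phi μ)^[k - i] e) := by
  have h1 : (phi μ)^[k] e = (phi μ)^[i] ((phi μ)^[k - i] e) := by
    rw [← Function.iterate_add_apply]
    congr 2
    omega
  rw [h1, iter_rev h]

/-- a run never turns round. -/
theorem iter_ne_bar (h : IsMatching μ) : ∀ (k : ℕ) (e : End X), (phi μ)^[k] e ≠ bar e := by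
  intro k
  induction k using Nat.strong_induction_on with
  | _ k ih =>
    intro e he
    match k, he with
    | 0, he => exact bar_ne e he.symm
    | 1, he =>
      have : μ e = e := bar_inj he
      exact h.ne e this
    | k + 2, he =>
      have h1 : (phi μ)^[k + 1] (phi μ e) = bar e := he
      have h2 : (phi μ)^[k] (phi μ e) = bar (phi μ e) := by
        apply phi_inj h
        have h3 : (phi μ) ((phi μ)^[k] (phi μ e)) = (phi μ)^[k + 1] (phi μ e) :=
          (Function.iterate_succ_apply' (phi μ) k (phi μ e)).symm
        rw [phi_bar_phi h, h3]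
        exact h1
      exact ih k (by omega) _ h2

theorem iter_ne_mu (h : IsMatching μ) (k : ℕ) (e : End X) : (phi μ)^[k] e ≠ μ e := by
  intro he
  match k, he with
  | 0, he => exact h.ne e he.symm
  | k + 1, he =>
    refine iter_ne_bar h k (phi μ e) ?_
    rw [← Function.iterate_succ_apply]
    rw [he]
    simp [phi]

/-- a run never meets the reversed run. -/
theorem iter_ne_bar_iter (h : IsMatching μ) (i j : ℕ) (e : End X) :
    (phi μ)^[i] e ≠ bar ((phi μ)^[j] e) := by
  intro he
  rcases le_total i j with hij | hij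
  · obtain ⟨d, rfl⟩ := Nat.exists_eq_add_of_le hij
    rw [Nat.add_comm i d, Function.iterate_add_apply] at he
    refine iter_ne_bar h d ((phi μ)^[i] e) ?_
    apply bar_inj
    rw [bar_bar]
    exact he.symm
  · obtain ⟨d, rfl⟩ := Nat.exists_eq_add_of_le hij
    rw [Nat.add_comm j d, Function.iterate_add_apply] at he
    exact iter_ne_bar h d _ he

theorem iter_ne_mu_iter (h : IsMatching μ) (i j : ℕ) (e : End X) :
    (phi μ)^[i] e ≠ μ ((phi μ)^[j] e) := by
  intro he
  refine iter_ne_bar_iter h i (j + 1) e ?_
  rw [Function.iterate_succ_apply', phi, bar_bar]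
  exact he

/-- A closed run contains a closed run of minimal length: the ends through which it leaves its letters
are different (and different from the ends through which it enters, `iter_ne_mu_iter`,
`iter_ne_bar_iter`). -/
theorem exists_simple (h : IsMatching μ) {e : End X} {k : ℕ} (hk : 1 ≤ k)
    (he : (phi μ)^[k] e = e) :
    ∃ p, 1 ≤ p ∧ p ≤ k ∧ (phi μ)^[p] e = e ∧
      ∀ i < p, ∀ j < p, (phi μ)^[i] e = (phi μ)^[j] e → i = j := by
  classical
  have hex : ∃ p, 1 ≤ p ∧ (phi μ)^[p] e = e := ⟨k, hk, he⟩
  refine ⟨Nat.find hex, (Nat.find_spec hex).1, Nat.find_min' hex ⟨hk, he⟩,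
    (Nat.find_spec hex).2, ?_⟩
  have key : ∀ i j, i ≤ j → j < Nat.find hex → (phi μ)^[i] e = (phi μ)^[j] e → i = j := by
    intro i j hij hj hs
    by_contra hne
    have h1 : (phi μ)^[j - i] e = e := by
      have h2 : (phi μ)^[i] ((phi μ)^[j - i] e) = (phi μ)^[i] e := by
        rw [← Function.iterate_add_apply, hs]
        congr 2
        omega
      exact (phi_inj h).iterate i h2
    exact Nat.find_min hex (by omega : j - i < Nat.find hex) ⟨by omega, h1⟩
  intro i hi j hj hs
  rcases le_total i j with hij | hij
  · exact key i j hij hj hs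
  · exact (key j i hij hi hs.symm).symm

/-- a closed run can be started anywhere. -/
theorem iter_closed (k i : ℕ) {e : End X} (he : (phi μ)^[k] e = e) :
    (phi μ)^[k] ((phi μ)^[i] e) = (phi μ)^[i] e := by
  rw [← Function.iterate_add_apply, Nat.add_comm, Function.iterate_add_apply, he]

theorem iter_closed_mul (k n : ℕ) {e : End X} (he : (phi μ)^[k] e = e) :
    (phi μ)^[k * n] e = e := by
  induction n with
  | zero => rfl
  | succ n ih => rw [Nat.mul_succ, Function.iterate_add_apply, he, ih]

/-- the reversed closed run is closed. -/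
theorem iter_closed_bar (h : IsMatching μ) {k : ℕ} {e : End X} (he : (phi μ)^[k] e = e) :
    (phi μ)^[k] (bar e) = bar e := by
  have := iter_rev h k e
  rwa [he] at this

/-- the letters of the reversed closed run are the letters of the closed run. -/
theorem iter_closed_bar_mem (h : IsMatching μ) {k : ℕ} {e : End X} (he : (phi μ)^[k] e = e)
    {i : ℕ} (hi : i ≤ k) : (phi μ)^[i] (bar e) = bar ((phi μ)^[k - i] e) := by
  have := iter_rev_le h k i hi e
  rwa [he] at this

/-- Every end on a closed run, in closed form: index below the length. -/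
theorem iter_closed_mod {k : ℕ} (hk : 1 ≤ k) {e : End X} (he : (phi μ)^[k] e = e) (n : ℕ) :
    ∃ i < k, (phi μ)^[n] e = (phi μ)^[i] e := by
  refine ⟨n % k, Nat.mod_lt _ (by omega), ?_⟩
  conv_lhs => rw [← Nat.mod_add_div n k, Function.iterate_add_apply, iter_closed_mul k _ he]

/-- Increasing invariant along a closed run is impossible: if from every exit with `p` one reaches, with
1 to `k` further letters, an exit with `p` and with larger `f`, then no exit with `p` is on a closed run
of bounded `f`. Here in the form needed for the level lemma. -/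
theorem no_closed_of_ascent (S : Set (End X)) (f : End X → ℕ)
    (step : End X → ℕ) {e : End X} {k : ℕ} (hk : 1 ≤ k) (he : (phi μ)^[k] e = e) (heS : e ∈ S)
    (hstep : ∀ n, (phi μ)^[n] e ∈ S →
      (phi μ)^[step ((phi μ)^[n] e)] ((phi μ)^[n] e) ∈ S ∧
      f ((phi μ)^[n] e) < f ((phi μ)^[step ((phi μ)^[n] e)] ((phi μ)^[n] e))) : False := by
  have key : ∀ j : ℕ, ∃ n, (phi μ)^[n] e ∈ S ∧ j ≤ f ((phi μ)^[n] e) := by
    intro j
    induction j with
    | zero => exact ⟨0, heS, Nat.zero_le _⟩
    | succ j ih =>
      obtain ⟨n, hn, hj⟩ := ih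
      obtain ⟨h1, h2⟩ := hstep n hn
      refine ⟨step ((phi μ)^[n] e) + n, ?_, ?_⟩
      · rw [Function.iterate_add_apply]
        exact h1
      · rw [Function.iterate_add_apply]
        omega
  obtain ⟨n, -, hn⟩ := key ((Finset.range k).sup (fun i => f ((phi μ)^[i] e)) + 1)
  obtain ⟨i, hi, hin⟩ := iter_closed_mod hk he n
  have : f ((phi μ)^[i] e) ≤ (Finset.range k).sup (fun i => f ((phi μ)^[i] e)) :=
    Finset.le_sup (f := fun i => f ((phi μ)^[i] e)) (Finset.mem_range.2 hi)
  rw [hin] at hn
  omega

end Pool.Agent.Lib.MP29a61eN
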