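import Mathlib
import Pool.Agent.Lib.MP_29a61e_co.N2.Local1
import Pool.Agent.Lib.MP_29a61e_co.N2.Orb

/-!
# MP_29a61e_co, M(n) <= n/2 + o(n): modules WALK and ORBIT
-/

namespace Pool.Agent.Lib.MP29a61eN

theorem specOrbit : SpecOrbit := fun _ _ h e k => iter_ne_bar h k e

namespace WALK

variable {X V : Type} {S : Str X}

theorem sb_r (S : Str X) (x : X) : S.b (S.r x) = S.s (S.b x) := by simp [Str.r]

theorem r_ne (hS : S.Ok) {x : X} (hx : x ∈ S.E) : S.r x ≠ x := by
  intro h
  have h1 := sb_r S x
  rw [h] at h1
  exact hS.paired x hx h1.symm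

theorem sv_ne (hS : S.Ok) {x : X} (hx : x ∈ S.E) : S.s (S.v x) ≠ S.v x := by
  intro h
  rw [hS.sv x hx] at h
  exact r_ne hS hx (S.v.injective h)

theorem mu_true_notE (Op : Finset X) {x : X} (hx : x ∉ S.E) :
    S.mu Op (x, true) = S.W (x, true) := by
  simp [Str.mu, hx]

theorem lo_of_unpaired (hS : S.Ok) (Op : Finset X) {y : X} (hy : S.s y = y) : S.Lo Op y := by
  left
  intro h
  have := hS.paired _ h
  simp only [Equiv.apply_symm_apply] at this
  exact this hy

theorem mu_world (hS : S.Ok) {Op : Finset X} (hI : S.Inv Op) (e : End X) (he : S.WEnd e) :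
    S.mu Op e = S.W e := by
  obtain ⟨x, d⟩ := e
  cases d with
  | true =>
    rcases he with ⟨_, h⟩ | ⟨h, _⟩
    · exact mu_true_notE Op h
    · simp at h
  | false =>
    rcases he with ⟨h, _⟩ | ⟨_, h⟩
    · simp at h
    · have h' : S.s x = x := h
      have h1 : ¬ (S.v.symm x ∈ Op ∧ (S.Lo Op x ∨ S.c x = true)) := by
        rintro ⟨h2, _⟩
        have := sv_ne hS (hI.sub _ h2)
        simp only [Equiv.apply_symm_apply] at this
        exact this h'
      have h2 := lo_of_unpaired hS Op h'
      simp only [Str.mu]
      rw [if_neg h1, if_pos h2, if_pos h']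

theorem paired_of (hS : S.Ok) (e : End X) (he : ¬ S.WEnd e) :
    S.s (if e.2 = true then S.b e.1 else e.1) ≠ (if e.2 = true then S.b e.1 else e.1) := by
  obtain ⟨x, d⟩ := e
  cases d with
  | true =>
    have hx : x ∈ S.E := by
      by_contra h
      exact he (Or.inl ⟨rfl, h⟩)
    simpa using hS.paired x hx
  | false =>
    intro h
    exact he (Or.inr ⟨rfl, by simpa using h⟩)

/-- One link: no step, or one step over the special edge of its label. -/
theorem link_step {comp : X → V} {adj : V → V → Prop} {L : List (V × V)} {eT : X → ℕ}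
    {eW : End X → ℕ} {Def : Finset X} {Op : Finset X} (hS : S.Ok)
    (hO : Over S comp adj L eT eW Def) (hI : S.Inv Op) (e : End X) (he : e.1 ∉ Def) :
    ∃ l, FAR.W adj L (pe S comp e) l (pe S comp (S.mu Op e)) ∧ l.length ≤ 1 ∧
      l.filter Option.isSome = [lab S eT eW Op e].filter Option.isSome := by
  classical
  by_cases hw : S.WEnd e
  · refine ⟨[some (eW e)], ?_, by simp, by simp [lab, hw]⟩
    rw [mu_world hS hI e hw]
    exact FAR.W.cons (hO.world e hw he) (FAR.W.nil _)
  · obtain ⟨x, d⟩ := e
    cases d with
    | true =>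
      have hx : x ∈ S.E := by
        by_contra h
        exact hw (Or.inl ⟨rfl, h⟩)
      have hbv := hO.bv x hx
      by_cases hop : x ∈ Op
      · by_cases hg : S.Lo Op (S.v x) ∨ S.c x = true
        · have hm : S.mu Op (x, true) = (S.v x, false) := by
            simp [Str.mu, hx, hop, hg]
          refine ⟨[], ?_, by simp, by simp [lab, hw, hm]⟩
          rw [hm]
          simp only [pe, if_true, Bool.false_eq_true, if_false]
          rw [hbv]
          exact FAR.W.nil _
        · have hm : S.mu Op (x, true) = (S.b.symm (S.s (S.v x)), true) := by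
            simp [Str.mu, hx, hop, hg]
          have hp := hS.paired x hx
          have hp' := sv_ne hS hx
          have ht := hO.twin (S.b x) hp
          have htc := hO.twinc (S.b x) (S.v x) hp hp' hbv
          refine ⟨[some (eT (S.b x))], ?_, by simp, by simp [lab, hw, hm]⟩
          rw [hm]
          simp only [pe, if_true, Equiv.apply_symm_apply]
          rw [← htc.2]
          exact FAR.W.cons ht (FAR.W.nil _)
      · by_cases hd : S.v.symm (S.b x) ∈ Op ∧ S.c (S.v.symm (S.b x)) = true
        · have hm : S.mu Op (x, true) = (S.r (S.v.symm (S.b x)), true) := by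
            simp [Str.mu, hx, hop, hd]
          have hp := hS.paired x hx
          have hz := hI.sub _ hd.1
          have hpz := hS.paired _ hz
          have hbvz := hO.bv _ hz
          simp only [Equiv.apply_symm_apply] at hbvz
          have ht := hO.twin (S.b x) hp
          have htc := hO.twinc _ _ hp hpz hbvz.symm
          refine ⟨[some (eT (S.b x))], ?_, by simp, by simp [lab, hw, hm]⟩
          rw [hm]
          simp only [pe, if_true]
          rw [sb_r, ← htc.2]
          exact FAR.W.cons ht (FAR.W.nil _)
        · have hm : S.mu Op (x, true) = (S.b x, false) := by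
            simp only [Str.mu]
            rw [if_neg (not_not.2 hx), if_neg hop, if_neg hd]
          refine ⟨[], ?_, by simp, by simp [lab, hw, hm]⟩
          rw [hm]
          simp only [pe, if_true, Bool.false_eq_true, if_false]
          exact FAR.W.nil _
    | false =>
      have hp : S.s x ≠ x := fun h => hw (Or.inr ⟨rfl, h⟩)
      by_cases hg : S.v.symm x ∈ Op ∧ (S.Lo Op x ∨ S.c x = true)
      · have hm : S.mu Op (x, false) = (S.v.symm x, true) := by
          simp only [Str.mu]
          rw [if_pos hg]
        have hz := hI.sub _ hg.1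
        have hbvz := hO.bv _ hz
        simp only [Equiv.apply_symm_apply] at hbvz
        refine ⟨[], ?_, by simp, by simp [lab, hw, hm]⟩
        rw [hm]
        simp only [pe, if_true, Bool.false_eq_true, if_false]
        rw [hbvz]
        exact FAR.W.nil _
      · by_cases hl : S.Lo Op x
        · have hm : S.mu Op (x, false) = (S.s x, false) := by
            simp only [Str.mu]
            rw [if_neg hg, if_pos hl, if_neg hp]
          refine ⟨[some (eT x)], ?_, by simp, by simp [lab, hw, hm]⟩
          rw [hm]
          simp only [pe, Bool.false_eq_true, if_false]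
          exact FAR.W.cons (hO.twin x hp) (FAR.W.nil _)
        · have hm : S.mu Op (x, false) = (S.b.symm x, true) := by
            simp only [Str.mu]
            rw [if_neg hg, if_neg hl]
          refine ⟨[], ?_, by simp, by simp [lab, hw, hm]⟩
          rw [hm]
          simp only [pe, if_true, Bool.false_eq_true, if_false, Equiv.apply_symm_apply]
          exact FAR.W.nil _

/-- Passing a letter is a base step. -/
theorem letter_step {comp : X → V} {adj : V → V → Prop} {L : List (V × V)} {eT : X → ℕ}
    {eW : End X → ℕ} {Def : Finset X} (hO : Over S comp adj L eT eW Def) (e : End X) :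
    FAR.W adj L (pe S comp (bar e)) [none] (pe S comp e) := by
  obtain ⟨x, d⟩ := e
  cases d with
  | true =>
    simp only [pe, bar, Bool.not_true, Bool.false_eq_true, if_false, if_true]
    exact FAR.W.cons (o := none) (hO.base x) (FAR.W.nil _)
  | false =>
    simp only [pe, bar, Bool.not_false, if_true, Bool.false_eq_true, if_false]
    exact FAR.W.cons (o := none) (hO.rsymm _ _ (hO.base x)) (FAR.W.nil _)

theorem walk {comp : X → V} {adj : V → V → Prop} {L : List (V × V)} {eT : X → ℕ}
    {eW : End X → ℕ} {Def : Finset X} {Op : Finset X} (hS : S.Ok)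
    (hO : Over S comp adj L eT eW Def) (hI : S.Inv Op) (e : End X) : ∀ (t : ℕ),
    (∀ s ≤ t, ((phi (S.mu Op))^[s] e).1 ∉ Def) →
      ∃ l, FAR.W adj L (pe S comp (bar e)) l (pe S comp ((phi (S.mu Op))^[t] e)) ∧
        l.length ≤ 2 * t + 1 ∧
        l.filter Option.isSome = ((List.range t).map
          (fun s => lab S eT eW Op ((phi (S.mu Op))^[s] e))).filter Option.isSome
  | 0, _ => ⟨[none], letter_step hO e, by simp, by simp⟩
  | t + 1, h => by
    obtain ⟨l, h1, h2, h3⟩ := walk hS hO hI e t (fun s hs => h s (by omega))
    obtain ⟨l', h4, h5, h6⟩ := link_step hS hO hI ((phi (S.mu Op))^[t] e) (h t (by omega))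
    have h7 := letter_step hO ((phi (S.mu Op))^[t + 1] e)
    have h8 : bar ((phi (S.mu Op))^[t + 1] e) = S.mu Op ((phi (S.mu Op))^[t] e) := by
      rw [Function.iterate_succ_apply']
      simp [phi]
    rw [h8] at h7
    refine ⟨l ++ (l' ++ [none]), h1.append (h4.append h7), ?_, ?_⟩
    · simp only [List.length_append, List.length_singleton]
      omega
    · rw [List.filter_append, List.filter_append, h3, h6, List.range_succ, List.map_append,
        List.filter_append]
      simp

end WALK

theorem specWalk : SpecWalk := by
  intro X V S comp adj L eT eW Def Op hS hO hI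
  exact ⟨fun e t h => WALK.walk hS hO hI e t h, fun e he _ => WALK.paired_of hS e he,
    fun e he => WALK.mu_world hS hI e he⟩

end Pool.Agent.Lib.MP29a61eN
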