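import Pool.Agent.Lib.MP_29a61e_co.N2.Local1
import Pool.Agent.Lib.MP_29a61e_co.N2.Level
import Pool.Agent.Lib.MP_29a61e_co.N2.Walk
import Pool.Agent.Lib.MP_29a61e_co.N2.SW

section
/-!
# MP_29a61e_co, N2: HEAD (second version)
-/
namespace Pool.Agent.Lib.MP29a61eN.HD

open Pool.Agent.Lib.MP29a61eN

variable {X : Type} {S : Str X}

theorem b_r (x : X) : S.b (S.r x) = S.s (S.b x) := by simp [Str.r]

theorem r_r (h : S.Ok) (x : X) : S.r (S.r x) = x := by
  have : S.r (S.r x) = S.b.symm (S.s (S.b (S.r x))) := rfl
  rw [this, b_r, h.ss]; simp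

theorem paired_v (h : S.Ok) {x : X} (hx : x ∈ S.E) : S.s (S.v x) ≠ S.v x := by
  intro e
  rw [h.sv x hx] at e
  have e1 : S.r x = x := S.v.injective e
  have e2 : S.b (S.r x) = S.b x := by rw [e1]
  rw [b_r] at e2
  exact h.paired x hx e2

theorem c_r (h : S.Ok) {x : X} (hx : x ∈ S.E) : S.c (S.r x) ≠ S.c x := by
  have h1 := h.cv _ (h.rE x hx)
  rw [← h.sv x hx] at h1
  rw [← h1, ← h.cv x hx]
  exact h.cs _ (paired_v h hx)

theorem T_r (h : S.Ok) {x : X} (hx : x ∈ S.E) : S.T (S.r x) = S.T x := by
  have h1 := (h.code (S.b x) 0 (by intro i hi; omega)).1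
  simp only [pow_zero, Equiv.Perm.coe_one, id_eq] at h1
  rw [h.tl x hx, ← b_r, h.tl _ (h.rE x hx)] at h1
  exact h1.symm

theorem lo_s (h : S.Ok) {Op : Finset X} (ho : S.Inv Op) (y : X) :
    S.Lo Op (S.s y) ↔ S.Lo Op y := by
  have key : ∀ y, S.Lo Op y → S.Lo Op (S.s y) := by
    intro y hl
    have hr : S.r (S.b.symm y) = S.b.symm (S.s y) := by simp [Str.r]
    rcases hl with hl | hl
    · left
      intro h'
      rw [← hr] at h'
      have := h.rE _ h'
      rw [r_r h] at this
      exact hl this
    · right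
      rw [← hr]
      exact ho.inv _ hl
  constructor
  · intro h'
    have := key _ h'
    rwa [h.ss y] at this
  · exact key y

theorem vr (h : S.Ok) {Op : Finset X} (ho : S.Inv Op) {y : X} (hl : S.v.symm y ∈ Op) :
    S.v.symm (S.s y) = S.r (S.v.symm y) := by
  have := h.sv _ (ho.sub _ hl)
  rw [Equiv.apply_symm_apply] at this
  rw [this, Equiv.symm_apply_apply]

theorem vop_s (h : S.Ok) {Op : Finset X} (ho : S.Inv Op) (y : X) :
    S.v.symm (S.s y) ∈ Op ↔ S.v.symm y ∈ Op := by
  constructor
  · intro h'
    have := vr h ho h'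
    rw [h.ss y] at this
    rw [this]
    exact ho.inv _ h'
  · intro h'
    rw [vr h ho h']
    exact ho.inv _ h'

theorem c_vs (h : S.Ok) {y : X} (hl : S.v.symm y ∈ S.E) : S.c (S.v.symm y) = S.c y := by
  have := h.cv _ hl
  rw [Equiv.apply_symm_apply] at this
  exact this.symm

theorem bool_flip {a b : Bool} (h : a ≠ b) : (a = true ↔ ¬ b = true) := by
  cases a <;> cases b <;> simp_all

theorem iteC {α : Type} {p q : Prop} {i : Decidable p} {j : Decidable q} {a b c d : α}
    (h : p ↔ q) (h1 : a = c) (h2 : b = d) : @ite α p i a b = @ite α q j c d := by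
  subst h1 h2
  by_cases hp : p
  · rw [if_pos hp, if_pos (h.1 hp)]
  · rw [if_neg hp, if_neg (fun hq => hp (h.2 hq))]

theorem addPairs_iff [DecidableEq X] {Op D : Finset X} {z : X} :
    z ∈ S.addPairs Op D ↔ z ∈ Op ∨ ∃ k ∈ D, z = k ∨ z = S.r k := by
  unfold Str.addPairs
  simp only [Finset.mem_union, Finset.mem_image]
  constructor
  · rintro ((h | h) | ⟨k, hk, rfl⟩)
    · exact Or.inl h
    · exact Or.inr ⟨z, h, Or.inl rfl⟩
    · exact Or.inr ⟨k, hk, Or.inr rfl⟩
  · rintro (h | ⟨k, hk, rfl | rfl⟩)
    · exact Or.inl (Or.inl h)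
    · exact Or.inl (Or.inr hk)
    · exact Or.inr ⟨k, hk, rfl⟩

theorem inv_addPairs [DecidableEq X] (h : S.Ok) {Op D : Finset X} (ho : S.Inv Op)
    (hD : ∀ x ∈ D, x ∈ S.E) : S.Inv (S.addPairs Op D) := by
  constructor
  · intro x hx
    rcases addPairs_iff.1 hx with hx | ⟨k, hk, rfl | rfl⟩
    · exact ho.sub x hx
    · exact hD _ hk
    · exact h.rE _ (hD _ hk)
  · intro x hx
    rw [addPairs_iff]
    rcases addPairs_iff.1 hx with hx | ⟨k, hk, rfl | rfl⟩
    · exact Or.inl (ho.inv x hx)
    · exact Or.inr ⟨_, hk, Or.inr rfl⟩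
    · exact Or.inr ⟨_, hk, Or.inl (r_r h _)⟩

/-- a leader of time `t` -/
structure Ld (S : Str X) (Op : Finset X) (t : ℕ) (x : X) : Prop where
  e : x ∈ S.E
  o : x ∉ Op
  c : S.c x = true
  t : S.T x = t
  n : S.b x ≠ S.v x

section
variable {Op : Finset X} {t : ℕ}

theorem Ld.ro (h : S.Ok) (ho : S.Inv Op) {x : X} (hx : Ld S Op t x) : S.r x ∉ Op := by
  intro h'
  have := ho.inv _ h'
  rw [r_r h] at this
  exact hx.o this

theorem Ld.rc (h : S.Ok) {x : X} (hx : Ld S Op t x) : S.c (S.r x) = false := by
  have := c_r h hx.e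
  rw [hx.c] at this
  simpa using this

theorem Ld.rT (h : S.Ok) {x : X} (hx : Ld S Op t x) : S.T (S.r x) = t := by
  rw [T_r h hx.e, hx.t]

theorem Ld.ne_r (h : S.Ok) {x k : X} (hx : Ld S Op t x) (hk : Ld S Op t k) : x ≠ S.r k := by
  intro e
  have := hk.rc h
  rw [← e, hx.c] at this
  exact absurd this (by simp)

/-- `z` is one of the newly opened letters -/
def Nw (S : Str X) (Op : Finset X) (t : ℕ) (z : X) : Prop := ∃ k, Ld S Op t k ∧ (z = k ∨ z = S.r k)

theorem Nw.e (h : S.Ok) {z : X} (hz : Nw S Op t z) : z ∈ S.E := by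
  obtain ⟨k, hk, rfl | rfl⟩ := hz
  · exact hk.e
  · exact h.rE _ hk.e

theorem Nw.tt (h : S.Ok) {z : X} (hz : Nw S Op t z) : S.T z = t := by
  obtain ⟨k, hk, rfl | rfl⟩ := hz
  · exact hk.t
  · exact hk.rT h

theorem Nw.n (h : S.Ok) {z : X} (hz : Nw S Op t z) : S.b z ≠ S.v z := by
  obtain ⟨k, hk, rfl | rfl⟩ := hz
  · exact hk.n
  · intro e
    rw [b_r, ← h.sv _ hk.e] at e
    apply hk.n
    rw [← h.ss (S.b k), e, h.ss]

theorem Nw.o (h : S.Ok) (ho : S.Inv Op) {z : X} (hz : Nw S Op t z) : z ∉ Op := by
  obtain ⟨k, hk, rfl | rfl⟩ := hz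
  · exact hk.o
  · exact hk.ro h ho

theorem Nw.r (h : S.Ok) {z : X} (hz : Nw S Op t z) : Nw S Op t (S.r z) := by
  obtain ⟨k, hk, rfl | rfl⟩ := hz
  · exact ⟨_, hk, Or.inr rfl⟩
  · exact ⟨_, hk, Or.inl (r_r h _)⟩

/-- two newly opened letters are never joined by an H-step -/
theorem Nw.hl (h : S.Ok) {z w : X} (hz : Nw S Op t z) (hw : Nw S Op t w) : S.v z ≠ S.b w := by
  intro e
  have e1 : S.b.symm (S.v z) = w := by rw [e, Equiv.symm_apply_apply]
  have hne : S.b.symm (S.v z) ≠ z := by
    intro e2
    apply hz.n h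
    rw [← e2, Equiv.apply_symm_apply, e2]
  have := h.hline z (hz.e h) (by rw [e1]; exact hw.e h) hne
  rw [e1, hz.tt h, hw.tt h] at this
  exact this rfl

open Classical in
theorem mu_r_closed (S : Str X) {Op : Finset X} {x : X} (hE : x ∈ S.E) (ho : x ∉ Op) :
    S.mu Op (x, true) = if S.v.symm (S.b x) ∈ Op ∧ S.c (S.v.symm (S.b x)) = true then
        (S.r (S.v.symm (S.b x)), true) else (S.b x, false) := by
  simp only [Str.mu, not_true_eq_false, hE, ho, if_false]

open Classical in
theorem mu_r_open (_h : S.Ok) {Op : Finset X} (hi : S.Inv Op) {x : X} (ho : x ∈ Op) :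
    S.mu Op (x, true) = if S.Lo Op (S.v x) ∨ S.c x = true then (S.v x, false)
          else (S.b.symm (S.s (S.v x)), true) := by
  simp only [Str.mu, not_true_eq_false, hi.sub x ho, ho, if_false, if_true]

/-- base ends: injective -/
theorem bs_inj (h : S.Ok) {x x' : X} (hx : Ld S Op t x) (hx' : Ld S Op t x') (p q : Fin 3)
    (he : (![(x, true), (S.r x, true), (S.v x, false)] : Fin 3 → End X) p =
      (![(x', true), (S.r x', true), (S.v x', false)] : Fin 3 → End X) q) : x = x' ∧ p = q := by
  have n1 := hx.ne_r h hx'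
  have n2 := hx'.ne_r h hx
  have n3 : S.r x = S.r x' → x = x' := by
    intro e; rw [← r_r h x, e, r_r h]
  fin_cases p <;> fin_cases q <;> simp at he ⊢
  · exact he
  · exact n1 he
  · exact n2 he.symm
  · exact n3 he
  · exact he

/-- the partner of a base end is no base end -/
theorem bs_mu (h : S.Ok) (hi : S.Inv Op) {x x' : X} (hx : Ld S Op t x) (hx' : Ld S Op t x')
    (p q : Fin 3)
    (he : S.mu Op ((![(x, true), (S.r x, true), (S.v x, false)] : Fin 3 → End X) p) =
      (![(x', true), (S.r x', true), (S.v x', false)] : Fin 3 → End X) q) : False := by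
  classical
  have hNx : Nw S Op t x := ⟨x, hx, Or.inl rfl⟩
  have hNx' : Nw S Op t x' := ⟨x', hx', Or.inl rfl⟩
  -- right ends
  have R : ∀ z, Nw S Op t z → S.mu Op (z, true) =
      (![(x', true), (S.r x', true), (S.v x', false)] : Fin 3 → End X) q → False := by
    intro z hz hh
    rw [mu_r_closed S (hz.e h) (hz.o h hi)] at hh
    split_ifs at hh with h1
    · have h2 := hi.inv _ h1.1
      fin_cases q
      · simp only [Fin.zero_eta, Matrix.cons_val_zero, Prod.mk.injEq, and_true] at hh
        rw [hh] at h2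
        exact hx'.o h2
      · simp only [Fin.mk_one, Matrix.cons_val_one, Matrix.cons_val_zero, Prod.mk.injEq,
          and_true] at hh
        rw [hh] at h2
        exact hx'.ro h hi h2
      · simp at hh
    · fin_cases q
      · simp at hh
      · simp at hh
      · simp at hh
        exact hNx'.hl h hz hh.symm
  fin_cases p
  · exact R x hNx he
  · exact R (S.r x) (hNx.r h) he
  · have he' : S.mu Op (S.v x, false) = _ := he
    have hv : S.mu Op (S.v x, false) = if S.Lo Op (S.v x) then (S.s (S.v x), false) else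
        (S.b.symm (S.v x), true) := by
      simp only [Str.mu, Equiv.symm_apply_apply, hx.o, false_and, if_false, paired_v h hx.e]
    rw [hv] at he'
    split_ifs at he' with h1
    · fin_cases q
      · simp at he'
      · simp at he'
      · simp at he'
        rw [h.sv x hx.e] at he'
        exact hx'.ne_r h hx (S.v.injective he').symm
    · fin_cases q
      · simp only [Fin.zero_eta, Matrix.cons_val_zero, Prod.mk.injEq, and_true] at he'
        exact hNx.hl h hNx' (by rw [← he', Equiv.apply_symm_apply])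
      · simp only [Fin.mk_one, Matrix.cons_val_one, Matrix.cons_val_zero, Prod.mk.injEq,
          and_true] at he'
        exact hNx.hl h (hNx'.r h) (by rw [← he', Equiv.apply_symm_apply])
      · simp at he'

end

theorem mu_wend (h : S.Ok) {Op : Finset X} (ho : S.Inv Op) : ∀ e, S.WEnd e → S.mu Op e = S.W e := by
  classical
  rintro ⟨y, _ | _⟩ he
  · have hs : S.s y = y := by
      rcases he with ⟨h1, _⟩ | ⟨_, h2⟩
      · exact absurd h1 (by simp)
      · exact h2
    have h1 : S.v.symm y ∉ Op := by
      intro h1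
      have := paired_v h (ho.sub _ h1)
      rw [Equiv.apply_symm_apply] at this
      exact this hs
    have h2 : S.Lo Op y := by
      left
      intro h2
      have := h.paired _ h2
      rw [Equiv.apply_symm_apply] at this
      exact this hs
    simp only [Str.mu, h1, h2, hs, false_and, if_false, if_true]
  · have hs : y ∉ S.E := by
      rcases he with ⟨_, h2⟩ | ⟨h1, _⟩
      · exact h2
      · exact absurd h1 (by simp)
    simp only [Str.mu, hs, not_false_eq_true, if_true]

theorem mu_isMatching (h : S.Ok) {Op : Finset X} (ho : S.Inv Op) : IsMatching (S.mu Op) := by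
  classical
  have hW := mu_wend h ho
  constructor
  · rintro ⟨y, _ | _⟩
    · -- left end
      by_cases hy : S.s y = y
      · have hw : S.WEnd (y, false) := Or.inr ⟨rfl, hy⟩
        rw [hW _ hw, hW _ (h.wend _ hw), h.ww _ hw]
      · by_cases h1 : S.v.symm y ∈ Op ∧ (S.Lo Op y ∨ S.c y = true)
        · have e1 : S.mu Op (y, false) = (S.v.symm y, true) := by
            simp only [Str.mu, if_pos h1]
          have hc := c_vs h (ho.sub _ h1.1)
          rw [e1, mu_r_open h ho h1.1, Equiv.apply_symm_apply, hc, if_pos h1.2]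
        · by_cases h2 : S.Lo Op y
          · have e1 : S.mu Op (y, false) = (S.s y, false) := by
              simp only [Str.mu, if_neg h1, if_pos h2, if_neg hy]
            have h3 : ¬ S.v.symm y ∈ Op := fun h' => h1 ⟨h', Or.inl h2⟩
            have h4 : ¬ S.v.symm (S.s y) ∈ Op := fun h' => h3 ((vop_s h ho y).1 h')
            rw [e1]
            simp only [Str.mu, if_neg (fun h' : _ ∧ _ => h4 h'.1),
              if_pos ((lo_s h ho y).2 h2), h.ss y, if_neg (fun e : y = S.s y => hy e.symm)]
          · have e1 : S.mu Op (y, false) = (S.b.symm y, true) := by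
              simp only [Str.mu, if_neg h1, if_neg h2]
            unfold Str.Lo at h2
            push Not at h2
            have h5 : ¬ (S.v.symm y ∈ Op ∧ S.c (S.v.symm y) = true) := by
              rintro ⟨h6, h7⟩
              apply h1
              refine ⟨h6, Or.inr ?_⟩
              rw [← c_vs h (ho.sub _ h6), h7]
            rw [e1, mu_r_closed S h2.1 h2.2, Equiv.apply_symm_apply, if_neg h5]
    · by_cases hx : y ∈ S.E
      · have hvp := paired_v h hx
        by_cases h1 : y ∈ Op
        · by_cases h2 : S.Lo Op (S.v y) ∨ S.c y = true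
          · have e1 : S.mu Op (y, true) = (S.v y, false) := by
              rw [mu_r_open h ho h1, if_pos h2]
            rw [e1]
            have h3 : y ∈ Op ∧ (S.Lo Op (S.v y) ∨ S.c (S.v y) = true) := by
              rw [h.cv y hx]
              exact ⟨h1, h2⟩
            simp only [Str.mu, Equiv.symm_apply_apply, if_pos h3]
          · have e1 : S.mu Op (y, true) = (S.b.symm (S.s (S.v y)), true) := by
              rw [mu_r_open h ho h1, if_neg h2]
            push Not at h2
            have h3 : ¬ S.Lo Op (S.s (S.v y)) := fun h' => h2.1 ((lo_s h ho _).1 h')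
            unfold Str.Lo at h3
            push Not at h3
            have h4 : S.v.symm (S.s (S.v y)) = S.r y := by
              rw [h.sv y hx, Equiv.symm_apply_apply]
            have h5 : S.c (S.r y) = true := by
              have := c_r h hx
              rw [bool_flip this]; exact h2.2
            rw [e1, mu_r_closed S h3.1 h3.2, Equiv.apply_symm_apply, h4,
              if_pos (And.intro (ho.inv y h1) h5), r_r h]
        · by_cases h2 : S.v.symm (S.b y) ∈ Op ∧ S.c (S.v.symm (S.b y)) = true
          · have e1 : S.mu Op (y, true) = (S.r (S.v.symm (S.b y)), true) := by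
              rw [mu_r_closed S hx h1, if_pos h2]
            set z := S.v.symm (S.b y) with hz
            have hEz := ho.sub _ h2.1
            have hvz : S.v z = S.b y := by rw [hz, Equiv.apply_symm_apply]
            have hvrz : S.v (S.r z) = S.s (S.b y) := by rw [← h.sv z hEz, hvz]
            have hnl : ¬ S.Lo Op (S.v (S.r z)) := by
              rw [hvrz, lo_s h ho]
              unfold Str.Lo
              rw [Equiv.symm_apply_apply]
              push Not
              exact ⟨hx, h1⟩
            have hcr : ¬ S.c (S.r z) = true := by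
              have := c_r h hEz
              rw [bool_flip this]
              simpa using h2.2
            rw [e1, mu_r_open h ho (ho.inv z h2.1), if_neg (not_or.2 ⟨hnl, hcr⟩)]
            rw [hvrz, h.ss, Equiv.symm_apply_apply]
          · have e1 : S.mu Op (y, true) = (S.b y, false) := by
              rw [mu_r_closed S hx h1, if_neg h2]
            have hnl : ¬ S.Lo Op (S.b y) := by
              unfold Str.Lo
              rw [Equiv.symm_apply_apply]
              push Not
              exact ⟨hx, h1⟩
            have h3 : ¬ (S.v.symm (S.b y) ∈ Op ∧ (S.Lo Op (S.b y) ∨ S.c (S.b y) = true)) := by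
              rintro ⟨h4, h5⟩
              rcases h5 with h5 | h5
              · exact hnl h5
              · apply h2
                refine ⟨h4, ?_⟩
                rw [c_vs h (ho.sub _ h4), h5]
            rw [e1]
            simp only [Str.mu, if_neg h3, if_neg hnl, Equiv.symm_apply_apply]
      · have hw : S.WEnd (y, true) := Or.inl ⟨rfl, hx⟩
        rw [hW _ hw, hW _ (h.wend _ hw), h.ww _ hw]
  · rintro ⟨y, _ | _⟩
    · by_cases hy : S.s y = y
      · have hw : S.WEnd (y, false) := Or.inr ⟨rfl, hy⟩
        rw [hW _ hw]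
        exact h.wne _ hw
      · simp only [Str.mu, if_neg hy]
        split_ifs with h1 h2
        · simp
        · intro h'
          exact hy (congrArg Prod.fst h')
        · simp
    · by_cases hx : y ∈ S.E
      · by_cases h1 : y ∈ Op
        · rw [mu_r_open h ho h1]
          split_ifs with h2
          · simp
          · intro h'
            have h4 := congrArg Prod.fst h'
            simp only at h4
            push Not at h2
            have h5 : ¬ S.Lo Op (S.s (S.v y)) := fun h' => h2.1 ((lo_s h ho _).1 h')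
            apply h5
            right
            rw [h4]; exact h1
        · rw [mu_r_closed S hx h1]
          split_ifs with h3
          · intro h'
            have h4 := congrArg Prod.fst h'
            simp only at h4
            apply h1
            rw [← h4]
            exact ho.inv _ h3.1
          · simp
      · have hw : S.WEnd (y, true) := Or.inl ⟨rfl, hx⟩
        rw [hW _ hw]
        exact h.wne _ hw


section
variable {Op : Finset X} {t : ℕ}

theorem head_old (h : S.Ok) (hi : S.Inv Op) (x : X) (i : Fin 6) :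
    S.mu Op (S.head Op x i) = S.head Op x (oldPartner i) := by
  have hM := (mu_isMatching h hi).inv
  fin_cases i <;> simp [Str.head, oldPartner, hM]

theorem head_inj (h : S.Ok) (hi : S.Inv Op) {x x' : X} (hx : Ld S Op t x) (hx' : Ld S Op t x')
    (i i' : Fin 6) (he : S.head Op x i = S.head Op x' i') : x = x' ∧ i = i' := by
  have hM := (mu_isMatching h hi).inv
  -- index of the base end and flag
  have key : ∀ x, ∀ i : Fin 6, (S.head Op x i =
      if (![false, true, true, false, true, false] : Fin 6 → Bool) i then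
        S.mu Op ((![(x, true), (S.r x, true), (S.v x, false)] : Fin 3 → End X)
          ((![0, 0, 1, 1, 2, 2] : Fin 6 → Fin 3) i))
      else ((![(x, true), (S.r x, true), (S.v x, false)] : Fin 3 → End X)
          ((![0, 0, 1, 1, 2, 2] : Fin 6 → Fin 3) i))) := by
    intro x i
    fin_cases i <;> simp [Str.head]
  have inj6 : ∀ i i' : Fin 6, (![false, true, true, false, true, false] : Fin 6 → Bool) i =
      (![false, true, true, false, true, false] : Fin 6 → Bool) i' →
      (![0, 0, 1, 1, 2, 2] : Fin 6 → Fin 3) i = (![0, 0, 1, 1, 2, 2] : Fin 6 → Fin 3) i' →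
      i = i' := by decide
  have h1 := key x i
  have h2 := key x' i'
  rw [he] at h1
  rw [h2] at h1
  cases hb : (![false, true, true, false, true, false] : Fin 6 → Bool) i <;>
    cases hb' : (![false, true, true, false, true, false] : Fin 6 → Bool) i' <;>
    simp only [hb, hb', if_true, if_false, Bool.false_eq_true] at h1
  · obtain ⟨e1, e2⟩ := bs_inj h hx' hx _ _ h1
    exact ⟨e1.symm, (inj6 _ _ (by rw [hb, hb']) e2.symm)⟩
  · exact (bs_mu h hi hx' hx _ _ h1).elim
  · exact (bs_mu h hi hx hx' _ _ h1.symm).elim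
  · have h3 := congrArg (S.mu Op) h1
    rw [hM, hM] at h3
    obtain ⟨e1, e2⟩ := bs_inj h hx' hx _ _ h3
    exact ⟨e1.symm, (inj6 _ _ (by rw [hb, hb']) e2.symm)⟩

section
variable [DecidableEq X] {D : Finset X}

/-- the left side of `v x` keeps its status -/
theorem lo_v (h : S.Ok) (hD : ∀ x ∈ D, Ld S Op t x) {z : X} (hz : Nw S Op t z) :
    S.Lo (S.addPairs Op D) (S.v z) ↔ S.Lo Op (S.v z) := by
  unfold Str.Lo
  rw [addPairs_iff]
  constructor
  · rintro (h1 | h1 | ⟨k, hk, hk'⟩)
    · exact Or.inl h1
    · exact Or.inr h1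
    · exfalso
      have hN : Nw S Op t (S.b.symm (S.v z)) := ⟨k, hD k hk, hk'⟩
      exact hz.hl h hN (by rw [Equiv.apply_symm_apply])
  · rintro (h1 | h1)
    · exact Or.inl h1
    · exact Or.inr (Or.inl h1)

/-- `v⁻¹ (b x)` keeps its status -/
theorem op_vb (h : S.Ok) (hD : ∀ x ∈ D, Ld S Op t x) {z : X} (hz : Nw S Op t z) :
    S.v.symm (S.b z) ∈ S.addPairs Op D ↔ S.v.symm (S.b z) ∈ Op := by
  rw [addPairs_iff]
  constructor
  · rintro (h1 | ⟨k, hk, hk'⟩)
    · exact h1
    · exfalso
      have hN : Nw S Op t (S.v.symm (S.b z)) := ⟨k, hD k hk, hk'⟩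
      exact hN.hl h hz (by rw [Equiv.apply_symm_apply])
  · exact Or.inl

theorem head_new (h : S.Ok) (hi : S.Inv Op) (hD : ∀ x ∈ D, Ld S Op t x) {x : X} (hx : x ∈ D)
    (i : Fin 6) : S.mu (S.addPairs Op D) (S.head Op x i) = S.head Op x (newPartner i) := by
  classical
  have hxl := hD x hx
  have hi' : S.Inv (S.addPairs Op D) := inv_addPairs h hi (fun x hx => (hD x hx).e)
  have hM' := (mu_isMatching h hi').inv
  have hNx : Nw S Op t x := ⟨x, hxl, Or.inl rfl⟩
  have hNr : Nw S Op t (S.r x) := hNx.r h
  have o0 : x ∈ S.addPairs Op D := addPairs_iff.2 (Or.inr ⟨x, hx, Or.inl rfl⟩)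
  have o3 : S.r x ∈ S.addPairs Op D := addPairs_iff.2 (Or.inr ⟨x, hx, Or.inr rfl⟩)
  -- link 0-5
  have k0 : S.mu (S.addPairs Op D) (S.head Op x 0) = S.head Op x 5 := by
    show S.mu (S.addPairs Op D) (x, true) = (S.v x, false)
    rw [mu_r_open h hi' o0, if_pos (Or.inr hxl.c)]
  -- link 3-4
  have hvr' : S.v (S.r x) = S.s (S.v x) := (h.sv x hxl.e).symm
  have k3 : S.mu (S.addPairs Op D) (S.head Op x 3) = S.head Op x 4 := by
    show S.mu (S.addPairs Op D) (S.r x, true) = S.mu Op (S.v x, false)
    have hv : S.mu Op (S.v x, false) = if S.Lo Op (S.v x) then (S.s (S.v x), false) else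
        (S.b.symm (S.v x), true) := by
      simp only [Str.mu, Equiv.symm_apply_apply, hxl.o, false_and, if_false, paired_v h hxl.e]
    rw [mu_r_open h hi' o3, hv, hvr', lo_s h hi', lo_v h hD hNx, hxl.rc h, h.ss]
    simp
  -- link 1-2
  have k1 : S.mu (S.addPairs Op D) (S.mu Op (x, true)) = S.mu Op (S.r x, true) := by
    have hbr : S.b (S.r x) = S.s (S.b x) := b_r x
    rw [mu_r_closed S (h.rE x hxl.e) (hxl.ro h hi), mu_r_closed S hxl.e hxl.o, hbr]
    have hlo : S.Lo (S.addPairs Op D) (S.b x) := Or.inr (by rw [Equiv.symm_apply_apply]; exact o0)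
    have hlos : S.Lo (S.addPairs Op D) (S.s (S.b x)) := (lo_s h hi' _).2 hlo
    by_cases hp : S.v.symm (S.b x) ∈ Op
    · have hp' := (op_vb h hD hNx).2 hp
      have hc := c_vs h (hi.sub _ hp)
      have hcr' : S.c (S.r (S.v.symm (S.b x))) = true ↔ ¬ S.c (S.b x) = true := by
        have := c_r h (hi.sub _ hp)
        rw [bool_flip this, hc]
      rw [vr h hi hp]
      by_cases hcc : S.c (S.b x) = true
      · rw [if_pos (And.intro hp (hc.trans hcc)), if_neg (fun h' : _ ∧ _ => hcr'.1 h'.2 hcc)]
        rw [mu_r_open h hi' (hi'.inv _ hp'), if_pos]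
        · rw [← h.sv _ (hi.sub _ hp), Equiv.apply_symm_apply]
        · left
          rw [← h.sv _ (hi.sub _ hp), Equiv.apply_symm_apply]
          exact hlos
      · rw [if_neg (fun h' : _ ∧ _ => hcc (hc ▸ h'.2)), if_pos (And.intro (hi.inv _ hp) (hcr'.2 hcc)),
          r_r h]
        simp only [Str.mu, if_pos (And.intro hp' (Or.inl hlo))]
    · have hp' : ¬ S.v.symm (S.b x) ∈ S.addPairs Op D := fun h' => hp ((op_vb h hD hNx).1 h')
      have hps : ¬ S.v.symm (S.s (S.b x)) ∈ Op := fun h' => hp ((vop_s h hi _).1 h')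
      rw [if_neg (fun h' : _ ∧ _ => hp h'.1), if_neg (fun h' : _ ∧ _ => hps h'.1)]
      simp only [Str.mu, if_neg (fun h' : _ ∧ _ => hp' h'.1), if_pos hlo,
        if_neg (h.paired x hxl.e)]
  have flip : ∀ i j : Fin 6, S.mu (S.addPairs Op D) (S.head Op x i) = S.head Op x j →
      S.mu (S.addPairs Op D) (S.head Op x j) = S.head Op x i := by
    intro i j hij
    rw [← hij, hM']
  have k1' : S.mu (S.addPairs Op D) (S.head Op x 1) = S.head Op x 2 := k1
  have k5 := flip 0 5 k0
  have k4 := flip 3 4 k3
  have k2 := flip 1 2 k1'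
  fin_cases i
  · exact k0
  · exact k1'
  · exact k2
  · exact k3
  · exact k4
  · exact k5

/-- the ends outside the heads keep their partners -/
theorem head_else (h : S.Ok) (hi : S.Inv Op) (hD : ∀ x ∈ D, Ld S Op t x) {e : End X}
    (he : ∀ x ∈ D, ∀ i, S.head Op x i ≠ e) : S.mu (S.addPairs Op D) e = S.mu Op e := by
  classical
  have hi' : S.Inv (S.addPairs Op D) := inv_addPairs h hi (fun x hx => (hD x hx).e)
  have hM := (mu_isMatching h hi).inv
  have hsub : ∀ z, z ∈ Op → z ∈ S.addPairs Op D := fun z hz => addPairs_iff.2 (Or.inl hz)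
  -- the three base ends and their partners are excluded
  have nb : ∀ z, (∃ k ∈ D, z = k ∨ z = S.r k) →
      (z, true) ≠ e ∧ S.mu Op (z, true) ≠ e := by
    rintro z ⟨k, hk, rfl | rfl⟩
    · exact ⟨he _ hk 0, he _ hk 1⟩
    · exact ⟨he _ hk 3, he _ hk 2⟩
  have nv : ∀ k ∈ D, (S.v k, false) ≠ e ∧ S.mu Op (S.v k, false) ≠ e :=
    fun k hk => ⟨he _ hk 5, he _ hk 4⟩
  have hN : ∀ z, (∃ k ∈ D, z = k ∨ z = S.r k) → Nw S Op t z := by
    rintro z ⟨k, hk, hz⟩; exact ⟨k, hD k hk, hz⟩
  obtain ⟨y, _ | _⟩ := e
  · -- left ends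
    by_cases h1 : ∃ k ∈ D, S.v.symm y = k ∨ S.v.symm y = S.r k
    · obtain ⟨k, hk, h2 | h2⟩ := h1
      · exfalso
        apply (nv k hk).1
        rw [← h2, Equiv.apply_symm_apply]
      · have hkl := hD k hk
        have hNk : Nw S Op t k := ⟨k, hkl, Or.inl rfl⟩
        have hy : y = S.s (S.v k) := by
          rw [h.sv k hkl.e, ← h2, Equiv.apply_symm_apply]
        have hv : S.mu Op (S.v k, false) = if S.Lo Op (S.v k) then (S.s (S.v k), false) else
            (S.b.symm (S.v k), true) := by
          simp only [Str.mu, Equiv.symm_apply_apply, hkl.o, false_and, if_false,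
            paired_v h hkl.e]
        have hl : ¬ S.Lo Op (S.v k) := by
          intro hl
          rw [if_pos hl] at hv
          exact (nv k hk).2 (by rw [hv, hy])
        have hl1 : ¬ S.Lo Op y := by rw [hy, lo_s h hi]; exact hl
        have hl2 : ¬ S.Lo (S.addPairs Op D) y := by
          rw [hy, lo_s h hi', lo_v h hD hNk]; exact hl
        have hc : ¬ S.c y = true := by
          rw [hy, h.sv k hkl.e, h.cv _ (h.rE _ hkl.e), hkl.rc h]
          simp
        have a1 : ¬ (S.v.symm y ∈ Op ∧ (S.Lo Op y ∨ S.c y = true)) :=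
          fun h' => h'.2.elim hl1 hc
        have a2 : ¬ (S.v.symm y ∈ S.addPairs Op D ∧ (S.Lo (S.addPairs Op D) y ∨ S.c y = true)) :=
          fun h' => h'.2.elim hl2 hc
        simp only [Str.mu, if_neg a1, if_neg a2, if_neg hl1, if_neg hl2]
    · have h2 : S.v.symm y ∈ S.addPairs Op D ↔ S.v.symm y ∈ Op := by
        rw [addPairs_iff]
        exact ⟨fun h' => h'.resolve_right h1, Or.inl⟩
      by_cases h3 : S.Lo (S.addPairs Op D) y ↔ S.Lo Op y
      · simp only [Str.mu]
        exact iteC (and_congr h2 (or_congr_left h3)) rfl (iteC h3 rfl rfl)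
      · -- the left side of `y` was freed
        have h4 : S.Lo (S.addPairs Op D) y ∧ ¬ S.Lo Op y := by
          by_contra h5
          apply h3
          constructor
          · intro h6; by_contra h7; exact h5 ⟨h6, h7⟩
          · rintro (h6 | h6)
            · exact Or.inl h6
            · exact Or.inr (hsub _ h6)
        have h5 : ∃ k ∈ D, S.b.symm y = k ∨ S.b.symm y = S.r k := by
          rcases h4.1 with h6 | h6
          · exact absurd (Or.inl h6) h4.2
          · rcases addPairs_iff.1 h6 with h7 | h7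
            · exact absurd (Or.inr h7) h4.2
            · exact h7
        have h6 := (nb _ h5).2
        have h7 := hN _ h5
        rw [mu_r_closed S (h7.e h) (h7.o h hi), Equiv.apply_symm_apply] at h6
        have h8 : S.v.symm y ∈ Op ∧ S.c (S.v.symm y) = true := by
          by_contra h9
          rw [if_neg h9] at h6
          exact h6 rfl
        have hc : S.c y = true := by rw [← c_vs h (hi.sub _ h8.1)]; exact h8.2
        simp only [Str.mu, h2, h8.1, hc, or_true, and_true, if_true]
  · -- right ends
    by_cases hE : y ∈ S.E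
    · have h0 : ¬ ∃ k ∈ D, y = k ∨ y = S.r k := fun h' => (nb _ h').1 rfl
      have h0' : y ∈ S.addPairs Op D ↔ y ∈ Op := by
        rw [addPairs_iff]
        exact ⟨fun h' => h'.resolve_right h0, Or.inl⟩
      by_cases ho : y ∈ Op
      · rw [mu_r_open h hi ho, mu_r_open h hi' (hsub _ ho)]
        by_cases hc : S.c y = true
        · rw [if_pos (Or.inr hc), if_pos (Or.inr hc)]
        · by_cases h1 : S.Lo Op (S.v y)
          · have h2 : S.Lo (S.addPairs Op D) (S.v y) := by
              rcases h1 with h1 | h1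
              · exact Or.inl h1
              · exact Or.inr (hsub _ h1)
            rw [if_pos (Or.inl h1), if_pos (Or.inl h2)]
          · by_cases h2 : S.Lo (S.addPairs Op D) (S.v y)
            · exfalso
              have h3 : ∃ k ∈ D, S.b.symm (S.v y) = k ∨ S.b.symm (S.v y) = S.r k := by
                rcases h2 with h6 | h6
                · exact absurd (Or.inl h6) h1
                · rcases addPairs_iff.1 h6 with h7 | h7
                  · exact absurd (Or.inr h7) h1
                  · exact h7
              have h4 : ∃ k ∈ D, S.b.symm (S.s (S.v y)) = k ∨ S.b.symm (S.s (S.v y)) = S.r k := by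
                obtain ⟨k, hk, h5⟩ := h3
                have h6 : S.b.symm (S.s (S.v y)) = S.r (S.b.symm (S.v y)) := by simp [Str.r]
                refine ⟨k, hk, ?_⟩
                rw [h6]
                rcases h5 with h5 | h5
                · exact Or.inr (by rw [h5])
                · exact Or.inl (by rw [h5, r_r h])
              apply (nb _ h4).2
              have h5 : S.mu Op (y, true) = (S.b.symm (S.s (S.v y)), true) := by
                rw [mu_r_open h hi ho, if_neg (not_or.2 ⟨h1, hc⟩)]
              rw [← h5, hM]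
            · rw [if_neg (not_or.2 ⟨h1, hc⟩), if_neg (not_or.2 ⟨h2, hc⟩)]
      · have ho' : y ∉ S.addPairs Op D := fun h' => ho (h0'.1 h')
        rw [mu_r_closed S hE ho, mu_r_closed S hE ho']
        by_cases h1 : ∃ k ∈ D, S.v.symm (S.b y) = k ∨ S.v.symm (S.b y) = S.r k
        · obtain ⟨k, hk, h2 | h2⟩ := h1
          · exfalso
            have hkl := hD k hk
            have hv : S.mu Op (S.v k, false) = if S.Lo Op (S.v k) then (S.s (S.v k), false) else
                (S.b.symm (S.v k), true) := by
              simp only [Str.mu, Equiv.symm_apply_apply, hkl.o, false_and, if_false,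
                paired_v h hkl.e]
            have hvk : S.v k = S.b y := by rw [← h2, Equiv.apply_symm_apply]
            have hl : ¬ S.Lo Op (S.v k) := by
              unfold Str.Lo
              rw [hvk, Equiv.symm_apply_apply]
              push Not
              exact ⟨hE, ho⟩
            rw [if_neg hl, hvk, Equiv.symm_apply_apply, ← hvk] at hv
            exact (nv k hk).2 hv
          · have hkl := hD k hk
            have hc : ¬ S.c (S.v.symm (S.b y)) = true := by
              rw [h2, hkl.rc h]; simp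
            rw [if_neg (fun h' : _ ∧ _ => hc h'.2), if_neg (fun h' : _ ∧ _ => hc h'.2)]
        · have h2 : S.v.symm (S.b y) ∈ S.addPairs Op D ↔ S.v.symm (S.b y) ∈ Op := by
            rw [addPairs_iff]
            exact ⟨fun h' => h'.resolve_right h1, Or.inl⟩
          exact iteC (and_congr_left' h2) rfl rfl
    · have hw : S.WEnd (y, true) := Or.inl ⟨rfl, hE⟩
      rw [mu_wend h hi _ hw, mu_wend h hi' _ hw]

end

end

theorem specHead : SpecHead := by
  classical
  intro X _ S Op K t h hi hK
  have hL : ∀ x ∈ K, Ld S Op t x := fun x hx =>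
    ⟨(hK x hx).1, (hK x hx).2.1, (hK x hx).2.2.1, (hK x hx).2.2.2.1, (hK x hx).2.2.2.2⟩
  have hH : IsHeads (S.mu Op) (fun k : K => S.head Op k.1) := by
    constructor
    · intro k k' i i' he
      obtain ⟨e1, e2⟩ := head_inj h hi (hL _ k.2) (hL _ k'.2) i i' he
      exact ⟨Subtype.ext e1, e2⟩
    · intro k i
      exact head_old h hi k.1 i
  refine ⟨hH, ?_⟩
  intro D
  have hD : ∀ x ∈ D.map (Function.Embedding.subtype _), Ld S Op t x := by
    intro x hx
    obtain ⟨k, hk, rfl⟩ := Finset.mem_map.1 hx
    exact hL _ k.2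
  funext e
  unfold switch
  split_ifs with he
  · obtain ⟨h1, h2⟩ := he.choose_spec
    set p := he.choose with hp
    have hx : (p.1 : X) ∈ D.map (Function.Embedding.subtype _) :=
      Finset.mem_map.2 ⟨p.1, h1, rfl⟩
    have := head_new h hi hD hx p.2
    show S.head Op (p.1 : X) (newPartner p.2) = _
    rw [← this]
    exact congrArg _ h2
  · have := head_else h hi hD (e := e) (fun x hx i => by
      obtain ⟨k, hk, rfl⟩ := Finset.mem_map.1 hx
      intro h3
      exact he ⟨(k, i), hk, h3⟩)
    rw [this]


theorem specState : SpecState := fun _ _ _ h ho => mu_isMatching h ho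

theorem specTriv : SpecTriv := by
  classical
  intro X _ S Op x h hi hx hb
  have hrb : S.b (S.r x) = S.v (S.r x) := by
    rw [b_r, ← h.sv x hx, hb]
  have hN : ∀ z, (z = x ∨ z = S.r x) → S.b z = S.v z ∧ z ∈ S.E := by
    rintro z (rfl | rfl)
    · exact ⟨hb, hx⟩
    · exact ⟨hrb, h.rE _ hx⟩
  have hi' : S.Inv (S.addPairs Op {x}) := inv_addPairs h hi (fun z hz => by
    rw [Finset.mem_singleton.1 hz]; exact hx)
  have hm : ∀ z, z ∈ S.addPairs Op {x} ↔ z ∈ Op ∨ (z = x ∨ z = S.r x) := by
    intro z
    rw [addPairs_iff]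
    simp
  by_cases ho : x ∈ Op
  · have : S.addPairs Op {x} = Op := by
      ext z
      rw [hm]
      constructor
      · rintro (h1 | rfl | rfl)
        · exact h1
        · exact ho
        · exact hi.inv _ ho
      · exact Or.inl
    rw [this]
  · have hr : S.r x ∉ Op := by
      intro h'
      have := hi.inv _ h'
      rw [r_r h] at this
      exact ho this
    have hNo : ∀ z, (z = x ∨ z = S.r x) → z ∉ Op := by
      rintro z (rfl | rfl)
      · exact ho
      · exact hr
    -- away from the new letters nothing changes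
    have same : ∀ z, ¬ (z = x ∨ z = S.r x) → (z ∈ S.addPairs Op {x} ↔ z ∈ Op) := by
      intro z hz
      rw [hm]
      exact ⟨fun h' => h'.resolve_right hz, Or.inl⟩
    have lo : ∀ y, ¬ (S.b.symm y = x ∨ S.b.symm y = S.r x) →
        (S.Lo (S.addPairs Op {x}) y ↔ S.Lo Op y) := by
      intro y hy
      unfold Str.Lo
      rw [same _ hy]
    funext e
    obtain ⟨y, _ | _⟩ := e
    · by_cases h1 : S.v.symm y = x ∨ S.v.symm y = S.r x
      · obtain ⟨h2, h3⟩ := hN _ h1
        rw [Equiv.apply_symm_apply] at h2
        have h4 : S.b.symm y = S.v.symm y := by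
          rw [Equiv.symm_apply_eq]; exact h2.symm
        have h5 := hNo _ h1
        have h6 : S.v.symm y ∈ S.addPairs Op {x} := (hm _).2 (Or.inr h1)
        have h7 : ¬ S.Lo Op y := by
          unfold Str.Lo
          rw [h4]
          push Not
          exact ⟨h3, h5⟩
        have h8 : S.Lo (S.addPairs Op {x}) y := Or.inr (by rw [h4]; exact h6)
        simp only [Str.mu, if_pos (And.intro h6 (Or.inl h8)), if_neg (fun h' : _ ∧ _ => h5 h'.1),
          if_neg h7, h4]
      · have h2 : ¬ (S.b.symm y = x ∨ S.b.symm y = S.r x) := by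
          intro h3
          apply h1
          have h4 := (hN _ h3).1
          rw [Equiv.apply_symm_apply] at h4
          have h5 : S.v.symm y = S.b.symm y := by
            rw [Equiv.symm_apply_eq]; exact h4
          rw [h5]
          exact h3
        simp only [Str.mu]
        exact iteC (and_congr (same _ h1) (or_congr_left (lo _ h2))) rfl
          (iteC (lo _ h2) rfl rfl)
    · by_cases hE : y ∈ S.E
      · by_cases h1 : y = x ∨ y = S.r x
        · have h5 := hNo _ h1
          have h6 : y ∈ S.addPairs Op {x} := (hm _).2 (Or.inr h1)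
          have h2 := (hN _ h1).1
          have h8 : S.Lo (S.addPairs Op {x}) (S.v y) :=
            Or.inr (by rw [← h2, Equiv.symm_apply_apply]; exact h6)
          rw [mu_r_closed S hE h5, mu_r_open h hi' h6, if_pos (Or.inl h8), h2,
            Equiv.symm_apply_apply, if_neg (fun h' : _ ∧ _ => h5 h'.1)]
        · by_cases ho : y ∈ Op
          · rw [mu_r_open h hi ho, mu_r_open h hi' ((same _ h1).2 ho)]
            refine iteC (or_congr_left (lo _ ?_)) rfl rfl
            intro h3
            apply h1
            have h4 := (hN _ h3).1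
            rw [Equiv.apply_symm_apply] at h4
            have h5 : y = S.b.symm (S.v y) := S.v.injective h4
            rw [h5]
            exact h3
          · rw [mu_r_closed S hE ho, mu_r_closed S hE (fun h' => ho ((same _ h1).1 h'))]
            refine iteC (and_congr_left' (same _ ?_)) rfl rfl
            intro h3
            apply h1
            have h4 := (hN _ h3).1
            rw [Equiv.apply_symm_apply] at h4
            have h5 : y = S.v.symm (S.b y) := S.b.injective h4.symm
            rw [h5]
            exact h3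
      · have hw : S.WEnd (y, true) := Or.inl ⟨rfl, hE⟩
        rw [mu_wend h hi _ hw, mu_wend h hi' _ hw]

end Pool.Agent.Lib.MP29a61eN.HD
end

section
/-!
# MP_29a61e_co, N2: STAGE and COUNT (second version)
-/
namespace Pool.Agent.Lib.MP29a61eN.HD

open Pool.Agent.Lib.MP29a61eN

variable {X : Type} {S : Str X}

theorem mem_Op {t f : ℕ} {x : X} :
    x ∈ S.Op t f ↔ x ∈ S.E ∧ (S.T x < t ∨ (S.T x = t ∧ S.ph x < f)) := by
  unfold Str.Op
  rw [Finset.mem_filter]

theorem mem_K [DecidableEq X] {t f : ℕ} {x : X} :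
    x ∈ S.K t f ↔ x ∈ S.E ∧ S.T x = t ∧ S.ph x = f ∧ S.c x = true ∧ S.b x ≠ S.v x := by
  unfold Str.K
  rw [Finset.mem_filter]

theorem inv_Op (h : S.Ok) (t f : ℕ) : S.Inv (S.Op t f) := by
  constructor
  · intro x hx
    exact (mem_Op.1 hx).1
  · intro x hx
    obtain ⟨h1, h2⟩ := mem_Op.1 hx
    rw [mem_Op, T_r h h1, h.phr x h1]
    exact ⟨h.rE x h1, h2⟩

theorem adm_addPairs [DecidableEq X] (h : S.Ok) (t f : ℕ) {D : Finset X} (hD : D ⊆ S.K t f) :
    S.Adm t (S.addPairs (S.Op t f) D) := by
  have hD' : ∀ k ∈ D, k ∈ S.E ∧ S.T k = t ∧ S.ph k = f := by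
    intro k hk
    obtain ⟨h1, h2, h3, _⟩ := mem_K.1 (hD hk)
    exact ⟨h1, h2, h3⟩
  have hnew : ∀ z, (∃ k ∈ D, z = k ∨ z = S.r k) → z ∈ S.E ∧ S.T z = t ∧ S.ph z = f := by
    rintro z ⟨k, hk, rfl | rfl⟩
    · exact hD' _ hk
    · obtain ⟨h1, h2, h3⟩ := hD' _ hk
      exact ⟨h.rE _ h1, by rw [T_r h h1, h2], by rw [h.phr _ h1, h3]⟩
  refine ⟨inv_addPairs h (inv_Op h t f) (fun x hx => (hD' x hx).1), ?_, ?_, ?_⟩
  · intro x hx hT
    exact addPairs_iff.2 (Or.inl (mem_Op.2 ⟨hx, Or.inl hT⟩))
  · intro x hx
    rcases addPairs_iff.1 hx with h1 | h1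
    · rcases (mem_Op.1 h1).2 with h2 | h2
      · exact h2.le
      · exact h2.1.le
    · exact (hnew x h1).2.1.le
  · intro u i hu hv hc hs hT hE
    have hInv := inv_addPairs h (inv_Op h t f) (D := D) (fun x hx => (hD' x hx).1)
    have hall : ∀ j ≤ i, (S.v ^ j) u ∈ S.E ∧ (S.v ^ j) (S.s u) ∈ S.E :=
      fun j hj => ⟨hInv.sub _ (hu j hj), hE j hj⟩
    have hT' : S.T ((S.v ^ i) (S.s u)) = t := by
      have := (h.code u i (fun j hj => hall j hj.le)).2 (hall i le_rfl).1 (hall i le_rfl).2
      rw [← this, hT]
    have hph : S.ph ((S.v ^ i) u) ≤ f := by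
      rcases addPairs_iff.1 (hu i le_rfl) with h1 | h1
      · rcases (mem_Op.1 h1).2 with h2 | h2
        · omega
        · exact h2.2.le
      · exact (hnew _ h1).2.2.le
    rcases h.phs u i hs hc hall with h1 | h1
    · exact addPairs_iff.2 (Or.inl (mem_Op.2 ⟨(hall i le_rfl).2, Or.inr ⟨hT', by omega⟩⟩))
    · rw [h1]
      exact hInv.inv _ (hu i le_rfl)

theorem addPairs_insert [DecidableEq X] {Op A : Finset X} {a : X} :
    S.addPairs Op (insert a A) = S.addPairs (S.addPairs Op A) {a} := by
  ext z
  rw [addPairs_iff, addPairs_iff, addPairs_iff]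
  simp only [Finset.mem_insert, Finset.mem_singleton, exists_eq_or_imp, exists_eq_left]
  generalize (∃ a ∈ A, z = a ∨ z = S.r a) = P
  tauto

theorem mu_triv [DecidableEq X] (h : S.Ok) {Op : Finset X} (hi : S.Inv Op) (A : Finset X)
    (hA : ∀ x ∈ A, x ∈ S.E ∧ S.b x = S.v x) :
    S.mu (S.addPairs Op A) = S.mu Op ∧ S.Inv (S.addPairs Op A) := by
  induction A using Finset.induction_on with
  | empty =>
    have : S.addPairs Op ∅ = Op := by
      ext z
      rw [addPairs_iff]
      simp
    rw [this]
    exact ⟨rfl, hi⟩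
  | insert a A ha ih =>
    obtain ⟨h1, h2⟩ := ih (fun x hx => hA x (Finset.mem_insert_of_mem hx))
    obtain ⟨h3, h4⟩ := hA a (Finset.mem_insert_self _ _)
    rw [addPairs_insert]
    refine ⟨?_, ?_⟩
    · rw [specTriv X S _ a h h2 h3 h4, h1]
    · exact inv_addPairs h h2 (fun z hz => by rw [Finset.mem_singleton.1 hz]; exact h3)

theorem specStage : SpecStage := by
  intro X _ S h
  refine ⟨inv_Op h, fun t f D hD => adm_addPairs h t f hD, ?_, ?_, ?_⟩
  · intro t f
    set A : Finset X := S.E.filter (fun x => S.T x = t ∧ S.ph x = f ∧ S.c x = true ∧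
      S.b x = S.v x) with hA
    have hmA : ∀ x, x ∈ A ↔ x ∈ S.E ∧ S.T x = t ∧ S.ph x = f ∧ S.c x = true ∧
      S.b x = S.v x := by
      intro x; rw [hA, Finset.mem_filter]
    have e1 : S.Op t (f + 1) = S.addPairs (S.addPairs (S.Op t f) (S.K t f)) A := by
      ext z
      rw [addPairs_iff, addPairs_iff, mem_Op, mem_Op]
      constructor
      · rintro ⟨h1, h2⟩
        by_cases h3 : S.T z < t ∨ (S.T z = t ∧ S.ph z < f)
        · exact Or.inl (Or.inl ⟨h1, h3⟩)
        · have h4 : S.T z = t ∧ S.ph z = f := by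
            rcases h2 with h2 | h2
            · exact absurd (Or.inl h2) h3
            · refine ⟨h2.1, ?_⟩
              by_contra h5
              exact h3 (Or.inr ⟨h2.1, by omega⟩)
          -- a leader of the pair
          have key : ∀ w, w ∈ S.E → S.T w = t → S.ph w = f → S.c w = true →
              (w ∈ S.K t f ∨ w ∈ A) := by
            intro w a1 a2 a3 a4
            by_cases a5 : S.b w = S.v w
            · exact Or.inr ((hmA w).2 ⟨a1, a2, a3, a4, a5⟩)
            · exact Or.inl (mem_K.2 ⟨a1, a2, a3, a4, a5⟩)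
          by_cases hc : S.c z = true
          · rcases key z h1 h4.1 h4.2 hc with h5 | h5
            · exact Or.inl (Or.inr ⟨z, h5, Or.inl rfl⟩)
            · exact Or.inr ⟨z, h5, Or.inl rfl⟩
          · have hc' : S.c (S.r z) = true := by
              have := c_r h h1
              rw [bool_flip this]
              exact hc
            have hz : z = S.r (S.r z) := (r_r h z).symm
            rcases key (S.r z) (h.rE z h1) (by rw [T_r h h1, h4.1]) (by rw [h.phr z h1, h4.2])
              hc' with h5 | h5
            · exact Or.inl (Or.inr ⟨S.r z, h5, Or.inr hz⟩)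
            · exact Or.inr ⟨S.r z, h5, Or.inr hz⟩
      · have new : ∀ k, k ∈ S.E → S.T k = t → S.ph k = f → ∀ z, (z = k ∨ z = S.r k) →
            z ∈ S.E ∧ (S.T z < t ∨ (S.T z = t ∧ S.ph z < f + 1)) := by
          rintro k a1 a2 a3 z (rfl | rfl)
          · exact ⟨a1, Or.inr ⟨a2, by omega⟩⟩
          · exact ⟨h.rE _ a1, Or.inr ⟨by rw [T_r h a1, a2], by rw [h.phr _ a1]; omega⟩⟩
        rintro ((⟨h1, h2⟩ | ⟨k, hk, hz⟩) | ⟨k, hk, hz⟩)
        · refine ⟨h1, ?_⟩
          rcases h2 with h2 | h2
          · exact Or.inl h2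
          · exact Or.inr ⟨h2.1, by omega⟩
        · obtain ⟨a1, a2, a3, _⟩ := mem_K.1 hk
          exact new k a1 a2 a3 z hz
        · obtain ⟨a1, a2, a3, _⟩ := (hmA k).1 hk
          exact new k a1 a2 a3 z hz
    rw [e1]
    exact (mu_triv h (inv_addPairs h (inv_Op h t f) (fun x hx => (mem_K.1 hx).1)) A
      (fun x hx => ⟨((hmA x).1 hx).1, ((hmA x).1 hx).2.2.2.2⟩)).1
  · intro t f hf
    ext x
    rw [mem_Op, mem_Op]
    constructor
    · rintro ⟨h1, h2⟩
      exact ⟨h1, Or.inl (by rcases h2 with h2 | h2 <;> omega)⟩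
    · rintro ⟨h1, h2⟩
      refine ⟨h1, ?_⟩
      have := hf x h1
      rcases h2 with h2 | h2
      · by_cases h3 : S.T x < t
        · exact Or.inl h3
        · exact Or.inr ⟨by omega, this⟩
      · omega
  · intro t f x hx
    obtain ⟨h1, h2, h3, h4, h5⟩ := mem_K.1 hx
    refine ⟨h1, ?_, h4, h2, h5⟩
    intro h6
    rcases (mem_Op.1 h6).2 with h7 | h7 <;> omega

theorem specCount : SpecCount := by
  classical
  intro X _ _ S h
  refine ⟨?_, ?_, ?_⟩
  · intro τ Q
    set EL : Finset X := S.E.filter (fun x => S.c x = true) with hEL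
    set EF : Finset X := S.E.filter (fun x => ¬ S.c x = true) with hEF
    have h1 : ∑ t ∈ Finset.range τ, ∑ f ∈ Finset.range Q, (S.K t f).card ≤ EL.card := by
      rw [← Finset.sum_product']
      rw [← Finset.card_biUnion (s := Finset.range τ ×ˢ Finset.range Q)
        (t := fun p => S.K p.1 p.2)]
      · apply Finset.card_le_card
        intro x hx
        obtain ⟨p, _, hp⟩ := Finset.mem_biUnion.1 hx
        obtain ⟨a1, _, _, a4, _⟩ := mem_K.1 hp
        exact Finset.mem_filter.2 ⟨a1, a4⟩
      · intro p _ q _ hpq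
        rw [Function.onFun, Finset.disjoint_left]
        intro x hx hx'
        obtain ⟨_, a2, a3, _⟩ := mem_K.1 hx
        obtain ⟨_, b2, b3, _⟩ := mem_K.1 hx'
        exact hpq (Prod.ext (a2.symm.trans b2) (a3.symm.trans b3))
    have h2 : EL.card ≤ EF.card := by
      refine Finset.card_le_card_of_injOn S.r ?_ ?_
      · intro x hx
        obtain ⟨a1, a2⟩ := Finset.mem_filter.1 (Finset.mem_coe.1 hx)
        refine Finset.mem_coe.2 (Finset.mem_filter.2 ⟨h.rE x a1, ?_⟩)
        intro a3
        exact c_r h a1 (a3.trans a2.symm)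
      · intro x _ y _ hxy
        have hxy' : S.r x = S.r y := hxy
        rw [← r_r h x, hxy', r_r h]
    have h3 : EL.card + EF.card = S.E.card := Finset.card_filter_add_card_filter_not _
    omega
  · intro x hx
    have h0 : ∀ z, z ∉ S.Op 0 0 := by
      intro z hz
      rcases (mem_Op.1 hz).2 with h1 | h1 <;> omega
    rw [mu_r_closed S hx (h0 x), if_neg (fun h' : _ ∧ _ => h0 _ h'.1)]
  · intro τ hτ x hx
    have h0 : ∀ z ∈ S.E, z ∈ S.Op τ 0 := fun z hz => mem_Op.2 ⟨hz, Or.inl (hτ z hz)⟩
    have hlo : S.Lo (S.Op τ 0) (S.v x) := by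
      by_cases h1 : S.b.symm (S.v x) ∈ S.E
      · exact Or.inr (h0 _ h1)
      · exact Or.inl h1
    rw [mu_r_open h (inv_Op h τ 0) (h0 x hx), if_pos (Or.inl hlo)]

end Pool.Agent.Lib.MP29a61eN.HD
end

section
/-!
# MP_29a61e_co, N2: H1 (second version)
-/
namespace Pool.Agent.Lib.MP29a61eN.HD

open Pool.Agent.Lib.MP29a61eN

variable {X V : Type} {S : Str X}

theorem count_some_filter (l : List (Option ℕ)) (i : ℕ) :
    (l.filter Option.isSome).count (some i) = l.count (some i) := by
  apply List.count_filter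
  rfl

theorem even_countP_isSome (l : List (Option ℕ)) (h : ∀ i, Even (l.count (some i))) :
    Even (l.countP Option.isSome) := by
  classical
  rw [List.countP_eq_length_filter]
  set l' := l.filter Option.isSome with hl'
  have h1 : ∑ a ∈ l'.toFinset, l'.count a = l'.length := by
    rw [← List.sum_toFinset_count_eq_length l']
    apply Finset.sum_congr rfl
    intro a _
    unfold List.count
    apply List.countP_congr
    intro x _
    simp only [beq_iff_eq]
  rw [← h1]
  apply Finset.even_sum
  intro a ha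
  have h2 : a ∈ l' := List.mem_toFinset.1 ha
  rw [hl', List.mem_filter] at h2
  obtain ⟨i, rfl⟩ := Option.isSome_iff_exists.1 h2.2
  rw [hl', count_some_filter]
  exact h i

/-- special labels of a closed path are used an even number of times -/
theorem path_even {comp : X → V} {adj : V → V → Prop} {L : List (V × V)}
    {eT : X → ℕ} {eW : End X → ℕ} {Def : Finset X} {D : ℕ} {Op : Finset X}
    (hS : S.Ok) (hO : Over S comp adj L eT eW Def) (hF : FAR.Far adj L D) (hI : S.Inv Op)
    (e : End X) (t : ℕ) (hdef : ∀ s ≤ t, ((phi (S.mu Op))^[s] e).1 ∉ Def)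
    (l' : List (Option ℕ))
    (hl' : FAR.W adj L (pe S comp ((phi (S.mu Op))^[t] e)) l' (pe S comp (bar e)))
    (hlen : 2 * t + 1 + l'.length ≤ D) (i : ℕ) :
    Even ((((List.range t).map (fun s => lab S eT eW Op ((phi (S.mu Op))^[s] e))) ++ l').count
      (some i)) := by
  obtain ⟨l, h1, h2, h3⟩ := (specWalk X V S comp adj L eT eW Def Op hS hO hI).1 e t hdef
  have h4 := h1.append hl'
  have h5 := FAR.even_count hO.rsymm hF i _ _ _ rfl h4 (by
    rw [List.length_append]; omega)
  have h6 : l.count (some i) =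
      ((List.range t).map (fun s => lab S eT eW Op ((phi (S.mu Op))^[s] e))).count (some i) := by
    rw [← count_some_filter, h3, count_some_filter]
  rw [List.count_append] at h5 ⊢
  rw [← h6]
  exact h5

theorem lab_wend {eT : X → ℕ} {eW : End X → ℕ} {Op : Finset X} {e : End X} (h : S.WEnd e) :
    lab S eT eW Op e = some (eW e) := by
  classical
  unfold lab
  rw [if_pos h]

theorem lab_not {eT : X → ℕ} {eW : End X → ℕ} {Op : Finset X} {e : End X} (h : ¬ S.WEnd e) :
    lab S eT eW Op e = if (S.mu Op e).2 = e.2 then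
      some (eT (if e.2 = true then S.b e.1 else e.1)) else none := by
  classical
  unfold lab
  rw [if_neg h]

/-- a world link is used only once by a path -/
theorem world_once {comp : X → V} {adj : V → V → Prop} {L : List (V × V)}
    {eT : X → ℕ} {eW : End X → ℕ} {Def : Finset X} {Op : Finset X}
    (hS : S.Ok) (hO : Over S comp adj L eT eW Def) (hI : S.Inv Op)
    (e : End X) (t s0 : ℕ) (hs0 : s0 < t)
    (hdef : ∀ s < t, ((phi (S.mu Op))^[s] e).1 ∉ Def)
    (hw : S.WEnd ((phi (S.mu Op))^[s0] e))
    (hinj : ∀ s < t, (phi (S.mu Op))^[s] e = (phi (S.mu Op))^[s0] e → s = s0) :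
    ((List.range t).map (fun s => lab S eT eW Op ((phi (S.mu Op))^[s] e))).count
      (some (eW ((phi (S.mu Op))^[s0] e))) = 1 := by
  classical
  have hM := specState X S Op hS hI
  have hWk := specWalk X V S comp adj L eT eW Def Op hS hO hI
  have key : ∀ s ∈ List.range t, lab S eT eW Op ((phi (S.mu Op))^[s] e) =
      some (eW ((phi (S.mu Op))^[s0] e)) ↔ s = s0 := by
    intro s hs
    rw [List.mem_range] at hs
    constructor
    · intro h1
      by_cases h2 : S.WEnd ((phi (S.mu Op))^[s] e)
      · rw [lab_wend h2, Option.some.injEq] at h1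
        rcases hO.winj _ _ hw h2 (hdef s0 hs0) (hdef s hs) h1.symm with h3 | h3
        · exact hinj s hs h3
        · exfalso
          rw [← hWk.2.2 _ hw] at h3
          have h4 : (phi (S.mu Op))^[s0 + 1] e = bar ((phi (S.mu Op))^[s] e) := by
            rw [Function.iterate_succ_apply', h3]
            rfl
          by_cases h5 : s ≤ s0
          · apply specOrbit X (S.mu Op) hM ((phi (S.mu Op))^[s] e) (s0 + 1 - s)
            rw [← Function.iterate_add_apply, ← h4, show s0 + 1 - s + s = s0 + 1 by omega]
          · apply specOrbit X (S.mu Op) hM ((phi (S.mu Op))^[s0 + 1] e) (s - (s0 + 1))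
            rw [← Function.iterate_add_apply, h4, bar_bar, show s - (s0 + 1) + (s0 + 1) = s by omega]
      · rw [lab_not h2] at h1
        by_cases h3 : (S.mu Op ((phi (S.mu Op))^[s] e)).2 = ((phi (S.mu Op))^[s] e).2
        · rw [if_pos h3, Option.some.injEq] at h1
          exact absurd h1.symm (hO.wtwin _ hw (hdef s0 hs0) _ (hWk.2.1 _ h2 h3))
        · rw [if_neg h3] at h1
          exact absurd h1 (by simp)
    · rintro rfl
      exact lab_wend hw
  rw [List.count_eq_countP, List.countP_map]
  have h1 : List.countP ((fun x => x == some (eW ((phi (S.mu Op))^[s0] e))) ∘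
      (fun s => lab S eT eW Op ((phi (S.mu Op))^[s] e))) (List.range t) =
      List.countP (fun x => x == s0) (List.range t) := by
    apply List.countP_congr
    intro s hs
    simp only [Function.comp, beq_iff_eq]
    exact key s hs
  rw [h1, ← List.count_eq_countP]
  exact List.count_eq_one_of_mem (List.nodup_range) (List.mem_range.2 hs0)

theorem base_step {comp : X → V} {adj : V → V → Prop} {L : List (V × V)}
    {eT : X → ℕ} {eW : End X → ℕ} {Def : Finset X}
    (hO : Over S comp adj L eT eW Def) (e : End X) :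
    adj (pe S comp e) (pe S comp (bar e)) := by
  obtain ⟨x, _ | _⟩ := e
  · simpa [pe, bar] using hO.base x
  · simpa [pe, bar] using hO.rsymm _ _ (hO.base x)

theorem specH1 : SpecH1 := by
  intro X V _ _ S comp adj L eT eW Def D G t Op hS hO hF hD hA
  have hI := hA.toInv
  intro e k hk hkG hper
  by_contra hcon
  push Not at hcon
  -- minimal period
  set p := Function.minimalPeriod (phi (S.mu Op)) e with hp
  have hper' : Function.IsPeriodicPt (phi (S.mu Op)) k e := hper
  have hpk : p ∣ k := hper'.minimalPeriod_dvd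
  have hp0 : 0 < p := hper'.minimalPeriod_pos hk
  have hple : p ≤ k := Nat.le_of_dvd hk hpk
  have hpp : (phi (S.mu Op))^[p] e = e := Function.isPeriodicPt_minimalPeriod _ _
  have hdef : ∀ s ≤ p, ((phi (S.mu Op))^[s] e).1 ∉ Def := by
    intro s hs
    by_cases h1 : s < k
    · exact hcon s h1
    · have : s = p := by omega
      rw [this, hpp]
      exact hcon 0 hk
  obtain ⟨i, hi, hw⟩ := specLevel specState X S Op t hS hA e p hp0 hpp
  have hcl : FAR.W adj L (pe S comp ((phi (S.mu Op))^[p] e)) [none] (pe S comp (bar e)) := by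
    rw [hpp]
    exact FAR.W.cons (base_step hO e) (FAR.W.nil _)
  have hev := path_even hS hO hF hI e p hdef [none] hcl (by simp; omega)
    (eW ((phi (S.mu Op))^[i] e))
  rw [List.count_append, world_once hS hO hI e p i hi (fun s hs => hdef s hs.le) hw] at hev
  · simp at hev
  · intro s hs h1
    by_contra h2
    have hlt : ∀ a b, a < b → b < p → (phi (S.mu Op))^[a] e ≠ (phi (S.mu Op))^[b] e := by
      intro a b hab hbp h3
      have hinj : Function.Injective (phi (S.mu Op)) := by
        intro u w huw
        have hM := specState X S Op hS hI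
        have h4 : S.mu Op u = S.mu Op w := by
          have := congrArg bar huw
          simpa [phi] using this
        rw [← hM.inv u, h4, hM.inv]
      have h5 : (phi (S.mu Op))^[b - a] e = e := by
        apply hinj.iterate a
        rw [← Function.iterate_add_apply, show a + (b - a) = b by omega, h3]
      have h6 : p ≤ b - a := Function.IsPeriodicPt.minimalPeriod_le (by omega) h5
      omega
    rcases lt_or_gt_of_ne h2 with h3 | h3
    · exact hlt s i h3 hi h1
    · exact hlt i s h3 hs h1.symm

end Pool.Agent.Lib.MP29a61eN.HD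
end
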