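import Mathlib
import Pool.Agent.Lib.MP_29a61e_co.N2.Local1

/-!
# MP_29a61e_co, module STAGE (SpecTriv → SpecStage)
-/

namespace Pool.Agent.Lib.MP29a61eN

namespace Stage

variable {X : Type} {S : Str X}

theorem b_r (S : Str X) (x : X) : S.b (S.r x) = S.s (S.b x) := by
  simp [Str.r]

theorem r_r (h : S.Ok) (x : X) : S.r (S.r x) = x := by
  unfold Str.r
  rw [Equiv.apply_symm_apply, h.ss, Equiv.symm_apply_apply]

theorem T_s (h : S.Ok) (y : X) : S.TL (S.s y) = S.TL y := by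
  have := (h.code y 0 (by intro i hi; omega)).1
  simpa using this.symm

theorem T_r (h : S.Ok) {x : X} (hx : x ∈ S.E) : S.T (S.r x) = S.T x := by
  rw [← h.tl _ (h.rE x hx), ← h.tl _ hx, b_r, T_s h]

theorem r_ne (h : S.Ok) {x : X} (hx : x ∈ S.E) : S.r x ≠ x := by
  intro he
  apply h.paired x hx
  have := b_r S x
  rw [he] at this
  exact this.symm

theorem c_r (h : S.Ok) {x : X} (hx : x ∈ S.E) : S.c (S.r x) ≠ S.c x := by
  have h1 : S.s (S.v x) = S.v (S.r x) := h.sv x hx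
  have h2 : S.s (S.v x) ≠ S.v x := by
    rw [h1]
    intro he
    exact r_ne h hx (S.v.injective he)
  have h3 := h.cs (S.v x) h2
  rwa [h1, h.cv _ (h.rE x hx), h.cv _ hx] at h3

theorem mem_Op {t f : ℕ} {x : X} :
    x ∈ S.Op t f ↔ x ∈ S.E ∧ (S.T x < t ∨ (S.T x = t ∧ S.ph x < f)) := by
  simp [Str.Op]

theorem inv_Op (h : S.Ok) (t f : ℕ) : S.Inv (S.Op t f) where
  sub := fun x hx => (mem_Op.1 hx).1
  inv := fun x hx => by
    have hx' := mem_Op.1 hx
    rw [mem_Op]
    exact ⟨h.rE x hx'.1, by rw [T_r h hx'.1, h.phr x hx'.1]; exact hx'.2⟩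

section dec
variable [DecidableEq X]

theorem mem_addPairs {Op D : Finset X} {x : X} (h : S.Ok) :
    x ∈ S.addPairs Op D ↔ x ∈ Op ∨ x ∈ D ∨ S.r x ∈ D := by
  unfold Str.addPairs
  simp only [Finset.mem_union, Finset.mem_image]
  constructor
  · rintro ((h1 | h1) | ⟨y, hy, rfl⟩)
    · exact Or.inl h1
    · exact Or.inr (Or.inl h1)
    · right; right; rw [r_r h]; exact hy
  · rintro (h1 | h1 | h1)
    · exact Or.inl (Or.inl h1)
    · exact Or.inl (Or.inr h1)
    · right; exact ⟨S.r x, h1, r_r h x⟩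

theorem inv_addPairs (h : S.Ok) {Op D : Finset X} (hO : S.Inv Op) (hD : ∀ x ∈ D, x ∈ S.E) :
    S.Inv (S.addPairs Op D) where
  sub := fun x hx => by
    rcases (mem_addPairs h).1 hx with h1 | h1 | h1
    · exact hO.sub x h1
    · exact hD x h1
    · have := h.rE _ (hD _ h1)
      rwa [r_r h] at this
  inv := fun x hx => by
    rcases (mem_addPairs h).1 hx with h1 | h1 | h1
    · exact (mem_addPairs h).2 (Or.inl (hO.inv x h1))
    · exact (mem_addPairs h).2 (Or.inr (Or.inr (by rw [r_r h]; exact h1)))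
    · exact (mem_addPairs h).2 (Or.inr (Or.inl h1))

theorem mem_K {t f : ℕ} {x : X} : x ∈ S.K t f ↔
    x ∈ S.E ∧ S.T x = t ∧ S.ph x = f ∧ S.c x = true ∧ S.b x ≠ S.v x := by
  simp [Str.K]

theorem r_mem_E (h : S.Ok) {x : X} : S.r x ∈ S.E ↔ x ∈ S.E :=
  ⟨fun hx => by have := h.rE _ hx; rwa [r_r h] at this, fun hx => h.rE x hx⟩

/-- Time and phase of the elements of `addPairs (Op t f) D`. -/
theorem mem_add_K (h : S.Ok) {t f : ℕ} {D : Finset X} (hD : D ⊆ S.K t f) {x : X}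
    (hx : x ∈ S.addPairs (S.Op t f) D) :
    x ∈ S.E ∧ (S.T x < t ∨ (S.T x = t ∧ S.ph x ≤ f)) := by
  rcases (mem_addPairs h).1 hx with h1 | h1 | h1
  · obtain ⟨a, b⟩ := mem_Op.1 h1
    exact ⟨a, by rcases b with b | b; exacts [Or.inl b, Or.inr ⟨b.1, b.2.le⟩]⟩
  · obtain ⟨a, b, c, -, -⟩ := mem_K.1 (hD h1)
    exact ⟨a, Or.inr ⟨b, c.le⟩⟩
  · obtain ⟨a, b, c, -, -⟩ := mem_K.1 (hD h1)
    have hE : x ∈ S.E := (r_mem_E h).1 a
    refine ⟨hE, Or.inr ⟨?_, ?_⟩⟩
    · rw [← T_r h hE]; exact b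
    · rw [← h.phr x hE]; exact c.le

theorem adm (h : S.Ok) {t f : ℕ} {D : Finset X} (hD : D ⊆ S.K t f) :
    S.Adm t (S.addPairs (S.Op t f) D) where
  toInv := inv_addPairs h (inv_Op h t f) (fun x hx => (mem_K.1 (hD hx)).1)
  lo := fun x hx ht => (mem_addPairs h).2 (Or.inl (mem_Op.2 ⟨hx, Or.inl ht⟩))
  hi := fun x hx => by
    rcases (mem_add_K h hD hx).2 with h1 | h1
    · exact h1.le
    · exact h1.1.le
  dc := fun u i h1 h2 h3 h4 h5 h6 => by
    have hE : ∀ k ≤ i, (S.v ^ k) u ∈ S.E ∧ (S.v ^ k) (S.s u) ∈ S.E := fun k hk =>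
      ⟨(mem_add_K h hD (h1 k hk)).1, h6 k hk⟩
    rcases h.phs u i h4 h3 hE with hp | hp
    · have hT : S.T ((S.v ^ i) (S.s u)) = t := by
        rw [← (h.code u i (fun k hk => hE k hk.le)).2 (hE i le_rfl).1 (hE i le_rfl).2]
        exact h5
      have hf : S.ph ((S.v ^ i) u) ≤ f := by
        rcases (mem_add_K h hD (h1 i le_rfl)).2 with h7 | h7
        · omega
        · exact h7.2
      exact (mem_addPairs h).2 (Or.inl (mem_Op.2 ⟨(hE i le_rfl).2, Or.inr ⟨hT, by omega⟩⟩))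
    · rw [hp]
      exact (inv_addPairs h (inv_Op h t f) (fun x hx => (mem_K.1 (hD hx)).1)).inv _ (h1 i le_rfl)

theorem triv_many (hT : SpecTriv) (h : S.Ok) {Op : Finset X} (hO : S.Inv Op) (R : Finset X)
    (hR : ∀ x ∈ R, x ∈ S.E ∧ S.b x = S.v x) : S.mu (S.addPairs Op R) = S.mu Op := by
  classical
  induction R using Finset.induction_on with
  | empty => simp [Str.addPairs]
  | insert a R ha ih =>
    have h1 := ih (fun x hx => hR x (Finset.mem_insert_of_mem hx))
    have h2 : S.addPairs Op (insert a R) = S.addPairs (S.addPairs Op R) {a} := by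
      ext x
      rw [mem_addPairs h, mem_addPairs h, mem_addPairs h]
      simp only [Finset.mem_insert, Finset.mem_singleton]
      tauto
    have h3 := hT X S (S.addPairs Op R) a h
      (inv_addPairs h hO (fun x hx => (hR x (Finset.mem_insert_of_mem hx)).1))
      (hR a (Finset.mem_insert_self _ _)).1 (hR a (Finset.mem_insert_self _ _)).2
    rw [h2, h3, h1]

theorem next (hT : SpecTriv) (h : S.Ok) (t f : ℕ) :
    S.mu (S.Op t (f + 1)) = S.mu (S.addPairs (S.Op t f) (S.K t f)) := by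
  classical
  set R : Finset X := S.E.filter (fun x => S.T x = t ∧ S.ph x = f ∧ S.c x = true ∧ S.b x = S.v x)
    with hRdef
  have hmR : ∀ x, x ∈ R ↔ x ∈ S.E ∧ S.T x = t ∧ S.ph x = f ∧ S.c x = true ∧ S.b x = S.v x := by
    intro x; simp [hRdef]
  have hI : S.Inv (S.addPairs (S.Op t f) (S.K t f)) :=
    inv_addPairs h (inv_Op h t f) (fun x hx => (mem_K.1 hx).1)
  have h1 : S.Op t (f + 1) = S.addPairs (S.addPairs (S.Op t f) (S.K t f)) R := by
    ext x
    rw [mem_addPairs h, mem_addPairs h, mem_Op, mem_Op, mem_K, mem_K, hmR, hmR]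
    constructor
    · rintro ⟨hE, hx⟩
      have hrE := h.rE x hE
      have hT' := T_r h hE
      have hp := h.phr x hE
      have hc := c_r h hE
      by_cases hlt : S.T x < t ∨ (S.T x = t ∧ S.ph x < f)
      · exact Or.inl (Or.inl ⟨hE, hlt⟩)
      have hxt : S.T x = t ∧ S.ph x = f := by omega
      by_cases hcx : S.c x = true
      · by_cases hb : S.b x = S.v x
        · exact Or.inr (Or.inl ⟨hE, hxt.1, hxt.2, hcx, hb⟩)
        · exact Or.inl (Or.inr (Or.inl ⟨hE, hxt.1, hxt.2, hcx, hb⟩))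
      · have hcr : S.c (S.r x) = true := by
          rcases hcr : S.c (S.r x) with _ | _
          · rw [hcr] at hc
            rcases hcx' : S.c x with _ | _
            · exact absurd hcx'.symm hc
            · exact absurd hcx' hcx
          · rfl
        by_cases hb : S.b (S.r x) = S.v (S.r x)
        · exact Or.inr (Or.inr ⟨hrE, by rw [hT']; exact hxt.1, by rw [hp]; exact hxt.2, hcr, hb⟩)
        · exact Or.inl (Or.inr (Or.inr
            ⟨hrE, by rw [hT']; exact hxt.1, by rw [hp]; exact hxt.2, hcr, hb⟩))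
    · rintro ((⟨hE, hx⟩ | ⟨hE, a, b, -, -⟩ | ⟨hrE, a, b, -, -⟩) |
        (⟨hE, a, b, -, -⟩ | ⟨hrE, a, b, -, -⟩))
      · exact ⟨hE, by omega⟩
      · exact ⟨hE, by omega⟩
      · have hE := (r_mem_E h).1 hrE
        rw [T_r h hE] at a
        rw [h.phr x hE] at b
        exact ⟨hE, by omega⟩
      · exact ⟨hE, by omega⟩
      · have hE := (r_mem_E h).1 hrE
        rw [T_r h hE] at a
        rw [h.phr x hE] at b
        exact ⟨hE, by omega⟩
  rw [h1, triv_many hT h hI R (fun x hx => ⟨((hmR x).1 hx).1, ((hmR x).1 hx).2.2.2.2⟩)]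

end dec

end Stage

/-- STAGE. -/
theorem specStage (hT : SpecTriv) : SpecStage := by
  intro X _ S h
  refine ⟨fun t f => Stage.inv_Op h t f, fun t f D hD => Stage.adm h hD,
    fun t f => Stage.next hT h t f, ?_, ?_⟩
  · intro t f hf
    ext x
    rw [Stage.mem_Op, Stage.mem_Op]
    constructor
    · rintro ⟨hE, hx⟩
      exact ⟨hE, by omega⟩
    · rintro ⟨hE, hx⟩
      have := hf x hE
      exact ⟨hE, by omega⟩
  · intro t f x hx
    obtain ⟨hE, hT', hp, hc, hb⟩ := Stage.mem_K.1 hx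
    refine ⟨hE, ?_, hc, hT', hb⟩
    rw [Stage.mem_Op]
    rintro ⟨-, h1⟩
    omega

end Pool.Agent.Lib.MP29a61eN
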