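import Mathlib
import Pool.Agent.Lib.MP_29a61e_co.N2.Stage

/-!
# MP_29a61e_co, module COUNT (SpecCount)
-/

namespace Pool.Agent.Lib.MP29a61eN

namespace Count

variable {X : Type} {S : Str X}

theorem card_le [Fintype X] [DecidableEq X] (h : S.Ok) (τ Q : ℕ) :
    2 * ∑ t ∈ Finset.range τ, ∑ f ∈ Finset.range Q, (S.K t f).card ≤ S.E.card := by
  classical
  set A : Finset X := S.E.filter (fun x => S.c x = true) with hA
  set B : Finset X := S.E.filter (fun x => S.c x ≠ true) with hB
  have hAB : A.card + B.card = S.E.card := by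
    rw [hA, hB]
    exact Finset.card_filter_add_card_filter_not _
  have h1 : A.card ≤ B.card := by
    apply Finset.card_le_card_of_injOn S.r
    · intro x hx
      have hx' := Finset.mem_filter.1 hx
      have hc := Stage.c_r h hx'.1
      rw [hx'.2] at hc
      exact Finset.mem_coe.2 (Finset.mem_filter.2 ⟨h.rE x hx'.1, hc⟩)
    · intro x _ y _ hxy
      have := congrArg S.r hxy
      rwa [Stage.r_r h, Stage.r_r h] at this
  have h2 : ∑ t ∈ Finset.range τ, ∑ f ∈ Finset.range Q, (S.K t f).card ≤ A.card := by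
    rw [← Finset.sum_product', ← Finset.card_biUnion]
    · apply Finset.card_le_card
      intro x hx
      obtain ⟨p, -, hp⟩ := Finset.mem_biUnion.1 hx
      obtain ⟨hE, -, -, hc, -⟩ := Stage.mem_K.1 hp
      exact Finset.mem_filter.2 ⟨hE, hc⟩
    · intro p _ q _ hpq
      rw [Function.onFun, Finset.disjoint_left]
      intro x hx hx'
      obtain ⟨-, a, b, -, -⟩ := Stage.mem_K.1 hx
      obtain ⟨-, a', b', -, -⟩ := Stage.mem_K.1 hx'
      exact hpq (Prod.ext (a.symm.trans a') (b.symm.trans b'))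
  omega

end Count

/-- COUNT. -/
theorem specCount : SpecCount := by
  intro X _ _ S h
  refine ⟨fun τ Q => Count.card_le h τ Q, ?_, ?_⟩
  · intro x hx
    have h0 : ∀ y, y ∉ S.Op 0 0 := by
      intro y hy
      have := (Stage.mem_Op.1 hy).2
      omega
    simp only [Str.mu]
    rw [if_neg (by simpa using hx), if_neg (h0 x), if_neg (fun hc => h0 _ hc.1)]
  · intro τ hτ x hx
    have h0 : ∀ y ∈ S.E, y ∈ S.Op τ 0 := fun y hy => Stage.mem_Op.2 ⟨hy, Or.inl (hτ y hy)⟩
    have hLo : S.Lo (S.Op τ 0) (S.v x) := by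
      by_cases hb : S.b.symm (S.v x) ∈ S.E
      · exact Or.inr (h0 _ hb)
      · exact Or.inl hb
    simp only [Str.mu]
    rw [if_neg (by simpa using hx), if_pos (h0 x hx), if_pos (Or.inl hLo)]

end Pool.Agent.Lib.MP29a61eN
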