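import Pool.Agent.Lib.MP_29a61e_co.N2.Local2
import Pool.Agent.Lib.MP_29a61e_co.N2.TwinB
import Mathlib

section
/-!
# MP_29a61e_co, N2/World: the world links

The world ends are even in number; all but boundedly many of them are matched by far special edges, the
remaining ones arbitrarily (their letters go into `Def`).
-/
namespace Pool.Agent.Lib.MP29a61eN

/-- A finite set with an involution without fixed points has an even number of elements. -/
theorem even_card_of_invol {T : Type*} (B : Finset T) (g : T → T)
    (hB : ∀ a ∈ B, g a ∈ B) (hg : ∀ a ∈ B, g (g a) = a) (hne : ∀ a ∈ B, g a ≠ a) :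
    Even B.card := by
  classical
  have h : ∑ _a ∈ B, (1 : ZMod 2) = 0 := by
    refine Finset.sum_involution (fun a _ => g a) ?_ ?_ ?_ ?_
    · intro a _
      decide
    · intro a ha _
      exact hne a ha
    · intro a ha
      exact hB a ha
    · intro a ha
      exact hg a ha
  rw [Finset.sum_const, nsmul_eq_mul, mul_one] at h
  exact (ZMod.natCast_eq_zero_iff_even).1 h

/-- A finite set with an even number of elements has a perfect matching. -/
theorem exists_matching_even {T : Type*} [DecidableEq T] :
    ∀ (n : ℕ) (B : Finset T), B.card = n → Even n →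
      ∃ W : T → T, (∀ e ∈ B, W e ∈ B) ∧ (∀ e ∈ B, W (W e) = e) ∧ ∀ e ∈ B, W e ≠ e := by
  intro n
  induction n using Nat.strong_induction_on with
  | _ n ih =>
  intro B hc he
  by_cases h0 : n = 0
  · subst h0
    rw [Finset.card_eq_zero] at hc
    subst hc
    exact ⟨id, by simp, by simp, by simp⟩
  · have h1 : 1 < B.card := by
      obtain ⟨k, hk⟩ := he
      omega
    obtain ⟨a, ha, b, hb, hab⟩ := Finset.one_lt_card.1 h1
    have hb' : b ∈ B.erase a := Finset.mem_erase.2 ⟨hab.symm, hb⟩
    have hcard : ((B.erase a).erase b).card = n - 2 := by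
      rw [Finset.card_erase_of_mem hb', Finset.card_erase_of_mem ha]
      omega
    obtain ⟨W, w1, w2, w3⟩ := ih (n - 2) (by omega) ((B.erase a).erase b) hcard (by
      obtain ⟨k, hk⟩ := he
      exact ⟨k - 1, by omega⟩)
    refine ⟨fun e => if e = a then b else if e = b then a else W e, ?_, ?_, ?_⟩
    · intro e he'
      by_cases ea : e = a
      · simp [ea, hb]
      · by_cases eb : e = b
        · simp [eb, ha, hab.symm]
        · simp only [ea, eb, if_false]
          have := w1 e (Finset.mem_erase.2 ⟨eb, Finset.mem_erase.2 ⟨ea, he'⟩⟩)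
          exact Finset.mem_of_mem_erase (Finset.mem_of_mem_erase this)
    · intro e he'
      by_cases ea : e = a
      · subst ea
        simp [hab.symm]
      · by_cases eb : e = b
        · subst eb
          simp [hab.symm]
        · have hm : e ∈ (B.erase a).erase b := Finset.mem_erase.2 ⟨eb, Finset.mem_erase.2 ⟨ea, he'⟩⟩
          have h3 := w1 e hm
          have n1 : W e ≠ b := (Finset.mem_erase.1 h3).1
          have n2 : W e ≠ a := (Finset.mem_erase.1 (Finset.mem_erase.1 h3).2).1
          simp only [ea, eb, if_false, n1, n2]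
          exact w2 e hm
    · intro e he'
      by_cases ea : e = a
      · subst ea
        simp [hab.symm]
      · by_cases eb : e = b
        · subst eb
          simp [hab.symm, hab]
        · have hm : e ∈ (B.erase a).erase b := Finset.mem_erase.2 ⟨eb, Finset.mem_erase.2 ⟨ea, he'⟩⟩
          simp only [ea, eb, if_false]
          exact w3 e hm

section
variable {T : Type*} {M : List (T × T)}

theorem pair_fst_inj (h : (M.map Prod.fst ++ M.map Prod.snd).Nodup) {i j : ℕ} {p p' : T × T}
    (hi : M[i]? = some p) (hj : M[j]? = some p') (e : p.1 = p'.1) : i = j := by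
  have h1 : (M.map Prod.fst).Nodup := (List.nodup_append.1 h).1
  have a1 : (M.map Prod.fst)[i]? = some p.1 := by rw [List.getElem?_map, hi]; rfl
  have a2 : (M.map Prod.fst)[j]? = some p.1 := by rw [List.getElem?_map, hj, e]; rfl
  have hlt : i < (M.map Prod.fst).length := (List.getElem?_eq_some_iff.1 a1).1
  exact (List.getElem?_inj hlt h1).1 (a1.trans a2.symm)

theorem pair_snd_inj (h : (M.map Prod.fst ++ M.map Prod.snd).Nodup) {i j : ℕ} {p p' : T × T}
    (hi : M[i]? = some p) (hj : M[j]? = some p') (e : p.2 = p'.2) : i = j := by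
  have h1 : (M.map Prod.snd).Nodup := (List.nodup_append.1 h).2.1
  have a1 : (M.map Prod.snd)[i]? = some p.2 := by rw [List.getElem?_map, hi]; rfl
  have a2 : (M.map Prod.snd)[j]? = some p.2 := by rw [List.getElem?_map, hj, e]; rfl
  have hlt : i < (M.map Prod.snd).length := (List.getElem?_eq_some_iff.1 a1).1
  exact (List.getElem?_inj hlt h1).1 (a1.trans a2.symm)

theorem pair_ne (h : (M.map Prod.fst ++ M.map Prod.snd).Nodup) {i j : ℕ} {p p' : T × T}
    (hi : M[i]? = some p) (hj : M[j]? = some p') : p.1 ≠ p'.2 := by
  have h3 := (List.nodup_append.1 h).2.2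
  exact h3 _ (List.mem_map.2 ⟨p, List.mem_of_getElem? hi, rfl⟩) _
    (List.mem_map.2 ⟨p', List.mem_of_getElem? hj, rfl⟩)

/-- The matching given by a list of pairs. -/
theorem list_matching (h : (M.map Prod.fst ++ M.map Prod.snd).Nodup) :
    ∃ (W : T → T) (ix : T → ℕ), ∀ e ∈ M.map Prod.fst ++ M.map Prod.snd,
      (M[ix e]? = some (e, W e) ∨ M[ix e]? = some (W e, e)) ∧
      W e ∈ M.map Prod.fst ++ M.map Prod.snd ∧ W (W e) = e ∧ W e ≠ e ∧
      ∀ e' ∈ M.map Prod.fst ++ M.map Prod.snd, ix e' = ix e → e' = e ∨ e' = W e := by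
  classical
  have hex : ∀ e ∈ M.map Prod.fst ++ M.map Prod.snd,
      ∃ (i : ℕ) (f : T), M[i]? = some (e, f) ∨ M[i]? = some (f, e) := by
    intro e he
    rcases List.mem_append.1 he with he | he
    · obtain ⟨p, hp, rfl⟩ := List.mem_map.1 he
      obtain ⟨i, hi⟩ := List.mem_iff_getElem?.1 hp
      exact ⟨i, p.2, Or.inl hi⟩
    · obtain ⟨p, hp, rfl⟩ := List.mem_map.1 he
      obtain ⟨i, hi⟩ := List.mem_iff_getElem?.1 hp
      exact ⟨i, p.1, Or.inr hi⟩
  have hmem : ∀ {i : ℕ} {a b : T}, M[i]? = some (a, b) →
      a ∈ M.map Prod.fst ++ M.map Prod.snd ∧ b ∈ M.map Prod.fst ++ M.map Prod.snd := by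
    intro i a b hi
    have := List.mem_of_getElem? hi
    exact ⟨List.mem_append_left _ (List.mem_map.2 ⟨_, this, rfl⟩),
      List.mem_append_right _ (List.mem_map.2 ⟨_, this, rfl⟩)⟩
  choose! ix W hW using hex
  have huniq : ∀ {e : T}, e ∈ M.map Prod.fst ++ M.map Prod.snd → ∀ {i : ℕ} {f : T},
      (M[i]? = some (e, f) ∨ M[i]? = some (f, e)) → i = ix e ∧ f = W e := by
    intro e he i f hf
    rcases hf with hf | hf <;> rcases hW e he with h2 | h2
    · have hi := pair_fst_inj h hf h2 rfl
      subst hi
      rw [hf] at h2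
      simp only [Option.some.injEq, Prod.mk.injEq, true_and] at h2
      exact ⟨rfl, h2⟩
    · exact absurd rfl (pair_ne h hf h2)
    · exact absurd rfl (pair_ne h h2 hf)
    · have hi := pair_snd_inj h hf h2 rfl
      subst hi
      rw [hf] at h2
      simp only [Option.some.injEq, Prod.mk.injEq, and_true] at h2
      exact ⟨rfl, h2⟩
  refine ⟨W, ix, fun e he => ?_⟩
  have h1 := hW e he
  have hWm : W e ∈ M.map Prod.fst ++ M.map Prod.snd := by
    rcases h1 with h1 | h1
    · exact (hmem h1).2
    · exact (hmem h1).1
  have h2 := huniq hWm (i := ix e) (f := e) h1.symm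
  refine ⟨h1, hWm, h2.2.symm, ?_, ?_⟩
  · intro hEq
    rcases h1 with h1 | h1
    · rw [hEq] at h1
      exact absurd rfl (pair_ne h h1 h1)
    · rw [hEq] at h1
      exact absurd rfl (pair_ne h h1 h1)
  · intro e' he' hix
    have h3 := hW e' he'
    rw [hix] at h3
    rcases h1 with h1 | h1 <;> rcases h3 with h3 | h3 <;> rw [h1] at h3 <;>
      simp only [Option.some.injEq, Prod.mk.injEq] at h3
    · exact Or.inl h3.1.symm
    · exact Or.inr h3.2.symm
    · exact Or.inr h3.1.symm
    · exact Or.inl h3.2.symm

end

theorem StepAt_append {V : Type*} {adj : V → V → Prop} {L : List (V × V)} (L' : List (V × V))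
    {o : Option ℕ} {a b : V} (h : FAR.StepAt adj L o a b) : FAR.StepAt adj (L ++ L') o a b := by
  cases o with
  | none => exact h
  | some i =>
    rcases h with h | h
    · left
      have hlt := (List.getElem?_eq_some_iff.1 h).1
      rw [List.getElem?_append_left hlt]
      exact h
    · right
      have hlt := (List.getElem?_eq_some_iff.1 h).1
      rw [List.getElem?_append_left hlt]
      exact h

open Classical in
/-- The world links. -/
theorem world_part {X : Type} [Fintype X] [DecidableEq X] (oo : X) (S : Str X) (comp : X → X)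
    (adj : X → X → Prop) (L0 : List (X × X)) (eT : X → ℕ) (D d q0 m : ℕ) (nb : X → Finset X)
    (hs : ∀ a b, adj a b → adj b a) (hnb : ∀ a b, adj a b → b ∈ nb a)
    (hd : ∀ a, (nb a).card ≤ d) (hF : FAR.Far adj L0 D) (hq0 : ∀ a, FAR.deg L0 a ≤ q0)
    (hm : ∀ a, (Finset.univ.filter (fun y => comp y = a)).card ≤ m)
    (ss : ∀ y, S.s (S.s y) = y) (paired : ∀ x ∈ S.E, S.s (S.b x) ≠ S.b x)
    (rE : ∀ x ∈ S.E, S.r x ∈ S.E) (heT : ∀ y, S.s y ≠ y → eT y < L0.length) :
    ∃ (W : End X → End X) (M : List (X × X)) (eW : End X → ℕ) (Def : Finset X),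
      (∀ e, S.WEnd e → S.WEnd (W e)) ∧ (∀ e, S.WEnd e → W (W e) = e) ∧
      (∀ e, S.WEnd e → W e ≠ e) ∧ FAR.Far adj (L0 ++ M) D ∧ oo ∈ Def ∧
      Def.card ≤ 1 + 2 * m * (1 + (d + (q0 + 2 * m))) ^ D ∧
      (∀ e, S.WEnd e → e.1 ∉ Def →
        FAR.StepAt adj (L0 ++ M) (some (eW e)) (pe S comp e) (pe S comp (W e))) ∧
      (∀ e, S.WEnd e → e.1 ∉ Def → ∀ y, S.s y ≠ y → eW e ≠ eT y) ∧
      (∀ e e', S.WEnd e → S.WEnd e' → e.1 ∉ Def → e'.1 ∉ Def → eW e = eW e' →
        e' = e ∨ e' = W e) := by
  set A : Finset (End X) := Finset.univ.filter (fun e => S.WEnd e) with hA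
  have memA : ∀ e, e ∈ A ↔ S.WEnd e := by intro e; simp [hA]
  -- the number of world ends is even
  have hAeven : Even A.card := by
    have h1 : Even (Aᶜ).card := by
      refine even_card_of_invol (Aᶜ) (fun e => if e.2 = true then (S.r e.1, true)
        else (S.s e.1, false)) ?_ ?_ ?_
      · rintro ⟨x, b⟩ hx
        rw [Finset.mem_compl, memA] at hx ⊢
        unfold Str.WEnd at hx ⊢
        cases b with
        | true =>
          simp only [true_and, Bool.true_eq_false, false_and, or_false, not_not] at hx
          simp only [if_true]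
          simp [rE x hx]
        | false =>
          simp only [Bool.false_eq_true, false_and, true_and, false_or] at hx
          simp only [Bool.false_eq_true, if_false, false_and, true_and, false_or]
          rw [ss]
          exact fun h => hx h.symm
      · rintro ⟨x, b⟩ hx
        cases b with
        | true =>
          simp only [if_true]
          unfold Str.r
          simp [ss]
        | false => simp [ss]
      · rintro ⟨x, b⟩ hx
        rw [Finset.mem_compl, memA] at hx
        unfold Str.WEnd at hx
        cases b with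
        | true =>
          simp only [true_and, Bool.true_eq_false, false_and, or_false, not_not] at hx
          simp only [if_true, ne_eq, Prod.mk.injEq, and_true]
          intro h
          have := congrArg S.b h
          unfold Str.r at this
          rw [Equiv.apply_symm_apply] at this
          exact paired x hx this
        | false =>
          simp only [Bool.false_eq_true, false_and, true_and, false_or] at hx
          simp only [Bool.false_eq_true, if_false, ne_eq, Prod.mk.injEq, and_true]
          exact hx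
    have h2 : A.card + (Aᶜ).card = 2 * Fintype.card X := by
      rw [Finset.card_add_card_compl, Fintype.card_prod, Fintype.card_bool, mul_comm]
    obtain ⟨k, hk⟩ := h1
    exact ⟨Fintype.card X - k, by omega⟩
  -- ports per vertex
  have hq : ∀ a, (A.filter (fun t => pe S comp t = a)).card ≤ 2 * m := by
    intro a
    have hsub : A.filter (fun t => pe S comp t = a) ⊆
        ((Finset.univ.filter (fun y => comp y = a)).image (fun y => (S.b.symm y, true))) ∪
        ((Finset.univ.filter (fun y => comp y = a)).image (fun y => (y, false))) := by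
      rintro ⟨x, b⟩ hx
      rw [Finset.mem_filter] at hx
      have h2 := hx.2
      unfold pe at h2
      rw [Finset.mem_union, Finset.mem_image, Finset.mem_image]
      cases b with
      | true =>
        left
        simp only [if_true] at h2
        exact ⟨S.b x, by simp [h2], by simp⟩
      | false =>
        right
        simp only [Bool.false_eq_true, if_false] at h2
        exact ⟨x, by simp [h2], rfl⟩
    refine (Finset.card_le_card hsub).trans ((Finset.card_union_le _ _).trans ?_)
    have c1 := (Finset.card_image_le (s := Finset.univ.filter (fun y => comp y = a))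
      (f := fun y => ((S.b.symm y, true) : End X))).trans (hm a)
    have c2 := (Finset.card_image_le (s := Finset.univ.filter (fun y => comp y = a))
      (f := fun y => ((y, false) : End X))).trans (hm a)
    omega
  obtain ⟨M, m1, m2, m3, _, m5⟩ := FAR.greedy_one hs nb hnb d hd L0 D q0 (2 * m) hF hq0 A
    (pe S comp) hq
  obtain ⟨W1, ix, hW1⟩ := list_matching m1
  set B : Finset (End X) := A.filter (fun t => t ∉ M.map Prod.fst ++ M.map Prod.snd) with hB
  -- the rest is even
  have hBeven : Even B.card := by
    have hC : Even (A.filter (fun t => t ∈ M.map Prod.fst ++ M.map Prod.snd)).card := by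
      refine even_card_of_invol _ W1 ?_ ?_ ?_
      · intro e he
        rw [Finset.mem_filter] at he ⊢
        have h := hW1 e he.2
        refine ⟨?_, h.2.1⟩
        rcases List.mem_append.1 h.2.1 with h' | h'
        · obtain ⟨p, hp, hp'⟩ := List.mem_map.1 h'
          rw [← hp']
          exact (m2 p hp).1
        · obtain ⟨p, hp, hp'⟩ := List.mem_map.1 h'
          rw [← hp']
          exact (m2 p hp).2
      · intro e he
        exact (hW1 e (Finset.mem_filter.1 he).2).2.2.1
      · intro e he
        exact (hW1 e (Finset.mem_filter.1 he).2).2.2.2.1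
    have hsum := Finset.card_filter_add_card_filter_not
      (s := A) (fun t => t ∈ M.map Prod.fst ++ M.map Prod.snd)
    rw [← hB] at hsum
    obtain ⟨k, hk⟩ := hC
    obtain ⟨l, hl⟩ := hAeven
    exact ⟨l - k, by omega⟩
  obtain ⟨W2, w1, w2, w3⟩ := exists_matching_even B.card B rfl hBeven
  have memL : ∀ e, e ∈ M.map Prod.fst ++ M.map Prod.snd → S.WEnd e := by
    intro e he
    rw [← memA]
    rcases List.mem_append.1 he with h' | h'
    · obtain ⟨p, hp, hp'⟩ := List.mem_map.1 h'
      rw [← hp']
      exact (m2 p hp).1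
    · obtain ⟨p, hp, hp'⟩ := List.mem_map.1 h'
      rw [← hp']
      exact (m2 p hp).2
  have m5' : B.card ≤ 2 * m * (1 + (d + (q0 + 2 * m))) ^ D := by
    refine le_trans (Finset.card_le_card ?_) m5
    intro t ht
    rw [hB, Finset.mem_filter] at ht
    simp only [Finset.mem_filter]
    exact ht
  refine ⟨fun e => if e ∈ M.map Prod.fst ++ M.map Prod.snd then W1 e else W2 e,
    M.map (fun p => (pe S comp p.1, pe S comp p.2)), fun e => L0.length + ix e,
    insert oo (B.image Prod.fst), ?_, ?_, ?_, m3, Finset.mem_insert_self _ _, ?_, ?_, ?_, ?_⟩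
  · intro e he
    by_cases h : e ∈ M.map Prod.fst ++ M.map Prod.snd
    · simp only [h, if_true]
      exact memL _ (hW1 e h).2.1
    · simp only [h, if_false]
      have hb : e ∈ B := Finset.mem_filter.2 ⟨(memA e).2 he, h⟩
      exact (memA _).1 (Finset.mem_filter.1 (w1 e hb)).1
  · intro e he
    by_cases h : e ∈ M.map Prod.fst ++ M.map Prod.snd
    · simp only [h, if_true, (hW1 e h).2.1]
      exact (hW1 e h).2.2.1
    · have hb : e ∈ B := Finset.mem_filter.2 ⟨(memA e).2 he, h⟩
      have h' : W2 e ∉ M.map Prod.fst ++ M.map Prod.snd := (Finset.mem_filter.1 (w1 e hb)).2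
      simp only [h, if_false, h']
      exact w2 e hb
  · intro e he
    by_cases h : e ∈ M.map Prod.fst ++ M.map Prod.snd
    · simp only [h, if_true]
      exact (hW1 e h).2.2.2.1
    · have hb : e ∈ B := Finset.mem_filter.2 ⟨(memA e).2 he, h⟩
      simp only [h, if_false]
      exact w3 e hb
  · refine (Finset.card_insert_le _ _).trans ?_
    have h1 : (B.image Prod.fst).card ≤ 2 * m * (1 + (d + (q0 + 2 * m))) ^ D :=
      Finset.card_image_le.trans m5'
    omega
  · intro e he hdef
    have h : e ∈ M.map Prod.fst ++ M.map Prod.snd := by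
      by_contra h
      have hb : e ∈ B := Finset.mem_filter.2 ⟨(memA e).2 he, h⟩
      exact hdef (Finset.mem_insert_of_mem (Finset.mem_image.2 ⟨e, hb, rfl⟩))
    simp only [h, if_true]
    have h1 := (hW1 e h).1
    show (L0 ++ M.map (fun p => (pe S comp p.1, pe S comp p.2)))[L0.length + ix e]? =
        some (pe S comp e, pe S comp (W1 e)) ∨
      (L0 ++ M.map (fun p => (pe S comp p.1, pe S comp p.2)))[L0.length + ix e]? =
        some (pe S comp (W1 e), pe S comp e)
    rw [List.getElem?_append_right (Nat.le_add_right _ _), Nat.add_sub_cancel_left,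
      List.getElem?_map]
    rcases h1 with h1 | h1
    · left
      rw [h1]
      rfl
    · right
      rw [h1]
      rfl
  · intro e _ _ y hy h
    have := heT y hy
    simp only at h
    omega
  · intro e e' he he' hdef hdef' hEq
    have h : e ∈ M.map Prod.fst ++ M.map Prod.snd := by
      by_contra h
      have hb : e ∈ B := Finset.mem_filter.2 ⟨(memA e).2 he, h⟩
      exact hdef (Finset.mem_insert_of_mem (Finset.mem_image.2 ⟨e, hb, rfl⟩))
    have h' : e' ∈ M.map Prod.fst ++ M.map Prod.snd := by
      by_contra h'
      have hb : e' ∈ B := Finset.mem_filter.2 ⟨(memA e').2 he', h'⟩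
      exact hdef' (Finset.mem_insert_of_mem (Finset.mem_image.2 ⟨e', hb, rfl⟩))
    simp only [h, if_true]
    have hix : ix e' = ix e := by
      simp only at hEq
      omega
    exact (hW1 e h).2.2.2.2 e' h' hix

end Pool.Agent.Lib.MP29a61eN
end

section
/-!
# MP_29a61e_co, N2/Exists: the structure exists

From BUILD, TWIN and the world links: `E' = {x ∈ E | b x ∈ Pd}`, `s y = y` off `Pd`, `T = tau + 1`,
`TL y = tau (b⁻¹ y) + 1` if `b⁻¹ y ∈ E`, else `0`.
-/
namespace Pool.Agent.Lib.MP29a61eN

open Classical in
/-- The structure without its world links. -/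
noncomputable def exStr {X : Type} (b v : Equiv.Perm X) (E Pd : Finset X) (tau : X → ℕ)
    (s : X → X) (c : X → Bool) (ph : X → ℕ) : Str X where
  b := b
  v := v
  E := E.filter (fun x => b x ∈ Pd)
  s := fun y => if y ∈ Pd then s y else y
  c := c
  T := fun x => tau x + 1
  TL := fun y => if b.symm y ∈ E then tau (b.symm y) + 1 else 0
  ph := ph
  W := id

section
variable {X : Type} {b v : Equiv.Perm X} {E Pd : Finset X} {tau : X → ℕ}
  {s : X → X} {c : X → Bool} {ph : X → ℕ}

theorem exStr_b : (exStr b v E Pd tau s c ph).b = b := rfl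
theorem exStr_v : (exStr b v E Pd tau s c ph).v = v := rfl
theorem exStr_c : (exStr b v E Pd tau s c ph).c = c := rfl
theorem exStr_ph : (exStr b v E Pd tau s c ph).ph = ph := rfl
theorem exStr_T (x : X) : (exStr b v E Pd tau s c ph).T x = tau x + 1 := rfl

theorem exStr_mem {x : X} : x ∈ (exStr b v E Pd tau s c ph).E ↔ x ∈ E ∧ b x ∈ Pd := by
  unfold exStr
  simp

theorem exStr_s_mem {y : X} (h : y ∈ Pd) : (exStr b v E Pd tau s c ph).s y = s y := by
  unfold exStr
  simp [h]

theorem exStr_s_not {y : X} (h : y ∉ Pd) : (exStr b v E Pd tau s c ph).s y = y := by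
  unfold exStr
  simp [h]

theorem exStr_mem_of_ne {y : X} (h : (exStr b v E Pd tau s c ph).s y ≠ y) : y ∈ Pd := by
  by_contra h'
  exact h (exStr_s_not h')

theorem exStr_TL_mem {y : X} (h : b.symm y ∈ E) :
    (exStr b v E Pd tau s c ph).TL y = tau (b.symm y) + 1 := by
  unfold exStr
  simp [h]

theorem exStr_TL_not {y : X} (h : b.symm y ∉ E) :
    (exStr b v E Pd tau s c ph).TL y = 0 := by
  unfold exStr
  simp [h]

theorem exStr_r {x : X} (h : b x ∈ Pd) :
    (exStr b v E Pd tau s c ph).r x = b.symm (s (b x)) := by
  unfold Str.r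
  rw [exStr_b, exStr_s_mem h]

end

/-- The neighbours of a vertex. -/
def exNb {X : Type} [Fintype X] [DecidableEq X] (b : Equiv.Perm X) (comp : X → X) (a : X) :
    Finset X :=
  (Finset.univ.filter (fun y => comp y = a)).image (fun y => comp (b y)) ∪
    (Finset.univ.filter (fun y => comp y = a)).image (fun y => comp (b.symm y))

theorem exNb_card {X : Type} [Fintype X] [DecidableEq X] (b : Equiv.Perm X) (comp : X → X) (m : ℕ)
    (hm : ∀ a, (Finset.univ.filter (fun y => comp y = a)).card ≤ m) (a : X) :
    (exNb b comp a).card ≤ 2 * m := by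
  unfold exNb
  refine (Finset.card_union_le _ _).trans ?_
  have h1 := (Finset.card_image_le (s := Finset.univ.filter (fun y => comp y = a))
    (f := fun y => comp (b y))).trans (hm a)
  have h2 := (Finset.card_image_le (s := Finset.univ.filter (fun y => comp y = a))
    (f := fun y => comp (b.symm y))).trans (hm a)
  omega

theorem exNb_adj {X : Type} [Fintype X] [DecidableEq X] (b : Equiv.Perm X) (comp : X → X)
    (a a' : X) (h : ∃ x, (comp x = a ∧ comp (b x) = a') ∨ (comp x = a' ∧ comp (b x) = a)) :
    a' ∈ exNb b comp a := by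
  unfold exNb
  obtain ⟨x, h | h⟩ := h
  · refine Finset.mem_union_left _ (Finset.mem_image.2 ⟨x, ?_, h.2⟩)
    simp [h.1]
  · refine Finset.mem_union_right _ (Finset.mem_image.2 ⟨b x, ?_, ?_⟩)
    · simp [h.2]
    · simp [h.1]

theorem deg_le_two {X : Type} [DecidableEq X] (L : List (X × X))
    (h : ∀ a, (L.filter (fun p => decide (p.1 = a ∨ p.2 = a))).length ≤ 1) (a : X) :
    FAR.deg L a ≤ 2 := by
  unfold FAR.deg
  have h1 : L.countP (fun p => decide (p.1 = a)) ≤ 1 := by
    refine le_trans ?_ (h a)
    rw [← List.countP_eq_length_filter]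
    apply List.countP_mono_left
    intro p _ hp
    simp only [decide_eq_true_eq] at hp ⊢
    exact Or.inl hp
  have h2 : L.countP (fun p => decide (p.2 = a)) ≤ 1 := by
    refine le_trans ?_ (h a)
    rw [← List.countP_eq_length_filter]
    apply List.countP_mono_left
    intro p _ hp
    simp only [decide_eq_true_eq] at hp ⊢
    exact Or.inr hp
  omega

theorem specExists (hB : SpecBuild) (hT : SpecTwin) : SpecExists := by
  intro ε hε
  obtain ⟨m, τ0, n1, hB⟩ := hB (ε / 2) (by positivity)
  obtain ⟨Q, _, hT⟩ := hT m τ0 (ε / 2) (by positivity)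
  refine ⟨τ0 + 1, Q, fun D => ?_⟩
  obtain ⟨n2, hT⟩ := hT D
  refine ⟨1 + 2 * m * (1 + (2 * m + (2 + 2 * m))) ^ D, max n1 n2, ?_⟩
  intro X _ _ oo b v hn hb hv
  obtain ⟨E, tau, b1, b2, b3, b4, b5, b6, b7⟩ := hB X b v (le_trans (le_max_left _ _) hn) hb hv
  obtain ⟨Pd, s, c, ph, comp, L, e, t1, t2, t3, t4, t5, t6, t7, t8, t9, t10, t11, t12, t13, t14,
    t15⟩ := hT X b v E tau (le_trans (le_max_right _ _) hn) b2 b3 b4
  set S := exStr b v E Pd tau s c ph with hS
  have hSb : S.b = b := rfl
  have hSv : S.v = v := rfl
  have hSc : S.c = c := rfl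
  have hSph : S.ph = ph := rfl
  have hST : ∀ x, S.T x = tau x + 1 := fun _ => rfl
  have hmem : ∀ {x}, x ∈ S.E ↔ x ∈ E ∧ b x ∈ Pd := fun {x} => exStr_mem
  have hsm : ∀ {y}, y ∈ Pd → S.s y = s y := fun {y} h => exStr_s_mem h
  have hsn : ∀ {y}, y ∉ Pd → S.s y = y := fun {y} h => exStr_s_not h
  have hne : ∀ {y}, S.s y ≠ y → y ∈ Pd := fun {y} h => exStr_mem_of_ne h
  have hTLm : ∀ {y}, b.symm y ∈ E → S.TL y = tau (b.symm y) + 1 := fun {y} h => exStr_TL_mem h
  have hTLn : ∀ {y}, b.symm y ∉ E → S.TL y = 0 := fun {y} h => exStr_TL_not h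
  have hr : ∀ {x}, b x ∈ Pd → S.r x = b.symm (s (b x)) := fun {x} h => exStr_r h
  have ss : ∀ y, S.s (S.s y) = y := by
    intro y
    by_cases hy : y ∈ Pd
    · rw [hsm hy, hsm (t5 y hy).1, (t5 y hy).2.1]
    · rw [hsn hy, hsn hy]
  have paired : ∀ x ∈ S.E, S.s (S.b x) ≠ S.b x := by
    intro x hx
    have h1 := (hmem.1 hx).2
    rw [hSb, hsm h1]
    intro h2
    exact t9 _ h1 (by rw [h2])
  have rE : ∀ x ∈ S.E, S.r x ∈ S.E := by
    intro x hx
    obtain ⟨h0, h1⟩ := hmem.1 hx
    have h2 := t5 _ h1
    rw [hr h1, hmem]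
    refine ⟨h2.2.2.1.1 (by simpa using h0), ?_⟩
    rw [Equiv.apply_symm_apply]
    exact h2.1
  have heT : ∀ y, S.s y ≠ y → e y < L.length := by
    intro y hy
    rcases t14 y (hne hy) with h | h
    · exact (List.getElem?_eq_some_iff.1 h).1
    · exact (List.getElem?_eq_some_iff.1 h).1
  have hsymm : ∀ a a', (∃ x, (comp x = a ∧ comp (b x) = a') ∨ (comp x = a' ∧ comp (b x) = a)) →
      (∃ x, (comp x = a' ∧ comp (b x) = a) ∨ (comp x = a ∧ comp (b x) = a')) := by
    rintro a a' ⟨x, h | h⟩
    · exact ⟨x, Or.inr h⟩
    · exact ⟨x, Or.inl h⟩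
  obtain ⟨W, M, eW, Def, w1, w2, w3, w4, w5, w6, w7, w8, w9⟩ := world_part oo S comp
    (fun a a' => ∃ x, (comp x = a ∧ comp (b x) = a') ∨ (comp x = a' ∧ comp (b x) = a)) L e D
    (2 * m) 2 m (exNb b comp) hsymm (exNb_adj b comp) (exNb_card b comp m t3) t13
    (deg_le_two L t15) t3 ss paired rE heT
  refine ⟨{S with W := W}, comp,
    (fun a a' => ∃ x, (comp x = a ∧ comp (b x) = a') ∨ (comp x = a' ∧ comp (b x) = a)), L ++ M,
    e, eW, Def, rfl, rfl, ?_, ?_, w4, w5, w6, ?_, ?_⟩
  · exact
      { ss := ss
        paired := paired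
        rE := rE
        sv := by
          intro x hx
          obtain ⟨h0, h1⟩ := hmem.1 hx
          have h2 : S.s (v x) = v (S.r x) := by
            rw [hsm ((t4 x h0).2 h1), hr h1, t7 x h0 h1]
          exact h2
        cv := by
          intro x hx
          exact t8 x (hmem.1 hx).1
        cs := by
          intro y hy
          have h1 : c (S.s y) ≠ c y := by
            rw [hsm (hne hy)]
            exact t9 y (hne hy)
          exact h1
        tl := by
          intro x hx
          have h1 : S.TL (b x) = tau x + 1 := by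
            rw [hTLm (by simpa using (hmem.1 hx).1), Equiv.symm_apply_apply]
          exact h1
        lt := by
          intro x hx
          have h1 : S.TL x < tau x + 1 := by
            by_cases h2 : b.symm x ∈ E
            · rw [hTLm h2]
              have h3 := b5 (b.symm x) h2 (by simpa using (hmem.1 hx).1)
              rw [Equiv.apply_symm_apply] at h3
              omega
            · rw [hTLn h2]
              omega
          exact h1
        code := by
          intro y j hj
          have hj' : ∀ i < j, (v ^ i) y ∈ S.E ∧ (v ^ i) (S.s y) ∈ S.E := hj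
          have h1 : S.TL ((v ^ j) y) = S.TL ((v ^ j) (S.s y)) ∧
              ((v ^ j) y ∈ S.E → (v ^ j) (S.s y) ∈ S.E →
                S.T ((v ^ j) y) = S.T ((v ^ j) (S.s y))) := by
            by_cases hy : y ∈ Pd
            · rw [hsm hy]
              obtain ⟨g1, g2, g3, g4, g5, g6⟩ := t12 y hy j (fun i hi => (hmem.1 (hj' i hi).1).1)
              constructor
              · by_cases h2 : b.symm ((v ^ j) y) ∈ E
                · rw [hTLm h2, hTLm (g4.1 h2), g5 h2]
                · rw [hTLn h2, hTLn (fun h => h2 (g4.2 h))]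
              · intro h2 _
                rw [hST, hST, g3 (hmem.1 h2).1]
            · rw [hsn hy]
              exact ⟨rfl, fun _ _ => rfl⟩
          exact h1
        vline := by
          intro x j hj hx
          have hx' : ∀ i ≤ j, (v ^ i) x ∈ S.E := hx
          have h1 := b6 x j hj (fun i hi => (hmem.1 (hx' i hi)).1)
          have h2 : S.T ((v ^ j) x) ≠ S.T x := by
            rw [hST, hST]
            omega
          exact h2
        hline := by
          intro x hx hx2 hx3
          have hx' : b.symm (v x) ∈ S.E := hx2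
          have h1 := b7 x (hmem.1 hx).1 (hmem.1 hx').1 hx3
          have h2 : S.T (b.symm (v x)) ≠ S.T x := by
            rw [hST, hST]
            omega
          exact h2
        phr := by
          intro x hx
          obtain ⟨h0, h1⟩ := hmem.1 hx
          have h2 : ph (S.r x) = ph x := by
            have := (t11 (b x) h1 (by simpa using h0)).2
            rw [Equiv.symm_apply_apply] at this
            rw [hr h1, this]
          exact h2
        phs := by
          intro y j hy hc hj
          have hj' : ∀ i ≤ j, (v ^ i) y ∈ S.E ∧ (v ^ i) (S.s y) ∈ S.E := hj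
          have hyP := hne hy
          obtain ⟨g1, g2, g3, g4, g5, g6⟩ := t12 y hyP j
            (fun i hi => (hmem.1 (hj' i hi.le).1).1)
          have h1 : ph ((v ^ j) (S.s y)) < ph ((v ^ j) y) ∨
              (v ^ j) (S.s y) = S.r ((v ^ j) y) := by
            rw [hsm hyP]
            rcases g6 (hmem.1 (hj' j le_rfl).1).1 hc with h | h
            · exact Or.inl h
            · right
              rw [hr h.1]
              exact h.2
          exact h1
        wend := w1
        ww := w2
        wne := w3 }
  · exact
      { rsymm := hsymm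
        base := fun x => ⟨x, Or.inl ⟨rfl, rfl⟩⟩
        bv := by
          intro x hx
          exact (t2 x (hmem.1 hx).1).symm
        twin := by
          intro y hy
          have hyP := hne hy
          apply StepAt_append
          have h1 : L[e y]? = some (comp y, comp (S.s y)) ∨
              L[e y]? = some (comp (S.s y), comp y) := by
            rw [hsm hyP]
            exact t14 y hyP
          exact h1
        twinc := by
          intro y y' hy hy' hc
          have h1 := t6 y y' hc
          refine ⟨h1.2.2, ?_⟩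
          have h2 : comp (S.s y) = comp (S.s y') := by
            rw [hsm (hne hy), hsm (hne hy')]
            exact h1.2.1
          exact h2
        world := w7
        wtwin := w8
        winj := w9 }
  · have hsub : Finset.univ \ S.E ⊆ (Finset.univ \ E) ∪ (Finset.univ \ Pd).image b.symm := by
      intro x hx
      rw [Finset.mem_sdiff, hmem] at hx
      by_cases h : x ∈ E
      · refine Finset.mem_union_right _ (Finset.mem_image.2 ⟨b x, ?_, by simp⟩)
        rw [Finset.mem_sdiff]
        exact ⟨Finset.mem_univ _, fun h' => hx.2 ⟨h, h'⟩⟩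
      · exact Finset.mem_union_left _ (Finset.mem_sdiff.2 ⟨Finset.mem_univ _, h⟩)
    have h1 : (Finset.univ \ S.E).card ≤ (Finset.univ \ E).card + (Finset.univ \ Pd).card :=
      (Finset.card_le_card hsub).trans ((Finset.card_union_le _ _).trans
        (Nat.add_le_add_left Finset.card_image_le _))
    have h2 : ((Finset.univ \ S.E).card : ℝ) ≤
        ((Finset.univ \ E).card : ℝ) + ((Finset.univ \ Pd).card : ℝ) := by exact_mod_cast h1
    show ((Finset.univ \ S.E).card : ℝ) ≤ ε * Fintype.card X
    have h3 : ε / 2 * Fintype.card X + ε / 2 * Fintype.card X = ε * Fintype.card X := by ring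
    linarith
  · intro x hx
    refine ⟨?_, t10 x⟩
    show tau x + 1 < τ0 + 1
    have := b4 x
    omega

end Pool.Agent.Lib.MP29a61eN
end
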