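import Mathlib
import Pool.Agent.Lib.MP_29a61e_co.N2.Base
import Pool.Agent.Lib.MP_29a61e_co.N2.TwinB

/-!
# MP_29a61e_co: selection of a family of heads and its execution

If sufficiently many pending heads have their three cuts far apart in the word, then some of them
(`2 h + 1` of them) are switched by `2 h + 9` moves.
-/

namespace Pool.Agent.Lib.MP29a61eN.Fam

open Pool.Agent.Lib.MP29a61eN

variable {X : Type}

/-! ### Translation to the definitions of `Base` -/

theorem rv_eq_srev (B : List (End X)) : rv bar B = MP29a61eN.srev B := rfl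

theorem bar_invol : Function.Involutive (MP29a61eN.bar (X := X)) := fun e => by simp

theorem toMove {w w' : List (End X)} (h : SMove MP29a61eN.bar w w') :
    w = w' ∨ MP29a61eN.SMove w w' := by
  obtain ⟨A, B, Y, U, V, rfl, hz, h⟩ := h
  by_cases hB : B = []
  · subst hB
    left
    rcases h with rfl | rfl <;> simpa using hz
  · right
    exact ⟨A, B, Y, U, V, hB, rfl, hz, h⟩

theorem toSteps : ∀ {k : ℕ} {w w' : List (End X)}, SSteps MP29a61eN.bar k w w' →
    ∃ k' ≤ k, MP29a61eN.SSteps k' w w'
  | 0, w, w', h => ⟨0, le_rfl, h⟩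
  | k + 1, w, w', h => by
      obtain ⟨u, hu, h⟩ := h
      obtain ⟨k', hk', h'⟩ := toSteps h
      rcases toMove hu with rfl | hm
      · exact ⟨k', by omega, h'⟩
      · exact ⟨k' + 1, by omega, u, hm, h'⟩

/-- Good pairs of a matching. -/
def Gd (μ : End X → End X) (x y : End X) : Prop := y = phi μ x

theorem Gd_symm {μ : End X → End X} (hμ : IsMatching μ) (x y : End X) :
    Gd μ x y ↔ Gd μ (MP29a61eN.bar y) (MP29a61eN.bar x) := by
  unfold Gd phi
  constructor
  · rintro rfl
    rw [bar_bar, hμ.inv]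
  · intro h
    have h1 : x = μ (MP29a61eN.bar y) := by
      have := congrArg MP29a61eN.bar h
      simpa using this
    rw [h1, hμ.inv, bar_bar]

theorem cyc_cons {α : Type} (a : α) (w : List α) : cyc (a :: w) = (a :: w).zip (w ++ [a]) := by
  simp [cyc]

open Classical in
theorem countP_zip (G : End X → End X → Prop) : ∀ (w : List (End X)) (a b : End X),
    ((a :: w).zip (w ++ [b])).countP (fun p => decide (¬ G p.1 p.2)) = bad G (a :: (w ++ [b]))
  | [], a, b => by
      simp only [List.nil_append, List.zip_cons_cons, List.zip_nil_right, List.countP_cons,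
        List.countP_nil, bad]
      by_cases h : G a b <;> simp [h]
  | c :: w, a, b => by
      have ih := countP_zip G w c b
      simp only [List.cons_append, List.zip_cons_cons, List.countP_cons, bad_cons2] at ih ⊢
      rw [ih]
      by_cases h : G a c <;> simp [h]; omega

theorem bad_eq [DecidableEq X] (oo : X) (μ : End X → End X) (w : List (End X)) :
    MP29a61eN.bad oo μ w = bad (Gd μ) ((oo, true) :: (w ++ [(oo, true)])) := by
  classical
  unfold MP29a61eN.bad
  rw [cyc_cons, ← countP_zip]
  refine List.countP_congr (fun p _ => ?_)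
  rw [decide_eq_true_iff, decide_eq_true_iff]
  rfl

theorem bad_le_lin [DecidableEq X] (oo : X) (μ : End X → End X) (w : List (End X)) :
    MP29a61eN.bad oo μ w ≤ bad (Gd μ) w + 2 := by
  rw [bad_eq]
  have h1 := bad_cons_le (Gd μ) (oo, true) (w ++ [(oo, true)])
  have h2 := bad_append_le (Gd μ) w [(oo, true)]
  simp only [bad_single] at h2
  omega

theorem lin_le_bad [DecidableEq X] (oo : X) (μ : End X → End X) (w : List (End X)) :
    bad (Gd μ) w ≤ MP29a61eN.bad oo μ w := by
  rw [bad_eq]
  have h1 := bad_le_cons (Gd μ) (oo, true) (w ++ [(oo, true)])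
  have h2 := le_bad_append (Gd μ) w [(oo, true)]
  omega

/-! ### Slices -/

/-- The letters `f a, .., f (b-1)`. -/
def seg {β : Type} (f : ℕ → β) (a b : ℕ) : List β := (List.range' a (b - a)).map f

section seg
variable {β : Type} (f : ℕ → β)

theorem seg_self (a : ℕ) : seg f a a = [] := by simp [seg]

theorem seg_append {u v w : ℕ} (h1 : u ≤ v) (h2 : v ≤ w) :
    seg f u v ++ seg f v w = seg f u w := by
  unfold seg
  rw [← List.map_append]
  congr 1
  have h := List.range'_append_1 (s := u) (m := v - u) (n := w - v)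
  rw [show u + (v - u) = v by omega, show v - u + (w - v) = w - u by omega] at h
  exact h

theorem seg_ne_nil {u v : ℕ} (h : u < v) : seg f u v ≠ [] := by
  intro hh
  have := congrArg List.length hh
  simp [seg] at this
  omega

theorem seg_last {u v : ℕ} (h : u < v) : (seg f u v).getLast? = some (f (v - 1)) := by
  have e : seg f u v = seg f u (v - 1) ++ seg f (v - 1) v :=
    (seg_append f (by omega) (by omega)).symm
  have e2 : seg f (v - 1) v = [f (v - 1)] := by
    simp [seg, show v - (v - 1) = 1 by omega]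
  rw [e, e2]
  simp

theorem seg_head {u v : ℕ} (h : u < v) : (seg f u v).head? = some (f u) := by
  have e : seg f u v = seg f u (u + 1) ++ seg f (u + 1) v :=
    (seg_append f (by omega) (by omega)).symm
  have e2 : seg f u (u + 1) = [f u] := by simp [seg]
  rw [e, e2]
  simp

theorem exists_seg (w : List β) (d : β) : seg (fun i => (w[i]?).getD d) 0 w.length = w := by
  apply List.ext_getElem
  · simp [seg]
  · intro i h1 h2
    simp only [seg, List.getElem_map, List.getElem_range']
    simp [h2]

open Classical in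
theorem bad_append_eq (G : β → β → Prop) : ∀ (u v : List β) (x y : β), u.getLast? = some x →
    v.head? = some y → bad G (u ++ v) = bad G u + bad G v + (if G x y then 0 else 1)
  | [], v, x, y, h, _ => by simp at h
  | [a], v, x, y, h, h' => by
      simp only [List.getLast?_singleton, Option.some.injEq] at h
      subst h
      cases v with
      | nil => simp at h'
      | cons b v =>
          simp only [List.head?_cons, Option.some.injEq] at h'
          subst h'
          simp only [List.cons_append, List.nil_append, bad_cons2, bad_single]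
          omega
  | a :: b :: u, v, x, y, h, h' => by
      have h1 : (b :: u).getLast? = some x := by simpa using h
      have ih := bad_append_eq G (b :: u) v x y h1 h'
      simp only [List.cons_append, bad_cons2] at ih ⊢
      omega

open Classical in
/-- The bad pairs of a slice, by positions. -/
theorem bad_seg_add (G : β → β → Prop) (a : ℕ) : ∀ k : ℕ, bad G (seg f a (a + k)) =
    ((Finset.Ioo a (a + k)).filter (fun q => ¬ G (f (q - 1)) (f q))).card := by
  intro k
  induction k with
  | zero => simp [seg]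
  | succ k ih =>
    rcases Nat.eq_zero_or_pos k with rfl | hk
    · have : Finset.Ioo a (a + (0 + 1)) = ∅ := by
        ext q; simp only [Finset.mem_Ioo, Finset.notMem_empty, iff_false]; omega
      rw [this]
      simp [seg]
    · have e1 : seg f a (a + (k + 1)) = seg f a (a + k) ++ seg f (a + k) (a + (k + 1)) :=
        (seg_append f (by omega) (by omega)).symm
      have e2 : seg f (a + k) (a + (k + 1)) = [f (a + k)] := by
        simp [seg, show a + (k + 1) - (a + k) = 1 by omega]
      have e3 : Finset.Ioo a (a + (k + 1)) = insert (a + k) (Finset.Ioo a (a + k)) := by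
        ext q; simp only [Finset.mem_Ioo, Finset.mem_insert]; omega
      rw [e1, e2, e3, Finset.filter_insert, bad_append_eq G _ _ _ _ (seg_last f (by omega))
        (List.head?_cons ..), ih]
      by_cases hg : G (f (a + k - 1)) (f (a + k))
      · simp [hg]
      · rw [if_pos hg, if_neg hg, Finset.card_insert_of_notMem (by simp)]
        simp

open Classical in
theorem bad_seg (G : β → β → Prop) {a b : ℕ} (h : a ≤ b) : bad G (seg f a b) =
    ((Finset.Ioo a b).filter (fun q => ¬ G (f (q - 1)) (f q))).card := by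
  obtain ⟨k, rfl⟩ := Nat.exists_eq_add_of_le h
  exact bad_seg_add f G a k

/-- The slices between the breakpoints `p 0 < p 1 < .. < p m`. -/
theorem cat_seg : ∀ (m : ℕ) (p : ℕ → ℕ), (∀ j < m, p j ≤ p (j + 1)) →
    cat m (fun j => seg f (p j) (p (j + 1))) = seg f (p 0) (p m) ∧ p 0 ≤ p m
  | 0, p, _ => by simp [cat, seg_self]
  | m + 1, p, h => by
      obtain ⟨h1, h2⟩ := cat_seg m (fun j => p (j + 1)) (fun j hj => h (j + 1) (by omega))
      have h3 := h 0 (by omega)
      refine ⟨?_, ?_⟩
      · show seg f (p 0) (p (0 + 1)) ++ cat m (sh (fun j => seg f (p j) (p (j + 1)))) = _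
        have : cat m (sh (fun j => seg f (p j) (p (j + 1)))) = seg f (p 1) (p (m + 1)) := h1
        rw [this]
        exact seg_append f h3 h2
      · exact h3.trans h2

open Classical in
theorem sum_bad_seg (G : β → β → Prop) : ∀ (m : ℕ) (p : ℕ → ℕ), (∀ j < m, p j < p (j + 1)) →
    (∑ j ∈ Finset.range m, bad G (seg f (p j) (p (j + 1)))) ≤
    ((Finset.Ioo (p 0) (p m)).filter (fun q => ¬ G (f (q - 1)) (f q) ∧
      ∀ j, 1 ≤ j → j < m → q ≠ p j)).card := by
  intro m
  induction m with
  | zero => intro p _; simp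
  | succ m ih =>
    intro p h
    have mono : ∀ i j, i ≤ j → j ≤ m + 1 → p i ≤ p j := by
      intro i j hij
      induction j, hij using Nat.le_induction with
      | base => intro _; exact le_rfl
      | succ j hj ihj => intro hjm; exact (ihj (by omega)).trans (h j (by omega)).le
    have smono : ∀ i j, i < j → j ≤ m + 1 → p i < p j := fun i j hij hj =>
      (h i (by omega)).trans_le (mono (i + 1) j (by omega) hj)
    rw [Finset.sum_range_succ]
    have h1 := ih p (fun j hj => h j (by omega))
    rw [bad_seg f G (h m (by omega)).le]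
    refine (Nat.add_le_add_right h1 _).trans ?_
    rw [← Finset.card_union_of_disjoint]
    · refine Finset.card_le_card ?_
      intro q hq
      simp only [Finset.mem_union, Finset.mem_filter, Finset.mem_Ioo] at hq ⊢
      rcases hq with ⟨⟨a1, a2⟩, a3, a4⟩ | ⟨⟨a1, a2⟩, a3⟩
      · refine ⟨⟨a1, a2.trans (h m (by omega))⟩, a3, fun j hj1 hj2 => ?_⟩
        rcases Nat.lt_or_ge j m with hjm | hjm
        · exact a4 j hj1 hjm
        · have : j = m := by omega
          subst this; omega
      · refine ⟨⟨(mono 0 m (by omega) (by omega)).trans_lt a1, a2⟩, a3, fun j hj1 hj2 => ?_⟩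
        have := mono j m (by omega) (by omega)
        omega
    · rw [Finset.disjoint_left]
      intro q hq hq'
      simp only [Finset.mem_filter, Finset.mem_Ioo] at hq hq'
      omega

end seg

/-! ### Lines -/

theorem rcat_eq {β : Type} : ∀ (m : ℕ) (S : ℕ → List β),
    rcat m S = cat m (fun j => S (m - 1 - j))
  | 0, S => rfl
  | m + 1, S => by
      rw [show m + 1 = m + 1 from rfl, cat_add m 1]
      simp only [rcat, cat, List.append_nil]
      rw [rcat_eq m (sh S)]
      have e1 : m + 1 - 1 - (0 + m) = 0 := by omega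
      rw [e1]
      congr 1
      have : ∀ (k : ℕ) (A B : ℕ → List β), (∀ j < k, A j = B j) → cat k A = cat k B := by
        intro k
        induction k with
        | zero => intros; rfl
        | succ k ih =>
          intro A B hAB
          simp only [cat]
          rw [hAB 0 (by omega), ih (sh A) (sh B) (fun j hj => hAB (j + 1) (by omega))]
      refine this m _ _ (fun j hj => ?_)
      show S (m - 1 - j + 1) = S (m + 1 - 1 - j)
      congr 1
      omega

/-- The cuts of the heads `0, .., K-1` on a strand with segments `0, .., K`. -/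
def StrandOK (s : Bool) (K : ℕ) (u v : ℕ → End X) (S : ℕ → List (End X)) : Prop :=
  ∀ j < K, (S j).getLast? = some (if s then u j else v j) ∧
    (S (j + 1)).head? = some (MP29a61eN.bar (if s then v j else u j))

open Classical in
theorem line {μ : End X → End X} (hμ : IsMatching μ) (f : ℕ → End X) (lo hi K : ℕ) (x : ℕ → ℕ)
    (hlh : lo < hi) (hx : ∀ j < K, lo < x j ∧ x j < hi)
    (hm : (∀ i j, i < j → j < K → x i < x j) ∨ (∀ i j, i < j → j < K → x j < x i))
    (s : Bool) (u v : ℕ → End X)
    (hu : ∀ j < K, f (x j - 1) = if s then u j else v j)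
    (hv : ∀ j < K, f (x j) = MP29a61eN.bar (if s then v j else u j)) :
    ∃ (S : ℕ → List (End X)) (t : Bool), StrandOK t K u v S ∧ (∀ j < K + 1, S j ≠ []) ∧
      (cat (K + 1) S = seg f lo hi ∨ cat (K + 1) S = rv MP29a61eN.bar (seg f lo hi)) ∧
      (∑ j ∈ Finset.range (K + 1), bad (Gd μ) (S j)) ≤
        ((Finset.Ioo lo hi).filter (fun q => ¬ Gd μ (f (q - 1)) (f q) ∧ ∀ j < K, q ≠ x j)).card := by
  rcases hm with hm | hm
  · set p : ℕ → ℕ := fun j => if j = 0 then lo else if j ≤ K then x (j - 1) else hi with hp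
    have p0 : p 0 = lo := by simp [hp]
    have pK : p (K + 1) = hi := by simp [hp]
    have pj : ∀ j < K, p (j + 1) = x j := fun j hj => by
      simp only [hp, Nat.add_eq_zero_iff, one_ne_zero, and_false, if_false, Nat.add_sub_cancel]
      rw [if_pos (by omega)]
    have hinc : ∀ j < K + 1, p j < p (j + 1) := by
      intro j hj
      rcases Nat.eq_zero_or_pos j with rfl | hj0
      · rcases Nat.eq_zero_or_pos K with rfl | hK
        · rw [p0, pK]; exact hlh
        · rw [p0, pj 0 hK]; exact (hx 0 hK).1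
      · obtain ⟨i, rfl⟩ := Nat.exists_eq_succ_of_ne_zero hj0.ne'
        rw [Nat.succ_eq_add_one, pj i (by omega)]
        rcases Nat.lt_or_ge (i + 1) K with h | h
        · rw [pj (i + 1) h]; exact hm i (i + 1) (by omega) h
        · have : i + 1 = K := by omega
          rw [this, pK]; exact (hx i (by omega)).2
    refine ⟨fun j => seg f (p j) (p (j + 1)), s, ?_, ?_, ?_, ?_⟩
    · intro j hj
      refine ⟨?_, ?_⟩
      · rw [seg_last f (hinc j (by omega)), pj j hj, hu j hj]
      · rw [seg_head f (hinc (j + 1) (by omega)), pj j hj, hv j hj]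
    · intro j hj
      exact seg_ne_nil f (hinc j hj)
    · left
      have := (cat_seg f (K + 1) p (fun j hj => (hinc j hj).le)).1
      rw [this, p0, pK]
    · have h1 := sum_bad_seg f (Gd μ) (K + 1) p hinc
      rw [p0, pK] at h1
      refine h1.trans (Finset.card_le_card ?_)
      intro q hq
      simp only [Finset.mem_filter] at hq ⊢
      refine ⟨hq.1, hq.2.1, fun j hj => ?_⟩
      have := hq.2.2 (j + 1) (by omega) (by omega)
      rwa [pj j hj] at this
  · set p : ℕ → ℕ := fun j => if j = 0 then lo else if j ≤ K then x (K - j) else hi with hp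
    have p0 : p 0 = lo := by simp [hp]
    have pK : p (K + 1) = hi := by simp [hp]
    have pj : ∀ j < K, p (K - j) = x j := fun j hj => by
      simp only [hp]
      rw [if_neg (by omega), if_pos (by omega)]
      congr 1; omega
    have hinc : ∀ j < K + 1, p j < p (j + 1) := by
      intro j hj
      rcases Nat.eq_zero_or_pos j with rfl | hj0
      · rcases Nat.eq_zero_or_pos K with rfl | hK
        · rw [p0, pK]; exact hlh
        · have e := pj (K - 1) (by omega)
          rw [show K - (K - 1) = 0 + 1 by omega] at e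
          rw [p0, e]; exact (hx (K - 1) (by omega)).1
      · have e := pj (K - j) (by omega)
        rw [show K - (K - j) = j by omega] at e
        rw [e]
        rcases Nat.lt_or_ge j K with h | h
        · have e' := pj (K - (j + 1)) (by omega)
          rw [show K - (K - (j + 1)) = j + 1 by omega] at e'
          rw [e']
          exact hm (K - (j + 1)) (K - j) (by omega) (by omega)
        · have : j = K := by omega
          subst this
          rw [pK]; exact (hx _ (by omega)).2
    have hsum : ∑ j ∈ Finset.range (K + 1), bad (Gd μ) (seg f (p (K - j)) (p (K - j + 1))) =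
        ∑ j ∈ Finset.range (K + 1), bad (Gd μ) (seg f (p j) (p (j + 1))) := by
      have := Finset.sum_range_reflect (fun j => bad (Gd μ) (seg f (p j) (p (j + 1)))) (K + 1)
      rw [← this]
      refine Finset.sum_congr rfl (fun j hj => ?_)
      have : K + 1 - 1 - j = K - j := by omega
      rw [this]
    refine ⟨fun j => rv MP29a61eN.bar (seg f (p (K - j)) (p (K - j + 1))), !s, ?_, ?_, ?_, ?_⟩
    · intro j hj
      refine ⟨?_, ?_⟩
      · rw [getLast?_rv, seg_head f (hinc (K - j) (by omega)), pj j hj, hv j hj]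
        cases s <;> simp
      · rw [head?_rv, show K - (j + 1) + 1 = K - j by omega]
        have := hinc (K - (j + 1)) (by omega)
        rw [show K - (j + 1) + 1 = K - j by omega] at this
        rw [seg_last f this, pj j hj, hu j hj]
        cases s <;> simp
    · intro j hj
      exact rv_ne_nil (seg_ne_nil f (hinc (K - j) (by omega)))
    · right
      have h1 := (cat_seg f (K + 1) p (fun j hj => (hinc j hj).le)).1
      rw [p0, pK] at h1
      rw [← h1, rv_cat, rcat_eq]
      rfl
    · have h1 := sum_bad_seg f (Gd μ) (K + 1) p hinc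
      rw [p0, pK] at h1
      have h2 : ∑ j ∈ Finset.range (K + 1),
          bad (Gd μ) (rv MP29a61eN.bar (seg f (p (K - j)) (p (K - j + 1)))) ≤
          ∑ j ∈ Finset.range (K + 1), bad (Gd μ) (seg f (p (K - j)) (p (K - j + 1))) :=
        Finset.sum_le_sum (fun j _ => bad_rv (Gd_symm hμ) _)
      rw [hsum] at h2
      refine (h2.trans h1).trans (Finset.card_le_card ?_)
      intro q hq
      simp only [Finset.mem_filter] at hq ⊢
      refine ⟨hq.1, hq.2.1, fun j hj => ?_⟩
      have := hq.2.2 (K - j) (by omega) (by omega)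
      rwa [pj j hj] at this

theorem linkCond_of {μ : End X → End X} (hμ : IsMatching μ) {s t : Bool} {K : ℕ}
    {u v u' v' : ℕ → End X} {S T : ℕ → List (End X)} (hS : StrandOK s K u v S)
    (hT : StrandOK t K u' v' T) (hn : ∀ j < K, μ (v j) = u' j) :
    ∀ j, j + 1 < K + 1 → LinkCond MP29a61eN.bar (Gd μ) s t S T j := by
  intro j hj
  obtain ⟨a1, a2⟩ := hS j (by omega)
  obtain ⟨b1, b2⟩ := hT j (by omega)
  have h1 := hn j (by omega)
  have h2 : μ (u' j) = v j := by rw [← h1, hμ.inv]
  cases s <;> cases t <;> simp only [LinkCond] <;> intro x hx y hy <;>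
    simp only [getLast?_rv, head?_rv, a1, a2, b1, b2, Option.map_some, Option.mem_def,
      Option.some.injEq, if_true, Bool.false_eq_true, if_false, bar_bar] at hx hy <;>
    subst hx <;> subst hy <;> simp [Gd, phi, h1, h2]

theorem Rearr.of_perm {β : Type} {br : β → β} {bs ts : List (List β)} (h : Rearr br bs ts) :
    ∀ {bs' : List (List β)}, bs'.Perm bs → Rearr br bs' ts := by
  induction h with
  | nil => intro bs' hp; rw [hp.eq_nil]; exact Rearr.nil
  | cons pre post b t ts ht _ ih =>
      intro bs' hp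
      have hb : b ∈ bs' := hp.symm.subset (by simp)
      obtain ⟨pre', post', rfl⟩ := List.append_of_mem hb
      refine Rearr.cons pre' post' b t ts ht (ih ?_)
      have h1 : (b :: (pre' ++ post')).Perm (b :: (pre ++ post)) :=
        (List.perm_middle.symm.trans hp).trans List.perm_middle
      exact (List.perm_cons b).1 h1

/-! ### Switched matchings -/

theorem newPartner_invol (i : Fin 6) : newPartner (newPartner i) = i := by
  fin_cases i <;> rfl

theorem newPartner_ne (i : Fin 6) : newPartner i ≠ i := by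
  fin_cases i <;> decide

theorem oldPartner_invol (i : Fin 6) : oldPartner (oldPartner i) = i := by
  fin_cases i <;> rfl

theorem switch_mem {K : Type} {μ : End X → End X} {c : K → Fin 6 → End X} (hc : IsHeads μ c)
    {D : Finset K} {k : K} (hk : k ∈ D) (i : Fin 6) :
    switch μ c D (c k i) = c k (newPartner i) := by
  classical
  have h : ∃ p : K × Fin 6, p.1 ∈ D ∧ c p.1 p.2 = c k i := ⟨(k, i), hk, rfl⟩
  unfold switch
  rw [dif_pos h]
  obtain ⟨e1, e2⟩ := hc.inj _ _ _ _ h.choose_spec.2
  rw [e1, e2]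

theorem switch_not {K : Type} {μ : End X → End X} {c : K → Fin 6 → End X}
    {D : Finset K} {e : End X} (h : ∀ k ∈ D, ∀ i, c k i ≠ e) :
    switch μ c D e = μ e := by
  classical
  unfold switch
  rw [dif_neg]
  rintro ⟨p, hp, he⟩
  exact h p.1 hp p.2 he

theorem switch_matching {K : Type} {μ : End X → End X} {c : K → Fin 6 → End X}
    (hμ : IsMatching μ) (hc : IsHeads μ c) (D : Finset K) : IsMatching (switch μ c D) := by
  classical
  constructor
  · intro e
    by_cases h : ∃ k ∈ D, ∃ i, c k i = e
    · obtain ⟨k, hk, i, rfl⟩ := h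
      rw [switch_mem hc hk, switch_mem hc hk, newPartner_invol]
    · have h' : ∀ k ∈ D, ∀ i, c k i ≠ e := fun k hk i he => h ⟨k, hk, i, he⟩
      rw [switch_not h']
      have h'' : ∀ k ∈ D, ∀ i, c k i ≠ μ e := by
        intro k hk i he
        have : e = c k (oldPartner i) := by rw [← hc.old, he, hμ.inv]
        exact h' k hk _ this.symm
      rw [switch_not h'', hμ.inv]
  · intro e
    by_cases h : ∃ k ∈ D, ∃ i, c k i = e
    · obtain ⟨k, hk, i, rfl⟩ := h
      rw [switch_mem hc hk]
      intro he
      exact newPartner_ne i (hc.inj _ _ _ _ he).2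
    · have h' : ∀ k ∈ D, ∀ i, c k i ≠ e := fun k hk i he => h ⟨k, hk, i, he⟩
      rw [switch_not h']
      exact hμ.ne e

/-- The first and the second end of the cut number `a` of a head. -/
def cutA (a : Fin 3) : Fin 6 := ![0, 2, 4] a
def cutB (a : Fin 3) : Fin 6 := ![1, 3, 5] a

theorem newPartner_cutB (a : Fin 3) : newPartner (cutB a) = cutA (a + 1) := by
  fin_cases a <;> rfl

theorem exists_cut (i : Fin 6) : ∃ a : Fin 3, i = cutA a ∨ i = cutB a := by
  fin_cases i
  · exact ⟨0, Or.inl rfl⟩
  · exact ⟨0, Or.inr rfl⟩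
  · exact ⟨1, Or.inl rfl⟩
  · exact ⟨1, Or.inr rfl⟩
  · exact ⟨2, Or.inl rfl⟩
  · exact ⟨2, Or.inr rfl⟩

/-- The link `e - e'` is the link between the positions `x - 1` and `x` of the word `w`. -/
def IsCut (w : List (End X)) (e e' : End X) (x : ℕ) : Prop :=
  0 < x ∧ ((w[x - 1]? = some e ∧ w[x]? = some (MP29a61eN.bar e')) ∨
    (w[x - 1]? = some e' ∧ w[x]? = some (MP29a61eN.bar e)))

open Classical in
theorem pigeon8 {ι : Type} (J : Finset ι) (sg : ι → Fin 3 → Bool) :
    ∃ σ : Fin 3 → Bool, J.card ≤ 8 * (J.filter (fun k => sg k = σ)).card := by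
  by_contra hcon
  push Not at hcon
  have h1 := Finset.card_eq_sum_card_fiberwise (s := J) (t := Finset.univ) (f := sg)
    (fun _ _ => by simp)
  have h2 : ∑ σ : Fin 3 → Bool, 8 * (J.filter (fun k => sg k = σ)).card <
      ∑ _σ : Fin 3 → Bool, J.card :=
    Finset.sum_lt_sum_of_nonempty Finset.univ_nonempty (fun σ _ => hcon σ)
  rw [← Finset.mul_sum, Finset.sum_const, Finset.card_univ] at h2
  have h3 : Fintype.card (Fin 3 → Bool) = 8 := by simp
  rw [h3, smul_eq_mul, ← h1] at h2
  omega

theorem famsel (h : ℕ) : ∃ C : ℕ, 0 < C ∧ ∀ {X : Type} [DecidableEq X] {K : Type} [DecidableEq K]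
    (oo : X) (μ : End X → End X) (c : K → Fin 6 → End X) (D J : Finset K) (w : List (End X))
    (x : Fin 3 → K → ℕ) (L : ℕ), IsMatching μ → IsHeads μ c → IsWord oo w → Disjoint D J →
    0 < L → (∀ k ∈ J, ∀ a, IsCut w (c k (cutA a)) (c k (cutB a)) (x a k)) →
    (∀ k ∈ J, ∀ a b, a ≠ b → x a k + L ≤ x b k ∨ x b k + L ≤ x a k) →
    C * w.length < J.card * L →
    ∃ F ⊆ J, F.card = 2 * h + 1 ∧ ∃ (w' : List (End X)) (m : ℕ), m ≤ 2 * h + 8 ∧
      MP29a61eN.SSteps m w w' ∧ MP29a61eN.bad oo (switch μ c (D ∪ F)) w' ≤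
        MP29a61eN.bad oo (switch μ c D) w + 7 := by
  classical
  obtain ⟨C, hC, hdy⟩ := Dyadic.dyadic (2 * h + 3)
  refine ⟨8 * C, by omega, ?_⟩
  intro X _ K _ oo μ c D J w x L hμ hc hw hDJ hL hcut hfar hbig
  -- the letters of the word
  set f : ℕ → End X := fun i => (w[i]?).getD (oo, true) with hf
  set n := w.length with hn
  have hwf : seg f 0 n = w := exists_seg w (oo, true)
  have hfi : ∀ i e, w[i]? = some e → f i = e ∧ i < n := by
    intro i e he
    refine ⟨by simp [hf, he], ?_⟩
    by_contra hh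
    rw [List.getElem?_eq_none (by omega)] at he
    exact absurd he (by simp)
  have hinj : ∀ i j, i < n → j < n → (f i).1 = (f j).1 → i = j := by
    intro i j hi hj hij
    have hnd := hw.nodup.of_cons
    have e1 : f i = w[i] := by simp [hf, hn ▸ hi]
    have e2 : f j = w[j] := by simp [hf, hn ▸ hj]
    rw [e1, e2] at hij
    have := (List.Nodup.getElem_inj_iff hnd (hi := by simpa using hi) (hj := by simpa using hj)).1
      (by simpa using hij)
    exact this
  -- signs
  set sg : K → Fin 3 → Bool := fun k a =>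
    decide (f (x a k - 1) = c k (cutA a) ∧ f (x a k) = MP29a61eN.bar (c k (cutB a))) with hsg
  obtain ⟨σ, hσ⟩ := pigeon8 J sg
  set J' := J.filter (fun k => sg k = σ) with hJ'
  have hJ'J : ∀ k ∈ J', k ∈ J := fun k hk => (Finset.mem_filter.1 hk).1
  have hpos : ∀ k ∈ J', ∀ a, 0 < x a k ∧ x a k < n ∧
      f (x a k - 1) = (if σ a then c k (cutA a) else c k (cutB a)) ∧
      f (x a k) = MP29a61eN.bar (if σ a then c k (cutB a) else c k (cutA a)) := by
    intro k hk a
    have hk' := (Finset.mem_filter.1 hk).2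
    obtain ⟨h0, h1⟩ := hcut k (hJ'J k hk) a
    have hlt : x a k < n := by
      rcases h1 with h1 | h1
      · exact (hfi _ _ h1.2).2
      · exact (hfi _ _ h1.2).2
    refine ⟨h0, hlt, ?_⟩
    by_cases hs : sg k a = true
    · have hσa : σ a = true := by rw [← hk']; exact hs
      rw [if_pos hσa, if_pos hσa]
      exact of_decide_eq_true hs
    · have hσa : ¬ σ a = true := by rw [← hk']; exact hs
      rw [if_neg hσa, if_neg hσa]
      rcases h1 with h1 | h1
      · exfalso
        apply hs
        exact decide_eq_true ⟨(hfi _ _ h1.1).1, (hfi _ _ h1.2).1⟩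
      · exact ⟨(hfi _ _ h1.1).1, (hfi _ _ h1.2).1⟩
  -- injectivity of the positions
  have hxinj : ∀ a, Set.InjOn (x a) J' := by
    intro a k hk l hl hkl
    obtain ⟨_, _, e1, _⟩ := hpos k hk a
    obtain ⟨_, _, e2, _⟩ := hpos l hl a
    rw [hkl, e2] at e1
    cases hs : σ a
    · simp only [hs, Bool.false_eq_true, if_false] at e1
      exact (hc.inj _ _ _ _ e1).1.symm
    · simp only [hs, if_true] at e1
      exact (hc.inj _ _ _ _ e1).1.symm
  obtain ⟨π, g, hg, hm0, hm1, hm2, hs1, hs2⟩ := hdy J' n L x hL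
    (fun a k hk => (hpos k hk a).2.1) hxinj
    (fun k hk => hfar k (hJ'J k hk)) (by
      have h1 : J.card * L ≤ 8 * J'.card * L := Nat.mul_le_mul_right L hσ
      have h2 : 8 * (C * n) < 8 * (J'.card * L) := by
        calc 8 * (C * n) = 8 * C * n := by ring
          _ < J.card * L := hbig
          _ ≤ 8 * J'.card * L := h1
          _ = 8 * (J'.card * L) := by ring
      omega)
  -- the shift and the borders
  have hborder : ∃ (s b2 : ℕ), s ≤ 1 ∧
      (∀ j (hj : j + s < 2 * h + 3), j < 2 * h + 1 → x (π 1) (g ⟨j + s, hj⟩) < b2) ∧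
      ∃ i : Fin (2 * h + 3), b2 = x (π 1) (g i) := by
    rcases hm1 with hm1 | hm1
    · refine ⟨0, x (π 1) (g ⟨2 * h + 1, by omega⟩), by omega, ?_, ⟨_, rfl⟩⟩
      intro j hj hj'
      exact hm1 (by simp only [Fin.lt_def]; omega)
    · refine ⟨1, x (π 1) (g ⟨0, by omega⟩), le_rfl, ?_, ⟨_, rfl⟩⟩
      intro j hj hj'
      exact hm1 (by simp only [Fin.lt_def]; omega)
  obtain ⟨s, b2, hs, hb2, i2, hi2⟩ := hborder
  set b1 := x (π 0) (g ⟨2 * h + 2, by omega⟩) with hb1
  set g' : ℕ → K := fun j => if hj : j + s < 2 * h + 3 then g ⟨j + s, hj⟩ else g ⟨0, by omega⟩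
    with hg'
  have hg'j : ∀ j < 2 * h + 1, ∃ hj : j + s < 2 * h + 3, g' j = g ⟨j + s, hj⟩ := by
    intro j hj
    have h3 : j + s < 2 * h + 3 := by omega
    exact ⟨h3, by simp only [hg', dif_pos h3]⟩
  have hg'J : ∀ j < 2 * h + 1, g' j ∈ J' := by
    intro j hj
    obtain ⟨h3, e⟩ := hg'j j hj
    rw [e]; exact hg _
  have b12 : b1 < b2 := by rw [hi2]; exact hs1 _ _
  have b2n : b2 < n := by rw [hi2]; exact (hpos _ (hg _) _).2.1
  have b1pos : 0 < b1 := (hpos _ (hg _) _).1
  set lo : Fin 3 → ℕ := ![0, b1, b2] with hlo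
  set hi : Fin 3 → ℕ := ![b1, b2, n] with hhi
  have hlohi : ∀ i, lo i < hi i := by
    intro i
    fin_cases i
    · exact b1pos
    · exact b12
    · exact b2n
  have hdisj : ∀ i i' q, lo i < q → q < hi i → lo i' < q → q < hi i' → i = i' := by
    intro i i' q h1 h2 h3 h4
    fin_cases i <;> fin_cases i' <;> simp [hlo, hhi] at h1 h2 h3 h4 ⊢ <;> omega
  have hin : ∀ i, ∀ j < 2 * h + 1, lo i < x (π i) (g' j) ∧ x (π i) (g' j) < hi i := by
    intro i j hj
    obtain ⟨h3, e⟩ := hg'j j hj
    rw [e]
    fin_cases i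
    · refine ⟨(hpos _ (hg _) _).1, hm0 (by simp only [Fin.lt_def]; omega)⟩
    · exact ⟨hs1 _ _, hb2 j h3 hj⟩
    · refine ⟨?_, (hpos _ (hg _) _).2.1⟩
      show b2 < _
      rw [hi2]; exact hs2 _ _
  have hmono : ∀ i, (∀ j l, j < l → l < 2 * h + 1 → x (π i) (g' j) < x (π i) (g' l)) ∨
      (∀ j l, j < l → l < 2 * h + 1 → x (π i) (g' l) < x (π i) (g' j)) := by
    have key : ∀ i, Dyadic.MonoOrAnti (fun k => x (π i) (g k)) → (∀ j l, j < l → l < 2 * h + 1 →
        x (π i) (g' j) < x (π i) (g' l)) ∨ (∀ j l, j < l → l < 2 * h + 1 →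
        x (π i) (g' l) < x (π i) (g' j)) := by
      intro i hi'
      rcases hi' with hi' | hi'
      · left
        intro j l hjl hl
        obtain ⟨h3, e3⟩ := hg'j j (by omega)
        obtain ⟨h4, e4⟩ := hg'j l hl
        rw [e3, e4]
        exact hi' (by simp only [Fin.lt_def]; omega)
      · right
        intro j l hjl hl
        obtain ⟨h3, e3⟩ := hg'j j (by omega)
        obtain ⟨h4, e4⟩ := hg'j l hl
        rw [e3, e4]
        exact hi' (by simp only [Fin.lt_def]; omega)
    intro i
    fin_cases i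
    · exact key 0 (Or.inl hm0)
    · exact key 1 hm1
    · exact key 2 hm2
  have hin' : ∀ a, ∀ j < 2 * h + 1, lo (π.symm a) < x a (g' j) ∧ x a (g' j) < hi (π.symm a) := by
    intro a j hj
    have := hin (π.symm a) j hj
    rwa [Equiv.apply_symm_apply] at this
  have hmono' : ∀ a, (∀ j l, j < l → l < 2 * h + 1 → x a (g' j) < x a (g' l)) ∨
      (∀ j l, j < l → l < 2 * h + 1 → x a (g' l) < x a (g' j)) := by
    intro a
    have := hmono (π.symm a)
    rwa [Equiv.apply_symm_apply] at this
  -- the family
  set F := (Finset.range (2 * h + 1)).image g' with hF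
  have hFmem : ∀ k ∈ F, ∃ j < 2 * h + 1, g' j = k := by
    intro k hk
    obtain ⟨j, hj, e⟩ := Finset.mem_image.1 hk
    exact ⟨j, Finset.mem_range.1 hj, e⟩
  have hgF : ∀ j < 2 * h + 1, g' j ∈ F := fun j hj =>
    Finset.mem_image.2 ⟨j, Finset.mem_range.2 hj, rfl⟩
  have hFJ : F ⊆ J := by
    intro k hk
    obtain ⟨j, hj, rfl⟩ := hFmem k hk
    exact hJ'J _ (hg'J j hj)
  have hFcard : F.card = 2 * h + 1 := by
    rw [hF, Finset.card_image_of_injOn, Finset.card_range]
    intro j hj l hl hjl
    have hj' := Finset.mem_range.1 (Finset.mem_coe.1 hj)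
    have hl' := Finset.mem_range.1 (Finset.mem_coe.1 hl)
    by_contra hne
    have hjl' : g' j = g' l := hjl
    rcases hmono' 0 with hm | hm
    · rcases Nat.lt_or_gt_of_ne hne with h1 | h1
      · have := hm j l h1 hl'; rw [hjl'] at this; omega
      · have := hm l j h1 hj'; rw [hjl'] at this; omega
    · rcases Nat.lt_or_gt_of_ne hne with h1 | h1
      · have := hm j l h1 hl'; rw [hjl'] at this; omega
      · have := hm l j h1 hj'; rw [hjl'] at this; omega
  refine ⟨F, hFJ, hFcard, ?_⟩
  set μ' := switch μ c (D ∪ F) with hμ'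
  have hμ'm : IsMatching μ' := switch_matching hμ hc _
  have hline : ∀ a : Fin 3, ∃ (S : ℕ → List (End X)) (t : Bool),
      StrandOK t (2 * h + 1) (fun j => c (g' j) (cutA a)) (fun j => c (g' j) (cutB a)) S ∧
      (∀ j < 2 * h + 1 + 1, S j ≠ []) ∧
      (cat (2 * h + 1 + 1) S = seg f (lo (π.symm a)) (hi (π.symm a)) ∨
        cat (2 * h + 1 + 1) S = rv MP29a61eN.bar (seg f (lo (π.symm a)) (hi (π.symm a)))) ∧
      (∑ j ∈ Finset.range (2 * h + 1 + 1), bad (Gd μ') (S j)) ≤
        ((Finset.Ioo (lo (π.symm a)) (hi (π.symm a))).filter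
          (fun q => ¬ Gd μ' (f (q - 1)) (f q) ∧ ∀ j < 2 * h + 1, q ≠ x a (g' j))).card := by
    intro a
    exact line hμ'm f (lo (π.symm a)) (hi (π.symm a)) (2 * h + 1) (fun j => x a (g' j))
      (hlohi _) (hin' a) (hmono' a) (σ a) _ _ (fun j hj => (hpos _ (hg'J j hj) a).2.2.1)
      (fun j hj => (hpos _ (hg'J j hj) a).2.2.2)
  choose S t hOK hne hcat hbad using hline
  have hlink : ∀ a : Fin 3, ∀ j, j + 1 < 2 * h + 1 + 1 →
      LinkCond MP29a61eN.bar (Gd μ') (t a) (t (a + 1)) (S a) (S (a + 1)) j := by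
    intro a
    refine linkCond_of hμ'm (hOK a) (hOK (a + 1)) (fun j hj => ?_)
    show μ' (c (g' j) (cutB a)) = c (g' j) (cutA (a + 1))
    rw [hμ', switch_mem hc (Finset.mem_union_right _ (hgF j hj)), newPartner_cutB]
  -- rearrangement of the three lines
  have hrearr : SSteps MP29a61eN.bar 3 w (cat (2 * h + 1 + 1) (S 0) ++
      (cat (2 * h + 1 + 1) (S 1) ++ cat (2 * h + 1 + 1) (S 2))) := by
    have r1 : Rearr MP29a61eN.bar [seg f (lo (π.symm 0)) (hi (π.symm 0)),
        seg f (lo (π.symm 1)) (hi (π.symm 1)), seg f (lo (π.symm 2)) (hi (π.symm 2))]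
        [cat (2 * h + 1 + 1) (S 0), cat (2 * h + 1 + 1) (S 1), cat (2 * h + 1 + 1) (S 2)] :=
      Rearr.cons [] _ _ _ _ (hcat 0) (Rearr.cons [] _ _ _ _ (hcat 1)
        (Rearr.cons [] _ _ _ _ (hcat 2) Rearr.nil))
    have r2 : ([seg f (lo 0) (hi 0), seg f (lo 1) (hi 1), seg f (lo 2) (hi 2)]).Perm
        [seg f (lo (π.symm 0)) (hi (π.symm 0)),
        seg f (lo (π.symm 1)) (hi (π.symm 1)), seg f (lo (π.symm 2)) (hi (π.symm 2))] := by
      have := Equiv.Perm.ofFn_comp_perm π.symm (fun i : Fin 3 => seg f (lo i) (hi i))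
      simpa [List.ofFn_succ] using this.symm
    have r3 := (r1.of_perm r2).steps []
    have r4 : seg f (lo 0) (hi 0) ++ (seg f (lo 1) (hi 1) ++ seg f (lo 2) (hi 2)) = w := by
      show seg f 0 b1 ++ (seg f b1 b2 ++ seg f b2 n) = w
      rw [seg_append f b12.le b2n.le, seg_append f (by omega) (by omega), hwf]
    simpa [r4] using r3
  obtain ⟨w', hw1, hw2⟩ := family bar_invol (Gd_symm hμ'm) h (S 0) (S 1) (S 2) (t 0) (t 1) (t 2)
    (fun j hj => ⟨hne 0 j (by omega), hne 1 j (by omega), hne 2 j (by omega)⟩)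
    (fun j hj => hlink 0 j (by omega)) (fun j hj => hlink 1 j (by omega))
    (fun j hj => hlink 2 j (by omega)) hrearr
  obtain ⟨m, hm, hw3⟩ := toSteps hw1
  refine ⟨w', m, by omega, hw3, ?_⟩
  -- counting
  set μD := switch μ c D with hμD
  have hfilt : ∀ a : Fin 3, ((Finset.Ioo (lo (π.symm a)) (hi (π.symm a))).filter
      (fun q => ¬ Gd μ' (f (q - 1)) (f q) ∧ ∀ j < 2 * h + 1, q ≠ x a (g' j))).card ≤
      bad (Gd μD) (seg f (lo (π.symm a)) (hi (π.symm a))) := by
    intro a
    rw [bad_seg f (Gd μD) (hlohi _).le]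
    refine Finset.card_le_card ?_
    intro q hq
    simp only [Finset.mem_filter, Finset.mem_Ioo] at hq ⊢
    obtain ⟨⟨q1, q2⟩, q3, q4⟩ := hq
    refine ⟨⟨q1, q2⟩, fun hgood => q3 ?_⟩
    have hqn : q < n := by
      have : hi (π.symm a) ≤ n := by
        generalize π.symm a = i
        fin_cases i
        · show b1 ≤ n; omega
        · show b2 ≤ n; omega
        · exact le_rfl
      omega
    have hnotF : ∀ k ∈ F, ∀ i, c k i ≠ f (q - 1) := by
      intro k hk i he
      obtain ⟨j, hj, rfl⟩ := hFmem k hk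
      obtain ⟨b, hb⟩ := exists_cut i
      obtain ⟨p1, p2, p3, p4⟩ := hpos _ (hg'J j hj) b
      have hz : x b (g' j) ≠ q := by
        intro hzq
        by_cases hab : b = a
        · subst hab; exact q4 j hj hzq.symm
        · obtain ⟨z1, z2⟩ := hin' b j hj
          rw [hzq] at z1 z2
          exact hab (π.symm.injective (hdisj _ _ q z1 z2 q1 q2))
      have two : f (x b (g' j) - 1) = c (g' j) i ∨
          f (x b (g' j)) = MP29a61eN.bar (c (g' j) i) := by
        rw [p3, p4]
        rcases hb with rfl | rfl <;> cases σ b <;> simp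
      rcases two with h1 | h1
      · rw [he] at h1
        have := hinj _ _ (by omega) (by omega) (congrArg Prod.fst h1)
        omega
      · rw [he] at h1
        have h2 : (f (x b (g' j))).1 = (f (q - 1)).1 := by rw [h1]; rfl
        have h3 := hinj _ _ p2 (by omega) h2
        rw [h3] at h1
        exact MP29a61eN.bar_ne _ h1.symm
    have heq : μ' (f (q - 1)) = μD (f (q - 1)) := by
      by_cases hD : ∃ k ∈ D, ∃ i, c k i = f (q - 1)
      · obtain ⟨k, hk, i, he⟩ := hD
        rw [← he, hμ', hμD, switch_mem hc hk, switch_mem hc (Finset.mem_union_left _ hk)]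
      · have hD' : ∀ k ∈ D, ∀ i, c k i ≠ f (q - 1) := fun k hk i he => hD ⟨k, hk, i, he⟩
        rw [hμ', hμD, switch_not hD', switch_not]
        intro k hk
        rcases Finset.mem_union.1 hk with hk | hk
        · exact hD' k hk
        · exact hnotF k hk
    unfold Gd phi at hgood ⊢
    rw [heq]; exact hgood
  have hsum3 : bad (Gd μD) (seg f (lo (π.symm 0)) (hi (π.symm 0))) +
      bad (Gd μD) (seg f (lo (π.symm 1)) (hi (π.symm 1))) +
      bad (Gd μD) (seg f (lo (π.symm 2)) (hi (π.symm 2))) ≤ bad (Gd μD) w := by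
    have e1 := Equiv.sum_comp π.symm (fun i : Fin 3 => bad (Gd μD) (seg f (lo i) (hi i)))
    simp only [Fin.sum_univ_three] at e1
    rw [e1]
    show bad (Gd μD) (seg f 0 b1) + bad (Gd μD) (seg f b1 b2) + bad (Gd μD) (seg f b2 n) ≤ _
    have e2 := le_bad_append (Gd μD) (seg f 0 b1) (seg f b1 b2 ++ seg f b2 n)
    have e3 := le_bad_append (Gd μD) (seg f b1 b2) (seg f b2 n)
    rw [seg_append f b12.le b2n.le, seg_append f (by omega) (by omega), hwf] at e2
    rw [seg_append f b12.le b2n.le] at e3
    omega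
  have g1 := bad_le_lin oo μ' w'
  have g2 := lin_le_bad oo μD w
  have g3 := (hbad 0).trans (hfilt 0)
  have g4 := (hbad 1).trans (hfilt 1)
  have g5 := (hbad 2).trans (hfilt 2)
  rw [show 2 * (h + 1) = 2 * h + 1 + 1 by omega, Finset.sum_add_distrib,
    Finset.sum_add_distrib] at hw2
  omega

end Pool.Agent.Lib.MP29a61eN.Fam
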