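import Mathlib
import Pool.Agent.Lib.MP_29a61e_co.N2.Local2
import Pool.Agent.Lib.MP_29a61e_co.H.Lower

/-!
# MP_29a61e_co, M(n) <= n/2 + o(n): module FINAL

`M n / n → 1 / 2` from `SpecMain` and the parity lower bound of `H/Lower.lean`.
-/

namespace Pool.Agent.Lib.MP29a61eN

open Pool.Agent.Lib.MP29a61e

/-- `M n` is the sorting distance of some permutation. -/
theorem M_attained (n : ℕ) : ∃ π : Equiv.Perm (Fin n), M n = sortDist π := by
  obtain ⟨π, _, h⟩ := Finset.exists_mem_eq_sup (Finset.univ : Finset (Equiv.Perm (Fin n)))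
    Finset.univ_nonempty (fun π => sortDist π)
  exact ⟨π, h⟩

theorem sortDist_le_M {n : ℕ} (π : Equiv.Perm (Fin n)) : sortDist π ≤ M n :=
  Finset.le_sup (f := fun π : Equiv.Perm (Fin n) => sortDist π) (Finset.mem_univ π)

/-- The lower bound: `(1/2 - ε) n ≤ M n` for all large `n`. -/
theorem M_ge (ε : ℝ) (hε : 0 < ε) : ∃ n₀ : ℕ, ∀ n ≥ n₀, (1 / 2 - ε) * n ≤ (M n : ℝ) := by
  obtain ⟨_, n₀, h⟩ := Pool.Agent.Lib.MP29a61eH.lower ε hε
  refine ⟨n₀, fun n hn => ?_⟩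
  obtain ⟨π, _, h2⟩ := h n hn
  exact h2.trans (by exact_mod_cast sortDist_le_M π)

/-- The upper bound: `M n ≤ (1/2 + ε) n` for all large `n`. -/
theorem M_le (hM : SpecMain) (ε : ℝ) (hε : 0 < ε) :
    ∃ n₀ : ℕ, ∀ n ≥ n₀, (M n : ℝ) ≤ (1 / 2 + ε) * n := by
  obtain ⟨n₀, h⟩ := hM ε hε
  refine ⟨n₀, fun n hn => ?_⟩
  obtain ⟨π, hπ⟩ := M_attained n
  obtain ⟨k, hk, hs⟩ := h n hn π
  have h1 : sortDist π ≤ k := Nat.sInf_le hs
  rw [hπ]
  exact le_trans (by exact_mod_cast h1) hk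

theorem specFinal (hM : SpecMain) : SpecFinal := by
  unfold SpecFinal
  rw [Metric.tendsto_atTop]
  intro ε hε
  obtain ⟨n₁, h1⟩ := M_ge (ε / 2) (by linarith)
  obtain ⟨n₂, h2⟩ := M_le hM (ε / 2) (by linarith)
  refine ⟨n₁ + n₂ + 1, fun n hn => ?_⟩
  have hn0 : (0 : ℝ) < n := by
    have : 0 < n := by omega
    exact_mod_cast this
  have h3 := h1 n (by omega)
  have h4 := h2 n (by omega)
  have h5 : 1 / 2 - ε / 2 ≤ (M n : ℝ) / n := by
    rw [le_div_iff₀ hn0]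
    exact h3
  have h6 : (M n : ℝ) / n ≤ 1 / 2 + ε / 2 := by
    rw [div_le_iff₀ hn0]
    exact h4
  rw [Real.dist_eq, abs_lt]
  constructor
  · linarith
  · linarith

end Pool.Agent.Lib.MP29a61eN
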