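import Pool.Agent.Lib.MP_29a61e_co.N2.Local1
import Pool.Agent.Lib.MP_29a61e_co.N2.SW
import Pool.Agent.Lib.MP_29a61e_co.N2.Orb

/-!
# MP_29a61e_co, M(n) <= n/2 + o(n): module H2 (coherence of the heads)
-/

namespace Pool.Agent.Lib.MP29a61eN.HTwo

open Pool.Agent.Lib.MP29a61eN

variable {X V : Type}

/-! ### Lists -/

theorem count_inst (m : List (Option ℕ)) (a : Option ℕ) :
    @List.count _ instBEqOfDecidableEq a m = List.count a m := by
  induction m with
  | nil => rfl
  | cons x m ih =>
    have h1 : @List.count _ instBEqOfDecidableEq a (x :: m) =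
        @List.count _ instBEqOfDecidableEq a m + if x = a then 1 else 0 := by
      simpa using @List.count_cons _ instBEqOfDecidableEq a x m
    have h2 : List.count a (x :: m) = List.count a m + if x = a then 1 else 0 := by
      simpa using List.count_cons (a := a) (b := x) (l := m)
    rw [h1, h2, ih]

theorem even_special {l : List (Option ℕ)} (h : ∀ i, Even (l.count (some i))) :
    Even ((l.filter Option.isSome).length) := by
  rw [← List.sum_toFinset_count_eq_length]
  refine Finset.even_sum _ (fun a ha => ?_)
  rw [List.mem_toFinset, List.mem_filter] at ha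
  obtain ⟨i, rfl⟩ := Option.isSome_iff_exists.1 ha.2
  have h1 : (l.filter Option.isSome).count (some i) = l.count (some i) :=
    List.count_filter (by simp)
  have h2 := count_inst (l.filter Option.isSome) (some i)
  have h3 := h i
  rw [← h1, ← h2] at h3
  exact h3

theorem count_map_one {β : Type} [BEq β] [LawfulBEq β] (g : ℕ → β) (w : β) (s0 : ℕ) :
    ∀ r : List ℕ, r.Nodup → s0 ∈ r → (∀ s ∈ r, g s = w ↔ s = s0) → (r.map g).count w = 1
  | [], _, h, _ => by simp at h
  | s :: r, hn, hm, hg => by
    rw [List.nodup_cons] at hn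
    rw [List.map_cons, List.count_cons]
    by_cases hs : s = s0
    · subst hs
      have h0 : (r.map g).count w = 0 := by
        rw [List.count_eq_zero]
        intro hw
        obtain ⟨s', hs', he⟩ := List.mem_map.1 hw
        have := (hg s' (List.mem_cons_of_mem _ hs')).1 he
        exact hn.1 (this ▸ hs')
      have h1 : g s = w := (hg s (List.mem_cons_self ..)).2 rfl
      rw [h0, h1]
      simp
    · have h1 : ¬ g s = w := fun h => hs ((hg s (List.mem_cons_self ..)).1 h)
      have hm' : s0 ∈ r := by
        rcases List.mem_cons.1 hm with h | h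
        · exact absurd h.symm hs
        · exact h
      rw [count_map_one g w s0 r hn.2 hm' (fun s' hs' => hg s' (List.mem_cons_of_mem _ hs'))]
      simp [h1]

theorem count_filter_some (l : List (Option ℕ)) (i : ℕ) :
    (l.filter Option.isSome).count (some i) = l.count (some i) :=
  List.count_filter (by simp)

/-! ### Links -/

section links
variable {S : Str X} {comp : X → V} {adj : V → V → Prop} {L : List (V × V)}
  {eT : X → ℕ} {eW : End X → ℕ} {Def : Finset X} {Op : Finset X}

/-- the letter in whose component the end `e` sits. -/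
def pl (S : Str X) (e : End X) : X := if e.2 = true then S.b e.1 else e.1

theorem pe_eq (S : Str X) (comp : X → V) (e : End X) : pe S comp e = comp (pl S e) := by
  unfold pe pl
  split <;> rfl

theorem r_ne (hO : S.Ok) {x : X} (hx : x ∈ S.E) : S.r x ≠ x := by
  intro h
  apply hO.paired x hx
  have := congrArg S.b h
  simpa [Str.r] using this

theorem sv_ne (hO : S.Ok) {x : X} (hx : x ∈ S.E) : S.s (S.v x) ≠ S.v x := by
  rw [hO.sv x hx]
  intro h
  exact r_ne hO hx (S.v.injective h)

open Classical in
theorem mu_l (y : X) : S.mu Op (y, false) =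
      (if S.v.symm y ∈ Op ∧ (S.Lo Op y ∨ S.c y = true) then (S.v.symm y, true)
      else if S.Lo Op y then (if S.s y = y then S.W (y, false) else (S.s y, false))
      else (S.b.symm y, true)) := rfl

open Classical in
theorem mu_r (x : X) : S.mu Op (x, true) =
      (if x ∉ S.E then S.W (x, true)
      else if x ∈ Op then
        (if S.Lo Op (S.v x) ∨ S.c x = true then (S.v x, false)
          else (S.b.symm (S.s (S.v x)), true))
      else if S.v.symm (S.b x) ∈ Op ∧ S.c (S.v.symm (S.b x)) = true then
        (S.r (S.v.symm (S.b x)), true)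
      else (S.b x, false)) := rfl

theorem link (hO : S.Ok) (hv : Over S comp adj L eT eW Def) (hI : S.Inv Op) :
    ∀ e : End X, ¬ S.WEnd e →
      ((S.mu Op e).2 = !e.2 ∧ pe S comp (S.mu Op e) = pe S comp e) ∨
      ((S.mu Op e).2 = e.2 ∧ S.s (pl S e) ≠ pl S e ∧
        pe S comp (S.mu Op e) = comp (S.s (pl S e)))
  | (y, false), he => by
    rw [mu_l]
    split_ifs with h1 h2 h3
    · left
      refine ⟨rfl, ?_⟩
      have h := hv.bv _ (hI.sub _ h1.1)
      simp only [pe, if_true, Bool.false_eq_true, if_false] 
      rw [h]
      simp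
    · exact absurd (Or.inr ⟨rfl, h3⟩) he
    · right
      exact ⟨rfl, h3, by simp [pe, pl]⟩
    · left
      exact ⟨rfl, by simp [pe]⟩
  | (x, true), he => by
    have hx : x ∈ S.E := by
      by_contra h
      exact he (Or.inl ⟨rfl, h⟩)
    rw [mu_r, if_neg (not_not.2 hx)]
    split_ifs with h1 h2 h3
    · left
      refine ⟨rfl, ?_⟩
      simp only [pe, if_true, Bool.false_eq_true, if_false]
      exact (hv.bv x hx).symm
    · right
      refine ⟨rfl, by simpa [pl] using hO.paired x hx, ?_⟩
      have h := (hv.twinc (S.v x) (S.b x) (sv_ne hO hx) (hO.paired x hx) (hv.bv x hx).symm).2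
      simpa [pe, pl] using h
    · right
      refine ⟨rfl, by simpa [pl] using hO.paired x hx, ?_⟩
      have hw := hI.sub _ h3.1
      have hc : comp (S.b (S.v.symm (S.b x))) = comp (S.b x) := by
        rw [hv.bv _ hw]
        simp
      have h := (hv.twinc _ (S.b x) (hO.paired _ hw) (hO.paired x hx) hc).2
      simpa [pe, pl, Str.r] using h
    · left
      exact ⟨rfl, by simp [pe]⟩

/-- the sign of an end that sits at the component of `y` or of `s y`. -/
noncomputable def sg (S : Str X) (comp : X → V) (y : X) (e : End X) : Bool := by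
  classical
  exact if pe S comp e = comp (S.s y) then !e.2 else e.2

theorem sg_link (hO : S.Ok) (hv : Over S comp adj L eT eW Def) (hI : S.Inv Op) {y : X}
    (hy : S.s y ≠ y) (hne : comp y ≠ comp (S.s y)) {e : End X} (he : ¬ S.WEnd e)
    (hpe : pe S comp e = comp y ∨ pe S comp e = comp (S.s y)) :
    (pe S comp (S.mu Op e) = comp y ∨ pe S comp (S.mu Op e) = comp (S.s y)) ∧
      sg S comp y (S.mu Op e) = !sg S comp y e := by
  rcases link hO hv hI e he with ⟨h1, h2⟩ | ⟨h1, h2, h3⟩
  · refine ⟨by rw [h2]; exact hpe, ?_⟩
    unfold sg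
    rw [h2, h1]
    split_ifs <;> rfl
  · rcases hpe with hpe | hpe
    · have h4 : comp (S.s (pl S e)) = comp (S.s y) :=
        (hv.twinc _ _ h2 hy (by rw [← pe_eq S comp e]; exact hpe)).2
      rw [h4] at h3
      refine ⟨Or.inr h3, ?_⟩
      unfold sg
      rw [if_pos h3, if_neg (by rw [hpe]; exact hne), h1]
    · have hy' : S.s (S.s y) ≠ S.s y := by
        rw [hO.ss]
        exact hy.symm
      have h4 : comp (S.s (pl S e)) = comp (S.s (S.s y)) :=
        (hv.twinc _ _ h2 hy' (by rw [← pe_eq S comp e]; exact hpe)).2
      rw [h4, hO.ss] at h3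
      refine ⟨Or.inl h3, ?_⟩
      unfold sg
      rw [if_neg (by rw [h3]; exact hne), if_pos hpe, h1]
      simp

theorem wend_mu (hO : S.Ok) (hM : IsMatching (S.mu Op))
    (hW : ∀ e, S.WEnd e → S.mu Op e = S.W e) {e : End X} (he : ¬ S.WEnd e) :
    ¬ S.WEnd (S.mu Op e) := by
  intro h
  apply he
  have h1 := hO.wend _ h
  rwa [← hW _ h, hM.inv] at h1

theorem comp_ne (hv : Over S comp adj L eT eW Def) {D : ℕ} (hF : FAR.Far adj L D) {y : X}
    (hy : S.s y ≠ y) : comp y ≠ comp (S.s y) := by
  rcases hv.twin y hy with h | h
  · exact hF.ne h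
  · exact (hF.ne h).symm

end links

/-- The parity of the number of links joining ends of the same side. -/
theorem side_run (μ : End X → End X) (g : ℕ → Option ℕ) (e : End X) :
    ∀ t : ℕ, (∀ s < t, ((g s).isSome = true ↔ (μ ((phi μ)^[s] e)).2 = ((phi μ)^[s] e).2)) →
      (((phi μ)^[t] e).2 = e.2 ↔ Even ((((List.range t).map g).filter Option.isSome).length))
  | 0, _ => by simp
  | t + 1, h => by
    have ih := side_run μ g e t (fun s hs => h s (by omega))
    have ht := h t (by omega)
    rw [Function.iterate_succ_apply', List.range_succ, List.map_append, List.filter_append,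
      List.length_append, List.map_singleton]
    set f := (phi μ)^[t] e with hf
    by_cases hs : (g t).isSome = true
    · have h1 := ht.1 hs
      have h2 : ([g t].filter Option.isSome).length = 1 := by simp [List.filter, hs]
      rw [h2, Nat.even_add_one, ← ih]
      have h3 : (phi μ f).2 = !f.2 := by
        simp [phi, h1]
      rw [h3]
      cases f.2 <;> cases e.2 <;> simp
    · have h1 : (μ f).2 ≠ f.2 := fun h => hs (ht.2 h)
      have h2 : ([g t].filter Option.isSome).length = 0 := by simp [List.filter, hs]
      rw [h2, Nat.add_zero, ← ih]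
      have h3 : (phi μ f).2 = f.2 := by
        simp only [phi, bar_snd]
        cases hh : (μ f).2 <;> cases hh' : f.2 <;> simp_all
      rw [h3]

/-- The main step: the ends of a short path between two ends at the components of `y` and `s y` have
opposite signs. -/
theorem opposite (hWalk : SpecWalk) [Fintype X] [DecidableEq X] {S : Str X} {comp : X → V}
    {adj : V → V → Prop} {L : List (V × V)} {eT : X → ℕ} {eW : End X → ℕ} {Def : Finset X}
    {Op : Finset X} {D G : ℕ} (hO : S.Ok) (hv : Over S comp adj L eT eW Def) (hI : S.Inv Op)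
    (hM : IsMatching (S.mu Op)) (hF : FAR.Far adj L D) (hH1 : H1 (S.mu Op) G Def) {y : X}
    (hy : S.s y ≠ y) {a z : End X} {t : ℕ} (ht : t ≤ G) (hD : 2 * t + 2 ≤ D + 1)
    (hpa : pe S comp a = comp y ∨ pe S comp a = comp (S.s y))
    (hpz : pe S comp z = comp y ∨ pe S comp z = comp (S.s y))
    (hz : (phi (S.mu Op))^[t] (bar a) = z)
    (hDef : ∀ s ≤ t, ((phi (S.mu Op))^[s] (bar a)).1 ∉ Def) :
    sg S comp y z = !sg S comp y a := by
  classical
  obtain ⟨hw1, hw2, hw3⟩ := hWalk X V S comp adj L eT eW Def Op hO hv hI
  obtain ⟨l, hl, hlen, hlab⟩ := hw1 (bar a) t hDef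
  rw [bar_bar, hz] at hl
  set f : ℕ → End X := fun s => (phi (S.mu Op))^[s] (bar a) with hf
  set g : ℕ → Option ℕ := fun s => lab S eT eW Op (f s) with hg
  -- the path is simple
  have hlt : ∀ s s', s < s' → s' ≤ t → f s ≠ f s' := by
    intro s s' hs hs' he
    have h1 : (phi (S.mu Op))^[s' - s] (bar a) = bar a := by
      have h2 : (phi (S.mu Op))^[s] ((phi (S.mu Op))^[s' - s] (bar a)) =
          (phi (S.mu Op))^[s] (bar a) := by
        rw [← Function.iterate_add_apply]
        have : s + (s' - s) = s' := by omega
        rw [this]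
        exact he.symm
      exact (phi_inj hM).iterate s h2
    obtain ⟨i, hi, hid⟩ := hH1 (bar a) (s' - s) (by omega) (by omega) h1
    exact hDef i (by omega) hid
  have hsimple : ∀ s s', s ≤ t → s' ≤ t → f s = f s' → s = s' := by
    intro s s' hs hs' he
    rcases lt_trichotomy s s' with h | h | h
    · exact absurd he (hlt s s' h hs')
    · exact h
    · exact absurd he.symm (hlt s' s h hs)
  -- the closed walk
  obtain ⟨u, hu, huu⟩ : ∃ u : List (Option ℕ), FAR.W adj L (pe S comp z) u (pe S comp a) ∧
      ((pe S comp a = pe S comp z ∧ u = []) ∨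
        (pe S comp a ≠ pe S comp z ∧ u = [some (eT y)])) := by
    by_cases hp : pe S comp a = pe S comp z
    · refine ⟨[], ?_, Or.inl ⟨hp, rfl⟩⟩
      rw [hp]
      exact FAR.W.nil _
    · refine ⟨[some (eT y)], ?_, Or.inr ⟨hp, rfl⟩⟩
      refine FAR.W.cons ?_ (FAR.W.nil _)
      have h := hv.twin y hy
      rcases hpa with h1 | h1 <;> rcases hpz with h2 | h2
      · exact absurd (h1.trans h2.symm) hp
      · rw [h1, h2]
        exact Or.symm h
      · rw [h1, h2]
        exact h
      · exact absurd (h1.trans h2.symm) hp
  have hulen : u.length ≤ 1 := by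
    rcases huu with ⟨-, h⟩ | ⟨-, h⟩ <;> rw [h] <;> simp
  have hev : ∀ i, Even ((l ++ u).count (some i)) := by
    intro i
    refine FAR.even_count hv.rsymm hF i _ (pe S comp a) (l ++ u) rfl (hl.append hu) ?_
    rw [List.length_append]
    omega
  -- no world link
  have hnw : ∀ s < t, ¬ S.WEnd (f s) := by
    intro s hs hws
    have hgs : g s = some (eW (f s)) := by
      simp only [hg, lab]
      rw [if_pos hws]
    have huniq : ∀ s' ∈ List.range t, g s' = some (eW (f s)) ↔ s' = s := by
      intro s' hs'
      rw [List.mem_range] at hs'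
      constructor
      · intro h
        by_cases hws' : S.WEnd (f s')
        · have h1 : g s' = some (eW (f s')) := by
            simp only [hg, lab]
            rw [if_pos hws']
          rw [h1] at h
          have h2 : eW (f s) = eW (f s') := (Option.some.inj h).symm
          rcases hv.winj (f s) (f s') hws hws' (hDef s hs.le) (hDef s' hs'.le) h2 with h3 | h3
          · exact hsimple s' s hs'.le hs.le h3
          · rw [← hw3 _ hws] at h3
            exact absurd h3 (iter_ne_mu_iter hM s' s (bar a))
        · exfalso
          have h1 : g s' = if (S.mu Op (f s')).2 = (f s').2 then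
              some (eT (if (f s').2 = true then S.b (f s').1 else (f s').1)) else none := by
            simp only [hg, lab]
            rw [if_neg hws']
          by_cases hsd : (S.mu Op (f s')).2 = (f s').2
          · rw [if_pos hsd] at h1
            rw [h1] at h
            exact hv.wtwin (f s) hws (hDef s hs.le) _ (hw2 _ hws' hsd) (Option.some.inj h).symm
          · rw [if_neg hsd] at h1
            rw [h1] at h
            exact absurd h (by simp)
      · rintro rfl
        exact hgs
    have h1 := count_map_one g (some (eW (f s))) s (List.range t) List.nodup_range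
      (List.mem_range.2 hs) huniq
    have h2 : l.count (some (eW (f s))) = 1 := by
      rw [← count_filter_some, hlab, count_filter_some]
      exact h1
    have h3 : u.count (some (eW (f s))) = 0 := by
      rcases huu with ⟨-, h⟩ | ⟨-, h⟩
      · rw [h]
        simp
      · rw [h, List.count_eq_zero]
        intro hm
        rw [List.mem_singleton] at hm
        exact hv.wtwin (f s) hws (hDef s hs.le) y hy (Option.some.inj hm)
    have h4 := hev (eW (f s))
    rw [List.count_append, h2, h3] at h4
    exact absurd h4 (by decide)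
  -- parity
  have hside := side_run (S.mu Op) g (bar a) t (by
    intro s hs
    have h1 : g s = if (S.mu Op (f s)).2 = (f s).2 then
        some (eT (if (f s).2 = true then S.b (f s).1 else (f s).1)) else none := by
      simp only [hg, lab]
      rw [if_neg (hnw s hs)]
    by_cases h : (S.mu Op (f s)).2 = (f s).2
    · rw [if_pos h] at h1
      rw [h1]
      exact ⟨fun _ => h, fun _ => rfl⟩
    · rw [if_neg h] at h1
      rw [h1]
      exact ⟨fun h' => absurd h' (by simp), fun h' => absurd h' h⟩)
  rw [hz] at hside
  have htot := even_special hev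
  rw [List.filter_append, List.length_append, hlab] at htot
  have hne := comp_ne hv hF hy
  rcases huu with ⟨hp, h⟩ | ⟨hp, h⟩
  · rw [h] at htot
    simp only [List.filter_nil, List.length_nil, Nat.add_zero] at htot
    have h1 : z.2 = !a.2 := hside.2 htot
    unfold sg
    rw [← hp, h1]
    split_ifs <;> rfl
  · rw [h] at htot
    have h0 : ([some (eT y)].filter Option.isSome).length = 1 := by simp [List.filter]
    rw [h0, Nat.even_add_one, ← hside] at htot
    have h1 : z.2 = a.2 := by
      have : z.2 ≠ !a.2 := htot
      cases hz2 : z.2 <;> cases ha2 : a.2 <;> simp_all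
    unfold sg
    rcases hpa with h2 | h2 <;> rcases hpz with h3 | h3
    · exact absurd (h2.trans h3.symm) hp
    · rw [if_pos h3, if_neg (by rw [h2]; exact hne), h1]
    · rw [if_neg (by rw [h3]; exact hne), if_pos h2, h1]
      simp
    · exact absurd (h2.trans h3.symm) hp

/-- parity of the index of an end of a head. -/
def par (i : Fin 6) : Bool := ![false, true, false, true, false, true] i

theorem par_old (i : Fin 6) : par (oldPartner i) = !par i := by
  revert i; decide

theorem par_new (i : Fin 6) : par (newPartner i) = !par i := by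
  revert i; decide

theorem par_cases (i j : Fin 6) (h : par j = !par i) :
    j = oldPartner i ∨ j = newPartner i ∨ j = i + 3 := by
  revert i j; decide

theorem switch_insert {K : Type} [DecidableEq K] {μ : End X → End X} {c : K → Fin 6 → End X} {D : Finset K}
    (hc : IsHeads μ c) {k : K} {e : End X} (he : ∀ l, e ≠ c k l) :
    switch μ c (insert k D) e = switch μ c D e := by
  by_cases h : ∃ k' ∈ D, ∃ i, c k' i = e
  · obtain ⟨k', hk', i, rfl⟩ := h
    rw [switch_mem hc hk', switch_mem hc (Finset.mem_insert_of_mem hk')]
  · push Not at h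
    rw [switch_of_not h, switch_of_not]
    intro k' hk' i
    rcases Finset.mem_insert.1 hk' with rfl | hk'
    · exact (he i).symm
    · exact h k' hk' i

end Pool.Agent.Lib.MP29a61eN.HTwo

namespace Pool.Agent.Lib.MP29a61eN

open HTwo

theorem specH2 (hState : SpecState) (hHead : SpecHead) (hH1s : SpecH1) (hWalk : SpecWalk) :
    SpecH2 := by
  intro X V _ _ S comp adj L eT eW Def D L' t Op K hO hv hF hD hI hK hA D'
  obtain ⟨hc, hsw⟩ := hHead X S Op K t hO hI hK
  intro k hk i j τ hτ hrun hcut hDef
  have hadm : ∀ D0 : Finset K,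
      S.Adm t (S.addPairs Op (D0.map (Function.Embedding.subtype _))) := by
    intro D0
    refine hA _ ?_
    intro x hx
    obtain ⟨y, -, rfl⟩ := Finset.mem_map.1 hx
    exact y.2
  have hM : ∀ D0 : Finset K,
      IsMatching (S.mu (S.addPairs Op (D0.map (Function.Embedding.subtype _)))) :=
    fun D0 => hState X S _ hO (hadm D0).toInv
  have hH : ∀ D0 : Finset K,
      H1 (S.mu (S.addPairs Op (D0.map (Function.Embedding.subtype _)))) (L' + 1) Def :=
    fun D0 => hH1s X V S comp adj L eT eW Def D (L' + 1) t _ hO hv hF (by omega) (hadm D0)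
  have hW : ∀ D0 : Finset K, ∀ e, S.WEnd e →
      S.mu (S.addPairs Op (D0.map (Function.Embedding.subtype _))) e = S.W e :=
    fun D0 => (hWalk X V S comp adj L eT eW Def _ hO hv (hadm D0).toInv).2.2
  have hold : ∀ i, S.mu (S.addPairs Op (D'.map (Function.Embedding.subtype _)))
      (S.head Op k.1 i) = S.head Op k.1 (oldPartner i) := by
    intro i
    rw [← hsw D']
    exact switch_not_mem hc hk i
  have hnew : ∀ i, S.mu (S.addPairs Op ((insert k D').map (Function.Embedding.subtype _)))
      (S.head Op k.1 i) = S.head Op k.1 (newPartner i) := by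
    intro i
    rw [← hsw (insert k D')]
    exact switch_mem hc (Finset.mem_insert_self k D') i
  have hkE : k.1 ∈ S.E := (hK k.1 k.2).1
  set y := S.b k.1 with hydef
  have hy : S.s y ≠ y := hO.paired _ hkE
  have hne := comp_ne hv hF hy
  have h0 : S.head Op k.1 0 = (k.1, true) := rfl
  -- the signs alternate
  have P0 : ¬ S.WEnd (S.head Op k.1 0) ∧ (pe S comp (S.head Op k.1 0) = comp y ∨
      pe S comp (S.head Op k.1 0) = comp (S.s y)) ∧
      sg S comp y (S.head Op k.1 0) = xor (sg S comp y (S.head Op k.1 0)) (par 0) := by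
    refine ⟨?_, Or.inl ?_, ?_⟩
    · rw [h0]
      rintro (⟨-, h⟩ | ⟨h, -⟩)
      · exact h hkE
      · exact absurd h (by simp)
    · rw [h0]
      simp [pe, hydef]
    · simp [par]
  have stepO : ∀ i, (¬ S.WEnd (S.head Op k.1 i) ∧ (pe S comp (S.head Op k.1 i) = comp y ∨
      pe S comp (S.head Op k.1 i) = comp (S.s y)) ∧
      sg S comp y (S.head Op k.1 i) = xor (sg S comp y (S.head Op k.1 0)) (par i)) →
      (¬ S.WEnd (S.head Op k.1 (oldPartner i)) ∧
      (pe S comp (S.head Op k.1 (oldPartner i)) = comp y ∨
      pe S comp (S.head Op k.1 (oldPartner i)) = comp (S.s y)) ∧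
      sg S comp y (S.head Op k.1 (oldPartner i)) =
        xor (sg S comp y (S.head Op k.1 0)) (par (oldPartner i))) := by
    rintro i ⟨h1, h2, h3⟩
    have h4 := sg_link hO hv (hadm D').toInv hy hne h1 h2
    rw [hold i] at h4
    refine ⟨?_, h4.1, ?_⟩
    · have h5 := wend_mu hO (hM D') (hW D') h1
      rwa [hold i] at h5
    · rw [h4.2, h3, par_old]
      cases sg S comp y (S.head Op k.1 0) <;> cases par i <;> rfl
  have stepN : ∀ i, (¬ S.WEnd (S.head Op k.1 i) ∧ (pe S comp (S.head Op k.1 i) = comp y ∨
      pe S comp (S.head Op k.1 i) = comp (S.s y)) ∧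
      sg S comp y (S.head Op k.1 i) = xor (sg S comp y (S.head Op k.1 0)) (par i)) →
      (¬ S.WEnd (S.head Op k.1 (newPartner i)) ∧
      (pe S comp (S.head Op k.1 (newPartner i)) = comp y ∨
      pe S comp (S.head Op k.1 (newPartner i)) = comp (S.s y)) ∧
      sg S comp y (S.head Op k.1 (newPartner i)) =
        xor (sg S comp y (S.head Op k.1 0)) (par (newPartner i))) := by
    rintro i ⟨h1, h2, h3⟩
    have h4 := sg_link hO hv (hadm (insert k D')).toInv hy hne h1 h2
    rw [hnew i] at h4
    refine ⟨?_, h4.1, ?_⟩
    · have h5 := wend_mu hO (hM (insert k D')) (hW (insert k D')) h1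
      rwa [hnew i] at h5
    · rw [h4.2, h3, par_new]
      cases sg S comp y (S.head Op k.1 0) <;> cases par i <;> rfl
  have P1 := stepO 0 P0
  have P2 := stepN _ P1
  have P3 := stepO _ P2
  have P4 := stepN _ P3
  have P5 := stepO _ P4
  have P : ∀ i, (¬ S.WEnd (S.head Op k.1 i) ∧ (pe S comp (S.head Op k.1 i) = comp y ∨
      pe S comp (S.head Op k.1 i) = comp (S.s y)) ∧
      sg S comp y (S.head Op k.1 i) = xor (sg S comp y (S.head Op k.1 0)) (par i)) := by
    intro i
    fin_cases i
    · exact P0
    · exact P1
    · exact P2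
    · exact P3
    · exact P4
    · exact P5
  -- the path
  rw [hsw D'] at hrun hcut hDef
  have hopp := opposite hWalk hO hv (hadm D').toInv (hM D') hF (hH D') hy
    (a := S.head Op k.1 i) (z := S.head Op k.1 j) (t := τ) (by omega) (by omega)
    (P i).2.1 (P j).2.1 hrun hDef
  rw [(P i).2.2, (P j).2.2] at hopp
  have hpar : par j = !par i := by
    revert hopp
    cases sg S comp y (S.head Op k.1 0) <;> cases par i <;> cases par j <;> simp
  rcases par_cases i j hpar with hj | hj | hj
  · exfalso
    have h1 : (phi (S.mu (S.addPairs Op (D'.map (Function.Embedding.subtype _)))))^[τ + 1]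
        (bar (S.head Op k.1 i)) = bar (S.head Op k.1 i) := by
      rw [Function.iterate_succ_apply', hrun, phi, hold, hj, oldPartner_oldPartner]
    obtain ⟨i0, hi0, hd⟩ := hH D' _ (τ + 1) (by omega) (by omega) h1
    exact hDef i0 (by omega) hd
  · exfalso
    have hsame : ∀ s ≤ τ,
        (phi (S.mu (S.addPairs Op ((insert k D').map (Function.Embedding.subtype _)))))^[s]
          (bar (S.head Op k.1 i)) =
        (phi (S.mu (S.addPairs Op (D'.map (Function.Embedding.subtype _)))))^[s]
          (bar (S.head Op k.1 i)) := by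
      intro s
      induction s with
      | zero => intro _; rfl
      | succ s ih =>
        intro hs
        rw [Function.iterate_succ_apply', Function.iterate_succ_apply', ih (by omega)]
        unfold phi
        congr 1
        rw [← hsw (insert k D'), ← hsw D']
        refine switch_insert hc ?_
        intro l hl
        refine hcut s (by omega) l ?_
        rw [← hsw D']
        exact hl
    have h1 : (phi (S.mu (S.addPairs Op
          ((insert k D').map (Function.Embedding.subtype _)))))^[τ + 1]
        (bar (S.head Op k.1 i)) = bar (S.head Op k.1 i) := by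
      rw [Function.iterate_succ_apply', hsame τ le_rfl, hrun, phi, hnew, hj,
        newPartner_newPartner]
    obtain ⟨i0, hi0, hd⟩ := hH (insert k D') _ (τ + 1) (by omega) (by omega) h1
    rw [hsame i0 (by omega)] at hd
    exact hDef i0 (by omega) hd
  · exact hj

end Pool.Agent.Lib.MP29a61eN
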