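import Pool.Agent.Lib.MP_29a61e_co.N2.Base

/-!
# MP_29a61e_co, `M n ≤ n / 2 + o(n)`: specs of the macro part (on `N2/Base.lean`)

Each module `XXX` proves `theorem specXXX : SpecXXX` in `N2/XXX.lean`.
A word is `P = (oo, true) :: w`, `N = P.length = card X`, its junctions are `0, .., N - 1`, the
junction `i` is the pair `(cyc P)[i]` (`P[i]`, `P[i + 1 mod N]`).
-/

namespace Pool.Agent.Lib.MP29a61eN

section
variable {X : Type} [DecidableEq X]

/-- The number of bad links inside a linear path. -/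
def lbad (μ : End X → End X) : List (End X) → ℕ
  | a :: b :: t => (if b = phi μ a then 0 else 1) + lbad μ (b :: t)
  | _ => 0

/-- The number of ends with different partners in two states. -/
def dm [Fintype X] (μ μ' : End X → End X) : ℕ :=
  (Finset.univ.filter fun e => μ e ≠ μ' e).card

omit [DecidableEq X] in
/-- The head with the hexagon `c` is cut at the junction `i` of the word `(oo, true) :: w`; the end
before the junction is `c a`, and this old link is a link of the word. -/
def CutAt (oo : X) (w : List (End X)) (c : Fin 6 → End X) (i : ℕ) (a : Fin 6) : Prop :=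
  (cyc ((oo, true) :: w))[i]? = some (c a, bar (c (oldPartner a)))

end

/-- LIB: elementary facts used everywhere. -/
def SpecLIB : Prop := ∀ (X : Type) [DecidableEq X],
  (∀ (oo : X) (w w' : List (End X)) (k : ℕ), IsWord oo w → SSteps k w w' → IsWord oo w') ∧
  (∀ (w v u : List (End X)) (j k : ℕ), SSteps j w v → SSteps k v u → SSteps (j + k) w u) ∧
  (∀ (w w' : List (End X)) (k : ℕ), SSteps k w w' →
    Pool.Agent.Lib.MP29a61e.Steps k (w.map Prod.fst) (w'.map Prod.fst)) ∧
  (∀ (oo : X) (μ : End X → End X) (w : List (End X)),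
    bad oo μ w = lbad μ ((oo, true) :: (w ++ [(oo, true)]))) ∧
  (∀ (μ : End X → End X) (A B : List (End X)) (a b : End X),
    lbad μ (A ++ a :: b :: B) = lbad μ (A ++ [a]) + (if b = phi μ a then 0 else 1) +
      lbad μ (b :: B)) ∧
  (∀ (μ : End X → End X) (A : List (End X)), IsMatching μ → lbad μ (srev A) = lbad μ A) ∧
  (∀ (w : List (End X)) (oo : X) (i : ℕ), i ≤ w.length → ∃ p q : End X,
    (cyc ((oo, true) :: w))[i]? = some (p, q) ∧
    ((oo, true) :: (w ++ [(oo, true)]))[i]? = some p ∧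
    ((oo, true) :: (w ++ [(oo, true)]))[i + 1]? = some q)

/-- SW: the switched matching is a perfect matching, and its values. -/
def SpecSW : Prop := ∀ (X K : Type) [DecidableEq K] (μ : End X → End X)
  (c : K → Fin 6 → End X) (D : Finset K), IsMatching μ → IsHeads μ c →
    IsMatching (switch μ c D) ∧
    (∀ k ∈ D, ∀ i, switch μ c D (c k i) = c k (newPartner i)) ∧
    (∀ k, k ∉ D → ∀ i, switch μ c D (c k i) = c k (oldPartner i)) ∧
    (∀ e, (∀ k ∈ D, ∀ i, c k i ≠ e) → switch μ c D e = μ e)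

/-- WM: the matching of a word; every end is at exactly one junction; triangle inequality. -/
def SpecWM : Prop := ∀ (X : Type) [Fintype X] [DecidableEq X] (oo : X) (w : List (End X)),
  IsWord oo w → ∃ ω : End X → End X, IsMatching ω ∧ bad oo ω w = 0 ∧
    (∀ μ : End X → End X, IsMatching μ → 2 * bad oo μ w = dm μ ω) ∧
    (∀ μ μ' : End X → End X, IsMatching μ → IsMatching μ' →
      2 * bad oo μ' w ≤ 2 * bad oo μ w + dm μ μ') ∧
    ∃ pos : End X → ℕ, (∀ e, pos e ≤ w.length) ∧
      (∀ e, (cyc ((oo, true) :: w))[pos e]? = some (e, bar (ω e)) ∨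
        (cyc ((oo, true) :: w))[pos e]? = some (ω e, bar e)) ∧
      ∀ i p q, (cyc ((oo, true) :: w))[i]? = some (p, q) → pos p = i ∧ pos (bar q) = i

/-- CLEAN: cleaning a word. -/
def SpecCLEAN : Prop := ∀ (X : Type) [Fintype X] [DecidableEq X] (oo : X) (μ : End X → End X)
  (Def : Finset X) (G : ℕ) (w : List (End X)), IsMatching μ → H1 μ G Def → IsWord oo w →
    ∃ (m : ℕ) (w' : List (End X)), IsWord oo w' ∧ SSteps m w w' ∧
      m + bad oo μ w' ≤ bad oo μ w ∧ G * bad oo μ w' ≤ Fintype.card X + G * (Def.card + 1)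

/-- FAMSEL: from a large set `J` of pending heads with three far cuts each, a family of at least
`2 h` heads is processed with at most `2 h + 20` moves. -/
def SpecFAMSEL : Prop := ∀ h : ℕ, ∃ C : ℕ, ∀ (X : Type) [Fintype X] [DecidableEq X] (oo : X)
  (K : Type) [Fintype K] [DecidableEq K] (μ : End X → End X) (c : K → Fin 6 → End X)
  (D J : Finset K) (w : List (End X)) (x : K → Fin 3 → ℕ) (a : K → Fin 3 → Fin 6) (L : ℕ),
  IsMatching μ → IsHeads μ c → IsWord oo w → (∀ k ∈ J, k ∉ D) →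
  (∀ k ∈ J, ∀ s, CutAt oo w (c k) (x k s) (a k s)) → 0 < L →
  (∀ k ∈ J, 0 < x k 0 ∧ x k 0 + L ≤ x k 1 ∧ x k 1 + L ≤ x k 2 ∧ x k 2 < w.length) →
  C * (w.length + 1) ≤ J.card * L →
    ∃ (F : Finset K) (k : ℕ) (w' : List (End X)), F ⊆ J ∧ 2 * h ≤ F.card ∧ k ≤ 2 * h + 20 ∧
      IsWord oo w' ∧ SSteps k w w' ∧
      bad oo (switch μ c (D ∪ F)) w' ≤ bad oo (switch μ c D) w + 30

/-- NEAR: a head with two cuts close together (no cut inside) is one legal move. -/
def SpecNEAR : Prop := ∀ (X : Type) [Fintype X] [DecidableEq X] (oo : X)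
  (K : Type) [Fintype K] [DecidableEq K] (μ : End X → End X) (c : K → Fin 6 → End X)
  (D : Finset K) (k : K) (Def : Finset X) (L : ℕ) (w : List (End X)) (x : Fin 3 → ℕ)
  (a : Fin 3 → Fin 6),
  IsMatching μ → IsHeads μ c → IsWord oo w → k ∉ D → H2 μ c D L Def →
  (∀ s, CutAt oo w (c k) (x s) (a s)) → x 0 < x 1 → x 1 < x 2 →
  ((x 1 ≤ x 0 + L ∧ ∀ i, x 0 < i → i ≤ x 1 → ∀ p q, (cyc ((oo, true) :: w))[i]? = some (p, q) →
      p.1 ∉ Def ∧ (i < x 1 → q = phi (switch μ c D) p)) ∨
   (x 2 ≤ x 1 + L ∧ ∀ i, x 1 < i → i ≤ x 2 → ∀ p q, (cyc ((oo, true) :: w))[i]? = some (p, q) →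
      p.1 ∉ Def ∧ (i < x 2 → q = phi (switch μ c D) p))) →
    ∃ w', IsWord oo w' ∧ SMove w w' ∧
      bad oo (switch μ c (insert k D)) w' ≤ bad oo (switch μ c D) w

/-- CLN: most pending heads are clean: their three old links are in the word, and there is no
bad link and no letter of `Def` within distance `L` of the cuts. -/
def SpecCLN : Prop := ∀ (X : Type) [Fintype X] [DecidableEq X] (oo : X)
  (K : Type) [Fintype K] [DecidableEq K] (μ : End X → End X) (c : K → Fin 6 → End X)
  (D : Finset K) (Def : Finset X) (L : ℕ) (w : List (End X)),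
  IsMatching μ → IsHeads μ c → IsWord oo w →
    ∃ (Q : Finset K) (x : K → Fin 3 → ℕ) (a : K → Fin 3 → Fin 6),
      Q ⊆ Dᶜ ∧
      Dᶜ.card ≤ Q.card + (3 * L + 9) * (bad oo (switch μ c D) w + Def.card + 1) ∧
      ∀ k ∈ Q, (∀ s, CutAt oo w (c k) (x k s) (a k s)) ∧
        0 < x k 0 ∧ x k 0 < x k 1 ∧ x k 1 < x k 2 ∧ x k 2 < w.length ∧
        (∀ s i, x k s < i + L → i ≤ x k s + L → ∀ p q,
          (cyc ((oo, true) :: w))[i]? = some (p, q) →
            p.1 ∉ Def ∧ q = phi (switch μ c D) p)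

/- TS: `SpecTS` of `Base.lean` (from SW, WM, CLEAN, FAMSEL, NEAR, CLN). With
`pending = |K \ D|`: the potential `(1 + 1/A) * pending + bad` pays for every move. Clean heads: a
near pair gives one move of cost 1 (NEAR); otherwise FAMSEL with `2 h ≥ 50 A`; when
`bad > γ' N`: CLEAN; when `pending < ε' N`: `bad (switch univ) w ≤ bad (switch D) w + 3 pending`
(WM, `dm`) and CLEAN once more. -/

end Pool.Agent.Lib.MP29a61eN
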