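import Pool.Agent.Lib.MP_29a61e_co.N2.Link
import Mathlib
import Pool.Agent.Lib.MP_29a61e_co.N2.MACRO
import Pool.Agent.Lib.MP_29a61e_co.N2.Family

section
/-!
# MP_29a61e_co, M(n) <= n/2 + o(n): greedy distance

If `v` is a word all of whose links are links of the matching `μ`, then every word `w` can be
transformed into `v` by at most `bad oo μ w` moves.
-/
namespace Pool.Agent.Lib.MP29a61eN

namespace Dist

variable {X : Type}

theorem first_diff {α : Type} (l m : List α) (h : l.length = m.length) (hne : l ≠ m) :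
    ∃ P a b l' m', l = P ++ a :: l' ∧ m = P ++ b :: m' ∧ a ≠ b := by
  induction l generalizing m with
  | nil =>
    cases m with
    | nil => exact absurd rfl hne
    | cons y m => simp at h
  | cons x l ih =>
    cases m with
    | nil => simp at h
    | cons y m =>
      by_cases hxy : x = y
      · subst hxy
        obtain ⟨P, a, b, l', m', h1, h2, h3⟩ := ih m (by simpa using h)
          (fun h' => hne (by rw [h']))
        exact ⟨x :: P, a, b, l', m', by rw [h1]; rfl, by rw [h2]; rfl, h3⟩
      · exact ⟨[], x, y, l, m, rfl, rfl, hxy⟩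

/-- letters before and after a cut are different. -/
theorem sep {oo : X} {P Q : List (End X)} (h : (oo :: (P ++ Q).map Prod.fst).Nodup)
    {x y : End X} (hx : x ∈ (oo, true) :: P) (hy : y ∈ Q) : x.1 ≠ y.1 := by
  intro hxy
  rw [List.map_append] at h
  have h1 : y.1 ∈ Q.map Prod.fst := List.mem_map_of_mem hy
  rcases List.mem_cons.mp hx with rfl | hx
  · have := (List.nodup_cons.mp h).1
    apply this
    rw [List.mem_append]
    right
    have h2 : oo = y.1 := hxy
    rw [h2]
    exact h1
  · have h2 := (List.nodup_append.mp (List.nodup_cons.mp h).2).2.2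
    exact h2 x.1 (List.mem_map_of_mem hx) y.1 h1 hxy

theorem split_tail {α : Type} {C0 R C' : List α} {z c : α} (h : C0 ++ [z] = R ++ c :: C') :
    ∃ C2, C0 = R ++ C2 ∧ c :: C' = C2 ++ [z] := by
  rcases List.append_eq_append_iff.mp h with ⟨a', h1, h2⟩ | ⟨c', h1, h2⟩
  · cases a' with
    | nil =>
      refine ⟨[], ?_, ?_⟩
      · simpa using h1.symm
      · simpa using h2.symm
    | cons x a' => simp at h2
  · exact ⟨c', h1, h2⟩

variable [DecidableEq X]

theorem step {oo : X} {μ : End X → End X} {w v : List (End X)} (hμ : IsMatching μ)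
    (hw : IsWord oo w) (hv : IsWord oo v)
    (hex : inn μ (oo, true) (v ++ [(oo, true)]) = 0) (hne : w ≠ v) :
    ∃ w', SMove w w' ∧ bad oo μ w' < bad oo μ w := by
  have hlen := hw.length_eq hv
  obtain ⟨P, a, b, w1, v1, hw1, hv1, hab⟩ := first_diff w v hlen hne
  set z : End X := (oo, true) with hz
  set e := lastD z P with he
  have hex2 : inn μ z P = 0 ∧ b = phi μ e ∧ inn μ b (v1 ++ [z]) = 0 := by
    rw [hv1, List.append_assoc, inn_append, List.cons_append, inn_cons] at hex
    simp only [Nat.add_eq_zero_iff] at hex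
    exact ⟨hex.1, bd_eq_zero.mp hex.2.1, hex.2.2⟩
  obtain ⟨hP0, hbe, hv0⟩ := hex2
  have heb : bd μ e b = 0 := bd_eq_zero.mpr hbe
  have hea : bd μ e a = 1 := bd_eq_one.mpr (fun h => hab (h.trans hbe.symm))
  have heP : e ∈ z :: P := lastD_mem z P
  -- letters
  have hndw : (oo :: (P ++ a :: w1).map Prod.fst).Nodup := by
    rw [← hw1]
    exact hw.nodup
  have hndv : (oo :: (P ++ b :: v1).map Prod.fst).Nodup := by
    rw [← hv1]
    exact hv.nodup
  have hbP : ∀ x ∈ z :: P, x.1 ≠ b.1 := fun x hx => sep hndv hx List.mem_cons_self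
  have hmem : ∃ x ∈ a :: w1, x.1 = b.1 := by
    have h1 := hw.full b.1
    rcases List.mem_cons.mp h1 with h1 | h1
    · exact absurd h1.symm (hbP z List.mem_cons_self)
    · obtain ⟨x, hx, hxb⟩ := List.mem_map.mp h1
      rw [hw1, List.mem_append] at hx
      rcases hx with hx | hx
      · exact absurd hxb (hbP x (List.mem_cons_of_mem _ hx))
      · exact ⟨x, hx, hxb⟩
  obtain ⟨x, hx, hxb⟩ := hmem
  have hxcase : x = b ∨ x = bar b := by
    by_cases h2 : x.2 = b.2
    · left
      exact Prod.ext hxb h2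
    · right
      refine Prod.ext hxb ?_
      rw [bar_snd]
      cases h3 : x.2 <;> cases h4 : b.2 <;> simp_all
  rcases hxcase with rfl | rfl
  · -- same orientation
    have hxw1 : x ∈ w1 := by
      rcases List.mem_cons.mp hx with h | h
      · exact absurd h.symm hab
      · exact h
    obtain ⟨A', C0, hA⟩ := List.append_of_mem hxw1
    obtain ⟨R, C', hRC, hR0, hrun⟩ := exists_run μ x (C0 ++ [z])
    cases C' with
    | nil =>
      exfalso
      rw [List.append_nil] at hRC
      rw [← hRC] at hR0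
      have hl : (C0 ++ [z]).length ≤ v1.length := by
        have h1 := hlen
        rw [hw1, hv1, hA] at h1
        simp only [List.length_append, List.length_cons, List.length_nil] at h1 ⊢
        omega
      have h1 : C0 ++ [z] <+: v1 ++ [z] :=
        inn_zero_prefix hR0 hv0 (hl.trans (by simp))
      have h2 : C0 ++ [z] <+: v1 :=
        List.prefix_of_prefix_length_le h1 (List.prefix_append v1 [z]) hl
      have h3 : z ∈ v1 := h2.subset (by simp)
      exact sep hndv (x := z) (y := z) List.mem_cons_self (List.mem_cons_of_mem _ h3) rfl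
    | cons c C'' =>
      obtain ⟨C2, hC0, hcC⟩ := split_tail hRC
      have hw2 : w = P ++ (a :: A') ++ (x :: R) ++ C2 := by
        rw [hw1, hA, hC0]
        simp
      refine ⟨P ++ (x :: R) ++ (a :: A') ++ C2, ?_, ?_⟩
      · rw [hw2]
        exact SMove_swap (by simp)
      · have hlA : bd μ (lastD a A') x = 1 := by
          rw [bd_eq_one]
          intro h
          have h1 : e = lastD a A' := phi_injective hμ (hbe.symm.trans h)
          have h2 : lastD a A' ∈ a :: w1 := by
            rw [hA]
            have := lastD_mem a A'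
            rcases List.mem_cons.mp this with h3 | h3
            · rw [h3]; exact List.mem_cons_self
            · exact List.mem_cons_of_mem _ (List.mem_append_left _ h3)
          exact sep hndw heP h2 (congrArg Prod.fst h1)
        have hc1 : bd μ (lastD x R) c = 1 := hrun c C'' rfl
        have e1 : bad oo μ w = inn μ z P + (1 + inn μ a A') + 1 + (1 + inn μ c C'') := by
          rw [bad_eq, ← hz, hw2, List.append_assoc _ C2, ← hcC]
          simp only [inn_append, inn_cons, lastD_append, lastD_cons, hR0]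
          rw [← he, hea, hlA, hc1]
        have e2 : bad oo μ (P ++ (x :: R) ++ (a :: A') ++ C2)
            = inn μ z P + (bd μ (lastD x R) a + inn μ a A')
              + (bd μ (lastD a A') c + inn μ c C'') := by
          rw [bad_eq, ← hz, List.append_assoc _ C2, ← hcC]
          simp only [inn_append, inn_cons, lastD_append, lastD_cons, hR0]
          rw [← he, heb]
          omega
        rw [e1, e2]
        have := bd_le μ (lastD x R) a
        have := bd_le μ (lastD a A') c
        omega
  · -- opposite orientation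
    obtain ⟨L1, C0, hL⟩ := List.append_of_mem hx
    obtain ⟨R, Q, hRQ, hR0, hrun⟩ := exists_run μ b (srev L1)
    have hL1 : L1 = srev Q ++ srev R := by
      rw [← srev_append, ← hRQ, srev_srev]
    have hw2 : w = P ++ srev Q ++ srev (b :: R) ++ C0 := by
      rw [hw1, hL, hL1, srev_cons]
      simp
    refine ⟨P ++ (b :: R) ++ srev Q ++ C0, ?_, ?_⟩
    · rw [hw2]
      have := SMove_swap_rev (P := P) (A := srev Q) (B := srev (b :: R)) (C := C0)
        (by rw [srev_cons]; simp)
      rwa [srev_srev] at this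
    · obtain ⟨c, C'', hcC⟩ : ∃ c C'', C0 ++ [z] = c :: C'' := by
        cases C0 with
        | nil => exact ⟨z, [], rfl⟩
        | cons c C => exact ⟨c, C ++ [z], rfl⟩
      have hphib : phi μ (bar b) = bar e := by
        have := (phi_rev hμ (a := e) (x := b)).mpr hbe
        exact this.symm
      have hbc : bd μ (bar b) c = 1 := by
        rw [bd_eq_one, hphib]
        intro h
        have hcm : c ∈ C0 ++ [z] := by
          rw [hcC]
          exact List.mem_cons_self
        rcases List.mem_append.mp hcm with h1 | h1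
        · have h2 : c ∈ a :: w1 := by
            rw [hL]
            exact List.mem_append_right _ (List.mem_cons_of_mem _ h1)
          exact sep hndw heP h2 (by rw [h]; rfl)
        · have h2 : c = z := by simpa using h1
          rcases List.mem_cons.mp heP with h3 | h3
          · rw [h2, h3] at h
            exact bar_ne z h.symm
          · have h4 : oo ∈ P.map Prod.fst := by
              have h5 : e.1 = oo := by
                have := congrArg Prod.fst h
                rw [h2] at this
                simpa using this.symm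
              rw [← h5]
              exact List.mem_map_of_mem h3
            rw [List.map_append] at hndw
            exact (List.nodup_cons.mp hndw).1 (List.mem_append_left _ h4)
      have e2 : bad oo μ (P ++ (b :: R) ++ srev Q ++ C0)
          = inn μ z P + inn μ (lastD b R) (srev Q)
            + (bd μ (lastD (lastD b R) (srev Q)) c + inn μ c C'') := by
        rw [bad_eq, ← hz, List.append_assoc _ C0, hcC]
        simp only [inn_append, inn_cons, lastD_append, lastD_cons, hR0]
        rw [← he, heb]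
        omega
      have e1 : bad oo μ w = inn μ z P + inn μ e (srev Q)
          + bd μ (lastD b R) (bar (lastD e (srev Q))) + (1 + inn μ c C'') := by
        rw [bad_eq, ← hz, hw2, List.append_assoc _ C0, hcC]
        simp only [inn_append, inn_cons, lastD_append, lastD_srev_cons,
          inn_srev_cons hμ, hR0]
        rw [← he, hbc]
        omega
      rw [e1, e2]
      have hle := bd_le μ (lastD (lastD b R) (srev Q)) c
      cases hQ : srev Q with
      | nil =>
        have hne2 : bd μ (lastD b R) (bar e) = 1 := by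
          rw [bd_eq_one]
          intro h
          have h1 : bar (lastD b R) = phi μ e := by
            have := (phi_rev hμ (a := e) (x := bar (lastD b R)))
            rw [bar_bar] at this
            exact this.mp h
          have h2 : lastD b R = bar b := by
            rw [← hbe] at h1
            exact bar_eq_comm.mp h1
          have hndR : ((b :: R).map Prod.fst).Nodup := by
            have h3 : (w.map Prod.fst).Nodup := (List.nodup_cons.mp hw.nodup).2
            rw [hw2] at h3
            simp only [List.map_append] at h3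
            have h4 := (List.nodup_append.mp (List.nodup_append.mp h3).1).2.1
            rw [srev_map_fst] at h4
            exact List.nodup_reverse.mp h4
          rcases List.mem_cons.mp (lastD_mem b R) with h3 | h3
          · rw [h3] at h2
            exact bar_ne b h2.symm
          · have h5 : (lastD b R).1 = b.1 := by
              rw [h2]
              rfl
            have h4 : b.1 ∈ R.map Prod.fst := by
              have h6 : (lastD b R).1 ∈ R.map Prod.fst := List.mem_map_of_mem h3
              rw [h5] at h6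
              exact h6
            exact (List.nodup_cons.mp hndR).1 h4
        simp only [inn_nil, lastD_nil]
        rw [hQ, lastD_nil] at hle
        omega
      | cons t T' =>
        have hta : t = a := by
          have h1 : a :: w1 = (t :: T') ++ srev (b :: R) ++ C0 := by
            rw [hL, hL1, srev_cons, ← hQ]
            simp
          exact (List.cons.inj h1).1.symm
        have hQne : ∃ q Q', Q = q :: Q' := by
          cases Q with
          | nil => simp [srev] at hQ
          | cons q Q' => exact ⟨q, Q', rfl⟩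
        obtain ⟨q, Q', rfl⟩ := hQne
        have hq1 : bd μ (lastD b R) q = 1 := hrun q Q' rfl
        have hlq : lastD e (t :: T') = bar q := by
          rw [← hQ, lastD_srev_cons]
        rw [hlq, bar_bar, hq1, inn_cons, inn_cons, hta, hea]
        rw [hQ] at hle
        have := bd_le μ (lastD b R) a
        rw [hta] at hle
        omega

end Dist

/-- GREEDY DISTANCE. -/
theorem specDist : SpecDist := by
  intro X _ _ oo μ w v hμ hw hv hex
  have hex0 : inn μ (oo, true) (v ++ [(oo, true)]) = 0 := by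
    rw [← bad_eq]
    exact bad_eq_zero_of_exact hex
  obtain ⟨m, hm⟩ : ∃ m, bad oo μ w = m := ⟨_, rfl⟩
  induction m using Nat.strong_induction_on generalizing w with
  | _ m ih =>
    by_cases hne : w = v
    · exact ⟨0, Nat.zero_le _, hne⟩
    · obtain ⟨w', hmove, hlt⟩ := Dist.step hμ hw hv hex0 hne
      obtain ⟨k, hk, hsteps⟩ := ih (bad oo μ w') (by omega) w'
        (hw.of_perm (SMove_perm hmove)) rfl
      exact ⟨k + 1, by omega, w', hmove, hsteps⟩

end Pool.Agent.Lib.MP29a61eN
end

section
/-!
# MP_29a61e_co: module FAMSEL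
-/
namespace Pool.Agent.Lib.MP29a61eN

/-- The number of the cut that contains the end number `i`. -/
def FAMSEL.cutOf (i : Fin 6) : Fin 3 := ![0, 0, 1, 1, 2, 2] i

theorem FAMSEL.cut_cases (i : Fin 6) :
    (i = Fam.cutA (FAMSEL.cutOf i) ∧ oldPartner i = Fam.cutB (FAMSEL.cutOf i)) ∨
    (i = Fam.cutB (FAMSEL.cutOf i) ∧ oldPartner i = Fam.cutA (FAMSEL.cutOf i)) := by
  fin_cases i
  · exact Or.inl ⟨rfl, rfl⟩
  · exact Or.inr ⟨rfl, rfl⟩
  · exact Or.inl ⟨rfl, rfl⟩
  · exact Or.inr ⟨rfl, rfl⟩
  · exact Or.inl ⟨rfl, rfl⟩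
  · exact Or.inr ⟨rfl, rfl⟩

theorem FAMSEL.cutAt_iff {X : Type} {oo : X} {w : List (End X)} {c : Fin 6 → End X} {i : ℕ}
    {a : Fin 6} (h0 : 0 < i) (h1 : i < w.length) (h : CutAt oo w c i a) :
    w[i - 1]? = some (c a) ∧ w[i]? = some (bar (c (oldPartner a))) := by
  unfold CutAt at h
  rw [Fam.cyc_cons] at h
  obtain ⟨j, rfl⟩ := Nat.exists_eq_succ_of_ne_zero h0.ne'
  rw [List.getElem?_zip_eq_some] at h
  obtain ⟨e1, e2⟩ := h
  refine ⟨by simpa using e1, ?_⟩
  rw [List.getElem?_append_left h1] at e2
  exact e2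

theorem specFAMSEL : SpecFAMSEL := by
  classical
  intro h
  obtain ⟨C, hC, hfam⟩ := Fam.famsel h
  refine ⟨C, ?_⟩
  intro X _ _ oo K _ _ μ c D J w x a L hμ hc hw hJD hcut hL hx hbig
  -- the cuts of a head are at different places of the hexagon
  have hcut' : ∀ k ∈ J, ∀ s, w[x k s - 1]? = some (c k (a k s)) ∧
      w[x k s]? = some (bar (c k (oldPartner (a k s)))) ∧ 0 < x k s ∧ x k s < w.length := by
    intro k hk s
    obtain ⟨h1, h2, h3, h4⟩ := hx k hk
    have hs : 0 < x k s ∧ x k s < w.length := by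
      fin_cases s
      · exact ⟨h1, by show x k 0 < _; omega⟩
      · exact ⟨by show 0 < x k 1; omega, by show x k 1 < _; omega⟩
      · exact ⟨by show 0 < x k 2; omega, h4⟩
    obtain ⟨e1, e2⟩ := FAMSEL.cutAt_iff hs.1 hs.2 (hcut k hk s)
    exact ⟨e1, e2, hs⟩
  have hxinj : ∀ k ∈ J, ∀ s s', x k s = x k s' → s = s' := by
    intro k hk s s' hss
    obtain ⟨h1, h2, h3, h4⟩ := hx k hk
    fin_cases s <;> fin_cases s' <;> simp at hss ⊢ <;> omega
  have hnd := hw.nodup.of_cons
  have hpos : ∀ (i j : ℕ) (e : End X), w[i]? = some e → ∀ e' : End X, w[j]? = some e' →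
      e.1 = e'.1 → i = j := by
    intro i j e he e' he' hee
    obtain ⟨hi, he⟩ := List.getElem?_eq_some_iff.1 he
    obtain ⟨hj, he'⟩ := List.getElem?_eq_some_iff.1 he'
    refine (List.Nodup.getElem_inj_iff hnd (hi := by simpa using hi) (hj := by simpa using hj)).1 ?_
    rw [List.getElem_map, List.getElem_map, he, he', hee]
  have hinj : ∀ k ∈ J, Function.Injective (fun s => FAMSEL.cutOf (a k s)) := by
    intro k hk s s' hss
    have hss' : FAMSEL.cutOf (a k s) = FAMSEL.cutOf (a k s') := hss
    obtain ⟨e1, e2, p1, p2⟩ := hcut' k hk s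
    obtain ⟨f1, f2, q1, q2⟩ := hcut' k hk s'
    have key : a k s = a k s' ∨ a k s = oldPartner (a k s') := by
      rcases FAMSEL.cut_cases (a k s) with ⟨g1, g2⟩ | ⟨g1, g2⟩ <;>
        rcases FAMSEL.cut_cases (a k s') with ⟨g3, g4⟩ | ⟨g3, g4⟩
      · left; rw [g1, g3, hss']
      · right; rw [g1, g4, hss']
      · right; rw [g1, g4, hss']
      · left; rw [g1, g3, hss']
    rcases key with hk1 | hk1
    · rw [hk1] at e1
      have := hpos _ _ _ e1 _ f1 rfl
      exact hxinj k hk s s' (by omega)
    · have hk2 : oldPartner (a k s) = a k s' := by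
        rw [hk1, Fam.oldPartner_invol]
      rw [hk1] at e1
      rw [hk2] at e2
      have t1 := hpos _ _ _ e1 _ f2 rfl
      have t2 := hpos _ _ _ e2 _ f1 rfl
      omega
  have hbij : ∀ k ∈ J, Function.Bijective (fun s => FAMSEL.cutOf (a k s)) := fun k hk =>
    Finite.injective_iff_bijective.1 (hinj k hk)
  have hinv : ∀ k, ∃ g : Fin 3 → Fin 3, k ∈ J → ∀ b, FAMSEL.cutOf (a k (g b)) = b := by
    intro k
    by_cases hk : k ∈ J
    · obtain ⟨g, hg⟩ := (hbij k hk).2.hasRightInverse
      exact ⟨g, fun _ b => hg b⟩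
    · exact ⟨id, fun h => absurd h hk⟩
  choose g hg using hinv
  have hginj : ∀ k ∈ J, ∀ b b', g k b = g k b' → b = b' := by
    intro k hk b b' hbb
    rw [← hg k hk b, ← hg k hk b', hbb]
  obtain ⟨F, hFJ, hFc, w', m, hm, hst, hbad⟩ := hfam oo μ c D J w (fun b k => x k (g k b)) L hμ hc
    hw (Finset.disjoint_left.2 (fun k hkD hkJ => hJD k hkJ hkD)) hL
    (by
      intro k hk b
      obtain ⟨e1, e2, p1, p2⟩ := hcut' k hk (g k b)
      have hb := hg k hk b
      refine ⟨p1, ?_⟩
      rcases FAMSEL.cut_cases (a k (g k b)) with ⟨g1, g2⟩ | ⟨g1, g2⟩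
      · left
        rw [hb] at g1 g2
        rw [← g1, ← g2]
        exact ⟨e1, e2⟩
      · right
        rw [hb] at g1 g2
        rw [← g1, ← g2]
        exact ⟨e1, e2⟩)
    (by
      intro k hk b b' hbb
      have hne : g k b ≠ g k b' := fun h => hbb (hginj k hk b b' h)
      obtain ⟨h1, h2, h3, h4⟩ := hx k hk
      generalize g k b = s at hne ⊢
      generalize g k b' = s' at hne ⊢
      fin_cases s <;> fin_cases s' <;> simp at hne ⊢ <;> omega)
    (by
      have : C * w.length < C * (w.length + 1) := Nat.mul_lt_mul_of_pos_left (by omega) hC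
      omega)
  exact ⟨F, m, w', hFJ, by omega, by omega, SSteps_isWord hst hw, hst, by omega⟩

end Pool.Agent.Lib.MP29a61eN
end

section
/-!
# MP_29a61e_co, M(n) <= n/2 + o(n): NEAR

A head with two cuts close together (no cut inside) is one legal move.
-/
namespace Pool.Agent.Lib.MP29a61eN

namespace Near

variable {X : Type}

/-! ### switch -/

section Switch

variable {K : Type} {μ : End X → End X} {c : K → Fin 6 → End X}

theorem switch_mem (hc : IsHeads μ c) {D : Finset K} {k : K} (hk : k ∈ D) (i : Fin 6) :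
    switch μ c D (c k i) = c k (newPartner i) := by
  have h : ∃ p : K × Fin 6, p.1 ∈ D ∧ c p.1 p.2 = c k i := ⟨(k, i), hk, rfl⟩
  unfold switch
  rw [dif_pos h]
  have h1 := hc.inj _ _ _ _ h.choose_spec.2
  rw [h1.1, h1.2]

theorem switch_out {D : Finset K} {e : End X} (h : ∀ k ∈ D, ∀ i, c k i ≠ e) :
    switch μ c D e = μ e := by
  unfold switch
  rw [dif_neg]
  rintro ⟨p, hp, hpe⟩
  exact h p.1 hp p.2 hpe

theorem switch_notMem (hc : IsHeads μ c) {D : Finset K} {k : K} (hk : k ∉ D) (i : Fin 6) :
    switch μ c D (c k i) = c k (oldPartner i) := by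
  rw [switch_out, hc.old]
  intro k' hk' i' h
  have := (hc.inj _ _ _ _ h).1
  exact hk (this ▸ hk')

theorem switch_isMatching (hμ : IsMatching μ) (hc : IsHeads μ c) (D : Finset K) :
    IsMatching (switch μ c D) := by
  refine ⟨fun e => ?_, fun e => ?_⟩
  · by_cases h : ∃ p : K × Fin 6, p.1 ∈ D ∧ c p.1 p.2 = e
    · obtain ⟨⟨k, i⟩, hk, rfl⟩ := h
      have h2 : ∀ j : Fin 6, newPartner (newPartner j) = j := by decide
      rw [switch_mem hc hk, switch_mem hc hk, h2]
    · have h1 : ∀ k ∈ D, ∀ i, c k i ≠ e := fun k hk i hi => h ⟨(k, i), hk, hi⟩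
      rw [switch_out h1, switch_out, hμ.inv]
      intro k hk i hi
      have h2 : e = c k (oldPartner i) := by
        rw [← hc.old k i, hi, hμ.inv]
      exact h1 k hk _ h2.symm
  · by_cases h : ∃ p : K × Fin 6, p.1 ∈ D ∧ c p.1 p.2 = e
    · obtain ⟨⟨k, i⟩, hk, rfl⟩ := h
      rw [switch_mem hc hk]
      intro h1
      have h2 : ∀ j : Fin 6, newPartner j ≠ j := by decide
      exact h2 i (hc.inj _ _ _ _ h1).2
    · have h1 : ∀ k ∈ D, ∀ i, c k i ≠ e := fun k hk i hi => h ⟨(k, i), hk, hi⟩
      rw [switch_out h1]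
      exact hμ.ne e

theorem switch_insert [DecidableEq K] (hc : IsHeads μ c) {D : Finset K} {k : K} {p : End X}
    (hp : ∀ i, p ≠ c k i) : switch μ c (insert k D) p = switch μ c D p := by
  by_cases h : ∃ q : K × Fin 6, q.1 ∈ D ∧ c q.1 q.2 = p
  · obtain ⟨⟨k', i⟩, hk, rfl⟩ := h
    rw [switch_mem hc hk, switch_mem hc (Finset.mem_insert_of_mem hk)]
  · have h1 : ∀ k ∈ D, ∀ i, c k i ≠ p := fun k hk i hi => h ⟨(k, i), hk, hi⟩
    rw [switch_out h1, switch_out]
    intro k' hk' i hi
    rcases Finset.mem_insert.mp hk' with rfl | h2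
    · exact hp i hi.symm
    · exact h1 k' h2 i hi

end Switch

/-! ### Fin 6 -/

theorem fin_cover : ∀ a0 a1 a2 l : Fin 6, (a0 ≠ a1 ∧ a0 ≠ a2 ∧ a1 ≠ a2 ∧
    a0 ≠ oldPartner a1 ∧ a0 ≠ oldPartner a2 ∧ a1 ≠ oldPartner a2) →
    (l = a0 ∨ l = oldPartner a0 ∨ l = a1 ∨ l = oldPartner a1 ∨ l = a2 ∨ l = oldPartner a2) := by
  decide

theorem fin_near : ∀ a0 a1 a2 : Fin 6, (a0 ≠ a2 ∧ a1 ≠ a2 ∧ a0 ≠ oldPartner a2 ∧
    a1 ≠ oldPartner a2 ∧ a1 = oldPartner a0 + 3) →
    (newPartner a0 = oldPartner a1 ∧
      ((newPartner a2 = oldPartner a0 ∧ newPartner a1 = oldPartner a2) ∨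
        (newPartner a1 = a2 ∧ newPartner (oldPartner a0) = oldPartner a2))) := by
  decide

theorem fin_near' : ∀ a0 a1 a2 : Fin 6, (a0 ≠ a1 ∧ a0 ≠ a2 ∧ a0 ≠ oldPartner a1 ∧
    a0 ≠ oldPartner a2 ∧ a2 = oldPartner a1 + 3) →
    (newPartner a1 = oldPartner a2 ∧
      ((newPartner a0 = oldPartner a1 ∧ newPartner a2 = oldPartner a0) ∨
        (newPartner a2 = a0 ∧ newPartner (oldPartner a1) = oldPartner a0))) := by
  decide

/-! ### positions and splittings -/

theorem zip_split (a : End X) (w : List (End X)) (z : End X) (i : ℕ) (p q : End X)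
    (h : ((a :: w).zip (w ++ [z]))[i]? = some (p, q)) :
    ∃ U V, w ++ [z] = U ++ q :: V ∧ U.length = i ∧ lastD a U = p := by
  induction w generalizing a i with
  | nil =>
    cases i with
    | zero =>
      simp only [List.nil_append, List.zip_cons_cons, List.zip_nil_right,
        List.getElem?_cons_zero, Option.some.injEq, Prod.mk.injEq] at h
      exact ⟨[], [], by simp [h.2], rfl, h.1⟩
    | succ i => simp at h
  | cons x w ih =>
    cases i with
    | zero =>
      simp only [List.cons_append, List.zip_cons_cons, List.getElem?_cons_zero,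
        Option.some.injEq, Prod.mk.injEq] at h
      exact ⟨[], w ++ [z], by simp [h.2], rfl, h.1⟩
    | succ i =>
      simp only [List.cons_append, List.zip_cons_cons, List.getElem?_cons_succ] at h
      obtain ⟨U, V, h1, h2, h3⟩ := ih x i h
      exact ⟨x :: U, V, by rw [List.cons_append, h1]; rfl, by simp [h2], h3⟩

theorem split_zip (a : End X) (w : List (End X)) (z : End X) (U V : List (End X)) (p q : End X)
    (h : a :: (w ++ [z]) = U ++ p :: q :: V) :
    ((a :: w).zip (w ++ [z]))[U.length]? = some (p, q) := by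
  induction U generalizing a w with
  | nil =>
    simp only [List.nil_append] at h
    obtain ⟨rfl, h2⟩ := List.cons.inj h
    rw [h2]
    simp
  | cons u U ih =>
    rw [List.cons_append] at h
    obtain ⟨rfl, h2⟩ := List.cons.inj h
    cases w with
    | nil =>
      exfalso
      have := congrArg List.length h2
      simp at this
      omega
    | cons x w =>
      have := ih x w h2
      simpa using this

theorem cyc_eq (z : End X) (w : List (End X)) : cyc (z :: w) = (z :: w).zip (w ++ [z]) := by
  unfold cyc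
  rw [List.rotate_cons_succ, List.rotate_zero]

/-- two splittings of a list at different positions. -/
theorem split_lt {T U V U' V' : List (End X)} {b d : End X} (h1 : T = U ++ b :: V)
    (h2 : T = U' ++ d :: V') (h : U.length < U'.length) : ∃ B, U' = U ++ b :: B := by
  have h3 : U ++ b :: V = U' ++ d :: V' := h1.symm.trans h2
  rcases List.append_eq_append_iff.mp h3 with ⟨a', h4, h5⟩ | ⟨c', h4, h5⟩
  · cases a' with
    | nil =>
      simp at h4
      rw [h4] at h
      omega
    | cons x a' =>
      obtain ⟨rfl, _⟩ := List.cons.inj h5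
      exact ⟨a', h4⟩
  · rw [h4] at h
    simp at h

section Count

variable [DecidableEq X]

theorem inn_congr {μ μ' : End X → End X} (x : End X) (l l1 : List (End X)) (f : End X)
    (h : x :: l = l1 ++ [f]) (hp : ∀ p ∈ l1, μ p = μ' p) : inn μ x l = inn μ' x l := by
  induction l generalizing x l1 with
  | nil => rfl
  | cons y l ih =>
    cases l1 with
    | nil => simp at h
    | cons u l1 =>
      rw [List.cons_append] at h
      obtain ⟨rfl, h2⟩ := List.cons.inj h
      rw [inn_cons, inn_cons, ih y l1 h2 (fun p hp' => hp p (List.mem_cons_of_mem _ hp'))]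
      congr 1
      unfold bd phi
      rw [hp x List.mem_cons_self]

theorem inn_zero {μ : End X → End X} (b : End X) (B : List (End X))
    (h : ∀ L p q M, b :: B = L ++ p :: q :: M → q = phi μ p) : inn μ b B = 0 := by
  induction B generalizing b with
  | nil => rfl
  | cons x B ih =>
    rw [inn_cons, ih x (fun L p q M hL => h (b :: L) p q M (by rw [hL]; rfl)),
      bd_eq_zero.mpr (h [] b x B rfl)]

theorem iter_get {μ : End X → End X} (b : End X) (l : List (End X)) (h : inn μ b l = 0)
    (s : ℕ) (hs : s ≤ l.length) : (b :: l)[s]? = some ((phi μ)^[s] b) := by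
  induction l generalizing b s with
  | nil =>
    have : s = 0 := by simpa using hs
    subst this
    rfl
  | cons x l ih =>
    cases s with
    | zero => rfl
    | succ s =>
      rw [inn_cons, Nat.add_eq_zero_iff] at h
      have hx := bd_eq_zero.mp h.1
      rw [List.getElem?_cons_succ, ih x h.2 s (by simpa using hs), Function.iterate_succ_apply, hx]

omit [DecidableEq X] in
theorem exists_init (x : End X) (l : List (End X)) : ∃ l1, x :: l = l1 ++ [lastD x l] ∧
    l1.length = l.length := by
  induction l generalizing x with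
  | nil => exact ⟨[], rfl, rfl⟩
  | cons y l ih =>
    obtain ⟨l1, h1, h2⟩ := ih y
    exact ⟨x :: l1, by rw [lastD_cons, List.cons_append, ← h1], by simp [h2]⟩

end Count

/-- the data of a head cut at three junctions, in list form. -/
structure Cut3 (oo : X) (w : List (End X)) (c : Fin 6 → End X) (a : Fin 3 → Fin 6)
    (A B C S : List (End X)) (b d e : End X) (E : List (End X)) : Prop where
  hE : S ++ [(oo, true)] = e :: E
  hw : w = A ++ (b :: B) ++ (d :: C) ++ S
  f0 : lastD (oo, true) A = c (a 0)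
  f1 : lastD b B = c (a 1)
  f2 : lastD d C = c (a 2)
  hb : b = bar (c (oldPartner (a 0)))
  hd : d = bar (c (oldPartner (a 1)))
  he : e = bar (c (oldPartner (a 2)))

theorem exists_cut3 {oo : X} {w : List (End X)} {c : Fin 6 → End X} {a : Fin 3 → Fin 6}
    {x : Fin 3 → ℕ} (h : ∀ s, CutAt oo w c (x s) (a s)) (h01 : x 0 < x 1) (h12 : x 1 < x 2) :
    ∃ A B C S b d e E, Cut3 oo w c a A B C S b d e E ∧ A.length = x 0 ∧
      A.length + (B.length + 1) = x 1 ∧ A.length + (B.length + 1) + (C.length + 1) = x 2 := by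
  have h0 := h 0
  have h1 := h 1
  have h2 := h 2
  unfold CutAt at h0 h1 h2
  rw [cyc_eq] at h0 h1 h2
  obtain ⟨U0, V0, a1, a2, a3⟩ := zip_split _ _ _ _ _ _ h0
  obtain ⟨U1, V1, b1, b2, b3⟩ := zip_split _ _ _ _ _ _ h1
  obtain ⟨U2, V2, c1, c2, c3⟩ := zip_split _ _ _ _ _ _ h2
  obtain ⟨B, hB⟩ := split_lt a1 b1 (by omega)
  obtain ⟨C, hC⟩ := split_lt b1 c1 (by omega)
  have hlast : ∃ S E, S ++ [((oo, true) : End X)] = bar (c (oldPartner (a 2))) :: E ∧ w = U2 ++ S ∧
      V2 = E := by
    rcases List.append_eq_append_iff.mp c1 with ⟨a', h4, h5⟩ | ⟨c', h4, h5⟩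
    · cases a' with
      | nil =>
        refine ⟨[], V2, ?_, ?_, rfl⟩
        · simpa using h5
        · simpa using h4.symm
      | cons y a' => simp at h5
    · exact ⟨c', V2, h5.symm, h4, rfl⟩
  obtain ⟨S, E, hS, hwS, -⟩ := hlast
  refine ⟨U0, B, C, S, _, _, _, E, ⟨hS, ?_, a3, ?_, ?_, rfl, rfl, rfl⟩, a2, ?_, ?_⟩
  · rw [hwS, hC, hB]
  · rw [← b3, hB, lastD_append, lastD_cons]
  · rw [← c3, hC, lastD_append, lastD_cons]
  · rw [← b2, hB]
    simp
  · rw [← c2, hC, hB]
    simp only [List.length_append, List.length_cons]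

theorem letters_inj {oo : X} {w : List (End X)} (hw : IsWord oo w) {p q : End X}
    (hp : p ∈ (oo, true) :: w) (hq : q ∈ (oo, true) :: w) (h : p.1 = q.1) : p = q := by
  have h1 : (((oo, true) :: w : List (End X)).map Prod.fst).Nodup := hw.nodup
  exact List.inj_on_of_nodup_map h1 hp hq h

theorem cut3_facts [DecidableEq X] {oo : X} {w : List (End X)} {c : Fin 6 → End X}
    {a : Fin 3 → Fin 6} {A B C S : List (End X)} {b d e : End X} {E : List (End X)}
    (H : Cut3 oo w c a A B C S b d e E) (hw : IsWord oo w) :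
    ∃ A1 B1 C1, (oo, true) :: A = A1 ++ [c (a 0)] ∧ b :: B = B1 ++ [c (a 1)] ∧
      d :: C = C1 ++ [c (a 2)] ∧ B1.length = B.length ∧ C1.length = C.length ∧
      (a 0 ≠ a 1 ∧ a 0 ≠ a 2 ∧ a 1 ≠ a 2 ∧ a 0 ≠ oldPartner (a 1) ∧ a 0 ≠ oldPartner (a 2) ∧
        a 1 ≠ oldPartner (a 2)) ∧
      ∀ p, (p ∈ A1 ∨ p ∈ B1 ∨ p ∈ C1 ∨ p ∈ S) → ∀ l, p ≠ c l := by
  obtain ⟨A1, hA1, -⟩ := exists_init ((oo, true) : End X) A
  obtain ⟨B1, hB1, hB1l⟩ := exists_init b B
  obtain ⟨C1, hC1, hC1l⟩ := exists_init d C
  rw [H.f0] at hA1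
  rw [H.f1] at hB1
  rw [H.f2] at hC1
  have hP : (oo, true) :: w = (A1 ++ [c (a 0)]) ++ (B1 ++ [c (a 1)]) ++ (C1 ++ [c (a 2)]) ++ S := by
    rw [← hA1, ← hB1, ← hC1, H.hw]
    simp
  have hnd : ((oo, true) :: w : List (End X)).Nodup := by
    have h1 : (((oo, true) :: w : List (End X)).map Prod.fst).Nodup := hw.nodup
    exact h1.of_map _
  have hperm : ((A1 ++ [c (a 0)]) ++ (B1 ++ [c (a 1)]) ++ (C1 ++ [c (a 2)]) ++ S).Perm
      (c (a 0) :: c (a 1) :: c (a 2) :: (A1 ++ B1 ++ C1 ++ S)) := by
    rw [List.perm_iff_count]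
    intro y
    simp only [List.count_append, List.count_cons, List.count_nil]
    omega
  rw [hP, hperm.nodup_iff] at hnd
  simp only [List.nodup_cons, List.mem_cons, List.mem_append, not_or] at hnd
  have hmemP : ∀ p, p ∈ (oo, true) :: w ↔ (p ∈ A1 ∨ p ∈ B1 ∨ p ∈ C1 ∨ p ∈ S) ∨ p = c (a 0) ∨
      p = c (a 1) ∨ p = c (a 2) := by
    intro p
    rw [hP, hperm.mem_iff]
    simp only [List.mem_cons, List.mem_append]
    tauto
  have hmem0 : b ∈ (oo, true) :: w := by
    rw [H.hw]
    simp
  have hmem1 : d ∈ (oo, true) :: w := by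
    rw [H.hw]
    simp
  have hmem2 : e ∈ (oo, true) :: w := by
    have h1 : e ∈ S ++ [((oo, true) : End X)] := by
      rw [H.hE]
      exact List.mem_cons_self
    rw [H.hw]
    rcases List.mem_append.mp h1 with h | h
    · simp [h]
    · have : e = (oo, true) := by simpa using h
      rw [this]
      exact List.mem_cons_self
  have key : ∀ (q : End X) (i : Fin 6), q ∈ (oo, true) :: w → q = bar (c i) →
      ∀ p ∈ (oo, true) :: w, p ≠ c i := by
    intro q i hq hqi p hp hpi
    have h1 : p = q := letters_inj hw hp hq (by rw [hqi, hpi]; rfl)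
    rw [hpi, hqi] at h1
    exact bar_ne _ h1.symm
  have L1 : ∀ p ∈ (oo, true) :: w, p ≠ c (oldPartner (a 0)) ∧ p ≠ c (oldPartner (a 1)) ∧
      p ≠ c (oldPartner (a 2)) := fun p hp =>
    ⟨key b _ hmem0 H.hb p hp, key d _ hmem1 H.hd p hp, key e _ hmem2 H.he p hp⟩
  have hp0 : c (a 0) ∈ (oo, true) :: w := (hmemP _).mpr (Or.inr (Or.inl rfl))
  have hp1 : c (a 1) ∈ (oo, true) :: w := (hmemP _).mpr (Or.inr (Or.inr (Or.inl rfl)))
  have hdist : a 0 ≠ a 1 ∧ a 0 ≠ a 2 ∧ a 1 ≠ a 2 ∧ a 0 ≠ oldPartner (a 1) ∧
      a 0 ≠ oldPartner (a 2) ∧ a 1 ≠ oldPartner (a 2) := by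
    refine ⟨fun h => hnd.1.1 (by rw [h]), fun h => hnd.1.2.1 (by rw [h]),
      fun h => hnd.2.1.1 (by rw [h]), fun h => (L1 _ hp0).2.1 (by rw [h]),
      fun h => (L1 _ hp0).2.2 (by rw [h]), fun h => (L1 _ hp1).2.2 (by rw [h])⟩
  refine ⟨A1, B1, C1, hA1, hB1, hC1, hB1l, hC1l, hdist, ?_⟩
  intro p hp l hl
  have hpP : p ∈ (oo, true) :: w := (hmemP p).mpr (Or.inl hp)
  have hL := L1 p hpP
  rcases fin_cover (a 0) (a 1) (a 2) l hdist with h | h | h | h | h | h
  · rw [hl, h] at hp
    tauto
  · rw [h] at hl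
    exact hL.1 hl
  · rw [hl, h] at hp
    tauto
  · rw [h] at hl
    exact hL.2.1 hl
  · rw [hl, h] at hp
    tauto
  · rw [h] at hl
    exact hL.2.2 hl

section Main

variable [DecidableEq X] {oo : X} {w : List (End X)} {c : Fin 6 → End X}
  {a : Fin 3 → Fin 6} {A B C S : List (End X)} {b d e : End X} {E : List (End X)}
  {ν ν' : End X → End X}

/-- the number of bad links of the four pieces. -/
theorem bad_pieces (H : Cut3 oo w c a A B C S b d e E) :
    bad oo ν w = inn ν (oo, true) A + (bd ν (c (a 0)) b + inn ν b B) +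
      (bd ν (c (a 1)) d + inn ν d C) + (bd ν (c (a 2)) e + inn ν e E) := by
  rw [bad_eq, H.hw, List.append_assoc _ S, H.hE]
  simp only [inn_append, inn_cons, lastD_append, lastD_cons, H.f0, H.f1, H.f2]

theorem bad_fwd (H : Cut3 oo w c a A B C S b d e E)
    (hval : ∀ i, ν' (c i) = c (newPartner i))
    (h1 : newPartner (a 0) = oldPartner (a 1)) (h2 : newPartner (a 2) = oldPartner (a 0))
    (h3 : newPartner (a 1) = oldPartner (a 2)) :
    bad oo ν' (A ++ (d :: C) ++ (b :: B) ++ S)
      = inn ν' (oo, true) A + inn ν' b B + inn ν' d C + inn ν' e E := by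
  have e1 : bd ν' (c (a 0)) d = 0 := by
    rw [bd_eq_zero, H.hd, phi, hval, h1]
  have e2 : bd ν' (c (a 2)) b = 0 := by
    rw [bd_eq_zero, H.hb, phi, hval, h2]
  have e3 : bd ν' (c (a 1)) e = 0 := by
    rw [bd_eq_zero, H.he, phi, hval, h3]
  rw [bad_eq, List.append_assoc _ S, H.hE]
  simp only [inn_append, inn_cons, lastD_append, lastD_cons, H.f0, H.f1, H.f2, e1, e2, e3]
  omega

theorem bad_rev1 (hν' : IsMatching ν') (H : Cut3 oo w c a A B C S b d e E)
    (hval : ∀ i, ν' (c i) = c (newPartner i))
    (h1 : newPartner (a 0) = oldPartner (a 1)) (h2 : newPartner (a 1) = a 2)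
    (h3 : newPartner (oldPartner (a 0)) = oldPartner (a 2)) :
    bad oo ν' (A ++ (d :: C) ++ srev (b :: B) ++ S)
      = inn ν' (oo, true) A + inn ν' b B + inn ν' d C + inn ν' e E := by
  have e1 : bd ν' (c (a 0)) d = 0 := by
    rw [bd_eq_zero, H.hd, phi, hval, h1]
  have e2 : bd ν' (c (a 1)) (bar (c (a 2))) = 0 := by
    rw [bd_eq_zero, phi, hval, h2]
  have e3 : bd ν' (bar b) e = 0 := by
    rw [bd_eq_zero, H.hb, bar_bar, H.he, phi, hval, h3]
  rw [bad_eq, List.append_assoc _ S, H.hE]
  simp only [inn_append, inn_cons, lastD_append, lastD_cons, lastD_srev_cons,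
    inn_srev_cons hν', H.f0, H.f1, H.f2, e1, e2, e3]
  omega

theorem bad_rev2 (hν' : IsMatching ν') (H : Cut3 oo w c a A B C S b d e E)
    (hval : ∀ i, ν' (c i) = c (newPartner i))
    (h1 : newPartner (a 1) = oldPartner (a 2)) (h2 : newPartner (a 2) = a 0)
    (h3 : newPartner (oldPartner (a 1)) = oldPartner (a 0)) :
    bad oo ν' (A ++ srev (d :: C) ++ (b :: B) ++ S)
      = inn ν' (oo, true) A + inn ν' b B + inn ν' d C + inn ν' e E := by
  have e1 : bd ν' (c (a 1)) e = 0 := by
    rw [bd_eq_zero, H.he, phi, hval, h1]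
  have e2 : bd ν' (c (a 2)) (bar (c (a 0))) = 0 := by
    rw [bd_eq_zero, phi, hval, h2]
  have e3 : bd ν' (bar d) b = 0 := by
    rw [bd_eq_zero, H.hd, bar_bar, H.hb, phi, hval, h3]
  rw [bad_eq, List.append_assoc _ S, H.hE]
  simp only [inn_append, inn_cons, lastD_append, lastD_cons, lastD_srev_cons,
    inn_srev_cons hν', H.f0, H.f1, H.f2, e1, e2, e3]
  omega

end Main

/-- an exact run inside a word, from the positional hypothesis. -/
theorem run_of_pos [DecidableEq X] {oo : X} {w : List (End X)} {ν : End X → End X}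
    {Def : Finset X} {U B R : List (End X)} {b r : End X} {x0 x1 : ℕ}
    (hT : (oo, true) :: (w ++ [((oo, true) : End X)]) = U ++ (b :: B) ++ (r :: R))
    (hU : U.length = x0 + 1) (hB : x0 + (B.length + 1) = x1)
    (h : ∀ i, x0 < i → i ≤ x1 → ∀ p q, (cyc ((oo, true) :: w))[i]? = some (p, q) →
      p.1 ∉ Def ∧ (i < x1 → q = phi ν p)) :
    inn ν b B = 0 ∧ ∀ p ∈ b :: B, p.1 ∉ Def := by
  constructor
  · apply inn_zero
    intro L p q M hL
    have h1 : (oo, true) :: (w ++ [((oo, true) : End X)])
        = (U ++ L) ++ p :: q :: (M ++ (r :: R)) := by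
      rw [hT, hL]
      simp
    have h2 := split_zip _ _ _ _ _ _ _ h1
    rw [← cyc_eq] at h2
    have hlen := congrArg List.length hL
    simp only [List.length_cons, List.length_append] at hlen
    refine (h _ ?_ ?_ p q h2).2 ?_
    all_goals
      rw [List.length_append]
      omega
  · intro p hp
    obtain ⟨L, M, hL⟩ := List.append_of_mem hp
    obtain ⟨q, V, hqV⟩ : ∃ q V, M ++ (r :: R) = q :: V := by
      cases M with
      | nil => exact ⟨r, R, rfl⟩
      | cons y M => exact ⟨y, M ++ (r :: R), rfl⟩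
    have h1 : (oo, true) :: (w ++ [((oo, true) : End X)]) = (U ++ L) ++ p :: q :: V := by
      rw [hT, hL, ← hqV]
      simp
    have h2 := split_zip _ _ _ _ _ _ _ h1
    rw [← cyc_eq] at h2
    have hlen := congrArg List.length hL
    simp only [List.length_cons, List.length_append] at hlen
    refine (h _ ?_ ?_ p q h2).1
    all_goals
      rw [List.length_append]
      omega

/-- the coherence hypothesis applied to an exact run. -/
theorem coherent [DecidableEq X] {K : Type} {μ : End X → End X} {c : K → Fin 6 → End X}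
    {D : Finset K} {L : ℕ} {Def : Finset X} (hH2 : H2 μ c D L Def) {k : K} (hk : k ∉ D)
    {b : End X} {B B1 : List (End X)} {i j : Fin 6} (hb : b = bar (c k i))
    (hB1 : b :: B = B1 ++ [c k j]) (hl : B1.length = B.length) (hL : B.length ≤ L)
    (h0 : inn (switch μ c D) b B = 0) (hDef : ∀ p ∈ b :: B, p.1 ∉ Def)
    (hno : ∀ p ∈ B1, ∀ l, p ≠ c k l) : j = i + 3 := by
  have hget := iter_get b B h0
  apply hH2 k hk i j B.length hL
  · have h1 := hget B.length le_rfl
    rw [hB1, ← hl, List.getElem?_append_right le_rfl, Nat.sub_self] at h1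
    simp only [List.getElem?_cons_zero, Option.some.injEq] at h1
    rw [← hb, h1, hl]
  · intro s hs l hsl
    have h1 := hget s hs.le
    rw [hB1, List.getElem?_append_left (by omega)] at h1
    exact hno _ (List.mem_of_getElem? h1) l (by rw [hb]; exact hsl)
  · intro s hs
    have h1 := hget s hs
    rw [← hb]
    exact hDef _ (List.mem_of_getElem? h1)

end Near

theorem specNEAR : SpecNEAR := by
  intro X _ _ oo K _ _ μ c D k Def L w x a hμ hc hw hk hH2 hcut h01 h12 hnear
  obtain ⟨A, B, C, S, b, d, e, E, H, l0, l1, l2⟩ := Near.exists_cut3 hcut h01 h12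
  obtain ⟨A1, B1, C1, hA1, hB1, hC1, hB1l, hC1l, hdist, hno⟩ := Near.cut3_facts H hw
  have hν' := Near.switch_isMatching hμ hc (insert k D)
  have hval : ∀ i, switch μ c (insert k D) (c k i) = c k (newPartner i) :=
    fun i => Near.switch_mem hc (Finset.mem_insert_self k D) i
  have hsame : ∀ p, (∀ l, p ≠ c k l) → switch μ c (insert k D) p = switch μ c D p :=
    fun p hp => Near.switch_insert hc hp
  have hSE : e :: E = S ++ [((oo, true) : End X)] := H.hE.symm
  have cA : inn (switch μ c (insert k D)) (oo, true) A = inn (switch μ c D) (oo, true) A :=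
    Near.inn_congr _ _ A1 _ hA1 fun p hp => hsame p (hno p (Or.inl hp))
  have cB : inn (switch μ c (insert k D)) b B = inn (switch μ c D) b B :=
    Near.inn_congr _ _ B1 _ hB1 fun p hp => hsame p (hno p (Or.inr (Or.inl hp)))
  have cC : inn (switch μ c (insert k D)) d C = inn (switch μ c D) d C :=
    Near.inn_congr _ _ C1 _ hC1 fun p hp => hsame p (hno p (Or.inr (Or.inr (Or.inl hp))))
  have cE : inn (switch μ c (insert k D)) e E = inn (switch μ c D) e E :=
    Near.inn_congr _ _ S _ hSE fun p hp => hsame p (hno p (Or.inr (Or.inr (Or.inr hp))))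
  have hbad := Near.bad_pieces (ν := switch μ c D) H
  have hwP : w = A ++ (b :: B) ++ (d :: C) ++ S := H.hw
  -- the three possible words
  have fin : ∀ w' : List (End X), SMove w w' →
      bad oo (switch μ c (insert k D)) w' = inn (switch μ c (insert k D)) (oo, true) A
        + inn (switch μ c (insert k D)) b B + inn (switch μ c (insert k D)) d C
        + inn (switch μ c (insert k D)) e E →
      ∃ w', IsWord oo w' ∧ SMove w w' ∧
        bad oo (switch μ c (insert k D)) w' ≤ bad oo (switch μ c D) w := by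
    intro w' hm hb'
    refine ⟨w', hw.of_perm (SMove_perm hm), hm, ?_⟩
    rw [hb', hbad, cA, cB, cC, cE]
    omega
  have hfwd : SMove w (A ++ (d :: C) ++ (b :: B) ++ S) := by
    rw [hwP]
    exact SMove_swap (by simp)
  rcases hnear with ⟨hL, hpos⟩ | ⟨hL, hpos⟩
  · have hrun := Near.run_of_pos (U := (oo, true) :: A) (B := B) (b := b) (r := d)
      (R := C ++ S ++ [((oo, true) : End X)]) (ν := switch μ c D)
      (by rw [hwP]; simp) (by simp [l0]) (by omega) hpos
    have hj := Near.coherent hH2 hk H.hb hB1 hB1l (by omega) hrun.1 hrun.2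
      (fun p hp => hno p (Or.inr (Or.inl hp)))
    obtain ⟨n1, ⟨n2, n3⟩ | ⟨n2, n3⟩⟩ := Near.fin_near (a 0) (a 1) (a 2)
      ⟨hdist.2.1, hdist.2.2.1, hdist.2.2.2.2.1, hdist.2.2.2.2.2, hj⟩
    · exact fin _ hfwd (Near.bad_fwd H hval n1 n2 n3)
    · refine fin (A ++ (d :: C) ++ srev (b :: B) ++ S) ?_ (Near.bad_rev1 hν' H hval n1 n2 n3)
      rw [hwP]
      exact ⟨A, b :: B, (d :: C) ++ S, A ++ (d :: C), S, by simp, by simp, by simp,
        Or.inr rfl⟩
  · have hrun := Near.run_of_pos (U := (oo, true) :: (A ++ (b :: B))) (B := C) (b := d)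
      (r := e) (R := E) (ν := switch μ c D)
      (by rw [hwP, List.append_assoc _ S, H.hE]; simp) (by simp; omega) (by omega) hpos
    have hj := Near.coherent hH2 hk H.hd hC1 hC1l (by omega) hrun.1 hrun.2
      (fun p hp => hno p (Or.inr (Or.inr (Or.inl hp))))
    obtain ⟨n1, ⟨n2, n3⟩ | ⟨n2, n3⟩⟩ := Near.fin_near' (a 0) (a 1) (a 2)
      ⟨hdist.1, hdist.2.1, hdist.2.2.2.1, hdist.2.2.2.2.1, hj⟩
    · exact fin _ hfwd (Near.bad_fwd H hval n2 n3 n1)
    · refine fin (A ++ srev (d :: C) ++ (b :: B) ++ S) ?_ (Near.bad_rev2 hν' H hval n1 n2 n3)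
      rw [hwP]
      exact SMove_swap_rev (by simp)

end Pool.Agent.Lib.MP29a61eN
end
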