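import Pool.Agent.Lib.MP_29a61e_co.N2.Local2
import Pool.Agent.Lib.MP_29a61e_co.N2.MACRO

/-!
# MP_29a61e_co, M(n) <= n/2 + o(n): change of the matching at the beginning and at the end of RUN
-/

namespace Pool.Agent.Lib.MP29a61eN

variable {X : Type}

/-- The positive matching is a perfect matching. -/
theorem isMatching_pos (f : Equiv.Perm X) : IsMatching (pos f) where
  inv := by
    rintro ⟨x, _ | _⟩ <;> simp [pos]
  ne := by
    rintro ⟨x, _ | _⟩ <;> simp [pos]

/-- A matching that agrees with `pos f` at the right ends of the letters of `E` differs from it in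
at most `2 |X - E|` ends. -/
theorem dm_pos_le [Fintype X] [DecidableEq X] {μ : End X → End X} (hμ : IsMatching μ)
    (f : Equiv.Perm X) (E : Finset X) (h : ∀ x ∈ E, μ (x, true) = (f x, false)) :
    dm μ (pos f) ≤ 2 * (Finset.univ \ E).card := by
  classical
  have h1 : (Finset.univ.filter fun e => μ e ≠ pos f e) ⊆
      ((Finset.univ \ E).image fun x => (x, true)) ∪
        ((Finset.univ \ E).image fun x => (f x, false)) := by
    rintro ⟨x, s⟩ hx
    simp only [Finset.mem_filter, Finset.mem_univ, true_and] at hx
    simp only [Finset.mem_union, Finset.mem_image, Finset.mem_sdiff, Finset.mem_univ, true_and,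
      Prod.mk.injEq]
    cases s with
    | true =>
      left
      refine ⟨x, fun hE => hx ?_, rfl, rfl⟩
      rw [h x hE, pos]
    | false =>
      right
      refine ⟨f.symm x, fun hE => hx ?_, by simp, rfl⟩
      have h2 := h _ hE
      rw [Equiv.apply_symm_apply] at h2
      have h3 := hμ.inv (f.symm x, true)
      rw [h2] at h3
      rw [h3, pos]
  calc dm μ (pos f) ≤ _ := Finset.card_le_card h1
    _ ≤ _ := Finset.card_union_le _ _
    _ ≤ (Finset.univ \ E).card + (Finset.univ \ E).card :=
      Nat.add_le_add Finset.card_image_le Finset.card_image_le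
    _ = _ := by ring

theorem dm_comm [Fintype X] [DecidableEq X] (μ ν : End X → End X) : dm μ ν = dm ν μ := by
  unfold dm
  congr 1
  ext e
  simp only [Finset.mem_filter, Finset.mem_univ, true_and]
  exact ne_comm

end Pool.Agent.Lib.MP29a61eN
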