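import Pool.Agent.Lib.MP_29a61e_co.N2.MACRO

section
/-!
# MP_29a61e_co, `M n ≤ n / 2 + o(n)`: elementary facts (module LIB)
-/
namespace Pool.Agent.Lib.MP29a61eN.LIBM

variable {X : Type}

theorem bar_inj {a b : End X} (h : bar a = bar b) : a = b := by
  have := congrArg bar h
  simpa using this

theorem srev_cons (x : End X) (l : List (End X)) : srev (x :: l) = srev l ++ [bar x] := by
  simp [srev]

theorem srev_map_fst (l : List (End X)) : (srev l).map Prod.fst = (l.map Prod.fst).reverse := by
  have h : (Prod.fst ∘ bar : End X → X) = Prod.fst := by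
    funext x
    simp
  simp [srev, List.map_reverse, h]

/-! ## moves -/

theorem move_map {w w' : List (End X)} (h : SMove w w') :
    Pool.Agent.Lib.MP29a61e.Move (w.map Prod.fst) (w'.map Prod.fst) := by
  obtain ⟨A, B, C, U, V, hB, rfl, hUV, h⟩ := h
  refine ⟨A.map Prod.fst, B.map Prod.fst, C.map Prod.fst, U.map Prod.fst, V.map Prod.fst,
    by simpa using hB, by simp, ?_, ?_⟩
  · rw [← List.map_append, hUV, List.map_append]
  · rcases h with h | h
    · left; rw [h]; simp
    · right; rw [h]; simp [srev_map_fst]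

theorem steps_map {k : ℕ} {w w' : List (End X)} (h : SSteps k w w') :
    Pool.Agent.Lib.MP29a61e.Steps k (w.map Prod.fst) (w'.map Prod.fst) := by
  induction k generalizing w with
  | zero =>
    have : w = w' := h
    subst this
    exact rfl
  | succ k ih =>
    obtain ⟨u, hu, hs⟩ := h
    exact ⟨u.map Prod.fst, move_map hu, ih hs⟩

theorem smove_perm {w w' : List (End X)} (h : SMove w w') :
    (w.map Prod.fst).Perm (w'.map Prod.fst) := by
  obtain ⟨A, B, C, U, V, _, rfl, hUV, h⟩ := h
  have h1 : ((A ++ B ++ C).map Prod.fst).Perm (B.map Prod.fst ++ (U ++ V).map Prod.fst) := by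
    rw [← hUV, ← List.map_append, List.append_assoc]
    exact (List.perm_append_comm_assoc A B C).map _
  rcases h with h | h
  · rw [h]
    refine h1.trans ?_
    rw [← List.map_append, List.append_assoc]
    exact (List.perm_append_comm_assoc B U V).map _
  · rw [h]
    refine h1.trans ?_
    have h2 : (B.map Prod.fst ++ (U ++ V).map Prod.fst).Perm
        ((srev B).map Prod.fst ++ (U ++ V).map Prod.fst) := by
      rw [srev_map_fst]
      exact (List.reverse_perm _).symm.append_right _
    refine h2.trans ?_
    rw [← List.map_append, List.append_assoc]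
    exact (List.perm_append_comm_assoc (srev B) U V).map _

theorem ssteps_perm {k : ℕ} {w w' : List (End X)} (h : SSteps k w w') :
    (w.map Prod.fst).Perm (w'.map Prod.fst) := by
  induction k generalizing w with
  | zero =>
    have : w = w' := h
    rw [this]
  | succ k ih =>
    obtain ⟨u, hu, hu'⟩ := h
    exact (smove_perm hu).trans (ih hu')

theorem isWord_of_perm {oo : X} {w w' : List (End X)} (h : IsWord oo w)
    (hp : (w.map Prod.fst).Perm (w'.map Prod.fst)) : IsWord oo w' := by
  refine ⟨(List.Perm.nodup_iff (hp.cons oo)).mp h.nodup, fun x => ?_⟩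
  exact (hp.cons oo).mem_iff.mp (h.full x)

theorem ssteps_trans {j k : ℕ} {u v w : List (End X)} (h1 : SSteps j u v) (h2 : SSteps k v w) :
    SSteps (j + k) u w := by
  induction j generalizing u with
  | zero =>
    have : u = v := h1
    subst this
    simpa using h2
  | succ j ih =>
    obtain ⟨x, hx, hx'⟩ := h1
    rw [show j + 1 + k = (j + k) + 1 by omega]
    exact ⟨x, hx, ih hx'⟩

/-! ## bad links of a path -/

section
variable [DecidableEq X]

@[simp] theorem lbad_nil (μ : End X → End X) : lbad μ [] = 0 := rfl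

@[simp] theorem lbad_singleton (μ : End X → End X) (a : End X) : lbad μ [a] = 0 := rfl

theorem lbad_cons_cons (μ : End X → End X) (a b : End X) (l : List (End X)) :
    lbad μ (a :: b :: l) = (if b = phi μ a then 0 else 1) + lbad μ (b :: l) := rfl

/-- Two paths with a common letter. -/
theorem lbad_append_cons (μ : End X → End X) (A : List (End X)) (a : End X) (B : List (End X)) :
    lbad μ (A ++ a :: B) = lbad μ (A ++ [a]) + lbad μ (a :: B) := by
  induction A with
  | nil => simp
  | cons x A ih =>
    cases A with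
    | nil => simp [lbad_cons_cons]
    | cons y A =>
      simp only [List.cons_append] at ih ⊢
      rw [lbad_cons_cons, lbad_cons_cons, ih, Nat.add_assoc]

theorem lbad_split (μ : End X → End X) (A B : List (End X)) (a b : End X) :
    lbad μ (A ++ a :: b :: B) = lbad μ (A ++ [a]) + (if b = phi μ a then 0 else 1) +
      lbad μ (b :: B) := by
  rw [lbad_append_cons, lbad_cons_cons, Nat.add_assoc]

theorem phi_rev {μ : End X → End X} (hμ : IsMatching μ) {a x : End X} :
    bar a = phi μ (bar x) ↔ x = phi μ a := by
  unfold phi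
  constructor
  · intro h
    have h1 : a = μ (bar x) := bar_inj h
    rw [h1, hμ.inv, bar_bar]
  · intro h
    rw [h, bar_bar, hμ.inv]

theorem lbad_srev {μ : End X → End X} (hμ : IsMatching μ) (A : List (End X)) :
    lbad μ (srev A) = lbad μ A := by
  induction A with
  | nil => rfl
  | cons a A ih =>
    cases A with
    | nil => simp [srev]
    | cons b A =>
      rw [srev_cons, srev_cons, List.append_assoc, List.singleton_append, lbad_split,
        ← srev_cons, ih, lbad_singleton, lbad_cons_cons]
      have h : (bar a = phi μ (bar b)) ↔ (b = phi μ a) := phi_rev hμ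
      by_cases hb : b = phi μ a
      · rw [if_pos (h.2 hb), if_pos hb]; omega
      · rw [if_neg (fun hh => hb (h.1 hh)), if_neg hb]; omega

theorem countP_zip (μ : End X → End X) (a z : End X) (l : List (End X)) :
    ((a :: l).zip (l ++ [z])).countP (fun p => decide (p.2 ≠ phi μ p.1))
      = lbad μ (a :: (l ++ [z])) := by
  induction l generalizing a with
  | nil =>
    simp only [List.nil_append, List.zip_cons_cons, List.zip_nil_right, List.countP_cons,
      List.countP_nil, lbad_cons_cons, lbad_singleton]
    by_cases h : z = phi μ a <;> simp [h]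
  | cons x l ih =>
    rw [List.cons_append, List.zip_cons_cons, List.countP_cons, ih x, lbad_cons_cons]
    by_cases h : x = phi μ a
    · simp [h]
    · simp [h]
      omega

theorem cyc_cons {α : Type} (a : α) (l : List α) : cyc (a :: l) = (a :: l).zip (l ++ [a]) := by
  unfold cyc
  rw [List.rotate_cons_succ, List.rotate_zero]

theorem bad_eq (oo : X) (μ : End X → End X) (w : List (End X)) :
    bad oo μ w = lbad μ ((oo, true) :: (w ++ [(oo, true)])) := by
  unfold bad
  rw [cyc_cons]
  exact countP_zip μ (oo, true) (oo, true) w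

end

/-- The junctions of a cyclic list. -/
theorem cyc_get {α : Type} (a : α) (l : List α) (i : ℕ) (hi : i ≤ l.length) :
    ∃ p q : α, (cyc (a :: l))[i]? = some (p, q) ∧ (a :: (l ++ [a]))[i]? = some p ∧
      (a :: (l ++ [a]))[i + 1]? = some q := by
  have h1 : i < (a :: l).length := by simp; omega
  have h2 : i < (l ++ [a]).length := by simp; omega
  refine ⟨(a :: l)[i], (l ++ [a])[i], ?_, ?_, ?_⟩
  · rw [cyc_cons, List.getElem?_eq_getElem (by simp; omega)]
    simp [List.getElem_zip]
  · have h3 : (a :: (l ++ [a])) = (a :: l) ++ [a] := by simp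
    rw [h3, List.getElem?_append_left h1, List.getElem?_eq_getElem h1]
  · rw [List.getElem?_cons_succ, List.getElem?_eq_getElem h2]

end Pool.Agent.Lib.MP29a61eN.LIBM

namespace Pool.Agent.Lib.MP29a61eN

open LIBM in
theorem specLIB : SpecLIB := by
  intro X _
  refine ⟨fun oo w w' k hw h => isWord_of_perm hw (ssteps_perm h), fun w v u j k h1 h2 =>
    ssteps_trans h1 h2, fun w w' k h => steps_map h, fun oo μ w => bad_eq oo μ w,
    fun μ A B a b => lbad_split μ A B a b, fun μ A hμ => lbad_srev hμ A, ?_⟩
  intro w oo i hi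
  exact cyc_get (oo, true) w i hi

end Pool.Agent.Lib.MP29a61eN
end

section
/-!
# MP_29a61e_co, `M n ≤ n / 2 + o(n)`: the macro theorem TS (potential and constants)
-/
namespace Pool.Agent.Lib.MP29a61eN

namespace TS

/-- the number of letters of a word. -/
theorem length_of_isWord {X : Type} [Fintype X] [DecidableEq X] {oo : X} {w : List (End X)}
    (h : IsWord oo w) : w.length + 1 = Fintype.card X := by
  have h1 : (oo :: w.map Prod.fst).toFinset = Finset.univ := by
    ext x
    simp only [List.mem_toFinset, Finset.mem_univ, iff_true]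
    exact h.full x
  have h2 := List.toFinset_card_of_nodup h.nodup
  rw [h1, Finset.card_univ] at h2
  rw [h2]
  simp

/-- there are at most `card X` heads. -/
theorem card_heads {X : Type} [Fintype X] {K : Type} [Fintype K] {μ : End X → End X}
    {c : K → Fin 6 → End X} (h : IsHeads μ c) : Fintype.card K ≤ Fintype.card X := by
  have h1 : Function.Injective (fun p : K × Fin 6 => c p.1 p.2) := by
    rintro ⟨k, i⟩ ⟨k', i'⟩ he
    obtain ⟨h2, h3⟩ := h.inj k k' i i' he
    exact Prod.ext h2 h3
  have h2 := Fintype.card_le_of_injective _ h1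
  rw [Fintype.card_prod, Fintype.card_prod, Fintype.card_fin, Fintype.card_bool] at h2
  omega

/-- the states with the heads of `D` switched and with all heads switched. -/
theorem dm_le (hSW : SpecSW) {X : Type} [Fintype X] [DecidableEq X] {K : Type} [Fintype K]
    [DecidableEq K] {μ : End X → End X} {c : K → Fin 6 → End X} (hμ : IsMatching μ)
    (h : IsHeads μ c) (D : Finset K) :
    dm (switch μ c D) (switch μ c Finset.univ) ≤ 6 * Dᶜ.card := by
  obtain ⟨-, a1, -, a3⟩ := hSW X K μ c D hμ h
  obtain ⟨-, b1, -, b3⟩ := hSW X K μ c Finset.univ hμ h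
  have h1 : (Finset.univ.filter fun e => switch μ c D e ≠ switch μ c Finset.univ e) ⊆
      (Dᶜ ×ˢ (Finset.univ : Finset (Fin 6))).image (fun p => c p.1 p.2) := by
    intro e he
    rw [Finset.mem_filter] at he
    by_cases hx : ∃ k i, c k i = e
    · obtain ⟨k, i, rfl⟩ := hx
      by_cases hk : k ∈ D
      · exact absurd ((a1 k hk i).trans (b1 k (Finset.mem_univ k) i).symm) he.2
      · rw [Finset.mem_image]
        exact ⟨(k, i), by simp [hk], rfl⟩
    · push Not at hx
      exact absurd ((a3 e fun k _ i => hx k i).trans (b3 e fun k _ i => hx k i).symm) he.2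
  have h2 := (Finset.card_le_card h1).trans Finset.card_image_le
  rw [Finset.card_product, Finset.card_univ, Fintype.card_fin] at h2
  unfold dm
  omega

/-- with `D = ∅` nothing is switched. -/
theorem switch_empty (hSW : SpecSW) {X : Type} {K : Type} [DecidableEq K] {μ : End X → End X}
    {c : K → Fin 6 → End X} (hμ : IsMatching μ) (h : IsHeads μ c) : switch μ c ∅ = μ := by
  funext e
  exact (hSW X K μ c ∅ hμ h).2.2.2 e (by simp)

/-- cleaning, with the constants of the main theorem. -/
theorem clean (hSW : SpecSW) (hCLEAN : SpecCLEAN) {X : Type} [Fintype X] [DecidableEq X] {oo : X}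
    {K : Type} [Fintype K] [DecidableEq K] {μ : End X → End X} {c : K → Fin 6 → End X}
    {Def : Finset X} {G : ℕ} {γ : ℝ} (hμ : IsMatching μ) (h : IsHeads μ c)
    (hγ : 0 < γ) (hDef : (Def.card : ℝ) ≤ γ * Fintype.card X) (hoo : oo ∈ Def)
    (hG : 1 ≤ γ * G) (D : Finset K) (h1 : H1 (switch μ c D) G Def)
    {w : List (End X)} (hw : IsWord oo w) :
    ∃ (m : ℕ) (w' : List (End X)), IsWord oo w' ∧ SSteps m w w' ∧
      m + bad oo (switch μ c D) w' ≤ bad oo (switch μ c D) w ∧
      (bad oo (switch μ c D) w' : ℝ) ≤ 3 * γ * Fintype.card X := by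
  obtain ⟨m, w', a, b, d, e⟩ := hCLEAN X oo (switch μ c D) Def G w (hSW X K μ c D hμ h).1 h1 hw
  refine ⟨m, w', a, b, d, ?_⟩
  have hG0 : (0 : ℝ) < G := by
    by_contra hn
    have : (G : ℝ) ≤ 0 := not_lt.1 hn
    nlinarith
  have hD1 : (1 : ℝ) ≤ Def.card := by
    have : 1 ≤ Def.card := Finset.card_pos.2 ⟨oo, hoo⟩
    exact_mod_cast this
  have e' : (G : ℝ) * bad oo (switch μ c D) w' ≤ Fintype.card X + G * (Def.card + 1) := by
    exact_mod_cast e
  have hN : (0 : ℝ) ≤ Fintype.card X := by positivity
  have h5 : (Fintype.card X : ℝ) ≤ G * (γ * Fintype.card X) := by nlinarith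
  have h6 : (G : ℝ) * bad oo (switch μ c D) w' ≤ G * (3 * γ * Fintype.card X) := by
    have h7 : (G : ℝ) * (Def.card + 1) ≤ G * (2 * (γ * Fintype.card X)) := by
      apply mul_le_mul_of_nonneg_left _ hG0.le
      linarith
    linarith
  exact le_of_mul_le_mul_left h6 hG0

end TS

open TS in
theorem specTS (hLIB : SpecLIB) (hSW : SpecSW) (hWM : SpecWM) (hCLEAN : SpecCLEAN)
    (hFAMSEL : SpecFAMSEL) (hNEAR : SpecNEAR) (hCLN : SpecCLN) : SpecTS := by
  intro ε hε
  -- the constants
  obtain ⟨h, hh⟩ := exists_nat_ge (50 / ε)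
  have hh' : 50 ≤ ε * h := by
    rw [div_le_iff₀ hε] at hh
    linarith
  obtain ⟨C, hC⟩ := hFAMSEL h
  obtain ⟨L0, hL0⟩ := exists_nat_ge (8 * (C : ℝ) / ε)
  set L := L0 + 1 with hLdef
  have hL : 8 * (C : ℝ) ≤ ε * L := by
    rw [div_le_iff₀ hε] at hL0
    rw [hLdef]
    push_cast
    linarith
  set γ : ℝ := min (ε / 3) (ε / (40 * (3 * L + 9))) with hγdef
  have hM : (0 : ℝ) < 3 * L + 9 := by positivity
  have hγ : 0 < γ := lt_min (by positivity) (by positivity)
  have hγ1 : 3 * γ ≤ ε := by
    have : γ ≤ ε / 3 := min_le_left _ _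
    linarith
  have hγ2 : 40 * ((3 * L + 9) * γ) ≤ ε := by
    have : γ ≤ ε / (40 * (3 * L + 9)) := min_le_right _ _
    rw [le_div_iff₀ (by positivity)] at this
    linarith
  obtain ⟨G, hG⟩ := exists_nat_ge (1 / γ)
  have hG' : 1 ≤ γ * G := by
    rw [div_le_iff₀ hγ] at hG
    linarith
  refine ⟨L, G, γ, hγ, ?_⟩
  intro X _ _ oo K _ _ μ c Def hμ hc hoo hDef hH1 hH2 w₀ hw₀
  have hN1 : (1 : ℝ) ≤ γ * Fintype.card X := by
    have : 1 ≤ Def.card := Finset.card_pos.2 ⟨oo, hoo⟩
    have h2 : (1 : ℝ) ≤ Def.card := by exact_mod_cast this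
    linarith
  have hN0 : (0 : ℝ) < Fintype.card X := by
    by_contra hn
    have : (Fintype.card X : ℝ) ≤ 0 := not_lt.1 hn
    nlinarith
  -- the main loop
  have key : ∀ (n : ℕ) (D : Finset K) (w : List (End X)), Dᶜ.card ≤ n → IsWord oo w →
      ∃ (D' : Finset K) (w' : List (End X)) (k : ℕ), IsWord oo w' ∧ SSteps k w w' ∧
        (D'ᶜ.card : ℝ) ≤ ε / 4 * Fintype.card X ∧
        (k : ℝ) + (1 + ε / 2) * D'ᶜ.card + bad oo (switch μ c D') w' ≤
          (1 + ε / 2) * Dᶜ.card + bad oo (switch μ c D) w := by
    intro n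
    induction n with
    | zero =>
      intro D w hD hw
      have h0 : Dᶜ.card = 0 := by omega
      refine ⟨D, w, 0, hw, rfl, ?_, by simp⟩
      rw [h0]
      push_cast
      positivity
    | succ n ih =>
      intro D w hD hw
      by_cases hsmall : (Dᶜ.card : ℝ) ≤ ε / 4 * Fintype.card X
      · exact ⟨D, w, 0, hw, rfl, hsmall, by simp⟩
      · push Not at hsmall
        obtain ⟨m, w1, hw1, hs1, hm1, hb1⟩ :=
          clean hSW hCLEAN hμ hc hγ hDef hoo hG' D (hH1 D) hw
        obtain ⟨Q, x, a, hQ1, hQ2, hQ3⟩ := hCLN X oo K μ c D Def L w1 hμ hc hw1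
        have hm1' : (m : ℝ) + bad oo (switch μ c D) w1 ≤ bad oo (switch μ c D) w := by
          exact_mod_cast hm1
        have hQ2' : (Dᶜ.card : ℝ) ≤
            Q.card + (3 * L + 9) * (bad oo (switch μ c D) w1 + Def.card + 1) := by
          exact_mod_cast hQ2
        have hQc : ε / 8 * Fintype.card X ≤ Q.card := by
          have h1 : (3 * (L : ℝ) + 9) * (bad oo (switch μ c D) w1 + Def.card + 1) ≤
              (3 * L + 9) * (5 * (γ * Fintype.card X)) := by
            apply mul_le_mul_of_nonneg_left _ hM.le
            linarith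
          have h2 : (3 * (L : ℝ) + 9) * (5 * (γ * Fintype.card X)) =
              5 * ((3 * L + 9) * γ) * Fintype.card X := by ring
          have h3 : 5 * ((3 * L + 9) * γ) * Fintype.card X ≤ ε / 8 * Fintype.card X := by
            apply mul_le_mul_of_nonneg_right _ hN0.le
            linarith
          linarith
        have hdisj : ∀ k ∈ Q, k ∉ D := fun k hk => by
          have := hQ1 hk
          rwa [Finset.mem_compl] at this
        by_cases hnear : ∃ k ∈ Q, x k 1 ≤ x k 0 + L ∨ x k 2 ≤ x k 1 + L
        · -- one near head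
          obtain ⟨k, hkQ, hk⟩ := hnear
          obtain ⟨q1, q2, q3, q4, q5, q6⟩ := hQ3 k hkQ
          obtain ⟨w2, hw2, hmv, hb2⟩ := hNEAR X oo K μ c D k Def L w1 (x k) (a k) hμ hc hw1
            (hdisj k hkQ) (hH2 D) q1 q3 q4 (by
              rcases hk with hk | hk
              · left
                refine ⟨hk, fun i hi1 hi2 p q hpq => ?_⟩
                have := q6 0 i (by omega) (by omega) p q hpq
                exact ⟨this.1, fun _ => this.2⟩
              · right
                refine ⟨hk, fun i hi1 hi2 p q hpq => ?_⟩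
                have := q6 1 i (by omega) (by omega) p q hpq
                exact ⟨this.1, fun _ => this.2⟩)
          have hcard : (insert k D)ᶜ.card + 1 = Dᶜ.card := by
            rw [Finset.compl_insert, Finset.card_erase_add_one (hQ1 hkQ)]
          obtain ⟨D', w', k', e1, e2, e3, e4⟩ := ih (insert k D) w2 (by omega) hw2
          refine ⟨D', w', m + (1 + k'), e1, ?_, e3, ?_⟩
          · exact (hLIB X).2.1 _ _ _ _ _ hs1 ((hLIB X).2.1 _ _ _ _ _ ⟨w2, hmv, rfl⟩ e2)
          · have hcard' : ((insert k D)ᶜ.card : ℝ) = Dᶜ.card - 1 := by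
              rw [← hcard]
              push_cast
              ring
            have hb2' : (bad oo (switch μ c (insert k D)) w2 : ℝ) ≤
                bad oo (switch μ c D) w1 := by exact_mod_cast hb2
            rw [hcard'] at e4
            push_cast
            linarith
        · -- a family of far heads
          push Not at hnear
          have hfar : (C : ℝ) * (w1.length + 1) ≤ Q.card * L := by
            have h1 : ((w1.length : ℝ) + 1) = Fintype.card X := by
              exact_mod_cast length_of_isWord hw1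
            rw [h1]
            have h2 : (C : ℝ) * Fintype.card X ≤ ε / 8 * L * Fintype.card X := by
              apply mul_le_mul_of_nonneg_right _ hN0.le
              linarith
            have h3 : ε / 8 * Fintype.card X * L ≤ Q.card * L := by
              apply mul_le_mul_of_nonneg_right hQc
              positivity
            linarith
          obtain ⟨F, k, w2, hF1, hF2, hF3, hw2, hs2, hb2⟩ := hC X oo K μ c D Q w1 x a L hμ hc
            hw1 hdisj (fun k hk => (hQ3 k hk).1) (by omega)
            (fun k hk => ⟨(hQ3 k hk).2.1, (hnear k hk).1.le, (hnear k hk).2.le,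
              (hQ3 k hk).2.2.2.2.1⟩) (by exact_mod_cast hfar)
          have hsub : F ⊆ Dᶜ := hF1.trans hQ1
          have hcard : (D ∪ F)ᶜ.card + F.card = Dᶜ.card := by
            rw [Finset.compl_union, ← Finset.card_sdiff_add_card_eq_card hsub]
            congr 2
            ext y
            simp only [Finset.mem_inter, Finset.mem_compl, Finset.mem_sdiff]
          by_cases hh0 : h = 0
          · exfalso
            rw [hh0] at hh'
            norm_num at hh'
          have hFc : 1 ≤ F.card := by omega
          obtain ⟨D', w', k', e1, e2, e3, e4⟩ := ih (D ∪ F) w2 (by omega) hw2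
          refine ⟨D', w', m + (k + k'), e1, ?_, e3, ?_⟩
          · exact (hLIB X).2.1 _ _ _ _ _ hs1 ((hLIB X).2.1 _ _ _ _ _ hs2 e2)
          · have hcard' : ((D ∪ F)ᶜ.card : ℝ) = Dᶜ.card - F.card := by
              rw [← hcard]
              push_cast
              ring
            have hb2' : (bad oo (switch μ c (D ∪ F)) w2 : ℝ) ≤
                bad oo (switch μ c D) w1 + 30 := by exact_mod_cast hb2
            have hF2' : 2 * (h : ℝ) ≤ F.card := by exact_mod_cast hF2
            have hF3' : (k : ℝ) ≤ 2 * h + 20 := by exact_mod_cast hF3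
            have hF4 : 50 ≤ ε / 2 * F.card := by nlinarith
            rw [hcard'] at e4
            push_cast
            linarith
  -- the end
  obtain ⟨D', w', k, e1, e2, e3, e4⟩ := key _ ∅ w₀ le_rfl hw₀
  obtain ⟨ω, -, -, -, hω, -⟩ := hWM X oo w' e1
  have h1 := hω (switch μ c D') (switch μ c Finset.univ) (hSW X K μ c D' hμ hc).1
    (hSW X K μ c Finset.univ hμ hc).1
  have h2 := dm_le hSW hμ hc D'
  obtain ⟨m, w'', f1, f2, f3, f4⟩ :=
    clean hSW hCLEAN hμ hc hγ hDef hoo hG' Finset.univ (hH1 Finset.univ) e1
  refine ⟨w'', k + m, f1, (hLIB X).2.1 _ _ _ _ _ e2 f2, ?_, ?_⟩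
  · rw [switch_empty hSW hμ hc, Finset.compl_empty, Finset.card_univ] at e4
    have h3 : (bad oo (switch μ c Finset.univ) w' : ℝ) ≤
        bad oo (switch μ c D') w' + 3 * D'ᶜ.card := by
      have : bad oo (switch μ c Finset.univ) w' ≤
        bad oo (switch μ c D') w' + 3 * D'ᶜ.card := by omega
      exact_mod_cast this
    have f3' : (m : ℝ) + bad oo (switch μ c Finset.univ) w'' ≤
        bad oo (switch μ c Finset.univ) w' := by exact_mod_cast f3
    have h4 : (Fintype.card K : ℝ) ≤ Fintype.card X := by exact_mod_cast card_heads hc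
    have h5 : (0 : ℝ) ≤ bad oo (switch μ c Finset.univ) w'' := by positivity
    have h6 : ε / 2 * (Fintype.card K : ℝ) ≤ ε / 2 * Fintype.card X :=
      mul_le_mul_of_nonneg_left h4 (by positivity)
    have h7 : (0 : ℝ) ≤ ε / 2 * D'ᶜ.card := by positivity
    push_cast
    linarith
  · calc (bad oo (switch μ c Finset.univ) w'' : ℝ) ≤ 3 * γ * Fintype.card X := f4
      _ ≤ ε * Fintype.card X := mul_le_mul_of_nonneg_right hγ1 hN0.le

end Pool.Agent.Lib.MP29a61eN
end
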