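import Pool.Agent.Lib.MP_29a61e_co.N2.TwinB
import Pool.Agent.Lib.MP_29a61e_co.N2.Local2

section
/-!
# Twins, part C: the far matching of the roots of the components
-/
set_option linter.unusedSectionVars false

namespace Pool.Agent.Lib.MP29a61eN.Twin

open Finset Cmp

section

variable {X : Type} [Fintype X] [DecidableEq X] {b v : Equiv.Perm X} {E : Finset X}
  {tau : X → ℕ} {m T : ℕ}
  (hH : ∀ y, ∃ a, a < m ∧ (¬ YY b E ((Hp b v ^ a) y) ∨ (Hp b v ^ (a + 1)) y = y))
  (hT : ∀ x, tau x < T)

/-- the types of the tuples of `S2` -/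
noncomputable def th2 (hH : ∀ y, ∃ a, a < m ∧
      (¬ YY b E ((Hp b v ^ a) y) ∨ (Hp b v ^ (a + 1)) y = y))
    (hT : ∀ x, tau x < T) : X ⊕ X → Option (Ty m T)
  | Sum.inl j => some (ty b v E tau hH hT j)
  | Sum.inr _ => none

theorem pat2 (i j : X ⊕ X) (h : th2 hH hT i = th2 hH hT j) (σ σ' : Slot m) :
    S2 b v E m i σ = S2 b v E m i σ' ↔ S2 b v E m j σ = S2 b v E m j σ' := by
  cases i with
  | inl i =>
    cases j with
    | inl j =>
      have h1 : ty b v E tau hH hT i = ty b v E tau hH hT j := Option.some.inj h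
      exact ty_pat hH hT h1 σ σ'
    | inr j => exact absurd h (by simp [th2])
  | inr i =>
    cases j with
    | inl j => exact absurd h (by simp [th2])
    | inr j => simp [S2]

/-- the ports: legal roots -/
def Port {Q : ℕ} (f : X → A Q) (hH : ∀ y, ∃ a, a < m ∧
      (¬ YY b E ((Hp b v ^ a) y) ∨ (Hp b v ^ (a + 1)) y = y))
    (hT : ∀ x, tau x < T) (j : X) : Prop :=
  comp (Hp b v) (YY b E) j = j ∧ legal (ty b v E tau hH hT j) (f ∘ S b v E m j)

variable {Q : ℕ} (f : X → A Q)

/-- class sizes of ports and of tuples agree -/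
theorem card_cls {_i0 : Fintype {j : X // Port (b := b) (v := v) (E := E) f hH hT j}}
    {_i1 : DecidableEq (Ty m T × (Slot m → A Q))}
    {_i2 : DecidableEq (Option (Ty m T))} {_i3 : DecidableEq (Slot m → A Q)} (j0 : X)
    (h0 : Port (b := b) (v := v) (E := E) f hH hT j0)
    (κ : Slot m → A Q) (hκ : legal (ty b v E tau hH hT j0) κ) :
    (univ.filter (fun t : {j : X // Port (b := b) (v := v) (E := E) f hH hT j} =>
        (ty b v E tau hH hT t.1, f ∘ S b v E m t.1) = (ty b v E tau hH hT j0, κ))).card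
      = (univ.filter (fun j : X ⊕ X => th2 hH hT j = th2 hH hT (Sum.inl j0) ∧
          f ∘ S2 b v E m j = κ)).card := by
  classical
  refine Finset.card_bij (fun t _ => Sum.inl t.1) ?_ ?_ ?_
  · intro t ht
    rw [Finset.mem_filter] at ht ⊢
    obtain ⟨_, ht⟩ := ht
    rw [Prod.mk.injEq] at ht
    refine ⟨Finset.mem_univ _, ?_, ht.2⟩
    show some _ = some _
    rw [ht.1]
  · intro t _ t' _ h
    exact Subtype.ext (Sum.inl.inj h)
  · intro j hj
    rw [Finset.mem_filter] at hj
    obtain ⟨_, hj1, hj2⟩ := hj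
    cases j with
    | inl j =>
      have h1 : ty b v E tau hH hT j = ty b v E tau hH hT j0 := Option.some.inj hj1
      have h2 : f ∘ S b v E m j = κ := hj2
      refine ⟨⟨j, ?_, ?_⟩, ?_, rfl⟩
      · exact (ty_base hH hT h1).mpr h0.1
      · rw [h1, h2]; exact hκ
      · rw [Finset.mem_filter]
        refine ⟨Finset.mem_univ _, ?_⟩
        show (ty b v E tau hH hT j, f ∘ S b v E m j) = _
        rw [h1, h2]
    | inr j => exact absurd hj1 (by simp [th2])

end

/-- THE FAR MATCHING OF THE ROOTS -/
theorem matching (m T : ℕ) (ε : ℝ) (hε : 0 < ε) : ∃ Q : ℕ, ∀ D : ℕ, ∃ n0 : ℕ,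
    ∀ (X : Type) [Fintype X] [DecidableEq X] (b v : Equiv.Perm X) (E : Finset X) (tau : X → ℕ)
      (hH : ∀ y, ∃ a, a < m ∧ (¬ YY b E ((Hp b v ^ a) y) ∨ (Hp b v ^ (a + 1)) y = y))
      (_hv : ∀ y, ∃ a, a < m ∧ (¬ EE E ((v ^ a) y) ∨ (v ^ (a + 1)) y = y))
      (hT : ∀ x, tau x < T), n0 ≤ Fintype.card X →
      ∃ (f : X → A Q) (M : List (X × X)),
        (M.map Prod.fst ++ M.map Prod.snd).Nodup ∧
        (∀ p ∈ M, Port (b := b) (v := v) (E := E) f hH hT p.1 ∧
          Port (b := b) (v := v) (E := E) f hH hT p.2 ∧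
          ty b v E tau hH hT p.2 = ty b v E tau hH hT p.1 ∧
          f ∘ S b v E m p.2 = star (ty b v E tau hH hT p.1) (f ∘ S b v E m p.1)) ∧
        FAR.Far (adj b v E) M D ∧ (∀ a, FAR.deg M a ≤ 1) ∧
        ((univ.filter (fun y => comp (Hp b v) (YY b E) y ∉
          M.map Prod.fst ++ M.map Prod.snd)).card : ℝ) ≤ ε * Fintype.card X := by
  classical
  -- constants
  set d0 : ℕ := m * m + m + m * (m + 1) with hd0
  obtain ⟨Q, hQ⟩ := exists_nat_gt (6 * (m : ℝ) * d0 / ε)
  refine ⟨Q, ?_⟩
  intro D
  set kk : ℕ := Fintype.card (Ty m T × (Slot m → A Q)) with hkk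
  set W : ℝ := (m : ℝ) * (2 * kk + 4 * d0) + 1 with hW
  have hWpos : 0 < W := by positivity
  set ε1 : ℝ := ε / (3 * W) with hε1
  have hε1pos : 0 < ε1 := by positivity
  obtain ⟨n1, hn1⟩ := Col.equidist_pattern (Slot m) (d0 + 1) (A Q) (Option (Ty m T)) ε1 hε1pos
  set C : ℕ := 1 * (1 + (2 * m + (0 + 1))) ^ D with hC
  obtain ⟨n2, hn2⟩ := exists_nat_gt (3 * (m : ℝ) * kk * C / ε)
  refine ⟨max (max n1 n2) 1, ?_⟩
  intro X _ _ b v E tau hH hv hT hX
  have hX1 : n1 ≤ Fintype.card X := le_trans (le_trans (le_max_left _ _) (le_max_left _ _)) hX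
  have hX2 : n2 ≤ Fintype.card X := le_trans (le_trans (le_max_right _ _) (le_max_left _ _)) hX
  have hX3 : 1 ≤ Fintype.card X := le_trans (le_max_right _ _) hX
  have hne : Nonempty X := Fintype.card_pos_iff.mp hX3
  have hm : 0 < m := by
    obtain ⟨a, ha, _⟩ := hH (Classical.arbitrary X)
    omega
  obtain ⟨f, hf⟩ := hn1 X (X ⊕ X) (S2 b v E m) (th2 hH hT) hX1 (pat2 hH hT)
    (fun x => card_slots2 hv x)
  set N : ℝ := (Fintype.card X : ℝ) with hN
  have hNpos : 0 < N := by rw [hN]; exact_mod_cast hX3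
  -- letters of one colour
  have hB : ∀ a : A Q, ((univ.filter (fun x => f x = a)).card : ℝ) ≤ N / (2 * (Q + 1)) + ε1 * N := by
    intro a
    have h1 := hf (Sum.inr (Classical.arbitrary X)) (fun _ => a) (fun _ _ _ => rfl)
    have h2 : (univ.filter (fun j : X ⊕ X => th2 hH hT j = th2 hH hT
        (Sum.inr (Classical.arbitrary X)) ∧ f ∘ S2 b v E m j = fun _ => a)).card
        = (univ.filter (fun x => f x = a)).card := by
      symm
      refine Finset.card_bij (fun x _ => Sum.inr x) ?_ ?_ ?_
      · intro x hx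
        rw [Finset.mem_filter] at hx ⊢
        refine ⟨Finset.mem_univ _, rfl, ?_⟩
        funext σ
        exact hx.2
      · intro x _ x' _ h
        exact Sum.inr.inj h
      · intro j hj
        rw [Finset.mem_filter] at hj
        obtain ⟨_, hj1, hj2⟩ := hj
        cases j with
        | inl j => exact absurd hj1 (by simp [th2])
        | inr x =>
          refine ⟨x, ?_, rfl⟩
          rw [Finset.mem_filter]
          exact ⟨Finset.mem_univ _, congrFun hj2 (⟨0, hm⟩, none)⟩
    have h3 : (univ.filter (fun j : X ⊕ X => th2 hH hT j = th2 hH hT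
        (Sum.inr (Classical.arbitrary X)))).card = Fintype.card X := by
      rw [← Finset.card_univ (α := X)]
      symm
      refine Finset.card_bij (fun x _ => Sum.inr x) ?_ ?_ ?_
      · intro x _
        rw [Finset.mem_filter]
        exact ⟨Finset.mem_univ _, rfl⟩
      · intro x _ x' _ h
        exact Sum.inr.inj h
      · intro j hj
        rw [Finset.mem_filter] at hj
        cases j with
        | inl j => exact absurd hj.2 (by simp [th2])
        | inr x => exact ⟨x, Finset.mem_univ _, rfl⟩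
    have h4 : (univ.image (S2 b v E m (Sum.inr (Classical.arbitrary X)))).card = 1 := by
      rw [Finset.card_eq_one]
      refine ⟨Classical.arbitrary X, ?_⟩
      ext x
      simp only [Finset.mem_image, Finset.mem_univ, true_and, Finset.mem_singleton]
      constructor
      · rintro ⟨σ, hσ⟩
        exact hσ.symm
      · intro h
        exact ⟨(⟨0, hm⟩, none), h.symm⟩
    rw [h2, h3, h4, pow_one] at h1
    have h5 : (Fintype.card (A Q) : ℝ) = 2 * (Q + 1) := by
      simp [A, Fintype.card_prod]
    rw [h5, ← hN] at h1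
    have h6 := (abs_le.mp h1).2
    linarith
  -- the greedy matching
  let P : Type := {j : X // Port (b := b) (v := v) (E := E) f hH hT j}
  obtain ⟨M, hM1, hM2, hM3, hM4, hM5⟩ := FAR.greedy (adj := adj b v E) (T := P)
    (K := Ty m T × (Slot m → A Q)) (fun _ _ h => adj_symm h) (nb b v E) (fun a a' h => mem_nb h) (2 * m) (card_nb hH)
    [] D 0 1 (FAR.far_nil D) (fun a => by simp [FAR.deg]) (fun t => t.1)
    (by
      intro a
      rw [Finset.card_le_one]
      intro t ht t' ht'
      rw [Finset.mem_filter] at ht ht'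
      exact Subtype.ext (ht.2.trans ht'.2.symm))
    (fun t => (ty b v E tau hH hT t.1, f ∘ S b v E m t.1))
    (fun k => (k.1, star k.1 k.2)) (by
      intro k
      show (k.1, star k.1 (star k.1 k.2)) = k
      rw [star_star])
  rw [List.nil_append] at hM3
  simp only [List.nil_append] at hM4
  -- unmatched ports
  have hunm : ((univ.filter (fun t : P => t ∉ M.map Prod.fst ++ M.map Prod.snd)).card : ℝ)
      ≤ kk * (2 * ε1 * N + C) := by
    have h1 : (univ.filter (fun t : P => t ∉ M.map Prod.fst ++ M.map Prod.snd)).card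
        = ∑ k : Ty m T × (Slot m → A Q), (univ.filter (fun t : P =>
          (ty b v E tau hH hT t.1, f ∘ S b v E m t.1) = k ∧
            t ∉ M.map Prod.fst ++ M.map Prod.snd)).card := by
      rw [Finset.card_eq_sum_card_fiberwise (f := fun t : P =>
        (ty b v E tau hH hT t.1, f ∘ S b v E m t.1)) (t := univ) (fun _ _ => Finset.mem_univ _)]
      apply Finset.sum_congr rfl
      intro k _
      rw [Finset.filter_filter]
      congr 1
      apply Finset.filter_congr
      intro t _
      exact and_comm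
    rw [h1]
    push_cast
    have h2 : ∀ k : Ty m T × (Slot m → A Q), ((univ.filter (fun t : P =>
          (ty b v E tau hH hT t.1, f ∘ S b v E m t.1) = k ∧
            t ∉ M.map Prod.fst ++ M.map Prod.snd)).card : ℝ) ≤ 2 * ε1 * N + C := by
      intro k
      have h3 : (univ.filter (fun t : P =>
          (ty b v E tau hH hT t.1, f ∘ S b v E m t.1) = k ∧
            t ∉ M.map Prod.fst ++ M.map Prod.snd)).card ≤
          ((univ.filter (fun t : P =>
            (ty b v E tau hH hT t.1, f ∘ S b v E m t.1) = k)).card -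
          (univ.filter (fun t : P =>
            (ty b v E tau hH hT t.1, f ∘ S b v E m t.1) = (k.1, star k.1 k.2))).card) + C := by
        convert hM5 k
      have h4 : ((univ.filter (fun t : P =>
          (ty b v E tau hH hT t.1, f ∘ S b v E m t.1) = k ∧
            t ∉ M.map Prod.fst ++ M.map Prod.snd)).card : ℝ) ≤
          (((univ.filter (fun t : P =>
            (ty b v E tau hH hT t.1, f ∘ S b v E m t.1) = k)).card -
          (univ.filter (fun t : P =>
            (ty b v E tau hH hT t.1, f ∘ S b v E m t.1) = (k.1, star k.1 k.2))).card : ℕ) : ℝ)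
            + C := by
        exact_mod_cast h3
      refine h4.trans ?_
      gcongr
      by_cases hk : ∃ t0 : P, (ty b v E tau hH hT t0.1, f ∘ S b v E m t0.1) = k
      · obtain ⟨t0, ht0⟩ := hk
        have hp := t0.2
        have hk1 : k.1 = ty b v E tau hH hT t0.1 := by rw [← ht0]
        have hk2 : k.2 = f ∘ S b v E m t0.1 := by rw [← ht0]
        have hcomp : ∀ σ σ', S2 b v E m (Sum.inl t0.1) σ = S2 b v E m (Sum.inl t0.1) σ' →
            k.2 σ = k.2 σ' := by
          intro σ σ' h
          have h' : S b v E m t0.1 σ = S b v E m t0.1 σ' := h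
          rw [hk2]
          show f _ = f _
          rw [h']
        have hcomp' : ∀ σ σ', S2 b v E m (Sum.inl t0.1) σ = S2 b v E m (Sum.inl t0.1) σ' →
            star k.1 k.2 σ = star k.1 k.2 σ' := by
          intro σ σ' h
          rw [hk1]
          exact star_compat hH hT t0.1 k.2 hcomp σ σ' h
        have e1 := hf (Sum.inl t0.1) k.2 hcomp
        have e2 := hf (Sum.inl t0.1) (star k.1 k.2) hcomp'
        have hleg : legal (ty b v E tau hH hT t0.1) k.2 := by rw [hk2]; exact hp.2
        have hleg' : legal (ty b v E tau hH hT t0.1) (star k.1 k.2) := by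
          rw [hk1]; exact legal_star hleg
        have c1 : ((univ.filter (fun t : P =>
            (ty b v E tau hH hT t.1, f ∘ S b v E m t.1) = (ty b v E tau hH hT t0.1, k.2))).card) =
            (univ.filter (fun j : X ⊕ X => th2 hH hT j = th2 hH hT (Sum.inl t0.1) ∧
              f ∘ S2 b v E m j = k.2)).card := card_cls hH hT f t0.1 hp k.2 hleg
        have c2 : ((univ.filter (fun t : P =>
            (ty b v E tau hH hT t.1, f ∘ S b v E m t.1) =
              (ty b v E tau hH hT t0.1, star k.1 k.2))).card) =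
            (univ.filter (fun j : X ⊕ X => th2 hH hT j = th2 hH hT (Sum.inl t0.1) ∧
              f ∘ S2 b v E m j = star k.1 k.2)).card :=
            card_cls hH hT f t0.1 hp (star k.1 k.2) hleg'
        rw [← c1] at e1
        rw [← c2] at e2
        have hk' : k = (ty b v E tau hH hT t0.1, k.2) := by
          rw [← hk1]
        have e3 := (abs_le.mp e1).2
        have e4 := (abs_le.mp e2).1
        have e5 : ((univ.filter (fun t : P =>
            (ty b v E tau hH hT t.1, f ∘ S b v E m t.1) = k)).card : ℝ) -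
          ((univ.filter (fun t : P =>
            (ty b v E tau hH hT t.1, f ∘ S b v E m t.1) = (k.1, star k.1 k.2))).card : ℝ)
            ≤ 2 * ε1 * N := by
          rw [hk1]
          have hkk' : ∀ t : P, ((ty b v E tau hH hT t.1, f ∘ S b v E m t.1) = k ↔
            (ty b v E tau hH hT t.1, f ∘ S b v E m t.1) = (ty b v E tau hH hT t0.1, k.2)) := by
            intro t
            rw [← hk1]
          rw [Finset.filter_congr (fun t _ => hkk' t)]
          rw [hk1] at e4
          linarith
        have h0 : (0 : ℝ) ≤ 2 * ε1 * N := by positivity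
        by_cases hle : (univ.filter (fun t : P =>
            (ty b v E tau hH hT t.1, f ∘ S b v E m t.1) = (k.1, star k.1 k.2))).card ≤
            (univ.filter (fun t : P =>
            (ty b v E tau hH hT t.1, f ∘ S b v E m t.1) = k)).card
        · rw [Nat.cast_sub hle]
          exact e5
        · rw [Nat.sub_eq_zero_of_le (by omega)]
          simpa using h0
      · have h5 : (univ.filter (fun t : P =>
            (ty b v E tau hH hT t.1, f ∘ S b v E m t.1) = k)).card = 0 := by
          rw [Finset.card_eq_zero, Finset.filter_eq_empty_iff]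
          intro t _ ht
          exact hk ⟨t, ht⟩
        rw [h5]
        simp only [Nat.zero_sub, Nat.cast_zero]
        positivity
    calc ∑ k : Ty m T × (Slot m → A Q), ((univ.filter (fun t : P =>
          (ty b v E tau hH hT t.1, f ∘ S b v E m t.1) = k ∧
            t ∉ M.map Prod.fst ++ M.map Prod.snd)).card : ℝ)
        ≤ ∑ _k : Ty m T × (Slot m → A Q), (2 * ε1 * N + C) :=
          Finset.sum_le_sum (fun k _ => h2 k)
      _ = kk * (2 * ε1 * N + C) := by
          rw [Finset.sum_const, Finset.card_univ, nsmul_eq_mul]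
  -- the matching as a list of letters
  set M' : List (X × X) := M.map (fun p => (p.1.1, p.2.1)) with hM'
  have hfst : M'.map Prod.fst = (M.map Prod.fst).map (fun t : P => t.1) := by
    rw [hM', List.map_map, List.map_map]; rfl
  have hsnd : M'.map Prod.snd = (M.map Prod.snd).map (fun t : P => t.1) := by
    rw [hM', List.map_map, List.map_map]; rfl
  have hboth : M'.map Prod.fst ++ M'.map Prod.snd
      = (M.map Prod.fst ++ M.map Prod.snd).map (fun t : P => t.1) := by
    rw [List.map_append, hfst, hsnd]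
  refine ⟨f, M', ?_, ?_, hM3, ?_, ?_⟩
  · rw [hboth]
    exact hM1.map (fun t t' h => Subtype.ext h)
  · intro p hp
    rw [hM', List.mem_map] at hp
    obtain ⟨q, hq, rfl⟩ := hp
    have h1 := hM2 q hq
    rw [Prod.mk.injEq] at h1
    exact ⟨q.1.2, q.2.2, h1.1, h1.2⟩
  · intro a
    have := hM4 a
    simpa using this
  · -- leftover
    have hsub : univ.filter (fun y => comp (Hp b v) (YY b E) y ∉
          M'.map Prod.fst ++ M'.map Prod.snd) ⊆
        ((univ.filter (fun j => ¬ legal (ty b v E tau hH hT j) (f ∘ S b v E m j))) ∪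
          (univ.filter (fun t : P => t ∉ M.map Prod.fst ++ M.map Prod.snd)).image
            (fun t => t.1)).biUnion
          (fun j => univ.filter (fun y => comp (Hp b v) (YY b E) y = j)) := by
      intro y hy
      rw [Finset.mem_filter] at hy
      obtain ⟨_, hy⟩ := hy
      rw [Finset.mem_biUnion]
      refine ⟨comp (Hp b v) (YY b E) y, ?_, ?_⟩
      · rw [Finset.mem_union]
        by_cases hl : legal (ty b v E tau hH hT (comp (Hp b v) (YY b E) y))
          (f ∘ S b v E m (comp (Hp b v) (YY b E) y))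
        · right
          rw [Finset.mem_image]
          refine ⟨⟨comp (Hp b v) (YY b E) y, comp_comp y, hl⟩, ?_, rfl⟩
          rw [Finset.mem_filter]
          refine ⟨Finset.mem_univ _, ?_⟩
          intro hmem
          apply hy
          rw [hboth, List.mem_map]
          exact ⟨_, hmem, rfl⟩
        · left
          rw [Finset.mem_filter]
          exact ⟨Finset.mem_univ _, hl⟩
      · rw [Finset.mem_filter]
        exact ⟨Finset.mem_univ _, rfl⟩
    have h1 := Finset.card_le_card hsub
    have h2 : (((univ.filter (fun j => ¬ legal (ty b v E tau hH hT j) (f ∘ S b v E m j))) ∪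
          (univ.filter (fun t : P => t ∉ M.map Prod.fst ++ M.map Prod.snd)).image
            (fun t => t.1)).biUnion
          (fun j => univ.filter (fun y => comp (Hp b v) (YY b E) y = j))).card ≤
        ((univ.filter (fun j => ¬ legal (ty b v E tau hH hT j) (f ∘ S b v E m j))).card +
          (univ.filter (fun t : P => t ∉ M.map Prod.fst ++ M.map Prod.snd)).card) * m := by
      refine Finset.card_biUnion_le.trans ?_
      refine (Finset.sum_le_card_nsmul _ _ m (fun j _ => card_comp_le hH j)).trans ?_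
      rw [smul_eq_mul]
      apply Nat.mul_le_mul_right
      refine (Finset.card_union_le _ _).trans ?_
      exact Nat.add_le_add_left Finset.card_image_le _
    have h3 := card_illegal hH hT hv f (N / (2 * (Q + 1)) + ε1 * N) hB
    have h4 : ((univ.filter (fun y => comp (Hp b v) (YY b E) y ∉
          M'.map Prod.fst ++ M'.map Prod.snd)).card : ℝ) ≤
        (((univ.filter (fun j => ¬ legal (ty b v E tau hH hT j) (f ∘ S b v E m j))).card : ℝ) +
          ((univ.filter (fun t : P => t ∉ M.map Prod.fst ++ M.map Prod.snd)).card : ℝ)) * m := by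
      exact_mod_cast h1.trans h2
    refine h4.trans ?_
    have h5 : (((univ.filter (fun j => ¬ legal (ty b v E tau hH hT j)
          (f ∘ S b v E m j))).card : ℝ) +
          ((univ.filter (fun t : P => t ∉ M.map Prod.fst ++ M.map Prod.snd)).card : ℝ)) * m ≤
        ((d0 : ℝ) * (4 * (N / (2 * (Q + 1)) + ε1 * N)) + kk * (2 * ε1 * N + C)) * m := by
      apply mul_le_mul_of_nonneg_right (add_le_add _ hunm) (by positivity)
      rw [hd0]
      exact h3
    refine h5.trans ?_
    -- three parts
    have p1 : (d0 : ℝ) * (4 * (N / (2 * (Q + 1)))) * m ≤ ε / 3 * N := by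
      have hQ1 : 6 * (m : ℝ) * d0 / ε < Q + 1 := by linarith
      rw [div_lt_iff₀ hε] at hQ1
      have hQpos : (0 : ℝ) < Q + 1 := by positivity
      have : (d0 : ℝ) * (4 * (N / (2 * (Q + 1)))) * m = (2 * m * d0 / (Q + 1)) * N := by
        field_simp
        ring
      rw [this]
      apply mul_le_mul_of_nonneg_right _ hNpos.le
      rw [div_le_iff₀ hQpos]
      linarith
    have p2 : (m : ℝ) * (2 * kk + 4 * d0) * (ε1 * N) ≤ ε / 3 * N := by
      rw [← mul_assoc]
      apply mul_le_mul_of_nonneg_right _ hNpos.le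
      rw [hε1]
      have : (m : ℝ) * (2 * kk + 4 * d0) ≤ W := by rw [hW]; linarith
      calc (m : ℝ) * (2 * kk + 4 * d0) * (ε / (3 * W)) ≤ W * (ε / (3 * W)) := by
            apply mul_le_mul_of_nonneg_right this (by positivity)
        _ = ε / 3 := by field_simp
    have p3 : (m : ℝ) * kk * C ≤ ε / 3 * N := by
      have h6 : 3 * (m : ℝ) * kk * C / ε < N := by
        refine hn2.trans_le ?_
        rw [hN]
        exact_mod_cast hX2
      rw [div_lt_iff₀ hε] at h6
      linarith
    calc ((d0 : ℝ) * (4 * (N / (2 * (Q + 1)) + ε1 * N)) + kk * (2 * ε1 * N + C)) * m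
        = (d0 : ℝ) * (4 * (N / (2 * (Q + 1)))) * m + (m : ℝ) * (2 * kk + 4 * d0) * (ε1 * N)
          + (m : ℝ) * kk * C := by ring
      _ ≤ ε / 3 * N + ε / 3 * N + ε / 3 * N := by linarith
      _ = ε * N := by ring

end Pool.Agent.Lib.MP29a61eN.Twin
end

section
/-!
# Twins, part D: the twin map of the letters
-/
set_option linter.unusedSectionVars false

namespace Pool.Agent.Lib.MP29a61eN.Twin

open Finset Cmp

/-! ### The relation of a matching list -/

section rel

variable {X : Type} {M : List (X × X)}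

/-- `j` and `j'` are matched -/
def Rl (M : List (X × X)) (j j' : X) : Prop := (j, j') ∈ M ∨ (j', j) ∈ M

theorem Rl.symm {j j' : X} (h : Rl M j j') : Rl M j' j := Or.symm h

theorem inj_fst (hN : (M.map Prod.fst ++ M.map Prod.snd).Nodup) {p q : X × X} (hp : p ∈ M)
    (hq : q ∈ M) (h : p.1 = q.1) : p = q :=
  List.inj_on_of_nodup_map (List.nodup_append.mp hN).1 hp hq h

theorem inj_snd (hN : (M.map Prod.fst ++ M.map Prod.snd).Nodup) {p q : X × X} (hp : p ∈ M)
    (hq : q ∈ M) (h : p.2 = q.2) : p = q :=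
  List.inj_on_of_nodup_map (List.nodup_append.mp hN).2.1 hp hq h

theorem fst_ne_snd (hN : (M.map Prod.fst ++ M.map Prod.snd).Nodup) {p q : X × X} (hp : p ∈ M)
    (hq : q ∈ M) : p.1 ≠ q.2 := by
  have h := (List.nodup_append.mp hN).2.2
  exact h _ (List.mem_map_of_mem hp) _ (List.mem_map_of_mem hq)

theorem Rl.unique (hN : (M.map Prod.fst ++ M.map Prod.snd).Nodup) {j j' j'' : X}
    (h : Rl M j j') (h' : Rl M j j'') : j' = j'' := by
  rcases h with h | h
  · rcases h' with h' | h'
    · exact congrArg Prod.snd (inj_fst hN h h' rfl)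
    · exact absurd rfl (fst_ne_snd hN h h')
  · rcases h' with h' | h'
    · exact absurd rfl (fst_ne_snd hN h' h)
    · exact congrArg Prod.fst (inj_snd hN h h' rfl)

theorem Rl.ne (hN : (M.map Prod.fst ++ M.map Prod.snd).Nodup) {j j' : X} (h : Rl M j j') :
    j ≠ j' := by
  rcases h with h | h
  · exact fst_ne_snd hN h h
  · exact (fst_ne_snd hN h h).symm

theorem rl_iff_mem {j : X} : (∃ j', Rl M j j') ↔ j ∈ M.map Prod.fst ++ M.map Prod.snd := by
  rw [List.mem_append, List.mem_map, List.mem_map]
  constructor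
  · rintro ⟨j', h | h⟩
    · exact Or.inl ⟨_, h, rfl⟩
    · exact Or.inr ⟨_, h, rfl⟩
  · rintro (⟨p, hp, rfl⟩ | ⟨p, hp, rfl⟩)
    · exact ⟨p.2, Or.inl hp⟩
    · exact ⟨p.1, Or.inr hp⟩

open Classical in
/-- the partner of a root -/
noncomputable def partner (M : List (X × X)) (j : X) : X :=
  if h : ∃ j', Rl M j j' then Classical.choose h else j

theorem partner_eq (hN : (M.map Prod.fst ++ M.map Prod.snd).Nodup) {j j' : X}
    (h : Rl M j j') : partner M j = j' := by
  classical
  unfold partner
  rw [dif_pos ⟨j', h⟩]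
  exact Rl.unique hN (Classical.choose_spec (⟨j', h⟩ : ∃ j', Rl M j j')) h

open Classical in
/-- the number of the edge of a root -/
noncomputable def eix (M : List (X × X)) (j : X) : ℕ :=
  if h : ∃ i : ℕ, M[i]? = some (j, partner M j) ∨ M[i]? = some (partner M j, j)
  then Classical.choose h else 0

theorem eix_spec (hN : (M.map Prod.fst ++ M.map Prod.snd).Nodup) {j j' : X}
    (h : Rl M j j') : M[eix M j]? = some (j, j') ∨ M[eix M j]? = some (j', j) := by
  classical
  have hp := partner_eq hN h
  have hex : ∃ i : ℕ, M[i]? = some (j, partner M j) ∨ M[i]? = some (partner M j, j) := by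
    rw [hp]
    rcases h with h | h
    · obtain ⟨i, hi⟩ := List.mem_iff_getElem?.mp h
      exact ⟨i, Or.inl hi⟩
    · obtain ⟨i, hi⟩ := List.mem_iff_getElem?.mp h
      exact ⟨i, Or.inr hi⟩
  have h1 := Classical.choose_spec hex
  have h2 : M[eix M j]? = some (j, partner M j) ∨ M[eix M j]? = some (partner M j, j) := by
    unfold eix
    rw [dif_pos hex]
    exact h1
  rw [hp] at h2
  exact h2

end rel

section main

variable {X : Type} [Fintype X] [DecidableEq X] {b v : Equiv.Perm X} {E : Finset X}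
  {tau : X → ℕ} {m T Q : ℕ}
  (hH : ∀ y, ∃ a, a < m ∧ (¬ YY b E ((Hp b v ^ a) y) ∨ (Hp b v ^ (a + 1)) y = y))
  (hT : ∀ x, tau x < T)
  {f : X → A Q} {M : List (X × X)}
  (hN : (M.map Prod.fst ++ M.map Prod.snd).Nodup)
  (hM : ∀ p ∈ M, Port (b := b) (v := v) (E := E) f hH hT p.1 ∧
          Port (b := b) (v := v) (E := E) f hH hT p.2 ∧
          ty b v E tau hH hT p.2 = ty b v E tau hH hT p.1 ∧
          f ∘ S b v E m p.2 = star (ty b v E tau hH hT p.1) (f ∘ S b v E m p.1))

include hM in
theorem rl_port {j j' : X} (h : Rl M j j') : Port (b := b) (v := v) (E := E) f hH hT j := by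
  rcases h with h | h
  · exact (hM _ h).1
  · exact (hM _ h).2.1

include hM in
theorem rl_ty {j j' : X} (h : Rl M j j') :
    ty b v E tau hH hT j' = ty b v E tau hH hT j := by
  rcases h with h | h
  · exact (hM _ h).2.2.1
  · exact (hM _ h).2.2.1.symm

include hM in
theorem rl_star {j j' : X} (h : Rl M j j') :
    f ∘ S b v E m j' = star (ty b v E tau hH hT j) (f ∘ S b v E m j) := by
  rcases h with h | h
  · exact (hM _ h).2.2.2
  · have h1 := (hM _ h).2.2.2
    have h2 := (hM _ h).2.2.1
    simp only at h1 h2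
    rw [h1, h2, star_star]

/-- the paired letters -/
def PdP (b v : Equiv.Perm X) (E : Finset X) (M : List (X × X)) (y : X) : Prop :=
  ∃ j', Rl M (comp (Hp b v) (YY b E) y) j'

open Classical in
/-- the twin map -/
noncomputable def sm (hH : ∀ y, ∃ a, a < m ∧
      (¬ YY b E ((Hp b v ^ a) y) ∨ (Hp b v ^ (a + 1)) y = y)) (M : List (X × X)) (y : X) : X :=
  if PdP b v E M y then
    (Hp b v ^ (idx hH y)) (partner M (comp (Hp b v) (YY b E) y)) else y

theorem sm_eq {y : X} (hy : PdP b v E M y) : sm hH M y =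
    (Hp b v ^ (idx hH y)) (partner M (comp (Hp b v) (YY b E) y)) := by
  classical
  unfold sm
  rw [if_pos hy]

theorem sm_off {y : X} (hy : ¬ PdP b v E M y) : sm hH M y = y := by
  classical
  unfold sm
  rw [if_neg hy]

include hN hM in
/-- the coordinates of a letter and of its twin -/
theorem coords {y : X} (hy : PdP b v E M y) : ∃ (j j' : X) (a : ℕ), Rl M j j' ∧
    comp (Hp b v) (YY b E) y = j ∧ y = (Hp b v ^ a) j ∧ sm hH M y = (Hp b v ^ a) j' ∧
    a < len hH j ∧ a < len hH j' ∧ a < m ∧ idx hH y = a ∧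
    comp (Hp b v) (YY b E) (sm hH M y) = j' ∧ idx hH (sm hH M y) = a := by
  classical
  obtain ⟨j', hj'⟩ := hy
  have h0 : sm hH M y = (Hp b v ^ (idx hH y)) j' := by
    unfold sm
    rw [if_pos ⟨j', hj'⟩, partner_eq hN hj']
  have hb := (rl_port hH hT hM hj').1
  have hb' := (rl_port hH hT hM hj'.symm).1
  have hl : idx hH y < len hH (comp (Hp b v) (YY b E) y) := idx_lt hH y
  have hl' : idx hH y < len hH j' := by
    rw [ty_len hH hT (rl_ty hH hT hM hj')]
    exact hl
  refine ⟨comp (Hp b v) (YY b E) y, j', idx hH y, hj', rfl, (idx_spec hH y).symm, h0, hl, hl',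
    hl.trans_le (len_le hH _), rfl, ?_, ?_⟩
  · rw [h0]
    exact comp_pow hH hb' hl'
  · rw [h0]
    exact idx_pow hH hb' hl'

include hN hM in
theorem pd_sm {y : X} (hy : PdP b v E M y) : PdP b v E M (sm hH M y) := by
  obtain ⟨j, j', a, h1, h2, h3, h4, h5, h6, h7, h8, h9, h10⟩ := coords hH hT hN hM hy
  exact ⟨j, by rw [h9]; exact h1.symm⟩

include hN hM in
theorem sm_sm {y : X} (hy : PdP b v E M y) : sm hH M (sm hH M y) = y := by
  obtain ⟨j, j', a, h1, h2, h3, h4, h5, h6, h7, h8, h9, h10⟩ := coords hH hT hN hM hy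
  have hp := pd_sm hH hT hN hM hy
  rw [sm_eq hH hp, h10, h9, partner_eq hN h1.symm, ← h3]

/-- from coordinates to the twin -/
theorem sm_of {j j' : X} {a : ℕ} (hNN : (M.map Prod.fst ++ M.map Prod.snd).Nodup)
    (h : Rl M j j') (hb : comp (Hp b v) (YY b E) j = j)
    (ha : a < len hH j) : sm hH M ((Hp b v ^ a) j) = (Hp b v ^ a) j' := by
  classical
  have h1 : comp (Hp b v) (YY b E) ((Hp b v ^ a) j) = j := comp_pow hH hb ha
  unfold sm
  rw [if_pos ⟨j', by rw [h1]; exact h⟩, h1, idx_pow hH hb ha, partner_eq hNN h]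

include hN hM in
theorem left_iff {y : X} (hy : PdP b v E M y) : b.symm y ∈ E ↔ b.symm (sm hH M y) ∈ E := by
  obtain ⟨j, j', a, h1, h2, h3, h4, h5, h6, h7, h8, h9, h10⟩ := coords hH hT hN hM hy
  have := ty_El hH hT (rl_ty hH hT hM h1).symm (i := 0) h7 (Nat.zero_le m)
  rw [h4]
  conv_lhs => rw [h3]
  simpa using this

include hN hM in
theorem sm_v {x : X} (hx : x ∈ E) (hy : PdP b v E M (b x)) :
    sm hH M (v x) = v (b.symm (sm hH M (b x))) := by
  obtain ⟨j, j', a, h1, h2, h3, h4, h5, h6, h7, h8, h9, h10⟩ := coords hH hT hN hM hy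
  have hb := (rl_port hH hT hM h1).1
  have hb' := (rl_port hH hT hM h1.symm).1
  have hYx : YY b E ((Hp b v ^ a) j) := by
    unfold YY
    rw [← h3]
    simpa using hx
  have hvx : v x = (Hp b v ^ (a + 1)) j := by
    rw [pow_succ', Equiv.Perm.mul_apply, ← h3]
    simp
  have hvx' : v (b.symm (sm hH M (b x))) = (Hp b v ^ (a + 1)) j' := by
    rw [pow_succ', Equiv.Perm.mul_apply, ← h4]
    simp
  rw [hvx, hvx']
  have hll : len hH j' = len hH j := ty_len hH hT (rl_ty hH hT hM h1)
  by_cases ha : a + 1 < len hH j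
  · exact sm_of hH hN h1 hb ha
  · have hal : a + 1 = len hH j := by omega
    have hc : YY b E ((Hp b v ^ (len hH j - 1)) j) := by
      rw [show len hH j - 1 = a by omega]
      exact hYx
    have hc' : YY b E ((Hp b v ^ (len hH j' - 1)) j') := by
      rw [hll, show len hH j - 1 = a by omega]
      have := ty_El hH hT (rl_ty hH hT hM h1).symm (i := 0) h7 (Nat.zero_le m)
      unfold YY at hYx ⊢
      simp only [pow_zero, Equiv.Perm.coe_one, id_eq] at this
      exact this.mp hYx
    have e1 := cycle_eq hH hc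
    have e2 := cycle_eq hH hc'
    rw [hal, e1]
    have e3 : (Hp b v ^ len hH j) j' = j' := by rw [← hll]; exact e2
    rw [e3]
    have := sm_of hH hN h1 hb (len_pos hH j)
    simpa using this

include hN hM in
theorem down_iff {y : X} (hy : PdP b v E M y) : v.symm y ∈ E ↔ v.symm (sm hH M y) ∈ E := by
  obtain ⟨j, j', a, h1, h2, h3, h4, h5, h6, h7, h8, h9, h10⟩ := coords hH hT hN hM hy
  have hb := (rl_port hH hT hM h1).1
  have hb' := (rl_port hH hT hM h1.symm).1
  have hll : len hH j' = len hH j := ty_len hH hT (rl_ty hH hT hM h1)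
  have hsymm : ∀ z, v.symm z = b.symm ((Hp b v).symm z) := by
    intro z
    show v.symm z = b.symm ((b.symm.trans v).symm z)
    simp
  rcases Nat.eq_zero_or_pos a with ha | ha
  · subst ha
    simp only [pow_zero, Equiv.Perm.coe_one, id_eq] at h3 h4
    rw [h4, h3, hsymm, hsymm]
    constructor
    · intro h
      have hc := (cycle_of_pred hH hb h).1
      have hc' : YY b E ((Hp b v ^ (len hH j' - 1)) j') := by
        rw [hll]
        have hlm : len hH j - 1 < m := by
          have := len_le hH j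
          have := len_pos hH j
          omega
        have := ty_El hH hT (rl_ty hH hT hM h1).symm (i := 0) hlm (Nat.zero_le m)
        simp only [pow_zero, Equiv.Perm.coe_one, id_eq] at this
        exact this.mp hc
      exact pred_of_cycle hH hc'
    · intro h
      have hc' := (cycle_of_pred hH hb' h).1
      have hc : YY b E ((Hp b v ^ (len hH j - 1)) j) := by
        rw [hll] at hc'
        have hlm : len hH j - 1 < m := by
          have := len_le hH j
          have := len_pos hH j
          omega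
        have := ty_El hH hT (rl_ty hH hT hM h1).symm (i := 0) hlm (Nat.zero_le m)
        simp only [pow_zero, Equiv.Perm.coe_one, id_eq] at this
        exact this.mpr hc'
      exact pred_of_cycle hH hc
  · have e1 : v.symm y ∈ E := by
      rw [h3, hsymm]
      have : (Hp b v).symm ((Hp b v ^ a) j) = (Hp b v ^ (a - 1)) j := by
        rw [Equiv.symm_apply_eq, ← Equiv.Perm.mul_apply, ← pow_succ', show a - 1 + 1 = a by omega]
      rw [this]
      exact (len_min hH (y := j) (i := a - 1) (by omega)).1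
    have e2 : v.symm (sm hH M y) ∈ E := by
      rw [h4, hsymm]
      have : (Hp b v).symm ((Hp b v ^ a) j') = (Hp b v ^ (a - 1)) j' := by
        rw [Equiv.symm_apply_eq, ← Equiv.Perm.mul_apply, ← pow_succ', show a - 1 + 1 = a by omega]
      rw [this]
      exact (len_min hH (y := j') (i := a - 1) (by omega)).1
    exact ⟨fun _ => e2, fun _ => e1⟩

/-- the colour of a value line -/
noncomputable def col (v : Equiv.Perm X) (E : Finset X) (f : X → A Q) (x : X) : Bool :=
  (f (comp v (EE E) x)).1

theorem col_v {x : X} (hx : x ∈ E) : col v E f (v x) = col v E f x := by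
  unfold col
  rw [comp_H (H := v) (Y := EE E) hx]

theorem col_pow {x : X} {j : ℕ} (h : ∀ i < j, (v ^ i) x ∈ E) :
    comp v (EE E) ((v ^ j) x) = comp v (EE E) x := by
  induction j with
  | zero => simp
  | succ j ih =>
    rw [pow_succ', Equiv.Perm.mul_apply, comp_H (H := v) (Y := EE E) (h j (by omega))]
    exact ih (fun i hi => h i (by omega))

include hN hM in
theorem col_sm {y : X} (hy : PdP b v E M y) : col v E f (sm hH M y) ≠ col v E f y := by
  obtain ⟨j, j', a, h1, h2, h3, h4, h5, h6, h7, h8, h9, h10⟩ := coords hH hT hN hM hy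
  have h := congrFun (rl_star hH hT hM h1) (⟨a, h7⟩, none)
  have h' := congrArg Prod.fst h
  rw [star_fst] at h'
  have e1 : col v E f (sm hH M y) = ((f ∘ S b v E m j') (⟨a, h7⟩, none)).1 := by
    rw [h4]; rfl
  have e2 : col v E f y = ((f ∘ S b v E m j) (⟨a, h7⟩, none)).1 := by
    conv_lhs => rw [h3]
    rfl
  rw [e1, h', e2]
  simp

include hN hM in
theorem tau_sm {y : X} (hy : PdP b v E M y) :
    tau (b.symm (sm hH M y)) = tau (b.symm y) := by
  obtain ⟨j, j', a, h1, h2, h3, h4, h5, h6, h7, h8, h9, h10⟩ := coords hH hT hN hM hy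
  have := ty_taul hH hT (rl_ty hH hT hM h1) (i := 0) h7 (Nat.zero_le m)
  rw [h4]
  conv_rhs => rw [h3]
  simpa using this

include hN hM in
theorem ph_sm {y : X} (hy : PdP b v E M y) (hE : b.symm y ∈ E) :
    (f (b.symm (sm hH M y))).2.val = (f (b.symm y)).2.val := by
  obtain ⟨j, j', a, h1, h2, h3, h4, h5, h6, h7, h8, h9, h10⟩ := coords hH hT hN hM hy
  have h := congrFun (rl_star hH hT hM h1) (⟨a, h7⟩, some none)
  have h' := congrArg Prod.snd h
  have hrep : rep (ty b v E tau hH hT j) (⟨a, h7⟩, some none) = none := by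
    rcases hr : rep (ty b v E tau hH hT j) (⟨a, h7⟩, some none) with _ | a0
    · rfl
    · exfalso
      have hc := (rep_some hr).2.2
      apply hc
      refine ⟨⟨a, h7⟩, h5, ?_, ?_⟩
      · simp only [ty, decide_eq_true_eq]
        rw [h3] at hE
        simpa using hE
      · simp [ty]
  rw [star_none hrep] at h'
  have e1 : (f (b.symm (sm hH M y))).2 = ((f ∘ S b v E m j') (⟨a, h7⟩, some none)).2 := by
    rw [h4]; rfl
  have e2 : (f (b.symm y)).2 = ((f ∘ S b v E m j) (⟨a, h7⟩, some none)).2 := by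
    conv_lhs => rw [h3]
    rfl
  rw [e1, h', e2]

/-- a strip has fewer than `m` letters -/
theorem strip_lt (hv : ∀ x, ∃ a, a < m ∧ (v ^ a) x ∉ E) {y : X} {j : ℕ}
    (h : ∀ i < j, (v ^ i) y ∈ E) : j < m := by
  obtain ⟨a, ha, hE⟩ := hv y
  by_contra hne
  exact hE (h a (by omega))

include hN hM in
theorem strip (hv : ∀ x, ∃ a, a < m ∧ (v ^ a) x ∉ E) {y : X} (hy : PdP b v E M y) {j : ℕ}
    (hj : ∀ i < j, (v ^ i) y ∈ E) :
    (∀ i < j, (v ^ i) (sm hH M y) ∈ E) ∧
    ((v ^ j) y ∈ E ↔ (v ^ j) (sm hH M y) ∈ E) ∧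
    tau ((v ^ j) (sm hH M y)) = tau ((v ^ j) y) ∧
    (b.symm ((v ^ j) y) ∈ E ↔ b.symm ((v ^ j) (sm hH M y)) ∈ E) ∧
    tau (b.symm ((v ^ j) (sm hH M y))) = tau (b.symm ((v ^ j) y)) := by
  obtain ⟨r, r', a, h1, h2, h3, h4, h5, h6, h7, h8, h9, h10⟩ := coords hH hT hN hM hy
  have hjm := strip_lt hv hj
  have hty := rl_ty hH hT hM h1
  have hE : ∀ i ≤ m, ((v ^ i) y ∈ E ↔ (v ^ i) (sm hH M y) ∈ E) := by
    intro i hi
    have := ty_E hH hT hty.symm h7 hi
    rwa [← h3, ← h4] at this
  refine ⟨fun i hi => (hE i (by omega)).mp (hj i hi), hE j hjm.le, ?_, ?_, ?_⟩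
  · have := ty_tau hH hT hty h7 hjm.le
    rwa [← h3, ← h4] at this
  · have := ty_El hH hT hty.symm h7 hjm.le
    rwa [← h3, ← h4] at this
  · have := ty_taul hH hT hty h7 hjm.le
    rwa [← h3, ← h4] at this

theorem shift_down {Q : ℕ} {p q : Fin (Q + 1)} (h : p ≠ 0) (hq : q = p - 1) : q.val < p.val := by
  subst hq
  have h0 : 0 < p.val := Nat.pos_of_ne_zero (fun h' => h (Fin.ext h'))
  rcases Nat.eq_zero_or_pos Q with hQ | hQ
  · subst hQ
    have := p.isLt
    omega
  · have : (1 : Fin (Q + 1)).val = 1 := by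
      rw [Fin.val_one']
      exact Nat.mod_eq_of_lt (by omega)
    have hle : (1 : Fin (Q + 1)) ≤ p := by
      rw [Fin.le_def, this]; omega
    rw [Fin.sub_val_of_le hle, this]
    omega

include hN hM in
theorem strip_ph (hv : ∀ x, ∃ a, a < m ∧ (v ^ a) x ∉ E) {y : X} (hy : PdP b v E M y) {j : ℕ}
    (hj : ∀ i ≤ j, (v ^ i) y ∈ E) (hc : col v E f y = false) :
    (f ((v ^ j) (sm hH M y))).2.val < (f ((v ^ j) y)).2.val ∨
      (PdP b v E M (b ((v ^ j) y)) ∧
        (v ^ j) (sm hH M y) = b.symm (sm hH M (b ((v ^ j) y)))) := by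
  obtain ⟨r, r', a, h1, h2, h3, h4, h5, h6, h7, h8, h9, h10⟩ := coords hH hT hN hM hy
  have hjm : j < m := strip_lt hv (fun i hi => hj i (by omega))
  set σ : Slot m := (⟨a, h7⟩, some (some ⟨j, by omega⟩)) with hσ
  have h := congrFun (rl_star hH hT hM h1) σ
  have h' := congrArg Prod.snd h
  have e1 : (f ((v ^ j) (sm hH M y))).2 = ((f ∘ S b v E m r') σ).2 := by
    rw [h4]; rfl
  have e2 : (f ((v ^ j) y)).2 = ((f ∘ S b v E m r) σ).2 := by
    conv_lhs => rw [h3]
    rfl
  have hleg := (rl_port hH hT hM h1).2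
  rcases hr : rep (ty b v E tau hH hT r) σ with _ | a0
  · -- the letter is a left neighbour in the component
    right
    have hn := rep_none hr ⟨a, h7⟩
    unfold cnd at hn
    rw [not_and, not_and, not_not] at hn
    have hn1 := hn ⟨⟨j, by omega⟩, by simp [ty, hσ], by
      intro i' hi'
      have hi : i'.val ≤ j := hi'
      simp only [ty, decide_eq_true_eq]
      rw [← h3]
      exact hj _ hi⟩ h5
    obtain ⟨a', ha', hE', hpat⟩ := hn1
    have hlen : a'.val < len hH r := ha'
    simp only [ty, decide_eq_true_eq] at hpat hE'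
    have hb := (rl_port hH hT hM h1).1
    have p1 : (v ^ j) y = b.symm ((Hp b v ^ a'.val) r) := by
      conv_lhs => rw [h3]
      exact hpat
    have p2 : b ((v ^ j) y) = (Hp b v ^ a'.val) r := by
      rw [p1]; simp
    have p3 : (v ^ j) (sm hH M y) = b.symm ((Hp b v ^ a'.val) r') := by
      rw [h4]
      exact (ty_pat hH hT (rl_ty hH hT hM h1).symm σ (a', some none)).mp hpat
    refine ⟨⟨r', ?_⟩, ?_⟩
    · rw [p2, comp_pow hH hb hlen]
      exact h1
    · rw [p2, sm_of hH hN h1 hb hlen]
      exact p3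
  · left
    have hcn := rep_some hr
    obtain ⟨⟨i0, hpat, hEE⟩, _, _⟩ := hcn
    have hl := hleg σ a0 hr
    rw [star_some hr] at h'
    -- same value line, same colour
    have hcol : ((f ∘ S b v E m r) (a0, none)).1 = col v E f y := by
      show (f (comp v (EE E) ((Hp b v ^ a0.val) r))).1 = (f (comp v (EE E) y)).1
      have q1 : comp v (EE E) ((v ^ i0.val) ((Hp b v ^ a0.val) r))
          = comp v (EE E) ((Hp b v ^ a0.val) r) := by
        apply col_pow
        intro i hi
        have := hEE ⟨i, by omega⟩ (by rw [Fin.le_def]; exact hi.le)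
        simpa [ty] using this
      have q2 : comp v (EE E) ((v ^ j) y) = comp v (EE E) y := by
        apply col_pow
        intro i hi
        exact hj i (by omega)
      have q3 : (v ^ j) y = (v ^ i0.val) ((Hp b v ^ a0.val) r) := by
        simp only [ty, decide_eq_true_eq] at hpat
        conv_lhs => rw [h3]
        exact hpat
      rw [← q1, ← q3, q2]
    rw [hcol, hc] at hl h'
    simp only [Bool.false_eq_true, if_false] at hl h'
    rw [e1, e2]
    exact shift_down hl h'

end main

end Pool.Agent.Lib.MP29a61eN.Twin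
end

section
/-!
# Module TWIN: the twin map, the colours and the phases exist
-/
set_option linter.unusedSectionVars false

namespace Pool.Agent.Lib.MP29a61eN

open Finset

namespace Twin

theorem countP_or {α : Type} (p q : α → Bool) (l : List α) :
    (l.filter (fun x => p x || q x)).length ≤ l.countP p + l.countP q := by
  induction l with
  | nil => simp
  | cons x l ih =>
    rw [List.countP_cons, List.countP_cons, List.filter_cons]
    cases hp : p x <;> cases hq : q x <;> simp at * <;> omega

end Twin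

open Twin in
/-- TWIN -/
theorem specTwin : SpecTwin := by
  classical
  intro m τ ε hε
  obtain ⟨Q, hQ⟩ := Twin.matching m τ ε hε
  refine ⟨Q + 1, Nat.succ_pos _, ?_⟩
  intro D
  obtain ⟨n0, hn0⟩ := hQ D
  refine ⟨n0, ?_⟩
  intro X _ _ b v E tau hX hv hH0 hT
  have hH : ∀ y, ∃ a, a < m ∧ (¬ Twin.YY b E ((Twin.Hp b v ^ a) y) ∨
      (Twin.Hp b v ^ (a + 1)) y = y) := hH0
  have hv2 : ∀ y, ∃ a, a < m ∧ (¬ Twin.EE E ((v ^ a) y) ∨ (v ^ (a + 1)) y = y) := by
    intro y
    obtain ⟨a, ha, h⟩ := hv y
    exact ⟨a, ha, Or.inl h⟩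
  have hv3 : ∀ x, ∃ a, a < m ∧ (v ^ a) x ∉ E := hv
  obtain ⟨f, M, hN, hM, hF, hdeg, hleft⟩ := hn0 X b v E tau hH hv2 hT hX
  set cp : X → X := Cmp.comp (Twin.Hp b v) (Twin.YY b E) with hcp
  have hPd : ∀ y, y ∈ univ.filter (fun y => Twin.PdP b v E M y) ↔ Twin.PdP b v E M y := by
    intro y; simp
  have hcs : ∀ y, Twin.PdP b v E M y → cp (Twin.sm hH M y) = Twin.partner M (cp y) := by
    intro y hy
    obtain ⟨j, j', a, h1, h2, h3, h4, h5, h6, h7, h8, h9, h10⟩ := Twin.coords hH hT hN hM hy
    rw [hcp, h9, h2, Twin.partner_eq hN h1]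
  have hbv : ∀ x ∈ E, cp (v x) = cp (b x) := by
    intro x hx
    have h1 : Twin.YY b E (b x) := by
      unfold Twin.YY
      simpa using hx
    have h2 := Cmp.comp_H (H := Twin.Hp b v) (Y := Twin.YY b E) h1
    rw [Twin.Hp_apply, Equiv.symm_apply_apply] at h2
    exact h2
  have hPc : ∀ y y', cp y = cp y' → (Twin.PdP b v E M y ↔ Twin.PdP b v E M y') := by
    intro y y' h
    unfold Twin.PdP
    rw [← hcp, h]
  refine ⟨univ.filter (fun y => Twin.PdP b v E M y), Twin.sm hH M, Twin.col v E f,
    fun x => (f x).2.val, cp, M, fun y => Twin.eix M (cp y), ?_, hbv, ?_, ?_, ?_, ?_, ?_, ?_, ?_,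
    ?_, ?_, ?_, hF, ?_, ?_⟩
  · -- leftover
    refine le_trans ?_ hleft
    have : univ \ univ.filter (fun y => Twin.PdP b v E M y) ⊆
        univ.filter (fun y => Cmp.comp (Twin.Hp b v) (Twin.YY b E) y ∉
          M.map Prod.fst ++ M.map Prod.snd) := by
      intro y hy
      rw [Finset.mem_sdiff, hPd] at hy
      rw [Finset.mem_filter]
      refine ⟨Finset.mem_univ _, ?_⟩
      intro h
      exact hy.2 (Twin.rl_iff_mem.mpr h)
    exact_mod_cast Finset.card_le_card this
  · intro a
    exact Cmp.card_comp_le hH a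
  · intro x hx
    rw [hPd, hPd]
    exact hPc _ _ (hbv x hx)
  · intro y hy
    rw [hPd] at hy
    refine ⟨?_, Twin.sm_sm hH hT hN hM hy, Twin.left_iff hH hT hN hM hy,
      Twin.down_iff hH hT hN hM hy⟩
    rw [hPd]
    exact Twin.pd_sm hH hT hN hM hy
  · intro y y' h
    refine ⟨?_, ?_, ?_⟩
    · rw [hPd, hPd]
      exact hPc _ _ h
    · by_cases hy : Twin.PdP b v E M y
      · have hy' := (hPc _ _ h).mp hy
        rw [hcs y hy, hcs y' hy', h]
      · have hy' : ¬ Twin.PdP b v E M y' := fun h' => hy ((hPc _ _ h).mpr h')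
        rw [Twin.sm_off hH hy, Twin.sm_off hH hy', h]
    · show Twin.eix M (cp y) = Twin.eix M (cp y')
      rw [h]
  · intro x hx hbx
    rw [hPd] at hbx
    exact Twin.sm_v hH hT hN hM hx hbx
  · intro x hx
    exact Twin.col_v hx
  · intro y hy
    rw [hPd] at hy
    exact Twin.col_sm hH hT hN hM hy
  · intro x
    exact (f x).2.isLt
  · intro y hy hE
    rw [hPd] at hy
    exact ⟨Twin.tau_sm hH hT hN hM hy, Twin.ph_sm hH hT hN hM hy hE⟩
  · intro y hy j hj
    rw [hPd] at hy
    obtain ⟨s1, s2, s3, s4, s5⟩ := Twin.strip hH hT hN hM hv3 hy hj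
    refine ⟨s1, s2, fun _ => s3, s4, fun _ => s5, ?_⟩
    intro hjE hc
    have hj' : ∀ i ≤ j, (v ^ i) y ∈ E := by
      intro i hi
      rcases Nat.lt_or_ge i j with h | h
      · exact hj i h
      · have : i = j := by omega
        rw [this]; exact hjE
    rcases Twin.strip_ph hH hT hN hM hv3 hy hj' hc with h | ⟨h, h'⟩
    · left; exact h
    · right
      refine ⟨?_, h'⟩
      rw [hPd]; exact h
  · intro y hy
    rw [hPd] at hy
    obtain ⟨j', hj'⟩ := hy
    have h1 := Twin.eix_spec hN hj'
    have h2 : cp (Twin.sm hH M y) = j' := by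
      rw [hcs y ⟨j', hj'⟩]
      exact Twin.partner_eq hN hj'
    rw [h2]
    exact h1
  · intro a
    have h1 := hdeg a
    unfold FAR.deg at h1
    have h2 := Twin.countP_or (fun p : X × X => decide (p.1 = a)) (fun p : X × X => decide (p.2 = a)) M
    have h3 : M.filter (fun p => decide (p.1 = a ∨ p.2 = a)) =
        M.filter (fun p => decide (p.1 = a) || decide (p.2 = a)) := by
      apply List.filter_congr
      intro p _
      simp
    rw [h3]
    omega

end Pool.Agent.Lib.MP29a61eN
end
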