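import Mathlib
import Pool.Agent.Lib.MP_29a61e_co.N2.MACRO
import Pool.Agent.Lib.MP_29a61e_co.N2.Local2
import Pool.Agent.Lib.MP_29a61e_co.N2.RunAux
import Pool.Agent.Lib.MP_29a61e_co.N2.TS
import Pool.Agent.Lib.MP_29a61e_co.N2.SW
import Pool.Agent.Lib.MP_29a61e_co.N2.WM
import Pool.Agent.Lib.MP_29a61e_co.N2.Clean
import Pool.Agent.Lib.MP_29a61e_co.N2.Near
import Pool.Agent.Lib.MP_29a61e_co.N2.Cln
import Pool.Agent.Lib.MP_29a61e_co.N2.Coh92
import Pool.Agent.Lib.MP_29a61e_co.N2.Stage
import Pool.Agent.Lib.MP_29a61e_co.N2.Count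
import Pool.Agent.Lib.MP_29a61e_co.N2.Level
import Pool.Agent.Lib.MP_29a61e_co.N2.Walk
import Pool.Agent.Lib.MP_29a61e_co.N2.H2
import Pool.Agent.Lib.MP_29a61e_co.N2.Build
import Pool.Agent.Lib.MP_29a61e_co.N2.Twin
import Pool.Agent.Lib.MP_29a61e_co.N2.Exists
import Pool.Agent.Lib.MP_29a61e_co.N2.Final

section
/-!
# MP_29a61e_co, `M n ≤ n / 2 + o(n)`: module MAIN (helper11)

From RUN and the greedy distance: every permutation of `n` letters is sorted by at most
`(1 / 2 + ε) n` moves, for large `n`.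
-/
namespace Pool.Agent.Lib.MP29a61eN

open Pool.Agent.Lib.MP29a61e (Move Steps)

namespace MainM

/-- Moves of an injectively relabelled word. -/
theorem move_of_map {α β : Type} (f : α → β) {w : List α} {u : List β}
    (h : Move (w.map f) u) : ∃ w' : List α, u = w'.map f ∧ Move w w' := by
  obtain ⟨A, B, C, U, V, hB, hw, hAC, hu⟩ := h
  have hw' : w.map f = A ++ (B ++ C) := by rw [hw, List.append_assoc]
  obtain ⟨a, bc, rfl, rfl, hbc⟩ := List.map_eq_append_iff.1 hw'
  obtain ⟨b, c, rfl, rfl, rfl⟩ := List.map_eq_append_iff.1 hbc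
  rw [← List.map_append] at hAC
  obtain ⟨x, y, hxy, rfl, rfl⟩ := List.map_eq_append_iff.1 hAC
  have hb : b ≠ [] := by
    rintro rfl
    exact hB rfl
  rcases hu with hu | hu
  · exact ⟨x ++ b ++ y, by rw [hu]; simp,
      a, b, c, x, y, hb, by simp, hxy, Or.inl rfl⟩
  · exact ⟨x ++ b.reverse ++ y, by rw [hu]; simp,
      a, b, c, x, y, hb, by simp, hxy, Or.inr rfl⟩

theorem steps_of_map {α β : Type} (f : α → β) (hf : Function.Injective f) :
    ∀ (k : ℕ) (w w' : List α), Steps k (w.map f) (w'.map f) → Steps k w w'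
  | 0, w, w', h => by
    have h' : w.map f = w'.map f := h
    exact (List.map_injective_iff.2 hf) h'
  | k + 1, w, w', h => by
    obtain ⟨u, hu, hk⟩ := h
    obtain ⟨u', rfl, hm⟩ := move_of_map f hu
    exact ⟨u', hm, steps_of_map f hf k u' w' hk⟩

/-- The cyclic permutation of a list without repetitions: any two entries are connected. -/
theorem formPerm_trans {α : Type} [DecidableEq α] (l : List α) (hl : l.Nodup)
    (hm : ∀ x, x ∈ l) (x y : α) : ∃ i : ℕ, ((l.formPerm) ^ i) x = y := by
  obtain ⟨i, hi, rfl⟩ := List.mem_iff_getElem.1 (hm x)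
  obtain ⟨j, hj, rfl⟩ := List.mem_iff_getElem.1 (hm y)
  refine ⟨j + l.length - i, ?_⟩
  rw [List.formPerm_pow_apply_getElem l hl _ i hi]
  congr 1
  have : i + (j + l.length - i) = j + l.length := by omega
  rw [this, Nat.add_mod_right, Nat.mod_eq_of_lt hj]

/-- Consecutive entries of the positive cyclic word. -/
theorem cyc_pos {α : Type} [DecidableEq α] (l : List α) (hl : l.Nodup) :
    ∀ p ∈ cyc (l.map fun x => ((x, true) : End α)), p.2 = phi (pos l.formPerm) p.1 := by
  intro p hp
  unfold cyc at hp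
  obtain ⟨i, hi, rfl⟩ := List.mem_iff_getElem.1 hp
  have hi' : i < l.length := by
    simpa using hi
  have h1 : (List.zip (l.map fun x => ((x, true) : End α))
      ((l.map fun x => ((x, true) : End α)).rotate 1))[i] =
      ((l[i], true), (l[(i + 1) % l.length]'(Nat.mod_lt _ (by omega)), true)) := by
    rw [List.getElem_zip]
    simp [List.getElem_rotate]
  rw [h1]
  simp only [phi, pos, bar]
  rw [List.formPerm_apply_getElem l hl i hi']
  rfl

theorem isWord_map {n : ℕ} (l : List (Fin n)) (hl : l.Nodup) (hm : ∀ x, x ∈ l) :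
    IsWord (none : Option (Fin n)) (l.map fun x => ((some x, true) : End (Option (Fin n)))) := by
  constructor
  · simp only [List.map_map, List.nodup_cons]
    constructor
    · simp
    · exact hl.map (fun a b h => by simpa using h)
  · intro x
    cases x with
    | none => simp
    | some x => simp [hm x]

theorem bad_map {n : ℕ} (l : List (Fin n)) (hl : l.Nodup) :
    ∀ p ∈ cyc (((none, true) : End (Option (Fin n))) ::
      (l.map fun x => ((some x, true) : End (Option (Fin n))))),
      p.2 = phi (pos (none :: l.map some).formPerm) p.1 := by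
  have h := cyc_pos (none :: l.map some) (by
    simp only [List.nodup_cons]
    exact ⟨by simp, hl.map (Option.some_injective _)⟩)
  simpa [List.map_map, Function.comp_def] using h

end MainM

open MainM

/-- MAIN. -/
theorem specMain (hRun : SpecRun) (hDist : SpecDist) (hLib : SpecLIB) : SpecMain := by
  intro ε hε
  obtain ⟨n1, h1⟩ := hRun (ε / 4) (by positivity)
  obtain ⟨n2, h2⟩ := exists_nat_ge ((1 + ε) / ε)
  refine ⟨n1 + n2, fun n hn π => ?_⟩
  have hlib := hLib (Option (Fin n))
  obtain ⟨_, hadd, hsteps, _⟩ := hlib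
  -- the two words
  have hnd1 : (List.ofFn π).Nodup := List.nodup_ofFn.2 π.injective
  have hm1 : ∀ x, x ∈ List.ofFn π := fun x => by
    rw [List.mem_ofFn]
    exact ⟨π.symm x, π.apply_symm_apply x⟩
  have hnd2 : (List.finRange n).Nodup := List.nodup_finRange n
  have hm2 : ∀ x, x ∈ List.finRange n := List.mem_finRange
  have hN1 : ((none : Option (Fin n)) :: (List.ofFn π).map some).Nodup := by
    simp only [List.nodup_cons]
    exact ⟨by simp, hnd1.map (Option.some_injective _)⟩
  have hN2 : ((none : Option (Fin n)) :: (List.finRange n).map some).Nodup := by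
    simp only [List.nodup_cons]
    exact ⟨by simp, hnd2.map (Option.some_injective _)⟩
  have hM1 : ∀ x : Option (Fin n), x ∈ none :: (List.ofFn π).map some := by
    intro x
    cases x with
    | none => simp
    | some x => exact List.mem_cons_of_mem _ (List.mem_map_of_mem (hm1 x))
  have hM2 : ∀ x : Option (Fin n), x ∈ none :: (List.finRange n).map some := by
    intro x
    cases x with
    | none => simp
    | some x => exact List.mem_cons_of_mem _ (List.mem_map_of_mem (hm2 x))
  have hcard : Fintype.card (Option (Fin n)) = n + 1 := by simp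
  obtain ⟨w', k, hw', hk, hkle, hbad⟩ := h1 (Option (Fin n)) none
    (none :: (List.ofFn π).map some).formPerm
    (none :: (List.finRange n).map some).formPerm
    ((List.ofFn π).map fun x => ((some x, true) : End (Option (Fin n))))
    (by rw [hcard]; omega)
    (formPerm_trans _ hN1 hM1) (formPerm_trans _ hN2 hM2)
    (isWord_map _ hnd1 hm1)
    (by
      unfold bad
      rw [List.countP_eq_zero]
      intro p hp
      have := bad_map _ hnd1 p hp
      simpa using this)
  -- the matching of the identity word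
  have hmatch : IsMatching (pos (none :: (List.finRange n).map some).formPerm) := by
    constructor
    · rintro ⟨x, s⟩
      cases s <;> simp [pos]
    · rintro ⟨x, s⟩
      cases s <;> simp [pos]
  obtain ⟨k2, hk2, hs2⟩ := hDist (Option (Fin n)) none
    (pos (none :: (List.finRange n).map some).formPerm) w'
    ((List.finRange n).map fun x => ((some x, true) : End (Option (Fin n))))
    hmatch hw' (isWord_map _ hnd2 hm2) (bad_map _ hnd2)
  have hall := hadd _ _ _ _ _ hk hs2
  have hst := hsteps _ _ _ hall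
  have hst' : Steps (k + k2) ((List.ofFn π).map some) ((List.finRange n).map some) := by
    simpa [List.map_map, Function.comp_def] using hst
  refine ⟨k + k2, ?_, steps_of_map some (Option.some_injective _) _ _ _ hst'⟩
  have hc : ((Fintype.card (Option (Fin n)) : ℕ) : ℝ) = (n : ℝ) + 1 := by
    rw [hcard]; push_cast; ring
  rw [hc] at hkle hbad
  have hk2' : (k2 : ℝ) ≤ ε / 4 * ((n : ℝ) + 1) := le_trans (by exact_mod_cast hk2) hbad
  have hn2 : (1 + ε) / ε ≤ n := le_trans h2 (by exact_mod_cast (by omega : n2 ≤ n))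
  have hn3 : 1 + ε ≤ n * ε := by
    rwa [div_le_iff₀ hε] at hn2
  push_cast
  nlinarith

end Pool.Agent.Lib.MP29a61eN
end

section
/-!
# MP_29a61e_co, N2/Run (second version): the chain of the stages
-/
namespace Pool.Agent.Lib.MP29a61eN

/-- The sum of the numbers of heads before the stage `(t, f)`. -/
def ksum {X : Type} [DecidableEq X] (S : Str X) (Q t f : ℕ) : ℕ :=
  ∑ t' ∈ Finset.range t, ∑ f' ∈ Finset.range Q, (S.K t' f').card +
    ∑ f' ∈ Finset.range f, (S.K t f').card

theorem specRunb (hTS : SpecTS) (hEx : SpecExists) (hState : SpecState) (hHead : SpecHead)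
    (hStage : SpecStage) (hCount : SpecCount) (hH1 : SpecH1) (hH2 : SpecH2) (hWM : SpecWM)
    (hLIB : SpecLIB) : SpecRun := by
  intro ε hε
  obtain ⟨τ, Q, hEx⟩ := hEx (ε / 4) (by positivity)
  set R : ℝ := (τ : ℝ) * Q with hR
  have hR0 : 0 ≤ R := by positivity
  set ε2 : ℝ := ε / (8 * (R + 1)) with hε2
  have hε2pos : 0 < ε2 := by positivity
  have hε2a : R * (2 * ε2) ≤ ε / 4 := by
    rw [hε2]
    have : R * (2 * (ε / (8 * (R + 1)))) = ε / 4 * (R / (R + 1)) := by
      field_simp
      ring
    rw [this]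
    have h1 : R / (R + 1) ≤ 1 := by
      rw [div_le_one (by positivity)]
      linarith
    nlinarith
  have hε2b : ε2 ≤ ε / 4 := by
    rw [hε2, div_le_div_iff₀ (by positivity) (by positivity)]
    nlinarith
  obtain ⟨L, G, γ, hγ, hTS⟩ := hTS ε2 hε2pos
  obtain ⟨C, n1, hEx⟩ := hEx (2 * G + 2 + (4 * L + 12))
  obtain ⟨n2, hn2⟩ := exists_nat_ge ((C : ℝ) / γ)
  refine ⟨max n1 n2, ?_⟩
  intro X _ _ oo b v w hn hb hv hw hbad
  obtain ⟨S, comp, adj, Ls, eT, eW, Def, hSb, hSv, hOk, hOver, hFar, hoo, hC, hE, hTph⟩ :=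
    hEx X oo b v (le_trans (le_max_left _ _) hn) hb hv
  set N : ℝ := (Fintype.card X : ℝ) with hN
  have hN0 : 0 ≤ N := Nat.cast_nonneg _
  have hDef : (Def.card : ℝ) ≤ γ * N := by
    have h1 : (Def.card : ℝ) ≤ C := by exact_mod_cast hC
    have h2 : ((n2 : ℕ) : ℝ) ≤ N := by
      rw [hN]
      exact_mod_cast le_trans (le_max_right _ _) hn
    have h3 : (C : ℝ) ≤ γ * N := by
      have h4 : (C : ℝ) / γ ≤ N := le_trans hn2 h2
      rw [div_le_iff₀ hγ] at h4
      linarith
    linarith
  obtain ⟨s1, s2, s3, s4, s5⟩ := hStage X S hOk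
  obtain ⟨c1, c2, c3⟩ := hCount X S hOk
  obtain ⟨lw, ls, -⟩ := hLIB X
  -- the invariant
  let P : ℕ → ℕ → Prop := fun t f => ∃ (w' : List (End X)) (k : ℕ), IsWord oo w' ∧ SSteps k w w' ∧
    (k : ℝ) + bad oo (S.mu (S.Op t f)) w' ≤
      (ksum S Q t f : ℝ) + ((t : ℝ) * Q + f) * (2 * ε2 * N) + ε / 4 * N ∧
    (bad oo (S.mu (S.Op t f)) w' : ℝ) ≤ ε / 4 * N
  -- the beginning
  have h00 : P 0 0 := by
    refine ⟨w, 0, hw, rfl, ?_, ?_⟩ <;>
    · obtain ⟨ω, -, -, -, h3, -⟩ := hWM X oo w hw
      have hm := hState X S (S.Op 0 0) hOk (s1 0 0)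
      have h4 := h3 (pos b) (S.mu (S.Op 0 0)) (isMatching_pos b) hm
      have h5 : dm (pos b) (S.mu (S.Op 0 0)) ≤ 2 * (Finset.univ \ S.E).card := by
        rw [dm_comm]
        refine dm_pos_le hm b S.E ?_
        intro x hx
        rw [c2 x hx, hSb]
      rw [hbad] at h4
      have h6 : bad oo (S.mu (S.Op 0 0)) w ≤ (Finset.univ \ S.E).card := by omega
      have h7 : (bad oo (S.mu (S.Op 0 0)) w : ℝ) ≤ ((Finset.univ \ S.E).card : ℝ) := by
        exact_mod_cast h6
      have h8 : (0 : ℝ) ≤ (ksum S Q 0 0 : ℝ) := Nat.cast_nonneg _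
      push_cast
      linarith
  -- one stage
  have hstep : ∀ t f, P t f → P t (f + 1) := by
    rintro t f ⟨w', k, hw', hk, h1, h2⟩
    have hm := hState X S (S.Op t f) hOk (s1 t f)
    obtain ⟨hh, hsw⟩ := hHead X S (S.Op t f) (S.K t f) t hOk (s1 t f) (s5 t f)
    have hadm : ∀ D : Finset (S.K t f),
        S.Adm t (S.addPairs (S.Op t f) (D.map (Function.Embedding.subtype _))) := by
      intro D
      apply s2 t f
      intro x hx
      obtain ⟨y, _, rfl⟩ := Finset.mem_map.1 hx
      exact y.2
    obtain ⟨w'', k'', hw'', hk'', g1, g2⟩ := hTS X oo (S.K t f) (S.mu (S.Op t f))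
      (fun k : S.K t f => S.head (S.Op t f) k.1) Def hm hh hoo hDef
      (fun D => by
        rw [hsw D]
        exact hH1 X X S comp adj Ls eT eW Def (2 * G + 2 + (4 * L + 12)) G t _ hOk hOver hFar
          (by omega) (hadm D))
      (fun D => hH2 X X S comp adj Ls eT eW Def (2 * G + 2 + (4 * L + 12)) L t (S.Op t f)
        (S.K t f) hOk hOver hFar (by omega) (s1 t f) (s5 t f) (s2 t f) D)
      w' hw'
    have e1 : switch (S.mu (S.Op t f)) (fun k : S.K t f => S.head (S.Op t f) k.1) Finset.univ =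
        S.mu (S.Op t (f + 1)) := by
      rw [hsw Finset.univ, s3 t f]
      congr 2
      ext x
      simp
    rw [e1] at g2
    refine ⟨w'', k + k'', hw'', ls w w' w'' k k'' hk hk'', ?_, ?_⟩
    · have e2 : ksum S Q t (f + 1) = ksum S Q t f + (S.K t f).card := by
        unfold ksum
        rw [Finset.sum_range_succ]
        ring
      have e3 : (Fintype.card (S.K t f) : ℝ) = ((S.K t f).card : ℝ) := by
        rw [Fintype.card_coe]
      rw [e2]
      rw [e3] at g1
      push_cast
      have e4 : ((t : ℝ) * Q + (f + 1)) * (2 * ε2 * N) =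
          ((t : ℝ) * Q + f) * (2 * ε2 * N) + 2 * ε2 * N := by ring
      rw [e4]
      linarith
    · have : ε2 * N ≤ ε / 4 * N := mul_le_mul_of_nonneg_right hε2b hN0
      linarith
  have hf : ∀ t f, P t 0 → P t f := by
    intro t f h
    induction f with
    | zero => exact h
    | succ f ih => exact hstep t f ih
  have ht : ∀ t, P t 0 := by
    intro t
    induction t with
    | zero => exact h00
    | succ t ih =>
      obtain ⟨w', k, hw', hk, h1, h2⟩ := hf t Q ih
      have e1 : S.Op t Q = S.Op (t + 1) 0 := s4 t Q (fun x hx => (hTph x hx).2)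
      rw [e1] at h1 h2
      refine ⟨w', k, hw', hk, ?_, h2⟩
      have e2 : ksum S Q t Q = ksum S Q (t + 1) 0 := by
        unfold ksum
        rw [Finset.sum_range_succ]
        simp
      rw [e2] at h1
      push_cast
      have e3 : (((t : ℝ) + 1) * Q + 0) * (2 * ε2 * N) = ((t : ℝ) * Q + Q) * (2 * ε2 * N) := by
        ring
      rw [e3]
      exact h1
  obtain ⟨w', k, hw', hk, h1, h2⟩ := ht τ
  refine ⟨w', k, hw', hk, ?_, ?_⟩
  · have h3 : ksum S Q τ 0 = ∑ t ∈ Finset.range τ, ∑ f ∈ Finset.range Q, (S.K t f).card := by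
      unfold ksum
      simp
    have h4 := c1 τ Q
    rw [← h3] at h4
    have h5 : S.E.card ≤ Fintype.card X := Finset.card_le_univ _
    have h6 : (2 : ℝ) * (ksum S Q τ 0 : ℝ) ≤ N := by
      rw [hN]
      exact_mod_cast h4.trans h5
    have h7 : (0 : ℝ) ≤ (bad oo (S.mu (S.Op τ 0)) w' : ℝ) := Nat.cast_nonneg _
    have h8 : ((τ : ℝ) * Q + (0 : ℕ)) * (2 * ε2 * N) ≤ ε / 4 * N := by
      have : ((τ : ℝ) * Q + (0 : ℕ)) * (2 * ε2 * N) = R * (2 * ε2) * N := by
        rw [hR]
        push_cast
        ring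
      rw [this]
      exact mul_le_mul_of_nonneg_right hε2a hN0
    have h9 : (1 / 2 + ε) * N = N / 2 + ε * N := by ring
    rw [h9]
    have h10 : 0 ≤ ε * N := by positivity
    nlinarith
  · obtain ⟨ω, -, -, -, h3, -⟩ := hWM X oo w' hw'
    have hm := hState X S (S.Op τ 0) hOk (s1 τ 0)
    have h4 := h3 (S.mu (S.Op τ 0)) (pos v) hm (isMatching_pos v)
    have h5 : dm (S.mu (S.Op τ 0)) (pos v) ≤ 2 * (Finset.univ \ S.E).card := by
      refine dm_pos_le hm v S.E ?_
      intro x hx
      rw [c3 τ (fun x hx => (hTph x hx).1) x hx, hSv]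
    have h6 : bad oo (pos v) w' ≤ bad oo (S.mu (S.Op τ 0)) w' + (Finset.univ \ S.E).card := by
      omega
    have h7 : (bad oo (pos v) w' : ℝ) ≤
        (bad oo (S.mu (S.Op τ 0)) w' : ℝ) + ((Finset.univ \ S.E).card : ℝ) := by
      exact_mod_cast h6
    have h10 : 0 ≤ ε * N := by positivity
    linarith

end Pool.Agent.Lib.MP29a61eN
end

section
/-!
# MP_29a61e_co: `M n = n / 2 + o(n)`, assembly
-/
namespace Pool.Agent.Lib.MP29a61eN

theorem half_ts : SpecTS := specTS specLIB specSW specWM specCLEAN specFAMSEL specNEAR specCLN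

theorem half_exists : SpecExists := specExists specBuild specTwin

theorem half_run : SpecRun :=
  specRunb half_ts half_exists HD.specState HD.specHead (specStage HD.specTriv) specCount
    HD.specH1 (specH2 HD.specState HD.specHead HD.specH1 specWalk) specWM specLIB

theorem half_main : SpecMain := specMain half_run specDist specLIB

theorem half_final : SpecFinal := specFinal half_main

end Pool.Agent.Lib.MP29a61eN
end
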