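import Pool.Agent.Lib.MP_29a61e_co.N2.Base

/-!
# MP_29a61e_co, M(n) <= n/2 + o(n): toolbox for the links of a signed word

`bd μ a x` is `1` if the link `a ~ x` (the letter left through `a` is followed by the letter left
through `x`) is not a link of `μ`, otherwise `0`. `inn μ a l` is the number of bad links of the
path `a, l_0, l_1, ...`. The number of bad links of the cyclic word is
`bad oo μ w = inn μ (oo, true) (w ++ [(oo, true)])`.
-/

namespace Pool.Agent.Lib.MP29a61eN

variable {X : Type}

theorem bar_inj {a b : End X} (h : bar a = bar b) : a = b := by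
  have := congrArg bar h
  simpa using this

theorem bar_eq_comm {a b : End X} : bar a = b ↔ a = bar b := by
  constructor
  · rintro rfl
    simp
  · rintro rfl
    simp

/-- reversal of a link. -/
theorem phi_rev {μ : End X → End X} (hμ : IsMatching μ) {a x : End X} :
    bar a = phi μ (bar x) ↔ x = phi μ a := by
  unfold phi
  constructor
  · intro h
    have h1 : a = μ (bar x) := bar_inj h
    rw [h1, hμ.inv, bar_bar]
  · intro h
    rw [h, bar_bar, hμ.inv]

theorem phi_injective {μ : End X → End X} (hμ : IsMatching μ) : Function.Injective (phi μ) := by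
  intro a b h
  have h1 : μ a = μ b := bar_inj h
  have h2 := congrArg μ h1
  rwa [hμ.inv, hμ.inv] at h2

/-- last element of `a :: l`. -/
def lastD (a : End X) : List (End X) → End X
  | [] => a
  | x :: l => lastD x l

@[simp] theorem lastD_nil (a : End X) : lastD a [] = a := rfl
@[simp] theorem lastD_cons (a x : End X) (l : List (End X)) :
    lastD a (x :: l) = lastD x l := rfl

theorem lastD_append (a : End X) (l m : List (End X)) :
    lastD a (l ++ m) = lastD (lastD a l) m := by
  induction l generalizing a with
  | nil => rfl
  | cons x l ih => simp [ih]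

theorem lastD_mem (a : End X) (l : List (End X)) : lastD a l ∈ a :: l := by
  induction l generalizing a with
  | nil => simp
  | cons x l ih => exact List.mem_cons_of_mem _ (ih x)

theorem srev_nil : srev ([] : List (End X)) = [] := rfl

theorem srev_append (l m : List (End X)) : srev (l ++ m) = srev m ++ srev l := by
  simp [srev]

theorem srev_cons (x : End X) (l : List (End X)) : srev (x :: l) = srev l ++ [bar x] := by
  simp [srev]

theorem srev_singleton (x : End X) : srev [x] = [bar x] := by
  simp [srev]

@[simp] theorem srev_srev (l : List (End X)) : srev (srev l) = l := by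
  have h : (bar ∘ bar : End X → End X) = id := by
    funext x
    simp
  simp [srev, List.map_reverse, h]

theorem srev_map_fst (l : List (End X)) : (srev l).map Prod.fst = (l.map Prod.fst).reverse := by
  have h : (Prod.fst ∘ bar : End X → X) = Prod.fst := by
    funext x
    simp
  simp [srev, List.map_reverse, h]

theorem srev_length (l : List (End X)) : (srev l).length = l.length := by
  simp [srev]

theorem lastD_srev_cons (a x : End X) (l : List (End X)) : lastD a (srev (x :: l)) = bar x := by
  rw [srev_cons, lastD_append]
  rfl

/-- two lists with the same letters are words at the same time. -/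
theorem IsWord.of_perm {oo : X} {w w' : List (End X)} (h : IsWord oo w)
    (hp : (w.map Prod.fst).Perm (w'.map Prod.fst)) : IsWord oo w' := by
  refine ⟨(List.Perm.nodup_iff (hp.cons oo)).mp h.nodup, fun x => ?_⟩
  exact (hp.cons oo).mem_iff.mp (h.full x)

theorem IsWord.length_eq {oo : X} {w w' : List (End X)} (h : IsWord oo w) (h' : IsWord oo w') :
    w.length = w'.length := by
  have hp : (oo :: w.map Prod.fst).Perm (oo :: w'.map Prod.fst) :=
    (List.perm_ext_iff_of_nodup h.nodup h'.nodup).mpr fun x =>
      ⟨fun _ => h'.full x, fun _ => h.full x⟩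
  have := hp.length_eq
  simpa using this

theorem SSteps_trans {j k : ℕ} {u v w : List (End X)} (h1 : SSteps j u v) (h2 : SSteps k v w) :
    SSteps (j + k) u w := by
  induction j generalizing u with
  | zero =>
    have : u = v := h1
    subst this
    simpa using h2
  | succ j ih =>
    obtain ⟨x, hx, hx'⟩ := h1
    have := ih hx'
    rw [show j + 1 + k = (j + k) + 1 by omega]
    exact ⟨x, hx, this⟩

theorem SSteps_one {u v : List (End X)} (h : SMove u v) : SSteps 1 u v := ⟨v, h, rfl⟩

theorem SSteps_zero (u : List (End X)) : SSteps 0 u u := rfl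

/-- swapping two adjacent blocks, the second one may be reversed. -/
theorem SMove_swap {P A B C : List (End X)} (hB : B ≠ []) :
    SMove (P ++ A ++ B ++ C) (P ++ B ++ A ++ C) :=
  ⟨P ++ A, B, C, P, A ++ C, hB, by simp, by simp, Or.inl (by simp)⟩

theorem SMove_swap_rev {P A B C : List (End X)} (hB : B ≠ []) :
    SMove (P ++ A ++ B ++ C) (P ++ srev B ++ A ++ C) :=
  ⟨P ++ A, B, C, P, A ++ C, hB, by simp, by simp, Or.inr (by simp)⟩

theorem SMove_perm {w w' : List (End X)} (h : SMove w w') :
    (w.map Prod.fst).Perm (w'.map Prod.fst) := by
  obtain ⟨A, B, C, U, V, _, rfl, hUV, h | h⟩ := h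
  · subst h
    have h1 : (A ++ B ++ C).Perm (B ++ (A ++ C)) := by
      rw [List.append_assoc]
      exact (List.perm_append_comm_assoc A B C)
    have h2 : (U ++ B ++ V).Perm (B ++ (U ++ V)) := by
      rw [List.append_assoc]
      exact (List.perm_append_comm_assoc U B V)
    rw [hUV] at h1
    exact (h1.trans h2.symm).map _
  · subst h
    have h1 : (A ++ B ++ C).Perm (B ++ (A ++ C)) := by
      rw [List.append_assoc]
      exact (List.perm_append_comm_assoc A B C)
    have h2 : (U ++ srev B ++ V).Perm (srev B ++ (U ++ V)) := by
      rw [List.append_assoc]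
      exact (List.perm_append_comm_assoc U (srev B) V)
    rw [hUV] at h1
    refine (h1.map _).trans (((?_ : List.Perm _ _)).trans (h2.map _).symm)
    simp only [List.map_append, srev_map_fst]
    exact (List.reverse_perm _).symm.append_right _

theorem SSteps_perm {k : ℕ} {w w' : List (End X)} (h : SSteps k w w') :
    (w.map Prod.fst).Perm (w'.map Prod.fst) := by
  induction k generalizing w with
  | zero =>
    have : w = w' := h
    rw [this]
  | succ k ih =>
    obtain ⟨u, hu, hu'⟩ := h
    exact (SMove_perm hu).trans (ih hu')

theorem SSteps_isWord {oo : X} {k : ℕ} {w w' : List (End X)} (h : SSteps k w w')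
    (hw : IsWord oo w) : IsWord oo w' := hw.of_perm (SSteps_perm h)

section Count

variable [DecidableEq X]

/-- `1` if `a ~ x` is not a link of `μ`. -/
def bd (μ : End X → End X) (a x : End X) : ℕ := if x = phi μ a then 0 else 1

/-- the number of bad links of the path `a, l_0, l_1, ...`. -/
def inn (μ : End X → End X) : End X → List (End X) → ℕ
  | _, [] => 0
  | a, x :: l => bd μ a x + inn μ x l

@[simp] theorem inn_nil (μ : End X → End X) (a : End X) : inn μ a [] = 0 := rfl
@[simp] theorem inn_cons (μ : End X → End X) (a x : End X) (l : List (End X)) :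
    inn μ a (x :: l) = bd μ a x + inn μ x l := rfl

theorem bd_le (μ : End X → End X) (a x : End X) : bd μ a x ≤ 1 := by
  unfold bd
  split_ifs <;> simp

theorem bd_eq_zero {μ : End X → End X} {a x : End X} : bd μ a x = 0 ↔ x = phi μ a := by
  unfold bd
  split_ifs with h <;> simp [h]

theorem bd_eq_one {μ : End X → End X} {a x : End X} : bd μ a x = 1 ↔ x ≠ phi μ a := by
  unfold bd
  split_ifs with h <;> simp [h]

theorem bd_rev {μ : End X → End X} (hμ : IsMatching μ) (a x : End X) :
    bd μ (bar x) (bar a) = bd μ a x := by
  unfold bd
  by_cases h : x = phi μ a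
  · rw [if_pos ((phi_rev hμ).mpr h), if_pos h]
  · rw [if_neg (fun h' => h ((phi_rev hμ).mp h')), if_neg h]

theorem inn_append (μ : End X → End X) (a : End X) (l m : List (End X)) :
    inn μ a (l ++ m) = inn μ a l + inn μ (lastD a l) m := by
  induction l generalizing a with
  | nil => simp
  | cons x l ih => simp [ih, Nat.add_assoc]

theorem inn_le (μ : End X → End X) (a : End X) (l : List (End X)) : inn μ a l ≤ l.length := by
  induction l generalizing a with
  | nil => simp
  | cons x l ih =>
    have := ih x
    have h2 := bd_le μ a x
    simp only [inn_cons, List.length_cons]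
    omega

/-- reversal of a path. -/
theorem inn_rev {μ : End X → End X} (hμ : IsMatching μ) (a : End X) (l : List (End X))
    (z : End X) : inn μ (bar z) (srev l ++ [bar a]) = inn μ a (l ++ [z]) := by
  induction l generalizing a with
  | nil => simp [srev, bd_rev hμ]
  | cons x l ih =>
    rw [srev_cons, List.append_assoc, List.singleton_append, List.cons_append, inn_cons, ← ih x]
    have h : srev l ++ (bar x :: [bar a]) = (srev l ++ [bar x]) ++ [bar a] := by simp
    rw [h, inn_append μ (bar z) (srev l ++ [bar x]) [bar a], lastD_append]
    simp only [lastD_cons, lastD_nil, inn_cons, inn_nil, bd_rev hμ]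
    omega

/-- the reversed block alone. -/
theorem inn_srev_cons {μ : End X → End X} (hμ : IsMatching μ) (a b : End X)
    (R : List (End X)) :
    inn μ a (srev (b :: R)) = bd μ (lastD b R) (bar a) + inn μ b R := by
  have h := inn_rev hμ b R (bar a)
  rw [bar_bar] at h
  rw [srev_cons, h, inn_append]
  simp only [inn_cons, inn_nil]
  omega

theorem countP_zip (μ : End X → End X) (a z : End X) (l : List (End X)) :
    ((a :: l).zip (l ++ [z])).countP (fun p => decide (p.2 ≠ phi μ p.1))
      = inn μ a (l ++ [z]) := by
  induction l generalizing a with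
  | nil =>
    simp only [List.nil_append, List.zip_cons_cons, List.zip_nil_right, List.countP_cons,
      List.countP_nil, inn_cons, inn_nil, bd]
    by_cases h : z = phi μ a <;> simp [h]
  | cons x l ih =>
    rw [List.cons_append, List.zip_cons_cons, List.countP_cons, ih x, inn_cons]
    unfold bd
    by_cases h : x = phi μ a
    · simp [h]
    · simp [h]
      omega

theorem bad_eq (oo : X) (μ : End X → End X) (w : List (End X)) :
    bad oo μ w = inn μ (oo, true) (w ++ [(oo, true)]) := by
  unfold bad cyc
  rw [List.rotate_cons_succ, List.rotate_zero]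
  exact countP_zip μ (oo, true) (oo, true) w

theorem bad_le (oo : X) (μ : End X → End X) (w : List (End X)) :
    bad oo μ w ≤ w.length + 1 := by
  rw [bad_eq]
  have := inn_le μ (oo, true) (w ++ [(oo, true)])
  simpa using this

theorem bad_eq_zero_of_exact {oo : X} {μ : End X → End X} {v : List (End X)}
    (h : ∀ p ∈ cyc ((oo, true) :: v), p.2 = phi μ p.1) : bad oo μ v = 0 := by
  unfold bad
  rw [List.countP_eq_zero]
  intro p hp
  simp [h p hp]

/-- two exact paths from the same end: the shorter one is a prefix of the longer one. -/
theorem inn_zero_prefix {μ : End X → End X} {a : End X} {l m : List (End X)}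
    (hl : inn μ a l = 0) (hm : inn μ a m = 0) (h : l.length ≤ m.length) : l <+: m := by
  induction l generalizing a m with
  | nil => exact List.nil_prefix
  | cons x l ih =>
    cases m with
    | nil => simp at h
    | cons y m =>
      simp only [inn_cons, Nat.add_eq_zero_iff] at hl hm
      have hx : x = phi μ a := bd_eq_zero.mp hl.1
      have hy : y = phi μ a := bd_eq_zero.mp hm.1
      have hxy : x = y := hx.trans hy.symm
      subst hxy
      rw [List.prefix_cons_inj]
      exact ih hl.2 hm.2 (by simpa using h)

/-- maximal exact run. -/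
theorem exists_run (μ : End X → End X) (b : End X) (l : List (End X)) :
    ∃ R C, l = R ++ C ∧ inn μ b R = 0 ∧ ∀ c C', C = c :: C' → bd μ (lastD b R) c = 1 := by
  induction l generalizing b with
  | nil => exact ⟨[], [], rfl, rfl, by simp⟩
  | cons x l ih =>
    by_cases h : x = phi μ b
    · obtain ⟨R, C, h1, h2, h3⟩ := ih x
      refine ⟨x :: R, C, by rw [h1]; rfl, ?_, ?_⟩
      · rw [inn_cons, h2, bd_eq_zero.mpr h]
      · simpa using h3
    · refine ⟨[], x :: l, rfl, rfl, ?_⟩
      intro c C' hc
      obtain ⟨rfl, _⟩ := List.cons.inj hc
      exact bd_eq_one.mpr h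

end Count

end Pool.Agent.Lib.MP29a61eN
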